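import Pool.Agent.TH77.LG
import Pool.Agent.H298R3.Exp.OneParam

set_option autoImplicit false
set_option linter.unusedSectionVars false

/-!
# Every finite dimensional Lie group has exponential coordinates
-/

open Filter Topology Metric Set
open scoped ContDiff Manifold

namespace Pool.Agent.TH77

open Pool.Agent.H298R3.Exp

section

universe u

variable {E : Type u} [NormedAddCommGroup E] [NormedSpace ℝ E]
  {G : Type*} [TopologicalSpace G] [ChartedSpace E G] [Group G] [LieGroup 𝓘(ℝ, E) ∞ G]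

/-- powers of the local exponential -/
noncomputable def PP (L : OpenPartialHomeomorph G E) (n : ℕ) (x : E) : G :=
  (L.symm ((1 / (n : ℝ)) • x)) ^ n

variable {L : OpenPartialHomeomorph G E} {ρ δ : ℝ}

lemma symm_pow (hadd : ∀ x : E, ‖x‖ < δ → ∀ s t : ℝ, |s| ≤ 1 → |t| ≤ 1 →
    L.symm (s • x) * L.symm (t • x) = L.symm ((s + t) • x)) (h0 : L.symm (0 : E) = 1)
    {y : E} (hy : ‖y‖ < δ) {k : ℕ} (hk : 0 < k) :
    L.symm y = L.symm ((1 / (k : ℝ)) • y) ^ k := by
  have hk' : (0 : ℝ) < k := by exact_mod_cast hk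
  have h1 : ∀ j : ℕ, j ≤ k → L.symm (((j : ℝ) / k) • y) = L.symm ((1 / (k : ℝ)) • y) ^ j := by
    intro j
    induction j with
    | zero => intro _; simp [h0]
    | succ j ih =>
      intro hj
      have hj' : (j : ℝ) ≤ k := by exact_mod_cast (Nat.le_of_succ_le hj)
      have h1k : (1 : ℝ) ≤ k := by exact_mod_cast hk
      have h2 := hadd y hy ((j : ℝ) / k) (1 / (k : ℝ))
        (by rw [abs_of_nonneg (by positivity)]; exact (div_le_one hk').2 hj')
        (by rw [abs_of_nonneg (by positivity)]; exact (div_le_one hk').2 h1k)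
      rw [pow_succ, ← ih (Nat.le_of_succ_le hj), h2]
      congr 2
      push_cast
      field_simp
  have h3 := h1 k le_rfl
  rwa [div_self hk'.ne', one_smul] at h3

lemma PP_mul (hadd : ∀ x : E, ‖x‖ < δ → ∀ s t : ℝ, |s| ≤ 1 → |t| ≤ 1 →
    L.symm (s • x) * L.symm (t • x) = L.symm ((s + t) • x)) (h0 : L.symm (0 : E) = 1)
    {x : E} {n : ℕ} (hn : 0 < n) (hx : ‖x‖ < δ * n) {k : ℕ} (hk : 0 < k) :
    PP L n x = PP L (n * k) x := by
  have hn' : (0 : ℝ) < n := by exact_mod_cast hn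
  have hk' : (0 : ℝ) < k := by exact_mod_cast hk
  have h1 : ‖(1 / (n : ℝ)) • x‖ < δ := by
    rw [norm_smul, Real.norm_of_nonneg (by positivity), one_div, inv_mul_eq_div, div_lt_iff₀ hn']
    exact hx
  rw [PP, PP, symm_pow hadd h0 h1 hk, smul_smul, ← pow_mul, mul_comm k n]
  congr 3
  push_cast
  field_simp

lemma PP_eq (hadd : ∀ x : E, ‖x‖ < δ → ∀ s t : ℝ, |s| ≤ 1 → |t| ≤ 1 →
    L.symm (s • x) * L.symm (t • x) = L.symm ((s + t) • x)) (h0 : L.symm (0 : E) = 1)
    {x : E} {n m : ℕ} (hn : 0 < n) (hx : ‖x‖ < δ * n) (hm : 0 < m) (hx' : ‖x‖ < δ * m) :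
    PP L n x = PP L m x := by
  rw [PP_mul hadd h0 hn hx hm, PP_mul hadd h0 hm hx' hn, mul_comm]

end

theorem exists_LG {E : Type*} [NormedAddCommGroup E] [NormedSpace ℝ E] [CompleteSpace E]
    {G : Type*} [TopologicalSpace G] [ChartedSpace E G] [Group G] [LieGroup 𝓘(ℝ, E) ∞ G]
    [IsTopologicalGroup G] : Nonempty (LG G E) := by
  obtain ⟨L, ρ, hL⟩ := exists_logChart E G
  obtain ⟨δ, hδ, hδρ, hadd⟩ := hL.exists_add
  have h0 : L.symm (0 : E) = 1 := hL.symm_zero
  have hρ := hL.pos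
  set N : E → ℕ := fun x => ⌊‖x‖ / δ⌋₊ + 1 with hN
  have hNpos : ∀ x, 0 < N x := fun x => Nat.succ_pos _
  have hNx : ∀ x, ‖x‖ < δ * N x := by
    intro x
    have h1 := Nat.lt_floor_add_one (‖x‖ / δ)
    rw [div_lt_iff₀ hδ] at h1
    rw [hN]
    push_cast
    linarith [mul_comm δ ((⌊‖x‖ / δ⌋₊ : ℝ) + 1)]
  set ex : E → G := fun x => PP L (N x) x with hex
  have hexP : ∀ (x : E) (n : ℕ), 0 < n → ‖x‖ < δ * n → ex x = PP L n x := fun x n hn hx =>
    PP_eq hadd h0 (hNpos x) (hNx x) hn hx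
  have hex1 : ∀ x : E, ‖x‖ < δ → ex x = L.symm x := by
    intro x hx
    rw [hexP x 1 one_pos (by simpa using hx), PP]
    simp
  have hexN : ∀ (x : E) (n : ℕ), 0 < n → ‖x‖ < δ * n → ‖(1 / (n : ℝ)) • x‖ < δ := by
    intro x n hn hx
    have hn' : (0 : ℝ) < n := by exact_mod_cast hn
    rw [norm_smul, Real.norm_of_nonneg (by positivity), one_div, inv_mul_eq_div, div_lt_iff₀ hn']
    exact hx
  have hcontsymm : ∀ x : E, ‖x‖ < ρ → ContinuousAt L.symm x := fun x hx =>
    L.symm.continuousAt (by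
      show x ∈ L.target
      rw [hL.target_eq]
      simpa using hx)
  have hOm : ∀ᶠ p in 𝓝 (0 : E × E), p ∈ Om L :=
    (isOpen_Om hL.mem_atlas).mem_nhds (zero_mem_Om hL.one_mem hL.map_one)
  have hmul0 : MM L (0 : E × E) = 0 := by
    show L (L.symm 0 * L.symm 0) = 0
    rw [h0, mul_one, hL.map_one]
  have hstrict : HasStrictFDerivAt (MM L)
      (ContinuousLinearMap.fst ℝ E E + ContinuousLinearMap.snd ℝ E E) 0 := by
    have h1 : ContDiffAt ℝ ∞ (MM L) 0 := (contDiffOn_MM hL.mem_atlas).contDiffAt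
      ((isOpen_Om hL.mem_atlas).mem_nhds (zero_mem_Om hL.one_mem hL.map_one))
    exact h1.hasStrictFDerivAt' (hasFDerivAt_MM hL.mem_atlas hL.one_mem hL.map_one) (by simp)
  refine ⟨⟨ex, MM L, ?_, ?_, ?_, ?_, hstrict, hmul0, ?_⟩⟩
  · -- one-parameter subgroups
    intro s t x
    set c : ℝ := |s| + |t| + 1 with hc
    have hc0 : 0 < c := by positivity
    obtain ⟨n, hn⟩ := exists_nat_gt (c * ‖x‖ / δ)
    have hn0 : (0 : ℝ) < n := lt_of_le_of_lt (by positivity) hn
    have hn0' : 0 < n := by exact_mod_cast hn0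
    rw [div_lt_iff₀ hδ] at hn
    have hnx : ∀ r : ℝ, |r| ≤ c → ‖r • x‖ < δ * n := by
      intro r hr
      rw [norm_smul, Real.norm_eq_abs]
      calc |r| * ‖x‖ ≤ c * ‖x‖ := by gcongr
        _ < n * δ := hn
        _ = δ * n := mul_comm _ _
    have hst : |s + t| ≤ c := by
      calc |s + t| ≤ |s| + |t| := abs_add_le _ _
        _ ≤ c := by rw [hc]; linarith
    have hs : |s| ≤ c := by rw [hc]; linarith [abs_nonneg t]
    have ht : |t| ≤ c := by rw [hc]; linarith [abs_nonneg s]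
    rw [hexP _ n hn0' (hnx _ hst), hexP _ n hn0' (hnx _ hs), hexP _ n hn0' (hnx _ ht), PP, PP, PP]
    set z : E := (c / n) • x with hz
    have hzδ : ‖z‖ < δ := by
      rw [hz, norm_smul, Real.norm_of_nonneg (by positivity), div_mul_eq_mul_div,
        div_lt_iff₀ hn0]
      linarith [mul_comm δ (n : ℝ)]
    have e : ∀ r : ℝ, (1 / (n : ℝ)) • (r • x) = (r / c) • z := by
      intro r
      rw [hz, smul_smul, smul_smul]
      congr 1
      field_simp
    have habs : ∀ r : ℝ, |r| ≤ c → |r / c| ≤ 1 := by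
      intro r hr
      rw [abs_div, abs_of_pos hc0]
      exact (div_le_one hc0).2 hr
    rw [e, e, e]
    have h1 := hadd z hzδ (s / c) (t / c) (habs s hs) (habs t ht)
    have h2 := hadd z hzδ (t / c) (s / c) (habs t ht) (habs s hs)
    have hcomm : Commute (L.symm ((s / c) • z)) (L.symm ((t / c) • z)) := by
      show _ * _ = _ * _
      rw [h1, h2, add_comm]
    rw [← hcomm.mul_pow, h1]
    congr 3
    ring
  · -- continuity
    rw [continuous_iff_continuousAt]
    intro x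
    obtain ⟨n, hn⟩ := exists_nat_gt ((‖x‖ + 1) / δ)
    have hn0 : (0 : ℝ) < n := lt_of_le_of_lt (by positivity) hn
    have hn0' : 0 < n := by exact_mod_cast hn0
    rw [div_lt_iff₀ hδ] at hn
    have h1 : ∀ᶠ y in 𝓝 x, ex y = PP L n y := by
      filter_upwards [ball_mem_nhds x one_pos] with y hy
      refine hexP y n hn0' ?_
      have : ‖y‖ ≤ ‖x‖ + 1 := by
        have h2 : ‖y - x‖ < 1 := by rwa [← dist_eq_norm]
        have h3 : y = x + (y - x) := by abel
        calc ‖y‖ = ‖x + (y - x)‖ := by rw [← h3]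
          _ ≤ ‖x‖ + ‖y - x‖ := norm_add_le _ _
          _ ≤ _ := by linarith
      linarith [mul_comm δ (n : ℝ)]
    refine ContinuousAt.congr ?_ (h1.mono fun y hy => hy.symm)
    have h2 : ContinuousAt (fun y : E => L.symm ((1 / (n : ℝ)) • y)) x := by
      have h3 : ContinuousAt L.symm ((1 / (n : ℝ)) • x) := by
        refine hcontsymm _ ?_
        have h4 : ‖(1 / (n : ℝ)) • x‖ < δ := hexN x n hn0' (by linarith [mul_comm δ (n : ℝ)])
        linarith
      exact ContinuousAt.comp (f := fun y : E => (1 / (n : ℝ)) • y) h3 (by fun_prop)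
    exact h2.pow n
  · -- neighbourhoods
    have h1 : ex =ᶠ[𝓝 0] L.symm := by
      filter_upwards [ball_mem_nhds (0 : E) hδ] with x hx
      exact hex1 x (by simpa using hx)
    rw [Filter.map_congr h1]
    have h2 := L.symm.map_nhds_eq (x := (0 : E)) (by
      show (0 : E) ∈ L.target
      rw [hL.target_eq]
      exact mem_ball_self hρ)
    rw [h0] at h2
    exact h2
  · -- injectivity
    refine ⟨δ, hδ, fun x hx y hy hxy => ?_⟩
    have hx' : ‖x‖ < δ := by simpa using hx
    have hy' : ‖y‖ < δ := by simpa using hy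
    rw [hex1 x hx', hex1 y hy'] at hxy
    refine L.symm.injOn ?_ ?_ hxy
    · show x ∈ L.target
      rw [hL.target_eq, mem_ball_zero_iff]; linarith
    · show y ∈ L.target
      rw [hL.target_eq, mem_ball_zero_iff]; linarith
  · -- multiplication
    have h1 : ∀ᶠ p in 𝓝 (0 : E × E), ‖p.1‖ < δ ∧ ‖p.2‖ < δ := by
      filter_upwards [ball_mem_nhds (0 : E × E) hδ] with p hp
      rw [mem_ball_zero_iff, Prod.norm_def, max_lt_iff] at hp
      exact hp
    have h2 : ∀ᶠ p in 𝓝 (0 : E × E), ‖MM L p‖ < δ := by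
      have h3 : Tendsto (MM L) (𝓝 0) (𝓝 0) := by
        have := hstrict.continuousAt.tendsto
        rwa [hmul0] at this
      filter_upwards [h3 (ball_mem_nhds 0 hδ)] with p hp
      simpa using hp
    filter_upwards [h1, h2, hOm] with p hp1 hp2 hp3
    rw [hex1 _ hp1.1, hex1 _ hp1.2, hex1 _ hp2]
    exact (L.left_inv hp3.2).symm

end Pool.Agent.TH77
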