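import Pool.Agent.TH77.Comb
import Pool.Agent.TH77.OfLie

set_option autoImplicit false
set_option linter.unusedSectionVars false
set_option linter.style.haveILetI false

/-!
# Completeness of the component quotient
-/

open Filter Topology Metric Set

namespace Pool.Agent.TH77

namespace PL

variable {ι : Type*} {H : ι → Type*} {E : ι → Type*} [∀ i, Group (H i)]
  [∀ i, TopologicalSpace (H i)] [∀ i, IsTopologicalGroup (H i)] [∀ i, T2Space (H i)]
  [∀ i, NormedAddCommGroup (E i)] [∀ i, NormedSpace ℝ (E i)] [∀ i, FiniteDimensional ℝ (E i)]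
  (L : ∀ i, LG (H i) (E i)) (G : Subgroup (∀ i, H i)) (hG : IsClosed (G : Set (∀ i, H i)))

/-- Elements projecting into the generated subgroup. -/
def OF (F : Finset ι) : Subgroup G :=
  ((LS L (gL L G hG)).map (rH H F)).comap ((rH H F).comp G.subtype)

lemma mem_OF {F : Finset ι} {x : G} :
    x ∈ OF L G hG F ↔ ∃ l ∈ LS L (gL L G hG), rH H F l = rH H F (x : ∀ i, H i) := Iff.rfl

lemma isOpen_OF (F : Finset ι) : IsOpen (OF L G hG F : Set G) := by
  refine Subgroup.isOpen_of_mem_nhds _ (g := 1) ?_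
  have h2 : ∀ᶠ g : G in 𝓝 (1 : G), (g : ∀ i, H i) ∈ G →
      ∃ l ∈ LS L (gL L G hG), ∀ i ∈ F, l i = (g : ∀ i, H i) i :=
    (continuous_subtype_val.tendsto (1 : G)).eventually (eventually_proj L G hG F)
  filter_upwards [h2] with g hg
  obtain ⟨l, hl, hlg⟩ := hg g.2
  exact ⟨l, hl, funext fun i => hlg i i.2⟩

lemma OF_anti {F F' : Finset ι} (h : F ⊆ F') : OF L G hG F' ≤ OF L G hG F := by
  rintro x ⟨l, hl, hlx⟩
  exact ⟨l, hl, funext fun i => congrFun hlx ⟨i, h i.2⟩⟩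

lemma comp_le_OF (F : Finset ι) : Subgroup.connectedComponentOfOne G ≤ OF L G hG F := by
  intro x hx
  have h1 : IsClopen (OF L G hG F : Set G) :=
    ⟨Subgroup.isClosed_of_isOpen _ (isOpen_OF L G hG F), isOpen_OF L G hG F⟩
  exact h1.connectedComponent_subset (OF L G hG F).one_mem hx

lemma LS_le_comp {l : ∀ i, H i} (hl : l ∈ LS L (gL L G hG)) :
    (⟨l, LS_gL_le L G hG hl⟩ : G) ∈ Subgroup.connectedComponentOfOne G := by
  have h1 : LS L (gL L G hG) ≤ (Subgroup.connectedComponentOfOne G).map G.subtype := by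
    refine LS_le L fun X hX => ?_
    have hXm : ∀ t : ℝ, ex L (t • X) ∈ G := hX
    let c : ℝ → G := fun t => ⟨ex L (t • X), hXm t⟩
    have hc : Continuous c := Continuous.subtype_mk ((continuous_ex L).comp (by fun_prop)) _
    have h2 : IsPreconnected (range c) := isPreconnected_range hc
    have h3 : (1 : G) ∈ range c := ⟨0, Subtype.ext (by
      change ex L ((0 : ℝ) • X) = 1
      rw [zero_smul, ex_zero])⟩
    have h4 : c 1 ∈ connectedComponent (1 : G) := h2.subset_connectedComponent h3 ⟨1, rfl⟩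
    refine ⟨c 1, h4, ?_⟩
    change ex L ((1 : ℝ) • X) = ex L X
    rw [one_smul]
  obtain ⟨y, hy, hyl⟩ := h1 hl
  have : (⟨l, LS_gL_le L G hG hl⟩ : G) = y := Subtype.ext hyl.symm
  rw [this]; exact hy

include L hG in
/-- The main theorem in terms of exponential charts. -/
theorem complete_quot [(Subgroup.connectedComponentOfOne G).Normal]
    (ℱ : Filter (G ⧸ Subgroup.connectedComponentOfOne G)) (hne : ℱ.NeBot)
    (hcau : ∀ U ∈ 𝓝 (1 : G ⧸ Subgroup.connectedComponentOfOne G),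
      ∃ A ∈ ℱ, ∀ x ∈ A, ∀ y ∈ A, x⁻¹ * y ∈ U) :
    ∃ q : G ⧸ Subgroup.connectedComponentOfOne G, ℱ ≤ 𝓝 q := by
  classical
  let π : G →* G ⧸ Subgroup.connectedComponentOfOne G := QuotientGroup.mk' _
  have hπ : Function.Surjective π := QuotientGroup.mk'_surjective _
  have hπopen : IsOpenMap π := QuotientGroup.isOpenMap_coe
  have hπeq : ∀ a b : G, π a = π b ↔ a⁻¹ * b ∈ Subgroup.connectedComponentOfOne G :=
    fun a b => QuotientGroup.eq
  -- choose representatives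
  have hrep : ∀ F : Finset ι, ∃ g : G, {y | (π g)⁻¹ * y ∈ π '' (OF L G hG F : Set G)} ∈ ℱ := by
    intro F
    have hU : π '' (OF L G hG F : Set G) ∈ 𝓝 (1 : G ⧸ Subgroup.connectedComponentOfOne G) :=
      (hπopen _ (isOpen_OF L G hG F)).mem_nhds ⟨1, (OF L G hG F).one_mem, map_one π⟩
    obtain ⟨A, hA, hAU⟩ := hcau _ hU
    obtain ⟨a, ha⟩ := ℱ.nonempty_of_mem hA
    obtain ⟨g, rfl⟩ := hπ a
    exact ⟨g, mem_of_superset hA fun y hy => hAU _ ha y hy⟩
  choose g hg using hrep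
  have hcompat : Compat L G hG (fun F => (g F : ∀ i, H i)) := by
    intro F F' hFF'
    obtain ⟨y, hy1, hy2⟩ := ℱ.nonempty_of_mem (inter_mem (hg F) (hg F'))
    obtain ⟨o, ho, hoy⟩ := hy1
    obtain ⟨o', ho', ho'y⟩ := hy2
    have h1 : π (g F * o) = π (g F' * o') := by
      rw [map_mul, map_mul, hoy, ho'y]; group
    have h2 := comp_le_OF L G hG F ((hπeq _ _).1 h1)
    have h3 : (g F)⁻¹ * g F' ∈ OF L G hG F := by
      have h4 := (OF L G hG F).mul_mem ((OF L G hG F).mul_mem ho h2)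
        ((OF L G hG F).inv_mem (OF_anti L G hG hFF' ho'))
      have h5 : o * ((g F * o)⁻¹ * (g F' * o')) * o'⁻¹ = (g F)⁻¹ * g F' := by group
      rwa [h5] at h4
    obtain ⟨l, hl, hlx⟩ := h3
    refine ⟨l, hl, fun i hi => ?_⟩
    have h4 : l i = ((g F : ∀ i, H i) i)⁻¹ * (g F' : ∀ i, H i) i := congrFun hlx ⟨i, hi⟩
    change (g F' : ∀ i, H i) i = (g F : ∀ i, H i) i * l i
    rw [h4]; group
  obtain ⟨x, hx⟩ := exists_sol L G hG hcompat
  have hx' : ∀ F : Finset ι, ∃ l ∈ LS L (gL L G hG), ∀ i ∈ F, x i = ((g F : ∀ i, H i) * l) i :=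
    fun F => hx F (subset_univ _)
  have hxG : x ∈ G := by
    refine mem_of_fin' hG x fun F => ?_
    obtain ⟨l, hl, hxl⟩ := hx' F
    exact ⟨(g F : ∀ i, H i) * l, G.mul_mem (g F).2 (LS_gL_le L G hG hl), fun i hi => (hxl i hi).symm⟩
  refine ⟨π ⟨x, hxG⟩, fun V hV => ?_⟩
  -- a basic neighbourhood
  have h1 : {w : G | π (⟨x, hxG⟩ * w) ∈ V} ∈ 𝓝 (1 : G) := by
    have h2 : Continuous fun w : G => π (⟨x, hxG⟩ * w) :=
      (QuotientGroup.continuous_mk).comp (by fun_prop)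
    refine h2.continuousAt.preimage_mem_nhds ?_
    rw [mul_one]; exact hV
  rw [nhds_subtype_eq_comap, mem_comap] at h1
  obtain ⟨W, hW, hWsub⟩ := h1
  obtain ⟨W', hW'W, hW'o, hW'1⟩ := mem_nhds_iff.1 hW
  obtain ⟨F, u, hu, husub⟩ := isOpen_pi_iff.1 hW'o _ hW'1
  refine mem_of_superset (hg F) ?_
  rintro y ⟨o, ho, hoy⟩
  obtain ⟨l, hl, hxl⟩ := hx' F
  have h3 : (⟨x, hxG⟩ : G)⁻¹ * (g F * o) ∈ OF L G hG F := by
    have h4 : (g F)⁻¹ * ⟨x, hxG⟩ ∈ OF L G hG F := by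
      refine ⟨l, hl, funext fun i => ?_⟩
      have h5 := hxl i i.2
      change l i = ((g F : ∀ i, H i) i)⁻¹ * x i
      rw [h5, Pi.mul_apply]; group
    have h5 := (OF L G hG F).mul_mem ((OF L G hG F).inv_mem h4) ho
    have h6 : ((g F)⁻¹ * ⟨x, hxG⟩)⁻¹ * o = (⟨x, hxG⟩ : G)⁻¹ * (g F * o) := by group
    rwa [h6] at h5
  obtain ⟨l', hl', hl'x⟩ := h3
  let lG : G := ⟨l', LS_gL_le L G hG hl'⟩
  let w : G := (⟨x, hxG⟩ : G)⁻¹ * (g F * o) * lG⁻¹
  have hw : ∀ i ∈ F, (w : ∀ i, H i) i = 1 := by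
    intro i hi
    have h4 : l' i = (((⟨x, hxG⟩ : G)⁻¹ * (g F * o) : G) : ∀ i, H i) i := congrFun hl'x ⟨i, hi⟩
    change (((⟨x, hxG⟩ : G)⁻¹ * (g F * o) : G) : ∀ i, H i) i * (l' i)⁻¹ = 1
    rw [← h4, mul_inv_cancel]
  have hwW : (w : ∀ i, H i) ∈ W := by
    refine hW'W (husub fun i hi => ?_)
    rw [hw i hi]
    exact (hu i hi).2
  have h4 : π (⟨x, hxG⟩ * w) ∈ V := hWsub hwW
  have h5 : π (⟨x, hxG⟩ * w) = y := by
    have h6 : (⟨x, hxG⟩ : G) * w = g F * o * lG⁻¹ := by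
      change (⟨x, hxG⟩ : G) * ((⟨x, hxG⟩ : G)⁻¹ * (g F * o) * lG⁻¹) = _
      group
    have h7 : π lG = 1 := (QuotientGroup.eq_one_iff _).2 (LS_le_comp L G hG hl')
    rw [h6, map_mul, map_inv, h7, inv_one, mul_one, map_mul, hoy]
    group
  rw [h5] at h4
  exact h4

end PL

end Pool.Agent.TH77
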