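import Mathlib

/-!
Brackets on a finite-dimensional real vector space, their Killing form, and the vanishing of the
first and second adjoint cohomology when the Killing form is nondegenerate.
-/

set_option autoImplicit false
set_option linter.unusedSectionVars false

open Filter Topology

namespace Pool.Agent.TH77.Br

variable {V : Type*} [NormedAddCommGroup V] [NormedSpace ℝ V] [FiniteDimensional ℝ V]

/-- Trace of a continuous endomorphism. -/
noncomputable def tr : (V →L[ℝ] V) →ₗ[ℝ] ℝ :=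
  (LinearMap.trace ℝ V) ∘ₗ (ContinuousLinearMap.coeLM ℝ)

omit [FiniteDimensional ℝ V] in
lemma tr_apply (A : V →L[ℝ] V) : tr A = LinearMap.trace ℝ V (A : V →ₗ[ℝ] V) := rfl

omit [FiniteDimensional ℝ V] in
lemma tr_mul_comm (A B : V →L[ℝ] V) : tr (A * B) = tr (B * A) := by
  rw [tr_apply, tr_apply]
  exact LinearMap.trace_mul_comm ℝ (A : V →ₗ[ℝ] V) (B : V →ₗ[ℝ] V)

/-- Lie brackets. -/
structure IsLie (ν : V →L[ℝ] V →L[ℝ] V) : Prop where
  alt : ∀ x, ν x x = 0
  jac : ∀ x y z, ν x (ν y z) = ν (ν x y) z + ν y (ν x z)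

/-- The Killing form. -/
noncomputable def kf (ν : V →L[ℝ] V →L[ℝ] V) : LinearMap.BilinForm ℝ V :=
  LinearMap.mk₂ ℝ (fun x y => tr (ν x * ν y))
    (by intro a b c; simp only [map_add, add_mul])
    (by intro r a b; simp only [map_smul, smul_mul_assoc])
    (by intro a b c; simp only [map_add, mul_add])
    (by intro r a b; simp only [map_smul, mul_smul_comm])

omit [FiniteDimensional ℝ V] in
lemma kf_apply (ν : V →L[ℝ] V →L[ℝ] V) (x y : V) : kf ν x y = tr (ν x * ν y) := rfl

omit [FiniteDimensional ℝ V] in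
lemma kf_comm (ν : V →L[ℝ] V →L[ℝ] V) (x y : V) : kf ν x y = kf ν y x := by
  rw [kf_apply, kf_apply, tr_mul_comm]

omit [FiniteDimensional ℝ V] in
lemma kf_symm (ν : V →L[ℝ] V →L[ℝ] V) : (kf ν).IsSymm := ⟨fun x y => kf_comm ν x y⟩

namespace IsLie

variable {ν : V →L[ℝ] V →L[ℝ] V}

omit [FiniteDimensional ℝ V] in
lemma anti (h : IsLie ν) (x y : V) : ν x y = - ν y x := by
  have := h.alt (x + y)
  simp only [map_add, add_apply, h.alt, zero_add, add_zero] at this
  rw [add_comm] at this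
  exact eq_neg_of_add_eq_zero_left this

omit [FiniteDimensional ℝ V] in
lemma ad_bracket (h : IsLie ν) (x y : V) : ν (ν x y) = ν x * ν y - ν y * ν x := by
  ext z
  have := h.jac x y z
  simp only [sub_apply, mul_apply_eq_comp]
  rw [this]; abel

omit [FiniteDimensional ℝ V] in
lemma kf_inv (h : IsLie ν) (x y z : V) : kf ν (ν x y) z = - kf ν y (ν x z) := by
  rw [kf_apply, kf_apply, h.ad_bracket, h.ad_bracket]
  simp only [sub_mul, mul_sub, map_sub]
  have e1 : tr (ν x * ν y * ν z) = tr (ν y * (ν z * ν x)) := by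
    rw [mul_assoc, tr_mul_comm, mul_assoc]
  have e2 : tr (ν y * ν x * ν z) = tr (ν y * (ν x * ν z)) := by rw [mul_assoc]
  rw [e1, e2]; ring

omit [FiniteDimensional ℝ V] in
lemma center_trivial (_h : IsLie ν) (hN : ∀ x, (∀ y, kf ν x y = 0) → x = 0) (x : V)
    (hx : ν x = 0) : x = 0 :=
  hN x (fun y => by rw [kf_apply, hx, zero_mul, map_zero])

end IsLie

/-- Separation on the left. -/
def Sep (ν : V →L[ℝ] V →L[ℝ] V) : Prop := ∀ x, (∀ y, kf ν x y = 0) → x = 0

omit [FiniteDimensional ℝ V] in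
lemma Sep.nondeg {ν : V →L[ℝ] V →L[ℝ] V} (h : Sep ν) : (kf ν).Nondegenerate :=
  ⟨fun x hx => h x hx, fun x hx => h x (fun y => by rw [kf_comm]; exact hx y)⟩

section casimir

variable {ν : V →L[ℝ] V →L[ℝ] V} {ι : Type*} [Fintype ι] [DecidableEq ι]

omit [FiniteDimensional ℝ V] in
lemma sum_dual (hS : (kf ν).Nondegenerate) [FiniteDimensional ℝ V] (b : Module.Basis ι ℝ V) (v : V) :
    ∑ i, kf ν v (b i) • (kf ν).dualBasis hS b i = v := by
  conv_rhs => rw [← ((kf ν).dualBasis hS b).sum_repr v]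
  simp only [LinearMap.BilinForm.dualBasis_repr_apply]

lemma repr_eq (hS : (kf ν).Nondegenerate) (b : Module.Basis ι ℝ V) (v : V) (j : ι) :
    b.repr v j = kf ν ((kf ν).dualBasis hS b j) v := by
  conv_rhs => rw [← b.sum_repr v]
  simp only [map_sum, map_smul, smul_eq_mul, LinearMap.BilinForm.apply_dualBasis_left]
  simp

lemma sum_b (hS : (kf ν).Nondegenerate) (b : Module.Basis ι ℝ V) (v : V) :
    ∑ i, kf ν ((kf ν).dualBasis hS b i) v • b i = v := by
  conv_rhs => rw [← b.sum_repr v]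
  simp only [repr_eq hS b]

lemma tr_eq_d (hS : (kf ν).Nondegenerate) (b : Module.Basis ι ℝ V) (T : V →L[ℝ] V) :
    tr T = ∑ i, kf ν (T ((kf ν).dualBasis hS b i)) (b i) := by
  rw [tr_apply, LinearMap.trace_eq_matrix_trace ℝ ((kf ν).dualBasis hS b)]
  simp only [Matrix.trace, Matrix.diag, LinearMap.toMatrix_apply,
    LinearMap.BilinForm.dualBasis_repr_apply]
  rfl

lemma cas_inv (h : IsLie ν) (hS : (kf ν).Nondegenerate) (b : Module.Basis ι ℝ V)
    {V' : Type*} [AddCommGroup V'] [Module ℝ V'] (f : V →ₗ[ℝ] V →ₗ[ℝ] V') (y : V) :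
    ∑ i, f (ν y ((kf ν).dualBasis hS b i)) (b i)
      = - ∑ i, f ((kf ν).dualBasis hS b i) (ν y (b i)) := by
  set d := (kf ν).dualBasis hS b with hd
  have e1 : ∀ i, f (ν y (d i)) (b i) = ∑ j, kf ν (ν y (d i)) (b j) • f (d j) (b i) := by
    intro i
    conv_lhs => rw [← sum_dual hS b (ν y (d i))]
    simp only [map_sum, map_smul, LinearMap.sum_apply, LinearMap.smul_apply, hd]
  have e2 : ∀ i, f (d i) (ν y (b i)) = ∑ j, kf ν (d j) (ν y (b i)) • f (d i) (b j) := by
    intro i
    conv_lhs => rw [← sum_b hS b (ν y (b i))]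
    simp only [map_sum, map_smul, hd]
  simp only [e1, e2]
  rw [Finset.sum_comm, ← Finset.sum_neg_distrib]
  refine Finset.sum_congr rfl fun i _ => ?_
  rw [← Finset.sum_neg_distrib]
  refine Finset.sum_congr rfl fun j _ => ?_
  rw [h.kf_inv, neg_smul]

lemma cas_id (h : IsLie ν) (hS : (kf ν).Nondegenerate) (b : Module.Basis ι ℝ V) (v : V) :
    ∑ i, ν ((kf ν).dualBasis hS b i) (ν (b i) v) = v := by
  set d := (kf ν).dualBasis hS b with hd
  have key : ∀ u, kf ν (∑ i, ν (d i) (ν (b i) v)) u = kf ν v u := by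
    intro u
    rw [kf_apply ν v u, tr_eq_d hS b (ν v * ν u), map_sum, LinearMap.sum_apply]
    refine Finset.sum_congr rfl fun i _ => ?_
    rw [h.kf_inv, h.anti (b i) v, h.anti (d i) u]
    simp only [map_neg, LinearMap.neg_apply, neg_neg]
    rw [h.kf_inv, neg_neg, mul_apply_eq_comp, kf_comm]
  have := hS.1 (∑ i, ν (d i) (ν (b i) v) - v) (fun u => by
    rw [map_sub, LinearMap.sub_apply, key, sub_self])
  exact sub_eq_zero.1 this

end casimir

/-- Derivations of a bracket. -/
def IsDer (ν : V →L[ℝ] V →L[ℝ] V) (D : V →L[ℝ] V) : Prop :=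
  ∀ x y, D (ν x y) = ν (D x) y + ν x (D y)

lemma isDer_ad {ν : V →L[ℝ] V →L[ℝ] V} (h : IsLie ν) (x : V) : IsDer ν (ν x) :=
  fun y z => h.jac x y z

/-- Derivations are inner. -/
theorem inner_der {ν : V →L[ℝ] V →L[ℝ] V} (h : IsLie ν) (hN : Sep ν) {D : V →L[ℝ] V}
    (hD : IsDer ν D) : ∃ x, D = ν x := by
  classical
  let b := Module.finBasis ℝ V
  have hS := hN.nondeg
  let f : V →ₗ[ℝ] ℝ := { toFun := fun y => tr (D * ν y)
                         map_add' := by intro a c; simp only [map_add, mul_add]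
                         map_smul' := by intro a c; simp only [map_smul, mul_smul_comm, RingHom.id_apply] }
  obtain ⟨x, hx⟩ : ∃ x, ∀ y, tr (D * ν y) = kf ν x y := by
    refine ⟨∑ i, f (b i) • (kf ν).dualBasis hS b i, fun y => ?_⟩
    have : f y = ∑ i, b.repr y i * f (b i) := by
      conv_lhs => rw [← b.sum_repr y]
      simp only [map_sum, map_smul, smul_eq_mul]
    change f y = _
    rw [this]
    simp only [map_sum, LinearMap.sum_apply, map_smul, LinearMap.smul_apply, smul_eq_mul]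
    refine Finset.sum_congr rfl fun i _ => ?_
    rw [repr_eq hS b, mul_comm]
  refine ⟨x, ?_⟩
  have hD' : ∀ y z, (D - ν x) (ν y z) = ν ((D - ν x) y) z + ν y ((D - ν x) z) := by
    intro y z
    simp only [sub_apply, map_sub]
    rw [hD y z, h.jac x y z]; abel
  have htr : ∀ y, tr ((D - ν x) * ν y) = 0 := by
    intro y
    rw [sub_mul, map_sub, hx y, kf_apply, sub_self]
  have hcomm : ∀ y, ν ((D - ν x) y) = (D - ν x) * ν y - ν y * (D - ν x) := by
    intro y
    ext z
    change ν ((D - ν x) y) z = (D - ν x) (ν y z) - ν y ((D - ν x) z)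
    rw [hD' y z]; abel
  ext y
  have : (D - ν x) y = 0 := by
    refine hN _ fun z => ?_
    rw [kf_apply, hcomm, sub_mul, map_sub]
    have e1 : tr (ν y * (D - ν x) * ν z) = tr ((D - ν x) * (ν z * ν y)) := by
      rw [mul_assoc, tr_mul_comm, mul_assoc]
    rw [e1, mul_assoc, ← map_sub, ← mul_sub, ← h.ad_bracket]
    exact htr _
  rw [sub_apply, sub_eq_zero] at this
  exact this

/-- The cocycle identity. -/
def IsCocycle (ν w : V →L[ℝ] V →L[ℝ] V) : Prop :=
  (∀ x, w x x = 0) ∧ ∀ x y z, ν x (w y z) + w x (ν y z)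
    = ν (w x y) z + w (ν x y) z + ν y (w x z) + w y (ν x z)

/-- Second cohomology vanishes. -/
theorem cocycle_cob {ν w : V →L[ℝ] V →L[ℝ] V} (h : IsLie ν) (hN : Sep ν)
    (hw : IsCocycle ν w) : ∃ φ : V →L[ℝ] V, ∀ x y, w x y = ν x (φ y) - ν y (φ x) - φ (ν x y) := by
  classical
  let b := Module.finBasis ℝ V
  have hS := hN.nondeg
  set d := (kf ν).dualBasis hS b with hd
  have wanti : ∀ x y, w x y = - w y x := by
    intro x y
    have := hw.1 (x + y)
    simp only [map_add, add_apply, hw.1, zero_add, add_zero] at this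
    rw [add_comm] at this
    exact eq_neg_of_add_eq_zero_left this
  let φ : V →L[ℝ] V := ∑ i, (ν (d i)) ∘L (w (b i))
  have hφ : ∀ z, φ z = ∑ i, ν (d i) (w (b i) z) := by
    intro z
    simp only [φ, sum_apply, ContinuousLinearMap.comp_apply]
  refine ⟨φ, fun y z => ?_⟩
  -- the contracted identity
  have key : ∀ i, ν (d i) (ν (b i) (w y z)) =
      ν y (ν (d i) (w (b i) z)) + ν (ν (d i) y) (w (b i) z)
      - ν z (ν (d i) (w (b i) y)) - ν (ν (d i) z) (w (b i) y)
      + ν (d i) (w (ν (b i) y) z) - ν (d i) (w (ν (b i) z) y)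
      - ν (d i) (w (b i) (ν y z)) := by
    intro i
    have c := congrArg (ν (d i)) (hw.2 (b i) y z)
    simp only [map_add] at c
    have e1 : ν (d i) (ν y (w (b i) z)) = ν y (ν (d i) (w (b i) z)) + ν (ν (d i) y) (w (b i) z) := by
      rw [h.jac (d i) y]; abel
    have e2 : ν (d i) (ν (w (b i) y) z)
        = -(ν z (ν (d i) (w (b i) y)) + ν (ν (d i) z) (w (b i) y)) := by
      rw [h.anti (w (b i) y) z, map_neg, h.jac (d i) z]; abel
    have e3 : ν (d i) (w y (ν (b i) z)) = - ν (d i) (w (ν (b i) z) y) := by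
      rw [wanti y, map_neg]
    rw [e1, e2, e3] at c
    have c' := eq_sub_of_add_eq c
    rw [c']; abel
  have hsum := Finset.sum_congr (rfl : (Finset.univ : Finset _) = Finset.univ) (fun i _ => key i)
  rw [cas_id h hS b] at hsum
  simp only [Finset.sum_add_distrib, Finset.sum_sub_distrib] at hsum
  -- invariance of the Casimir tensor
  let g : V → V →ₗ[ℝ] V →ₗ[ℝ] V := fun z =>
    LinearMap.mk₂ ℝ (fun a c => ν a (w c z))
      (by intro a b c; simp only [map_add, add_apply])
      (by intro r a b; simp only [map_smul, smul_apply])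
      (by intro a b c; simp only [map_add, add_apply])
      (by intro r a b; simp only [map_smul, smul_apply])
  have hg : ∀ z a c, g z a c = ν a (w c z) := fun _ _ _ => rfl
  have i1 : ∑ i, ν (ν (d i) y) (w (b i) z) = - ∑ i, ν (d i) (w (ν (b i) y) z) := by
    have := cas_inv h hS b (g z) y
    simp only [hg] at this
    simp only [h.anti (d _) y, h.anti (b _) y, map_neg, neg_apply, Finset.sum_neg_distrib, neg_neg]
    rw [← hd] at this
    rw [this, neg_neg]
  have i2 : ∑ i, ν (ν (d i) z) (w (b i) y) = - ∑ i, ν (d i) (w (ν (b i) z) y) := by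
    have := cas_inv h hS b (g y) z
    simp only [hg] at this
    simp only [h.anti (d _) z, h.anti (b _) z, map_neg, neg_apply, Finset.sum_neg_distrib, neg_neg]
    rw [← hd] at this
    rw [this, neg_neg]
  rw [i1, i2] at hsum
  simp only [hφ, map_sum]
  rw [hsum]; abel

end Pool.Agent.TH77.Br
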