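import Mathlib
import Pool.Agent.TH77.Bracket

/-!
The radical of a real Lie algebra and the Killing form of the quotient.
-/

set_option autoImplicit false
set_option linter.unusedSectionVars false

namespace Pool.Agent.TH77.Br

section quot

variable {L : Type*} [LieRing L] [LieAlgebra ℝ L]

open LieAlgebra

/-- The quotient map as a homomorphism of algebras. -/
def pr (R : LieIdeal ℝ L) : L →ₗ⁅ℝ⁆ L ⧸ R :=
  { (LieSubmodule.Quotient.mk' R : L →ₗ[ℝ] L ⧸ R) with
    map_lie' := fun {_ _} => rfl }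

lemma pr_surj (R : LieIdeal ℝ L) : Function.Surjective (pr R) :=
  LieSubmodule.Quotient.surjective_mk' R

lemma pr_eq_zero (R : LieIdeal ℝ L) (x : L) : pr R x = 0 ↔ x ∈ R :=
  LieSubmodule.Quotient.mk_eq_zero R

lemma derived_le_comap (R : LieIdeal ℝ L) (I : LieIdeal ℝ (L ⧸ R)) (k : ℕ) :
    derivedSeriesOfIdeal ℝ L k (I.comap (pr R))
      ≤ (derivedSeriesOfIdeal ℝ (L ⧸ R) k I).comap (pr R) := by
  induction k with
  | zero => exact le_rfl
  | succ k ih =>
    rw [derivedSeriesOfIdeal_succ, derivedSeriesOfIdeal_succ]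
    exact (LieSubmodule.mono_lie ih ih).trans (LieIdeal.comap_bracket_le _)

variable [FiniteDimensional ℝ L]

lemma trivial_radical_quot : HasTrivialRadical ℝ (L ⧸ radical ℝ L) := by
  rw [hasTrivialRadical_iff_no_solvable_ideals]
  intro I hI
  obtain ⟨k, hk⟩ := (LieAlgebra.isSolvable_iff ℝ I).1 hI
  rw [LieIdeal.derivedSeries_eq_bot_iff] at hk
  obtain ⟨m, hm⟩ := IsSolvable.solvable ℝ (radical ℝ L)
  rw [LieIdeal.derivedSeries_eq_bot_iff] at hm
  have h1 : derivedSeriesOfIdeal ℝ L k (I.comap (pr (radical ℝ L))) ≤ radical ℝ L := by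
    refine (derived_le_comap (radical ℝ L) I k).trans ?_
    rw [hk]
    intro x hx
    rw [LieIdeal.mem_comap, LieSubmodule.mem_bot, pr_eq_zero] at hx
    exact hx
  have h2 : derivedSeriesOfIdeal ℝ L (m + k) (I.comap (pr (radical ℝ L))) = ⊥ := by
    rw [derivedSeriesOfIdeal_add]
    have := derivedSeriesOfIdeal_mono h1 m
    rw [hm] at this
    exact le_bot_iff.1 this
  have h3 : IsSolvable (I.comap (pr (radical ℝ L))) := by
    refine IsSolvable.mk (R := ℝ) (k := m + k) ?_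
    rw [LieIdeal.derivedSeries_eq_bot_iff]
    exact h2
  have h4 : I.comap (pr (radical ℝ L)) ≤ radical ℝ L := (LieIdeal.solvable_iff_le_radical ℝ L _).1 h3
  rw [eq_bot_iff]
  intro y hy
  obtain ⟨x, rfl⟩ := pr_surj _ y
  have : x ∈ I.comap (pr (radical ℝ L)) := by rw [LieIdeal.mem_comap]; exact hy
  rw [LieSubmodule.mem_bot, pr_eq_zero]
  exact h4 this

/-- Every finite-dimensional real Lie algebra modulo its radical has nondegenerate Killing form. -/
theorem exists_quot : ∃ (n : ℕ) (q : L →ₗ[ℝ] EuclideanSpace ℝ (Fin n))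
    (ν : EuclideanSpace ℝ (Fin n) →L[ℝ] EuclideanSpace ℝ (Fin n) →L[ℝ] EuclideanSpace ℝ (Fin n)),
    Function.Surjective q ∧ IsLie ν ∧ Sep ν ∧ (∀ x y, ν (q x) (q y) = q ⁅x, y⁆) ∧
    ∃ D : ℕ → Submodule ℝ L, D 0 = LinearMap.ker q ∧ (∀ k, D (k + 1) ≤ D k) ∧
      (∀ k, ∀ x : L, ∀ y ∈ D k, ⁅x, y⁆ ∈ D k) ∧
      (∀ k, ∀ x ∈ D k, ∀ y ∈ D k, ⁅x, y⁆ ∈ D (k + 1)) ∧
      ∃ m, D m = ⊥ := by
  set R := radical ℝ L with hR
  have htr : HasTrivialRadical ℝ (L ⧸ R) := trivial_radical_quot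
  have hkil : IsKilling ℝ (L ⧸ R) := inferInstance
  let n := Module.finrank ℝ (L ⧸ R)
  let e : (L ⧸ R) ≃ₗ[ℝ] EuclideanSpace ℝ (Fin n) :=
    LinearEquiv.ofFinrankEq _ _ (by simp [n])
  let q : L →ₗ[ℝ] EuclideanSpace ℝ (Fin n) := e.toLinearMap ∘ₗ (pr R : L →ₗ[ℝ] L ⧸ R)
  let adE : EuclideanSpace ℝ (Fin n) → (EuclideanSpace ℝ (Fin n) →ₗ[ℝ] EuclideanSpace ℝ (Fin n)) :=
    fun x => e.toLinearMap ∘ₗ (LieAlgebra.ad ℝ (L ⧸ R) (e.symm x)) ∘ₗ e.symm.toLinearMap
  let ν : EuclideanSpace ℝ (Fin n) →L[ℝ] EuclideanSpace ℝ (Fin n) →L[ℝ] EuclideanSpace ℝ (Fin n) :=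
    LinearMap.toContinuousLinearMap
      { toFun := fun x => LinearMap.toContinuousLinearMap (adE x)
        map_add' := by
          intro x y
          ext z
          simp [adE]
        map_smul' := by
          intro c x
          ext z
          simp [adE] }
  have hν : ∀ x y, ν x y = e ⁅e.symm x, e.symm y⁆ := fun x y => rfl
  have hνc : ∀ x, ((ν x : EuclideanSpace ℝ (Fin n) →L[ℝ] EuclideanSpace ℝ (Fin n)) :
      EuclideanSpace ℝ (Fin n) →ₗ[ℝ] EuclideanSpace ℝ (Fin n)) = adE x := fun x => rfl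
  refine ⟨n, q, ν, ?_, ?_, ?_, ?_, ?_⟩
  · exact e.surjective.comp (pr_surj R)
  · constructor
    · intro x; rw [hν, lie_self, map_zero]
    · intro x y z
      simp only [hν, LinearEquiv.symm_apply_apply]
      rw [leibniz_lie, map_add]
  · intro x hx
    have h1 : ∀ y, kf ν x y = killingForm ℝ (L ⧸ R) (e.symm x) (e.symm y) := by
      intro y
      rw [kf_apply, tr_apply, killingForm_apply_apply]
      have h2 : ((ν x * ν y : EuclideanSpace ℝ (Fin n) →L[ℝ] EuclideanSpace ℝ (Fin n)) :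
          EuclideanSpace ℝ (Fin n) →ₗ[ℝ] EuclideanSpace ℝ (Fin n)) =
          e.conj (LieAlgebra.ad ℝ (L ⧸ R) (e.symm x) ∘ₗ LieAlgebra.ad ℝ (L ⧸ R) (e.symm y)) := by
        refine LinearMap.ext fun z => ?_
        change ν x (ν y z) = _
        rw [LinearEquiv.conj_apply]
        simp [hν]
      rw [h2, LinearMap.trace_conj']
    have hnd := IsKilling.killingForm_nondegenerate ℝ (L ⧸ R)
    have h2 : e.symm x = 0 := by
      refine hnd.1 _ fun z => ?_
      have := hx (e z)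
      rwa [h1, LinearEquiv.symm_apply_apply] at this
    simpa using h2
  · intro x y
    rw [hν]
    change e ⁅e.symm (e (pr R x)), e.symm (e (pr R y))⁆ = e (pr R ⁅x, y⁆)
    rw [LinearEquiv.symm_apply_apply, LinearEquiv.symm_apply_apply, LieHom.map_lie]
  · refine ⟨fun k => (derivedSeriesOfIdeal ℝ L k R).toSubmodule, ?_, ?_, ?_, ?_, ?_⟩
    · ext x
      rw [LinearMap.mem_ker]
      change x ∈ R ↔ e (pr R x) = 0
      rw [LinearEquiv.map_eq_zero_iff, pr_eq_zero]
    · intro k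
      exact derivedSeriesOfIdeal_succ_le R k
    · intro k x y hy
      exact lie_mem_right ℝ L _ x y hy
    · intro k x hx y hy
      change ⁅x, y⁆ ∈ derivedSeriesOfIdeal ℝ L (k + 1) R
      rw [derivedSeriesOfIdeal_succ]
      exact LieSubmodule.lie_mem_lie hx hy
    · obtain ⟨m, hm⟩ := IsSolvable.solvable ℝ R
      rw [LieIdeal.derivedSeries_eq_bot_iff] at hm
      refine ⟨m, ?_⟩
      simp only [hm]
      rfl

end quot

end Pool.Agent.TH77.Br
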