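import Pool.Agent.TH77.OneParam

set_option autoImplicit false
set_option linter.unusedSectionVars false
set_option linter.style.haveILetI false
set_option warn.classDefReducibility false

/-!
# Constructions: finite products, and groups generated by a local subgroup
-/

open Filter Topology Metric Set

namespace Pool.Agent.TH77

namespace LG

/-- finite products -/
def pi {ι : Type*} [Fintype ι] {H : ι → Type*} [∀ i, Group (H i)] [∀ i, TopologicalSpace (H i)]
    {E : ι → Type*} [∀ i, NormedAddCommGroup (E i)] [∀ i, NormedSpace ℝ (E i)]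
    (L : ∀ i, LG (H i) (E i)) : LG (∀ i, H i) (∀ i, E i) where
  exp x i := (L i).exp (x i)
  mul p i := (L i).mul (p.1 i, p.2 i)
  exp_add s t x := by
    funext i
    exact (L i).exp_add s t (x i)
  cont := continuous_pi fun i => (L i).cont.comp (continuous_apply i)
  nhds := by
    have h := Filter.map_piMap_pi_finite (fun i => (L i).exp) (fun i => 𝓝 (0 : E i))
    rw [nhds_pi, nhds_pi]
    refine h.trans ?_
    congr 1
    funext i
    exact (L i).nhds
  inj := by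
    have h : ∀ᶠ r in 𝓝[>] (0 : ℝ), ∀ i, Set.InjOn (L i).exp (ball 0 r) := by
      rw [eventually_all]
      intro i
      obtain ⟨r, hr, hi⟩ := (L i).inj
      filter_upwards [Ioo_mem_nhdsGT hr] with s hs
      exact hi.mono (ball_subset_ball hs.2.le)
    have h2 : ∀ᶠ r in 𝓝[>] (0 : ℝ), 0 < r := eventually_mem_nhdsWithin
    obtain ⟨r, hr, hr0⟩ := (h.and h2).exists
    refine ⟨r, hr0, fun x hx y hy hxy => ?_⟩
    funext i
    rw [ball_pi _ hr0] at hx hy
    exact hr i (hx i (mem_univ i)) (hy i (mem_univ i)) (congrFun hxy i)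
  mul_deriv := by
    refine hasStrictFDerivAt_pi'' fun i => ?_
    have h1 : HasStrictFDerivAt (fun p : (∀ i, E i) × (∀ i, E i) => (p.1 i, p.2 i))
        ((((ContinuousLinearMap.proj i).comp (ContinuousLinearMap.fst ℝ _ _)).prod
          ((ContinuousLinearMap.proj i).comp (ContinuousLinearMap.snd ℝ _ _)) :
            (∀ i, E i) × (∀ i, E i) →L[ℝ] E i × E i)) 0 :=
      (((ContinuousLinearMap.proj i).comp (ContinuousLinearMap.fst ℝ (∀ i, E i) (∀ i, E i))).prod
          ((ContinuousLinearMap.proj i).comp (ContinuousLinearMap.snd ℝ _ _))).hasStrictFDerivAt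
    have h2 : HasStrictFDerivAt (L i).mul
      (ContinuousLinearMap.fst ℝ (E i) (E i) + ContinuousLinearMap.snd ℝ (E i) (E i))
      ((fun p : (∀ i, E i) × (∀ i, E i) => (p.1 i, p.2 i)) 0) := (L i).mul_deriv
    exact (h2.comp (0 : (∀ i, E i) × (∀ i, E i)) h1)
  mul_zero := by
    funext i
    exact (L i).mul_zero
  exp_mul := by
    have h : ∀ᶠ p in 𝓝 (0 : (∀ i, E i) × (∀ i, E i)), ∀ i,
        (L i).exp (p.1 i) * (L i).exp (p.2 i) = (L i).exp ((L i).mul (p.1 i, p.2 i)) := by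
      rw [eventually_all]
      intro i
      have h1 : Continuous fun p : (∀ i, E i) × (∀ i, E i) => (p.1 i, p.2 i) := by fun_prop
      exact (h1.tendsto' 0 (0 : E i × E i) rfl).eventually (L i).exp_mul
    filter_upwards [h] with p hp
    funext i
    exact hp i

section constr

variable {H : Type*} [Group H] [TopologicalSpace H] [IsTopologicalGroup H] [T2Space H]
  {E : Type*} [NormedAddCommGroup E] [NormedSpace ℝ E] (L : LG H E)

lemma mul_continuousAt_zero : Tendsto L.mul (𝓝 0) (𝓝 0) := by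
  have := L.mul_deriv.continuousAt.tendsto
  rwa [L.mul_zero] at this

/-- `mul` is continuous near `0` -/
lemma eventually_continuousAt_mul : ∀ᶠ p in 𝓝 (0 : E × E), ContinuousAt L.mul p := by
  obtain ⟨K, s, hs, hK⟩ := L.mul_deriv.exists_lipschitzOnWith
  filter_upwards [eventually_mem_nhds_iff.2 hs] with p hp
  exact hK.continuousOn.continuousAt hp

lemma eventually_mul_zero_right : ∀ᶠ x in 𝓝 (0 : E), L.mul (x, 0) = x := by
  obtain ⟨r, hr, hinj⟩ := L.inj
  have h1 : Tendsto (fun x : E => (x, (0 : E))) (𝓝 0) (𝓝 0) := by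
    have : Continuous fun x : E => (x, (0 : E)) := by fun_prop
    exact this.tendsto' 0 _ rfl
  have h2 := L.mul_continuousAt_zero.comp h1
  filter_upwards [h1.eventually L.exp_mul, h2 (ball_mem_nhds 0 hr), ball_mem_nhds 0 hr]
    with x hx1 hx2 hx3
  refine hinj hx2 hx3 ?_
  show L.exp (L.mul (x, 0)) = L.exp x
  rw [← hx1, L.exp_zero, mul_one]

/-- data for the construction of a Lie group from a local subgroup -/
structure Data (A : Type*) [Group A] (m : Submodule ℝ E) where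
  /-- projection to the ambient group -/
  π : A →* H
  /-- exponential -/
  e : m → A
  /-- linear projection -/
  P : E →L[ℝ] m
  P_apply : ∀ x : m, P x = x
  e_add : ∀ (s t : ℝ) (x : m), e ((s + t) • x) = e (s • x) * e (t • x)
  π_e : ∀ x, π (e x) = L.exp x
  mem : ∀ᶠ p in 𝓝 (0 : m × m), L.mul ((p.1 : E), (p.2 : E)) ∈ m
  e_mul : ∀ᶠ p in 𝓝 (0 : m × m), e p.1 * e p.2 = e (P (L.mul ((p.1 : E), (p.2 : E))))
  gen : Subgroup.closure (range e) = ⊤

variable {L} {A : Type*} [Group A] {m : Submodule ℝ E} (D : L.Data A m)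

namespace Data

lemma e_zero : D.e 0 = 1 := by
  have h := D.e_add 0 0 (0 : m)
  simp only [smul_zero] at h
  exact (mul_eq_left (a := D.e 0)).1 h.symm

lemma e_neg (x : m) : D.e (-x) = (D.e x)⁻¹ := by
  have h := D.e_add (-1) 1 x
  rw [neg_add_cancel, zero_smul, D.e_zero, one_smul, neg_one_smul] at h
  exact eq_inv_of_mul_eq_one_left h.symm

lemma e_nsmul (n : ℕ) (x : m) : D.e (n • x) = D.e x ^ n := by
  induction n with
  | zero => rw [zero_smul, D.e_zero, pow_zero]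
  | succ n ih =>
    have h := D.e_add (n : ℝ) 1 x
    rw [one_smul, Nat.cast_smul_eq_nsmul ℝ] at h
    have e : (n + 1) • x = ((n : ℝ) + 1) • x := by
      rw [add_smul ((n : ℝ)) 1 x, Nat.cast_smul_eq_nsmul ℝ, one_smul, succ_nsmul]
    rw [e, h, ih, pow_succ]

/-- the multiplication in exponential coordinates -/
noncomputable def mm (p : m × m) : m := D.P (L.mul ((p.1 : E), (p.2 : E)))

lemma mm_deriv : HasStrictFDerivAt D.mm
    (ContinuousLinearMap.fst ℝ m m + ContinuousLinearMap.snd ℝ m m) 0 := by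
  have h1 : HasStrictFDerivAt (fun p : m × m => (((p.1 : E)), ((p.2 : E))))
      (((m.subtypeL.comp (ContinuousLinearMap.fst ℝ m m)).prod
        (m.subtypeL.comp (ContinuousLinearMap.snd ℝ m m)) : m × m →L[ℝ] E × E)) 0 :=
    ((m.subtypeL.comp (ContinuousLinearMap.fst ℝ m m)).prod
        (m.subtypeL.comp (ContinuousLinearMap.snd ℝ m m))).hasStrictFDerivAt
  have h2 : HasStrictFDerivAt L.mul
      (ContinuousLinearMap.fst ℝ E E + ContinuousLinearMap.snd ℝ E E)
      ((fun p : m × m => (((p.1 : E)), ((p.2 : E)))) 0) := L.mul_deriv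
  have h3 := (D.P.hasStrictFDerivAt (x := L.mul ((fun p : m × m => (((p.1 : E)), ((p.2 : E)))) 0))).comp
    (0 : m × m) (h2.comp (0 : m × m) h1)
  refine h3.congr_fderiv ?_
  refine ContinuousLinearMap.ext fun p => ?_
  show D.P ((p.1 : E) + (p.2 : E)) = p.1 + p.2
  rw [map_add, D.P_apply, D.P_apply]

lemma mm_zero : D.mm 0 = 0 := by
  show D.P (L.mul (0 : E × E)) = 0
  rw [L.mul_zero, map_zero]

lemma mm_tendsto : Tendsto D.mm (𝓝 0) (𝓝 0) := by
  have := D.mm_deriv.continuousAt.tendsto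
  rwa [D.mm_zero] at this

lemma e_mm : ∀ᶠ p in 𝓝 (0 : m × m), D.e p.1 * D.e p.2 = D.e (D.mm p) := D.e_mul

lemma e_injOn : ∃ r > 0, InjOn D.e (ball 0 r) ∧ InjOn L.exp (ball 0 r) := by
  obtain ⟨r, hr, hinj⟩ := L.inj
  refine ⟨r, hr, fun x hx y hy hxy => ?_, hinj⟩
  have h1 : L.exp x = L.exp y := by rw [← D.π_e, ← D.π_e, hxy]
  have h2 := hinj (by simpa using hx) (by simpa using hy) h1
  exact Subtype.ext h2

/-- conjugation -/
lemma conj_small : ∀ᶠ y in 𝓝 (0 : m), ∀ ε > 0, ∃ δ > 0, ∀ x : m, ‖x‖ < δ →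
    ∃ z : m, ‖z‖ < ε ∧ D.e y * D.e x * (D.e y)⁻¹ = D.e z := by
  obtain ⟨r, hr, -, hinj⟩ := D.e_injOn
  set F : m × m → m := fun p => D.mm (D.mm (p.1, p.2), -p.1) with hF
  have hF0 : Tendsto F (𝓝 0) (𝓝 0) := by
    have h1 : Tendsto (fun p : m × m => (D.mm (p.1, p.2), -p.1)) (𝓝 0) (𝓝 ((0 : m), (0 : m))) := by
      refine Tendsto.prodMk_nhds D.mm_tendsto ?_
      have : Continuous fun p : m × m => -p.1 := by fun_prop
      exact this.tendsto' 0 0 (by simp)
    exact D.mm_tendsto.comp h1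
  have hFe : ∀ᶠ p in 𝓝 (0 : m × m), D.e p.1 * D.e p.2 * (D.e p.1)⁻¹ = D.e (F p) := by
    have h1 : Tendsto (fun p : m × m => (D.mm (p.1, p.2), -p.1)) (𝓝 0) (𝓝 ((0 : m × m))) := by
      refine Tendsto.prodMk_nhds D.mm_tendsto ?_
      have : Continuous fun p : m × m => -p.1 := by fun_prop
      exact this.tendsto' 0 0 (by simp)
    filter_upwards [D.e_mm, h1.eventually D.e_mm] with p hp1 hp2
    rw [hF, hp1, ← D.e_neg]
    exact hp2
  have hall := hFe.and (hF0 (ball_mem_nhds 0 hr))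
  obtain ⟨δ, hδ, hall⟩ := Metric.eventually_nhds_iff.1 hall
  filter_upwards [ball_mem_nhds (0 : m) hδ] with y hy ε hε
  have hy' : ‖y‖ < δ := by simpa using hy
  -- as `x → 0` the element `F (y, x)` tends to `0`
  have h1 : Tendsto (fun x : m => ((F (y, x) : m) : E)) (𝓝 0) (𝓝 0) := by
    have hbd : ∀ᶠ x in 𝓝 (0 : m), dist (y, x) (0 : m × m) < δ := by
      filter_upwards [ball_mem_nhds (0 : m) hδ] with x hx
      rw [dist_zero_right, Prod.norm_def]
      exact max_lt hy' (by simpa using hx)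
    refine L.tendsto_zero_of_exp hinj ?_ ?_
    · filter_upwards [hbd] with x hx
      have := (hall hx).2
      simpa using this
    · have h2 : Tendsto (fun x : m => L.exp y * L.exp x * (L.exp y)⁻¹) (𝓝 0) (𝓝 1) := by
        have hc : Continuous fun x : m => L.exp y * L.exp x * (L.exp y)⁻¹ :=
          ((continuous_const.mul (L.cont.comp continuous_subtype_val)).mul continuous_const)
        exact hc.tendsto' 0 1 (by simp [L.exp_zero])
      refine h2.congr' ?_
      filter_upwards [hbd] with x hx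
      have := (hall hx).1
      rw [← D.π_e (F (y, x)), ← this]
      simp only [map_mul, map_inv, D.π_e]
  have h3 : ∀ᶠ x in 𝓝 (0 : m), ((F (y, x) : m) : E) ∈ ball (0 : E) ε := h1 (ball_mem_nhds 0 hε)
  have hbd : ∀ᶠ x in 𝓝 (0 : m), dist (y, x) (0 : m × m) < δ := by
    filter_upwards [ball_mem_nhds (0 : m) hδ] with x hx
    rw [dist_zero_right, Prod.norm_def]
    exact max_lt hy' (by simpa using hx)
  obtain ⟨δ', hδ', h4⟩ := Metric.eventually_nhds_iff.1 (h3.and hbd)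
  refine ⟨δ', hδ', fun x hx => ⟨F (y, x), ?_, ?_⟩⟩
  · have := (h4 (y := x) (by rw [dist_zero_right]; exact hx)).1
    simpa using this
  · exact (hall (h4 (y := x) (by rw [dist_zero_right]; exact hx)).2).1

lemma conj_all (a : A) : ∀ ε > 0, ∃ δ > 0, ∀ x : m, ‖x‖ < δ →
    ∃ z : m, ‖z‖ < ε ∧ a * D.e x * a⁻¹ = D.e z := by
  obtain ⟨ρ, hρ, hsmall⟩ := Metric.eventually_nhds_iff.1 D.conj_small
  -- the set of good elements is closed under products
  have hmul : ∀ a b : A, (∀ ε > 0, ∃ δ > 0, ∀ x : m, ‖x‖ < δ →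
      ∃ z : m, ‖z‖ < ε ∧ a * D.e x * a⁻¹ = D.e z) → (∀ ε > 0, ∃ δ > 0, ∀ x : m, ‖x‖ < δ →
      ∃ z : m, ‖z‖ < ε ∧ b * D.e x * b⁻¹ = D.e z) → ∀ ε > 0, ∃ δ > 0, ∀ x : m, ‖x‖ < δ →
      ∃ z : m, ‖z‖ < ε ∧ (a * b) * D.e x * (a * b)⁻¹ = D.e z := by
    intro a b ha hb ε hε
    obtain ⟨δ1, hδ1, h1⟩ := ha ε hε
    obtain ⟨δ2, hδ2, h2⟩ := hb δ1 hδ1
    refine ⟨δ2, hδ2, fun x hx => ?_⟩
    obtain ⟨z, hz, hze⟩ := h2 x hx
    obtain ⟨w, hw, hwe⟩ := h1 z hz
    refine ⟨w, hw, ?_⟩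
    rw [← hwe, ← hze]
    group
  have hone : ∀ ε > 0, ∃ δ > 0, ∀ x : m, ‖x‖ < δ →
      ∃ z : m, ‖z‖ < ε ∧ (1 : A) * D.e x * (1 : A)⁻¹ = D.e z := by
    intro ε hε
    exact ⟨ε, hε, fun x hx => ⟨x, hx, by simp⟩⟩
  have hpow : ∀ a : A, (∀ ε > 0, ∃ δ > 0, ∀ x : m, ‖x‖ < δ →
      ∃ z : m, ‖z‖ < ε ∧ a * D.e x * a⁻¹ = D.e z) → ∀ n : ℕ, (∀ ε > 0, ∃ δ > 0, ∀ x : m, ‖x‖ < δ →
      ∃ z : m, ‖z‖ < ε ∧ (a ^ n) * D.e x * (a ^ n)⁻¹ = D.e z) := by
    intro a ha n
    induction n with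
    | zero => rw [pow_zero]; exact hone
    | succ n ih => rw [pow_succ]; exact hmul _ _ ih ha
  have hgen : ∀ y : m, ∀ ε > 0, ∃ δ > 0, ∀ x : m, ‖x‖ < δ →
      ∃ z : m, ‖z‖ < ε ∧ (D.e y) * D.e x * (D.e y)⁻¹ = D.e z := by
    intro y
    obtain ⟨n, hn⟩ := exists_nat_gt (‖y‖ / ρ)
    have hn0 : (0 : ℝ) < n := lt_of_le_of_lt (by positivity) hn
    rw [div_lt_iff₀ hρ] at hn
    have e1 : D.e y = D.e ((1 / (n : ℝ)) • y) ^ n := by
      rw [← D.e_nsmul, ← Nat.cast_smul_eq_nsmul ℝ, smul_smul]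
      congr 1
      rw [mul_one_div_cancel hn0.ne', one_smul]
    rw [e1]
    refine hpow _ (hsmall ?_) n
    rw [dist_zero_right, norm_smul, Real.norm_of_nonneg (by positivity), one_div,
      inv_mul_eq_div, div_lt_iff₀ hn0]
    linarith [mul_comm ρ (n : ℝ)]
  have ha : a ∈ Subgroup.closure (range D.e) := by rw [D.gen]; exact Subgroup.mem_top a
  refine Subgroup.closure_induction_left (p := fun g _ => ∀ ε > 0, ∃ δ > 0, ∀ x : m, ‖x‖ < δ →
      ∃ z : m, ‖z‖ < ε ∧ g * D.e x * g⁻¹ = D.e z) hone ?_ ?_ ha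
  · rintro _ ⟨y, rfl⟩ b _ hb
    exact hmul _ _ (hgen y) hb
  · rintro _ ⟨y, rfl⟩ b _ hb
    rw [← D.e_neg]
    exact hmul _ _ (hgen (-y)) hb

/-- the filter basis -/
def basis : GroupFilterBasis A where
  sets := {U | ∃ ε > 0, U = D.e '' ball 0 ε}
  nonempty := ⟨_, 1, one_pos, rfl⟩
  inter_sets := by
    rintro _ _ ⟨ε, hε, rfl⟩ ⟨δ, hδ, rfl⟩
    refine ⟨_, ⟨min ε δ, lt_min hε hδ, rfl⟩, subset_inter ?_ ?_⟩
    · exact image_mono (ball_subset_ball (min_le_left _ _))
    · exact image_mono (ball_subset_ball (min_le_right _ _))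
  one' := by
    rintro _ ⟨ε, hε, rfl⟩
    exact ⟨0, mem_ball_self hε, D.e_zero⟩
  mul' := by
    rintro _ ⟨ε, hε, rfl⟩
    have h1 := D.e_mm.and (D.mm_tendsto (ball_mem_nhds 0 hε))
    obtain ⟨δ, hδ, hall⟩ := Metric.eventually_nhds_iff.1 h1
    refine ⟨_, ⟨δ, hδ, rfl⟩, ?_⟩
    rintro _ ⟨_, ⟨x, hx, rfl⟩, _, ⟨y, hy, rfl⟩, rfl⟩
    have h2 : dist (x, y) (0 : m × m) < δ := by
      rw [dist_zero_right, Prod.norm_def]
      exact max_lt (by simpa using hx) (by simpa using hy)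
    obtain ⟨h3, h4⟩ := hall h2
    exact ⟨D.mm (x, y), h4, h3.symm⟩
  inv' := by
    rintro _ ⟨ε, hε, rfl⟩
    refine ⟨_, ⟨ε, hε, rfl⟩, ?_⟩
    rintro _ ⟨x, hx, rfl⟩
    exact ⟨-x, by simpa using hx, D.e_neg x⟩
  conj' := by
    rintro a _ ⟨ε, hε, rfl⟩
    obtain ⟨δ, hδ, h⟩ := D.conj_all a ε hε
    refine ⟨_, ⟨δ, hδ, rfl⟩, ?_⟩
    rintro _ ⟨x, hx, rfl⟩
    obtain ⟨z, hz, hze⟩ := h x (by simpa using hx)
    exact ⟨z, by simpa using hz, hze.symm⟩

/-- the group with its new topology -/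
@[reducible] def top : TopologicalSpace A := D.basis.topology

lemma topGroup : @IsTopologicalGroup A D.top _ := by
  letI := D.top
  exact D.basis.isTopologicalGroup

lemma mem_nhds_one (U : Set A) : U ∈ @_root_.nhds A D.top 1 ↔ ∃ ε > 0, D.e '' ball 0 ε ⊆ U := by
  letI := D.top
  rw [(D.basis.nhds_one_hasBasis).mem_iff]
  constructor
  · rintro ⟨_, ⟨ε, hε, rfl⟩, h⟩
    exact ⟨ε, hε, h⟩
  · rintro ⟨ε, hε, h⟩
    exact ⟨_, ⟨ε, hε, rfl⟩, h⟩

lemma map_e : Filter.map D.e (𝓝 0) = @_root_.nhds A D.top 1 := by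
  ext U
  rw [D.mem_nhds_one, Filter.mem_map, Metric.mem_nhds_iff]
  simp only [image_subset_iff]

lemma t2 : @T2Space A D.top := by
  letI := D.top
  haveI := D.topGroup
  refine IsTopologicalGroup.t2Space_of_one_sep fun a ha => ?_
  obtain ⟨r, hr, hinj, -⟩ := D.e_injOn
  by_cases h : a ∈ D.e '' ball 0 r
  · obtain ⟨x, hx, rfl⟩ := h
    have hx0 : x ≠ 0 := by
      rintro rfl
      exact ha D.e_zero
    have hx0' : 0 < ‖x‖ := norm_pos_iff.2 hx0
    have hx' : ‖x‖ < r := by simpa using hx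
    refine ⟨D.e '' ball 0 ‖x‖, (D.mem_nhds_one _).2 ⟨‖x‖, hx0', subset_rfl⟩, ?_⟩
    rintro ⟨y, hy, hye⟩
    have hy' : ‖y‖ < ‖x‖ := by simpa using hy
    have := hinj (by simpa using hy'.trans hx') hx hye
    rw [this] at hy'
    exact lt_irrefl _ hy'
  · exact ⟨D.e '' ball 0 r, (D.mem_nhds_one _).2 ⟨r, hr, subset_rfl⟩, h⟩

lemma continuous_e : @Continuous m A _ D.top D.e := by
  letI := D.top
  haveI := D.topGroup
  -- continuity near zero
  have hmmc : ∀ᶠ p in 𝓝 (0 : m × m), ContinuousAt D.mm p := by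
    obtain ⟨K, s, hs, hK⟩ := D.mm_deriv.exists_lipschitzOnWith
    filter_upwards [eventually_mem_nhds_iff.2 hs] with p hp
    exact hK.continuousOn.continuousAt hp
  have hinvr : ∀ᶠ x in 𝓝 (0 : m), D.mm (-x, x) = 0 := by
    obtain ⟨r, hr, hinj, -⟩ := D.e_injOn
    have h1 : Tendsto (fun x : m => (-x, x)) (𝓝 0) (𝓝 (0 : m × m)) := by
      have : Continuous fun x : m => (-x, x) := by fun_prop
      exact this.tendsto' 0 _ (by simp)
    filter_upwards [h1.eventually D.e_mm, (D.mm_tendsto.comp h1) (ball_mem_nhds 0 hr)] with x h2 h3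
    refine hinj h3 (mem_ball_self hr) ?_
    show D.e (D.mm (-x, x)) = D.e 0
    rw [← h2, D.e_zero, D.e_neg, inv_mul_cancel]
  have hnear : ∀ᶠ x in 𝓝 (0 : m), ContinuousAt D.e x := by
    have h1 : Tendsto (fun x : m => (-x, x)) (𝓝 0) (𝓝 (0 : m × m)) := by
      have : Continuous fun x : m => (-x, x) := by fun_prop
      exact this.tendsto' 0 _ (by simp)
    have h2 := h1.eventually (hmmc.and (eventually_eventually_nhds.2 D.e_mm))
    filter_upwards [h2, hinvr] with x hx hx0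
    obtain ⟨h3, h4⟩ := hx
    have h5 : Tendsto (fun y : m => (-x, y)) (𝓝 x) (𝓝 (-x, x)) := by
      have : Continuous fun y : m => (-x, y) := by fun_prop
      exact this.tendsto x
    have h6 : Tendsto (fun y : m => D.mm (-x, y)) (𝓝 x) (𝓝 0) := by
      have := h3.tendsto.comp h5
      rwa [hx0] at this
    have h7 : Tendsto (fun y : m => D.e x * D.e (D.mm (-x, y))) (𝓝 x) (𝓝 (D.e x * 1)) := by
      refine Tendsto.const_mul _ ?_
      have h8 : Tendsto D.e (𝓝 0) (𝓝 1) := D.map_e.le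
      exact h8.comp h6
    rw [mul_one] at h7
    refine h7.congr' ?_
    filter_upwards [h5.eventually h4] with y hy
    rw [← hy, D.e_neg]
    group
  obtain ⟨ρ, hρ, hall⟩ := Metric.eventually_nhds_iff.1 hnear
  rw [continuous_iff_continuousAt]
  intro x
  obtain ⟨n, hn⟩ := exists_nat_gt (‖x‖ / ρ)
  have hn0 : (0 : ℝ) < n := lt_of_le_of_lt (by positivity) hn
  rw [div_lt_iff₀ hρ] at hn
  have e1 : D.e = fun y => D.e ((1 / (n : ℝ)) • y) ^ n := by
    funext y
    rw [← D.e_nsmul, ← Nat.cast_smul_eq_nsmul ℝ, smul_smul]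
    congr 1
    rw [mul_one_div_cancel hn0.ne', one_smul]
  rw [e1]
  have h1 : ContinuousAt D.e ((1 / (n : ℝ)) • x) := by
    refine hall ?_
    rw [dist_zero_right, norm_smul, Real.norm_of_nonneg (by positivity), one_div,
      inv_mul_eq_div, div_lt_iff₀ hn0]
    linarith [mul_comm ρ (n : ℝ)]
  exact (ContinuousAt.comp (f := fun y : m => (1 / (n : ℝ)) • y) h1 (by fun_prop)).pow n

/-- the Lie group -/
noncomputable def lg : @LG A _ D.top m _ _ :=
  letI := D.top
  { exp := D.e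
    mul := D.mm
    exp_add := D.e_add
    cont := D.continuous_e
    nhds := D.map_e
    inj := by
      obtain ⟨r, hr, hinj, -⟩ := D.e_injOn
      exact ⟨r, hr, hinj⟩
    mul_deriv := D.mm_deriv
    mul_zero := D.mm_zero
    exp_mul := D.e_mm }

lemma continuous_π : @Continuous A H D.top _ D.π := by
  letI := D.top
  haveI := D.topGroup
  refine continuous_of_continuousAt_one D.π ?_
  rw [ContinuousAt, map_one, ← D.map_e, Filter.tendsto_map'_iff]
  have h1 : Continuous fun x : m => L.exp x := L.cont.comp continuous_subtype_val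
  have h2 : Tendsto (fun x : m => L.exp x) (𝓝 0) (𝓝 1) := h1.tendsto' 0 1 (by simp [L.exp_zero])
  refine h2.congr fun x => ?_
  rw [Function.comp_apply, D.π_e]

end Data

end constr

end LG

end Pool.Agent.TH77
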