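import Mathlib

/-!
Linear compactness of products of finite-dimensional spaces.
-/

set_option autoImplicit false
set_option linter.unusedSectionVars false
set_option linter.style.haveILetI false

open Filter Topology Set

namespace Pool.Agent.TH77

lemma exists_ext {D : Type*} [AddCommGroup D] [Module ℝ D] (W N : Submodule ℝ D) (ev : D →ₗ[ℝ] ℝ)
    (h : ∀ x ∈ W, x ∈ N → ev x = 0) :
    ∃ Λ : D →ₗ[ℝ] ℝ, (∀ x ∈ N, Λ x = 0) ∧ ∀ x ∈ W, Λ x = ev x := by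
  let f : W →ₗ[ℝ] D ⧸ N := N.mkQ ∘ₗ W.subtype
  have hh : (ev ∘ₗ W.subtype : W →ₗ[ℝ] ℝ) ∈ (LinearMap.ker f).dualAnnihilator := by
    rw [Submodule.mem_dualAnnihilator]
    intro φ hφ
    refine h φ φ.2 ?_
    have : N.mkQ (φ : D) = 0 := hφ
    rwa [Submodule.mkQ_apply, Submodule.Quotient.mk_eq_zero] at this
  rw [← LinearMap.range_dualMap_eq_dualAnnihilator_ker] at hh
  obtain ⟨g, hg⟩ := hh
  refine ⟨g ∘ₗ N.mkQ, ?_, ?_⟩
  · intro x hx
    rw [LinearMap.comp_apply, Submodule.mkQ_apply, (Submodule.Quotient.mk_eq_zero N).2 hx, map_zero]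
  · intro x hx
    exact LinearMap.congr_fun hg ⟨x, hx⟩

lemma exists_le_of_directed {D : Type*} [AddCommGroup D] [Module ℝ D] (W : Submodule ℝ D)
    [FiniteDimensional ℝ W] (𝒩 : Set (Submodule ℝ D)) (hne : 𝒩.Nonempty)
    (hdir : DirectedOn (· ≤ ·) 𝒩) : ∃ N ∈ 𝒩, W ⊓ sSup 𝒩 ≤ N := by
  have hcomp : IsCompactElement (W ⊓ sSup 𝒩) := by
    rw [← Submodule.fg_iff_compact]
    haveI : FiniteDimensional ℝ (W ⊓ sSup 𝒩 : Submodule ℝ D) :=
      Submodule.finiteDimensional_inf_left _ _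
    exact Module.Finite.iff_fg.1 inferInstance
  exact (CompleteLattice.isCompactElement_iff_le_of_directed_sSup_le _ _).1
    hcomp 𝒩 hne hdir inf_le_right

variable {ι : Type*} {E : ι → Type*} [∀ i, AddCommGroup (E i)] [∀ i, Module ℝ (E i)]

/-- Finitely closed subspaces of a product. -/
def FC (S : Submodule ℝ (∀ i, E i)) : Prop :=
  ∀ X : ∀ i, E i, (∀ F : Finset ι, ∃ Y ∈ S, ∀ i ∈ F, Y i = X i) → X ∈ S

/-- Functionals depending on the coordinates in `F`. -/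
def WF (F : Finset ι) : Submodule ℝ (Module.Dual ℝ (∀ i, E i)) where
  carrier := {f | ∀ X : ∀ i, E i, (∀ i ∈ F, X i = 0) → f X = 0}
  add_mem' := by
    intro a b ha hb X hX
    rw [LinearMap.add_apply, ha X hX, hb X hX, add_zero]
  zero_mem' := by intro X _; rfl
  smul_mem' := by
    intro c a ha X hX
    rw [LinearMap.smul_apply, ha X hX, smul_zero]

/-- Annihilators consisting of functionals with finite support. -/
def NS (S : Submodule ℝ (∀ i, E i)) : Submodule ℝ (Module.Dual ℝ (∀ i, E i)) where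
  carrier := {f | (∃ F : Finset ι, f ∈ WF F) ∧ ∀ X ∈ S, f X = 0}
  add_mem' := by
    classical
    rintro a b ⟨⟨F, hF⟩, ha⟩ ⟨⟨F', hF'⟩, hb⟩
    refine ⟨⟨F ∪ F', (WF _).add_mem ?_ ?_⟩, fun X hX => ?_⟩
    · exact fun X hX => hF X fun i hi => hX i (Finset.mem_union_left _ hi)
    · exact fun X hX => hF' X fun i hi => hX i (Finset.mem_union_right _ hi)
    · rw [LinearMap.add_apply, ha X hX, hb X hX, add_zero]
  zero_mem' := ⟨⟨∅, (WF _).zero_mem⟩, fun X _ => rfl⟩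
  smul_mem' := by
    rintro c a ⟨⟨F, hF⟩, ha⟩
    exact ⟨⟨F, (WF _).smul_mem c hF⟩, fun X hX => by rw [LinearMap.smul_apply, ha X hX, smul_zero]⟩

lemma WF_expand [DecidableEq ι] {F : Finset ι} {f : Module.Dual ℝ (∀ i, E i)} (hf : f ∈ WF F)
    (X : ∀ i, E i) : f X = ∑ i ∈ F, f (Pi.single i (X i)) := by
  have h1 : f (X - ∑ i ∈ F, Pi.single i (X i)) = 0 := by
    refine hf _ fun i hi => ?_
    rw [Pi.sub_apply, Finset.sum_apply, Finset.sum_eq_single i]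
    · simp
    · intro j _ hj; exact Pi.single_eq_of_ne (Ne.symm hj) _
    · intro h; exact absurd hi h
  rw [map_sub, map_sum, sub_eq_zero] at h1
  exact h1

variable [∀ i, FiniteDimensional ℝ (E i)]

lemma WF_fd (F : Finset ι) : FiniteDimensional ℝ (WF (E := E) F) := by
  classical
  let Ph : (∀ i : F, Module.Dual ℝ (E i)) →ₗ[ℝ] Module.Dual ℝ (∀ i, E i) :=
    ∑ i : F, (LinearMap.proj (R := ℝ) (φ := E) (i : ι)).dualMap ∘ₗ LinearMap.proj i
  have hPh : ∀ ψ X, Ph ψ X = ∑ i : F, ψ i (X i) := by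
    intro ψ X
    simp [Ph, LinearMap.sum_apply]
  have h : WF (E := E) F ≤ LinearMap.range Ph := by
    intro f hf
    refine ⟨fun i => f ∘ₗ LinearMap.single ℝ E (i : ι), ?_⟩
    ext X
    rw [hPh, WF_expand hf X]
    exact Finset.sum_coe_sort F (fun i => f (Pi.single i (X i)))
  exact Submodule.finiteDimensional_of_le h

/-- **Linear compactness.** -/
theorem lin_compact {𝒮 : Set (Submodule ℝ (∀ i, E i))} (hne : 𝒮.Nonempty)
    (hdir : ∀ S ∈ 𝒮, ∀ S' ∈ 𝒮, ∃ S'' ∈ 𝒮, S'' ≤ S ∧ S'' ≤ S') (hFC : ∀ S ∈ 𝒮, FC S) (F : Finset ι) :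
    ∃ S ∈ 𝒮, ∀ X ∈ S, ∃ X' : ∀ i, E i, (∀ S' ∈ 𝒮, X' ∈ S') ∧ ∀ i ∈ F, X' i = X i := by
  classical
  let N : Submodule ℝ (Module.Dual ℝ (∀ i, E i)) := sSup (NS '' 𝒮)
  haveI := WF_fd (E := E) F
  have hdirN : DirectedOn (· ≤ ·) (NS '' 𝒮) := by
    rintro _ ⟨S, hS, rfl⟩ _ ⟨S', hS', rfl⟩
    obtain ⟨S'', hS'', h1, h2⟩ := hdir S hS S' hS'
    refine ⟨_, ⟨S'', hS'', rfl⟩, ?_, ?_⟩
    · exact fun f hf => ⟨hf.1, fun X hX => hf.2 X (h1 hX)⟩
    · exact fun f hf => ⟨hf.1, fun X hX => hf.2 X (h2 hX)⟩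
  obtain ⟨_, ⟨S, hS, rfl⟩, hSle⟩ := exists_le_of_directed (WF (E := E) F) (NS '' 𝒮)
    (hne.image _) hdirN
  refine ⟨S, hS, fun X hX => ?_⟩
  obtain ⟨Λ, hΛN, hΛW⟩ := exists_ext (WF (E := E) F) N (Module.Dual.eval ℝ (∀ i, E i) X)
    (fun φ hφ hφN => (hSle ⟨hφ, hφN⟩).2 X hX)
  let X' : ∀ i, E i := fun i => (Module.evalEquiv ℝ (E i)).symm
    (Λ ∘ₗ (LinearMap.proj (R := ℝ) (φ := E) i).dualMap)
  have hX' : ∀ i (ψ : Module.Dual ℝ (E i)), ψ (X' i) = Λ (ψ ∘ₗ LinearMap.proj i) := by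
    intro i ψ
    have h1 : Module.evalEquiv ℝ (E i) (X' i) = Λ ∘ₗ (LinearMap.proj (R := ℝ) (φ := E) i).dualMap :=
      LinearEquiv.apply_symm_apply _ _
    have h2 := LinearMap.congr_fun h1 ψ
    exact h2
  have hΛ : ∀ (F' : Finset ι), ∀ φ ∈ WF (E := E) F', Λ φ = φ X' := by
    intro F' φ hφ
    have h1 : φ = ∑ i ∈ F', (φ ∘ₗ LinearMap.single ℝ E i) ∘ₗ LinearMap.proj i := by
      ext Y
      rw [WF_expand hφ Y, LinearMap.sum_apply]
      rfl
    conv_lhs => rw [h1, map_sum]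
    rw [WF_expand hφ X']
    refine Finset.sum_congr rfl fun i _ => ?_
    rw [← hX']
    rfl
  refine ⟨X', ?_, ?_⟩
  · intro S' hS'
    refine hFC S' hS' X' fun F' => ?_
    by_contra hcon
    push Not at hcon
    let p : (∀ i, E i) →ₗ[ℝ] (∀ i : F', E i) := LinearMap.pi fun i => LinearMap.proj (i : ι)
    have hnot : p X' ∉ S'.map p := by
      rintro ⟨Y, hY, hYX⟩
      obtain ⟨i, hi, hne⟩ := hcon Y hY
      exact hne (congrFun hYX ⟨i, hi⟩)
    obtain ⟨ψ, hψ, hψS⟩ := Submodule.exists_dual_map_eq_bot_of_notMem hnot inferInstance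
    have h1 : ψ ∘ₗ p ∈ WF (E := E) F' := by
      intro Y hY
      have : p Y = 0 := by
        funext i; exact hY i i.2
      rw [LinearMap.comp_apply, this, map_zero]
    have h2 : ψ ∘ₗ p ∈ N := by
      have h3 : ψ ∘ₗ p ∈ NS S' := by
        refine ⟨⟨F', h1⟩, fun Y hY => ?_⟩
        have h4 : ψ (p Y) ∈ (S'.map p).map ψ := ⟨p Y, ⟨Y, hY, rfl⟩, rfl⟩
        rw [hψS, Submodule.mem_bot] at h4
        exact h4
      have h4 : NS S' ≤ N := le_sSup ⟨S', hS', rfl⟩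
      exact h4 h3
    have h3 := hΛN _ h2
    rw [hΛ F' _ h1] at h3
    exact hψ h3
  · intro i hi
    rw [← sub_eq_zero, ← Module.forall_dual_apply_eq_zero_iff ℝ]
    intro ψ
    rw [map_sub, hX', hΛW]
    · simp
    · intro Y hY
      change ψ (Y i) = 0
      rw [hY i hi, map_zero]

end Pool.Agent.TH77
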