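import Pool.Agent.TH77.StarB
import Pool.Agent.TH77.LinCompact
import Pool.Agent.TH77.Constr

set_option autoImplicit false
set_option linter.unusedSectionVars false
set_option linter.style.haveILetI false

/-!
# Closed subgroups of products of Lie groups
-/

open Filter Topology Metric Set

namespace Pool.Agent.TH77

namespace PL

variable {ι : Type*} {H : ι → Type*} {E : ι → Type*} [∀ i, Group (H i)]
  [∀ i, TopologicalSpace (H i)] [∀ i, IsTopologicalGroup (H i)] [∀ i, T2Space (H i)]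
  [∀ i, NormedAddCommGroup (E i)] [∀ i, NormedSpace ℝ (E i)] [∀ i, FiniteDimensional ℝ (E i)]
  (L : ∀ i, LG (H i) (E i))

/-- The exponential map of a product. -/
def ex (X : ∀ i, E i) : ∀ i, H i := fun i => (L i).exp (X i)

lemma ex_apply (X : ∀ i, E i) (i : ι) : ex L X i = (L i).exp (X i) := rfl

lemma ex_zero : ex L (0 : ∀ i, E i) = 1 := by
  funext i; exact (L i).exp_zero

lemma ex_neg (X : ∀ i, E i) : ex L (-X) = (ex L X)⁻¹ := by
  funext i; exact (L i).exp_neg _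

lemma ex_add_smul (s t : ℝ) (X : ∀ i, E i) : ex L ((s + t) • X) = ex L (s • X) * ex L (t • X) := by
  funext i; exact (L i).exp_add s t (X i)

lemma continuous_ex : Continuous (ex L) :=
  continuous_pi fun i => (L i).cont.comp (continuous_apply i)

lemma trotterP (X Y : ∀ i, E i) :
    Tendsto (fun n : ℕ => (ex L ((1 / ((n : ℝ) + 1)) • X) * ex L ((1 / ((n : ℝ) + 1)) • Y)) ^
      (n + 1)) atTop (𝓝 (ex L (X + Y))) := by
  rw [tendsto_pi_nhds]
  intro i
  exact (L i).trotter (X i) (Y i)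

/-- The space of one-parameter subgroups of a closed subgroup. -/
def gL (G : Subgroup (∀ i, H i)) (hG : IsClosed (G : Set (∀ i, H i))) : Submodule ℝ (∀ i, E i) where
  carrier := {X | ∀ t : ℝ, ex L (t • X) ∈ G}
  zero_mem' := fun t => by rw [smul_zero, ex_zero]; exact G.one_mem
  smul_mem' := fun c X hX t => by rw [smul_smul]; exact hX _
  add_mem' := by
    intro X Y hX hY t
    rw [smul_add]
    refine hG.mem_of_tendsto (trotterP L (t • X) (t • Y)) (Eventually.of_forall fun n => ?_)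
    refine G.pow_mem (G.mul_mem ?_ ?_) _
    · rw [smul_smul]; exact hX _
    · rw [smul_smul]; exact hY _

lemma mem_gL {G : Subgroup (∀ i, H i)} {hG : IsClosed (G : Set (∀ i, H i))} {X : ∀ i, E i} :
    X ∈ gL L G hG ↔ ∀ t : ℝ, ex L (t • X) ∈ G := Iff.rfl

/-- The subgroup generated by exponentials. -/
def LS (m : Submodule ℝ (∀ i, E i)) : Subgroup (∀ i, H i) := Subgroup.closure (ex L '' (m : Set (∀ i, E i)))

lemma ex_mem_LS {m : Submodule ℝ (∀ i, E i)} {X : ∀ i, E i} (hX : X ∈ m) : ex L X ∈ LS L m :=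
  Subgroup.subset_closure ⟨X, hX, rfl⟩

lemma LS_le {m : Submodule ℝ (∀ i, E i)} {K : Subgroup (∀ i, H i)} (h : ∀ X ∈ m, ex L X ∈ K) :
    LS L m ≤ K := by
  rw [LS, Subgroup.closure_le]
  rintro _ ⟨X, hX, rfl⟩
  exact h X hX

lemma LS_mono {m n : Submodule ℝ (∀ i, E i)} (h : m ≤ n) : LS L m ≤ LS L n :=
  LS_le L fun _ hX => ex_mem_LS L (h hX)

lemma LS_gL_le (G : Subgroup (∀ i, H i)) (hG : IsClosed (G : Set (∀ i, H i))) :
    LS L (gL L G hG) ≤ G :=
  LS_le L fun X hX => by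
    have := hX 1
    rwa [one_smul] at this

/-- Elements trivial on a set of coordinates. -/
def fixS (H : ι → Type*) [∀ i, Group (H i)] (B : Set ι) : Subgroup (∀ i, H i) where
  carrier := {g | ∀ i ∈ B, g i = 1}
  mul_mem' := by
    intro a b ha hb i hi
    rw [Pi.mul_apply, ha i hi, hb i hi, one_mul]
  one_mem' := fun _ _ => rfl
  inv_mem' := by
    intro a ha i hi
    rw [Pi.inv_apply, ha i hi, inv_one]

lemma isClosed_fixS (B : Set ι) : IsClosed (fixS H B : Set (∀ i, H i)) := by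
  have : (fixS H B : Set (∀ i, H i)) = ⋂ i ∈ B, {g | g i = 1} := by
    ext g
    simp only [mem_iInter, mem_ofPred_eq]
    rfl
  rw [this]
  exact isClosed_biInter fun i _ => isClosed_eq (continuous_apply i) continuous_const

/-- Vectors trivial on a set of coordinates. -/
def zeroS (E : ι → Type*) [∀ i, AddCommGroup (E i)] [∀ i, Module ℝ (E i)] (B : Set ι) :
    Submodule ℝ (∀ i, E i) where
  carrier := {X | ∀ i ∈ B, X i = 0}
  add_mem' := by
    intro a b ha hb i hi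
    rw [Pi.add_apply, ha i hi, hb i hi, add_zero]
  zero_mem' := fun _ _ => rfl
  smul_mem' := by
    intro c a ha i hi
    rw [Pi.smul_apply, ha i hi, smul_zero]

lemma gL_fix (G : Subgroup (∀ i, H i)) (hG : IsClosed (G : Set (∀ i, H i))) (B : Set ι) :
    gL L (G ⊓ fixS H B) (hG.inter (isClosed_fixS B)) = gL L G hG ⊓ zeroS E B := by
  ext X
  constructor
  · intro hX
    refine ⟨fun t => (hX t).1, fun i hi => ?_⟩
    refine (L i).eq_of_forall_exp fun t => ?_
    rw [smul_zero, (L i).exp_zero]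
    exact (hX t).2 i hi
  · rintro ⟨hX, hX'⟩ t
    refine ⟨hX t, fun i hi => ?_⟩
    rw [ex_apply, Pi.smul_apply, hX' i hi, smul_zero, (L i).exp_zero]

/-! ### restriction to finite sets -/

/-- Restriction of group elements. -/
def rH (H : ι → Type*) [∀ i, Group (H i)] (F : Finset ι) : (∀ i, H i) →* (∀ i : F, H i) where
  toFun x i := x i
  map_one' := rfl
  map_mul' _ _ := rfl

/-- Restriction of vectors. -/
def rE (E : ι → Type*) [∀ i, AddCommGroup (E i)] [∀ i, Module ℝ (E i)] (F : Finset ι) :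
    (∀ i, E i) →ₗ[ℝ] (∀ i : F, E i) where
  toFun x i := x i
  map_add' _ _ := rfl
  map_smul' _ _ := rfl

lemma continuous_rH (F : Finset ι) : Continuous (rH H F) :=
  continuous_pi fun i => continuous_apply (i : ι)

/-- The Lie group over a finite set of coordinates. -/
def LF (F : Finset ι) : LG (∀ i : F, H i) (∀ i : F, E i) := LG.pi fun i : F => L i

lemma LF_exp (F : Finset ι) (X : ∀ i, E i) : (LF L F).exp (rE E F X) = rH H F (ex L X) := rfl

lemma mem_of_fin {G : Subgroup (∀ i, H i)} (hG : IsClosed (G : Set (∀ i, H i))) (g : ∀ i, H i)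
    (h : ∀ F : Finset ι, rH H F g ∈ closure (rH H F '' (G : Set (∀ i, H i)))) : g ∈ G := by
  have hcl : g ∈ closure (G : Set (∀ i, H i)) := by
    rw [_root_.mem_closure_iff]
    intro U hU hgU
    obtain ⟨F, u, hu, hsub⟩ := isOpen_pi_iff.1 hU g hgU
    have hV : IsOpen {y : ∀ i : F, H i | ∀ i : F, y i ∈ u i} := by
      have : {y : ∀ i : F, H i | ∀ i : F, y i ∈ u i} = Set.pi univ (fun i : F => u i) := by
        ext y; simp
      rw [this]
      exact isOpen_set_pi finite_univ fun i _ => (hu i i.2).1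
    obtain ⟨_, hy, y, hyG, rfl⟩ := _root_.mem_closure_iff.1 (h F) _ hV (fun i => (hu i i.2).2)
    exact ⟨y, hsub fun i hi => hy ⟨i, hi⟩, hyG⟩
  rwa [hG.closure_eq] at hcl

lemma mem_of_fin' {G : Subgroup (∀ i, H i)} (hG : IsClosed (G : Set (∀ i, H i))) (g : ∀ i, H i)
    (h : ∀ F : Finset ι, ∃ y ∈ G, ∀ i ∈ F, y i = g i) : g ∈ G := by
  refine mem_of_fin hG g fun F => subset_closure ?_
  obtain ⟨y, hy, hyg⟩ := h F
  exact ⟨y, hy, funext fun i => hyg i i.2⟩

lemma FC_gL (G : Subgroup (∀ i, H i)) (hG : IsClosed (G : Set (∀ i, H i))) : FC (gL L G hG) := by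
  intro X hX t
  refine mem_of_fin' hG _ fun F => ?_
  obtain ⟨Y, hY, hYX⟩ := hX F
  refine ⟨_, hY t, fun i hi => ?_⟩
  rw [ex_apply, ex_apply, Pi.smul_apply, Pi.smul_apply, hYX i hi]

lemma FC_inf {S T : Submodule ℝ (∀ i, E i)} (hS : FC S) (hT : FC T) : FC (S ⊓ T) := by
  intro X hX
  refine ⟨hS X fun F => ?_, hT X fun F => ?_⟩
  · obtain ⟨Y, hY, h⟩ := hX F; exact ⟨Y, hY.1, h⟩
  · obtain ⟨Y, hY, h⟩ := hX F; exact ⟨Y, hY.2, h⟩

lemma FC_zeroS (B : Set ι) : FC (zeroS E B) := by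
  classical
  intro X hX i hi
  obtain ⟨Y, hY, h⟩ := hX {i}
  rw [← h i (Finset.mem_singleton_self i)]
  exact hY i hi

/-- Closure of the finite projections. -/
def MF (G : Subgroup (∀ i, H i)) (F : Finset ι) : Subgroup (∀ i : F, H i) :=
  (G.map (rH H F)).topologicalClosure

lemma isClosed_MF (G : Subgroup (∀ i, H i)) (F : Finset ι) : IsClosed (MF G F : Set (∀ i : F, H i)) :=
  Subgroup.isClosed_topologicalClosure _

lemma rH_mem_MF {G : Subgroup (∀ i, H i)} {g : ∀ i, H i} (hg : g ∈ G) (F : Finset ι) :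
    rH H F g ∈ MF G F := Subgroup.le_topologicalClosure _ ⟨g, hg, rfl⟩

lemma MF_restrict (G : Subgroup (∀ i, H i)) {F F' : Finset ι} (h : F ⊆ F') (x : ∀ i : F', H i)
    (hx : x ∈ MF G F') : (fun i : F => x ⟨i, h i.2⟩) ∈ MF G F := by
  have hc : Continuous fun x : ∀ i : F', H i => (fun i : F => x ⟨i, h i.2⟩ : ∀ i : F, H i) :=
    continuous_pi fun i => continuous_apply _
  have h1 : closure (G.map (rH H F') : Set (∀ i : F', H i)) ⊆
      (fun x : ∀ i : F', H i => (fun i : F => x ⟨i, h i.2⟩ : ∀ i : F, H i)) ⁻¹' (MF G F) := by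
    refine closure_minimal ?_ ((isClosed_MF G F).preimage hc)
    rintro _ ⟨g, hg, rfl⟩
    exact rH_mem_MF hg F
  exact h1 hx

/-- The Lie algebras of the finite projections. -/
noncomputable def mF (G : Subgroup (∀ i, H i)) (F : Finset ι) : Submodule ℝ (∀ i : F, E i) :=
  (LF L F).lie (MF G F) (isClosed_MF G F)

lemma gL_of_mF (G : Subgroup (∀ i, H i)) (hG : IsClosed (G : Set (∀ i, H i))) (X : ∀ i, E i)
    (h : ∀ F : Finset ι, rE E F X ∈ mF L G F) : X ∈ gL L G hG := by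
  intro t
  refine mem_of_fin hG _ fun F => ?_
  have := h F t
  exact this

/-- Surjectivity onto the projections of the Lie algebra. -/
theorem exists_stable (G : Subgroup (∀ i, H i)) (hG : IsClosed (G : Set (∀ i, H i))) (F : Finset ι) :
    ∃ F' : Finset ι, F ⊆ F' ∧ ∀ m ∈ mF L G F', ∃ X ∈ gL L G hG, ∀ i ∈ F, ∀ hi' : i ∈ F',
      X i = m ⟨i, hi'⟩ := by
  classical
  have hanti : ∀ {F F' : Finset ι}, F ⊆ F' → (mF L G F').comap (rE E F') ≤ (mF L G F).comap (rE E F) := by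
    intro F F' h X hX t
    exact MF_restrict G h _ (hX t)
  obtain ⟨_, ⟨F₁, rfl⟩, hF₁⟩ := lin_compact (E := E)
    (𝒮 := range fun F' : Finset ι => (mF L G F').comap (rE E F')) (range_nonempty _)
    (by
      rintro _ ⟨F₁, rfl⟩ _ ⟨F₂, rfl⟩
      exact ⟨_, ⟨F₁ ∪ F₂, rfl⟩, hanti Finset.subset_union_left, hanti Finset.subset_union_right⟩)
    (by
      rintro _ ⟨F₁, rfl⟩ X hX
      obtain ⟨Y, hY, hYX⟩ := hX F₁
      have : rE E F₁ X = rE E F₁ Y := funext fun i => (hYX i i.2).symm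
      change rE E F₁ X ∈ mF L G F₁
      rw [this]; exact hY) F
  refine ⟨F ∪ F₁, Finset.subset_union_left, fun m hm => ?_⟩
  let X : ∀ i, E i := fun i => if h : i ∈ F ∪ F₁ then m ⟨i, h⟩ else 0
  have hX : rE E (F ∪ F₁) X = m := by
    funext i
    change (if h : (i : ι) ∈ F ∪ F₁ then m ⟨i, h⟩ else 0) = m i
    rw [dif_pos i.2]
  have hX1 : X ∈ (mF L G F₁).comap (rE E F₁) := by
    refine hanti (F := F₁) (F' := F ∪ F₁) Finset.subset_union_right ?_
    change rE E (F ∪ F₁) X ∈ mF L G (F ∪ F₁)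
    rw [hX]; exact hm
  obtain ⟨X', hX', hXX'⟩ := hF₁ X hX1
  refine ⟨X', gL_of_mF L G hG X' fun F'' => hX' _ ⟨F'', rfl⟩, fun i hi hi' => ?_⟩
  rw [hXX' i hi]
  change (if h : i ∈ F ∪ F₁ then m ⟨i, h⟩ else 0) = m ⟨i, hi'⟩
  rw [dif_pos hi']

/-- Elements of `G` near `1` project into the subgroup generated by one-parameter subgroups. -/
theorem eventually_proj (G : Subgroup (∀ i, H i)) (hG : IsClosed (G : Set (∀ i, H i)))
    (F : Finset ι) : ∀ᶠ g in 𝓝 (1 : ∀ i, H i), g ∈ G →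
      ∃ l ∈ LS L (gL L G hG), ∀ i ∈ F, l i = g i := by
  obtain ⟨F', hFF', hst⟩ := exists_stable L G hG F
  obtain ⟨r, hr, hball⟩ := (LF L F').exists_ball_mem_lie (MF G F') (isClosed_MF G F')
  have h1 : Tendsto (rH H F') (𝓝 1) (𝓝 1) := by
    have := (continuous_rH (H := H) F').tendsto 1
    rwa [map_one] at this
  filter_upwards [h1.eventually ((LF L F').exists_exp_eq hr)] with g hg hgG
  obtain ⟨m, hm, hmg⟩ := hg
  have hmM : m ∈ mF L G F' := by
    refine hball m hm ?_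
    rw [hmg]
    exact rH_mem_MF hgG F'
  obtain ⟨X, hX, hXm⟩ := hst m hmM
  refine ⟨ex L X, ex_mem_LS L hX, fun i hi => ?_⟩
  have h2 := congrFun hmg ⟨i, hFF' hi⟩
  rw [ex_apply, hXm i hi (hFF' hi)]
  exact h2

/-- The projected Lie algebra. -/
def pE (𝔤 : Submodule ℝ (∀ i, E i)) (F : Finset ι) : Submodule ℝ (∀ i : F, E i) := 𝔤.map (rE E F)

lemma exists_section (𝔤 : Submodule ℝ (∀ i, E i)) (F : Finset ι) :
    ∃ s : pE 𝔤 F →ₗ[ℝ] (∀ i, E i), (∀ x, s x ∈ 𝔤) ∧ ∀ x, rE E F (s x) = x := by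
  let f : 𝔤 →ₗ[ℝ] pE 𝔤 F :=
    { toFun := fun X => ⟨rE E F X, X, X.2, rfl⟩
      map_add' := fun _ _ => rfl
      map_smul' := fun _ _ => rfl }
  have hf : Function.Surjective f := by
    rintro ⟨_, X, hX, rfl⟩
    exact ⟨⟨X, hX⟩, rfl⟩
  obtain ⟨s, hs⟩ := f.exists_rightInverse_of_surjective (LinearMap.range_eq_top.2 hf)
  refine ⟨𝔤.subtype ∘ₗ s, fun x => (s x).2, fun x => ?_⟩
  have h1 := LinearMap.congr_fun hs x
  exact congrArg Subtype.val h1

/-- Local closure of the projected Lie algebra under multiplication. -/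
theorem local_closure (G : Subgroup (∀ i, H i)) (hG : IsClosed (G : Set (∀ i, H i))) (F : Finset ι) :
    ∀ᶠ p in 𝓝 (0 : pE (gL L G hG) F × pE (gL L G hG) F),
      (LF L F).mul ((p.1 : ∀ i : F, E i), (p.2 : ∀ i : F, E i)) ∈ pE (gL L G hG) F := by
  obtain ⟨F', hFF', hst⟩ := exists_stable L G hG F
  obtain ⟨r, hr, hball⟩ := (LF L F').exists_ball_mem_lie (MF G F') (isClosed_MF G F')
  obtain ⟨s, hs1, hs2⟩ := exists_section (gL L G hG) F
  let t : pE (gL L G hG) F →ₗ[ℝ] (∀ i : F', E i) := rE E F' ∘ₗ s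
  have ht : Continuous t := LinearMap.continuous_of_finiteDimensional t
  have htm : ∀ x, t x ∈ mF L G F' := fun x τ => rH_mem_MF (hs1 x τ) F'
  have h1 : Tendsto (fun p : pE (gL L G hG) F × pE (gL L G hG) F => (t p.1, t p.2)) (𝓝 0) (𝓝 0) := by
    have h2 : Continuous fun p : pE (gL L G hG) F × pE (gL L G hG) F => (t p.1, t p.2) := by fun_prop
    exact h2.tendsto' 0 0 (Prod.ext (map_zero t) (map_zero t))
  have h3 := (LF L F').mul_continuousAt_zero.comp h1
  filter_upwards [h1.eventually (LF L F').exp_mul, h3 (ball_mem_nhds 0 hr)] with p hp1 hp2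
  have hmem : (LF L F').mul (t p.1, t p.2) ∈ mF L G F' := by
    refine hball _ (by simpa using hp2) ?_
    have h4 : (LF L F').exp (t p.1) * (LF L F').exp (t p.2) = (LF L F').exp ((LF L F').mul (t p.1, t p.2)) :=
      hp1
    rw [← h4]
    exact (MF G F').mul_mem ((LF L F').exp_mem_of_mem_lie (htm _)) ((LF L F').exp_mem_of_mem_lie (htm _))
  obtain ⟨X, hX, hXm⟩ := hst _ hmem
  refine ⟨X, hX, ?_⟩
  funext i
  change X i = (L i).mul ((p.1 : ∀ i : F, E i) i, (p.2 : ∀ i : F, E i) i)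
  rw [hXm i i.2 (hFF' i.2)]
  change (L i).mul (s p.1 i, s p.2 i) = _
  have e1 : s p.1 i = (p.1 : ∀ i : F, E i) i := congrFun (hs2 p.1) i
  have e2 : s p.2 i = (p.2 : ∀ i : F, E i) i := congrFun (hs2 p.2) i
  rw [e1, e2]

lemma exists_proj {V : Type*} [NormedAddCommGroup V] [NormedSpace ℝ V] [FiniteDimensional ℝ V]
    (m : Submodule ℝ V) : ∃ P : V →L[ℝ] m, ∀ x : m, P x = x := by
  obtain ⟨q, hq⟩ := m.exists_isCompl
  refine ⟨LinearMap.toContinuousLinearMap (Submodule.projectionOnto m q hq), fun x => ?_⟩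
  exact Submodule.projectionOnto_apply_left hq x

/-- The projection of the generated subgroup, as a Lie group. -/
def AF (𝔤 : Submodule ℝ (∀ i, E i)) (F : Finset ι) : Subgroup (∀ i : F, H i) := (LS L 𝔤).map (rH H F)

lemma AF_eq (𝔤 : Submodule ℝ (∀ i, E i)) (F : Finset ι) : AF L 𝔤 F = (LF L F).gen (pE 𝔤 F) := by
  rw [AF, LS, MonoidHom.map_closure, LG.gen]
  congr 1
  ext x
  constructor
  · rintro ⟨_, ⟨X, hX, rfl⟩, rfl⟩
    exact ⟨rE E F X, ⟨X, hX, rfl⟩, rfl⟩
  · rintro ⟨_, ⟨X, hX, rfl⟩, rfl⟩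
    exact ⟨ex L X, ⟨X, hX, rfl⟩, rfl⟩

lemma exp_mem_AF {𝔤 : Submodule ℝ (∀ i, E i)} {F : Finset ι} (x : pE 𝔤 F) :
    (LF L F).exp (x : ∀ i : F, E i) ∈ AF L 𝔤 F := by
  rw [AF_eq]
  exact (LF L F).exp_mem_gen x.2

/-- The intrinsic Lie group data on the projection. -/
noncomputable def dataA (G : Subgroup (∀ i, H i)) (hG : IsClosed (G : Set (∀ i, H i))) (F : Finset ι) :
    (LF L F).Data (AF L (gL L G hG) F) (pE (gL L G hG) F) where
  π := (AF L (gL L G hG) F).subtype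
  e x := ⟨(LF L F).exp (x : ∀ i : F, E i), exp_mem_AF L x⟩
  P := (exists_proj (pE (gL L G hG) F)).choose
  P_apply := (exists_proj (pE (gL L G hG) F)).choose_spec
  e_add s t x := Subtype.ext ((LF L F).exp_add s t x)
  π_e _ := rfl
  mem := local_closure L G hG F
  e_mul := by
    have h1 : Tendsto (fun p : pE (gL L G hG) F × pE (gL L G hG) F =>
        ((p.1 : ∀ i : F, E i), (p.2 : ∀ i : F, E i))) (𝓝 0) (𝓝 0) := by
      have h2 : Continuous fun p : pE (gL L G hG) F × pE (gL L G hG) F =>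
        ((p.1 : ∀ i : F, E i), (p.2 : ∀ i : F, E i)) := by fun_prop
      exact h2.tendsto' 0 0 rfl
    filter_upwards [h1.eventually (LF L F).exp_mul, local_closure L G hG F] with p hp1 hp2
    refine Subtype.ext ?_
    have h3 := (exists_proj (pE (gL L G hG) F)).choose_spec ⟨_, hp2⟩
    change (LF L F).exp (p.1 : ∀ i : F, E i) * (LF L F).exp (p.2 : ∀ i : F, E i) =
      (LF L F).exp ((exists_proj (pE (gL L G hG) F)).choose ((LF L F).mul
        ((p.1 : ∀ i : F, E i), (p.2 : ∀ i : F, E i))) : ∀ i : F, E i)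
    rw [h3]
    exact hp1
  gen := by
    rw [eq_top_iff]
    rintro ⟨x, hx⟩ _
    have hx' := hx
    rw [AF_eq, LG.gen] at hx'
    obtain ⟨y, hy, hyx⟩ := lift_closure (Z := AF L (gL L G hG) F)
      (S := (LF L F).exp '' (pE (gL L G hG) F : Set (∀ i : F, E i)))
      (by rintro _ ⟨m, hm, rfl⟩; exact exp_mem_AF L ⟨m, hm⟩) hx'
    have e1 : (⟨x, hx⟩ : AF L (gL L G hG) F) = y := Subtype.ext hyx.symm
    rw [e1]
    refine Subgroup.closure_mono ?_ hy
    rintro z ⟨m, hm, hmz⟩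
    exact ⟨⟨m, hm⟩, Subtype.ext hmz⟩

end PL

end Pool.Agent.TH77
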