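import Pool.Agent.TH77.UnitsLG

set_option autoImplicit false
set_option linter.unusedSectionVars false
set_option linter.style.haveILetI false

/-!
# The adjoint representation and the Lie bracket
-/

open Filter Topology Metric Set

namespace Pool.Agent.TH77

namespace LG

variable {H : Type*} [Group H] [TopologicalSpace H] [IsTopologicalGroup H] [T2Space H]
  {E : Type*} [NormedAddCommGroup E] [NormedSpace ℝ E] [FiniteDimensional ℝ E] (L : LG H E)

lemma linear_ext {f g : E →ₗ[ℝ] E} (h : ∀ x, L.exp (f x) = L.exp (g x)) : f = g := by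
  refine LinearMap.ext fun x => L.eq_of_forall_exp fun t => ?_
  rw [← map_smul, ← map_smul, h]

lemma exists_conj (a : H) : ∃ d : E →ₗ[ℝ] E, ∀ x, a * L.exp x * a⁻¹ = L.exp (d x) := by
  have h := L.exists_deriv L (MulAut.conj a).toMonoidHom (by
    show Continuous fun x => a * x * a⁻¹
    fun_prop)
  exact h

/-- the derivative of conjugation, as a linear map -/
noncomputable def conjD (a : H) : E →ₗ[ℝ] E := (L.exists_conj a).choose

lemma conjD_spec (a : H) (x : E) : a * L.exp x * a⁻¹ = L.exp (L.conjD a x) :=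
  (L.exists_conj a).choose_spec x

/-- the adjoint representation as a monoid homomorphism -/
noncomputable def AdM : H →* (E →L[ℝ] E) where
  toFun a := LinearMap.toContinuousLinearMap (L.conjD a)
  map_one' := by
    have h : L.conjD 1 = LinearMap.id := L.linear_ext fun x => by
      rw [← L.conjD_spec]; simp
    ext x
    show L.conjD 1 x = x
    rw [h]; rfl
  map_mul' a b := by
    have h : L.conjD (a * b) = (L.conjD a).comp (L.conjD b) := L.linear_ext fun x => by
      rw [← L.conjD_spec, LinearMap.comp_apply, ← L.conjD_spec, ← L.conjD_spec]; group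
    ext x
    show L.conjD (a * b) x = L.conjD a (L.conjD b x)
    rw [h]; rfl

/-- the adjoint representation -/
noncomputable def Ad : H →* (E →L[ℝ] E)ˣ := L.AdM.toHomUnits

lemma Ad_val (a : H) (x : E) : ((L.Ad a : E →L[ℝ] E)) x = L.conjD a x := rfl

lemma Ad_spec (a : H) (x : E) : a * L.exp x * a⁻¹ = L.exp ((L.Ad a : E →L[ℝ] E) x) :=
  L.conjD_spec a x

lemma exp_Ad (a : H) (x : E) : L.exp ((L.Ad a : E →L[ℝ] E) x) = a * L.exp x * a⁻¹ :=
  (L.conjD_spec a x).symm

lemma Ad_tendsto (x : E) : Tendsto (fun a : H => (L.Ad a : E →L[ℝ] E) x) (𝓝 1) (𝓝 x) := by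
  obtain ⟨r, hr, hinj⟩ := L.inj
  -- reduce to small `x`
  have hsmall : ∀ᶠ y in 𝓝 (0 : E), L.exp '' ball 0 (r / 2) ∈ 𝓝 (L.exp y) := by
    have h1 : interior (L.exp '' ball 0 (r / 2)) ∈ 𝓝 (1 : H) :=
      interior_mem_nhds.2 (L.image_ball_mem (by positivity))
    have h2 : Tendsto L.exp (𝓝 0) (𝓝 1) := L.nhds.le
    filter_upwards [h2 h1] with y hy
    exact mem_interior_iff_mem_nhds.1 hy
  obtain ⟨ρ, hρ, hball⟩ := Metric.eventually_nhds_iff.1 hsmall
  have key : ∀ x : E, ‖x‖ < ρ → Tendsto (fun a : H => (L.Ad a : E →L[ℝ] E) x) (𝓝 1) (𝓝 x) := by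
    intro x hx
    have h1 : ∀ᶠ a in 𝓝 (1 : H), ∀ t ∈ Icc (0 : ℝ) 1,
        a * L.exp (t • x) * a⁻¹ ∈ L.exp '' ball 0 (r / 2) := by
      refine isCompact_Icc.eventually_forall_of_forall_eventually fun t ht => ?_
      have hc : Continuous fun z : H × ℝ => z.1 * L.exp (z.2 • x) * z.1⁻¹ := by
        have : Continuous fun z : H × ℝ => L.exp (z.2 • x) := L.cont.comp (by fun_prop)
        fun_prop
      have h2 : Tendsto (fun z : H × ℝ => z.1 * L.exp (z.2 • x) * z.1⁻¹) (𝓝 (1, t))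
          (𝓝 (L.exp (t • x))) := hc.tendsto' _ _ (by simp)
      refine h2 (hball ?_)
      rw [dist_zero_right, norm_smul, Real.norm_of_nonneg ht.1]
      calc t * ‖x‖ ≤ 1 * ‖x‖ := by gcongr; exact ht.2
        _ < ρ := by rw [one_mul]; exact hx
    have h2 : ∀ᶠ a in 𝓝 (1 : H), (L.Ad a : E →L[ℝ] E) x ∈ closedBall (0 : E) (3 * r / 4) := by
      filter_upwards [h1] with a ha
      by_contra hcon
      rw [mem_closedBall_zero_iff, not_le] at hcon
      set y := (L.Ad a : E →L[ℝ] E) x with hy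
      have hy0 : 0 < ‖y‖ := lt_trans (by positivity) hcon
      have ht : (3 * r / 4) / ‖y‖ ∈ Icc (0 : ℝ) 1 :=
        ⟨by positivity, (div_le_one hy0).2 hcon.le⟩
      have h3 := ha _ ht
      rw [L.Ad_spec, map_smul, ← hy] at h3
      obtain ⟨w, hw, hwe⟩ := h3
      have hw' : ‖w‖ < r / 2 := by simpa using hw
      have hn : ‖((3 * r / 4) / ‖y‖) • y‖ = 3 * r / 4 := by
        rw [norm_smul, Real.norm_of_nonneg (by positivity)]
        field_simp
      have h4 : w = ((3 * r / 4) / ‖y‖) • y := by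
        refine hinj ?_ ?_ hwe
        · rw [mem_ball_zero_iff]; linarith
        · rw [mem_ball_zero_iff, hn]; linarith
      rw [h4, hn] at hw'
      linarith
    haveI : ProperSpace E := FiniteDimensional.proper ℝ E
    refine (isCompact_closedBall (0 : E) (3 * r / 4)).tendsto_nhds_of_unique_mapClusterPt h2 ?_
    intro y _ hcl
    refine L.eq_of_forall_exp fun t => ?_
    have h3 : MapClusterPt (L.exp (t • y)) (𝓝 1)
        ((fun z => L.exp (t • z)) ∘ fun a : H => (L.Ad a : E →L[ℝ] E) x) := by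
      exact MapClusterPt.continuousAt_comp (f := fun z => L.exp (t • z))
        (L.cont.comp (continuous_const_smul t)).continuousAt hcl
    have h4 : Tendsto ((fun z => L.exp (t • z)) ∘ fun a : H => (L.Ad a : E →L[ℝ] E) x) (𝓝 1)
        (𝓝 (L.exp (t • x))) := by
      have h5 : Tendsto (fun a : H => a * L.exp (t • x) * a⁻¹) (𝓝 1) (𝓝 (L.exp (t • x))) := by
        have : Continuous fun a : H => a * L.exp (t • x) * a⁻¹ := by fun_prop
        exact this.tendsto' _ _ (by simp)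
      refine h5.congr fun a => ?_
      rw [Function.comp_apply, ← map_smul, L.exp_Ad]
    have h6 : ClusterPt (L.exp (t • y)) (𝓝 (L.exp (t • x))) := ClusterPt.mono h3 h4
    exact eq_of_nhds_neBot h6
  by_cases hx : x = 0
  · subst hx
    simp only [map_zero]
    exact tendsto_const_nhds
  · have hx0 : 0 < ‖x‖ := norm_pos_iff.2 hx
    set c := ρ / (2 * ‖x‖) with hc
    have hc0 : 0 < c := by positivity
    have h1 := key (c • x) (by
      rw [norm_smul, Real.norm_of_nonneg hc0.le, hc]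
      field_simp
      linarith)
    have h2 := h1.const_smul c⁻¹
    rw [smul_smul, inv_mul_cancel₀ hc0.ne', one_smul] at h2
    refine h2.congr fun a => ?_
    rw [map_smul, smul_smul, inv_mul_cancel₀ hc0.ne', one_smul]

lemma continuous_Ad : Continuous L.Ad := by
  haveI : CompleteSpace E := FiniteDimensional.complete ℝ E
  refine continuous_of_continuousAt_one L.Ad ?_
  have hemb : Topology.IsOpenEmbedding (Units.val : (E →L[ℝ] E)ˣ → (E →L[ℝ] E)) :=
    Units.isOpenEmbedding_val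
  rw [hemb.isEmbedding.continuousAt_iff]
  refine continuousAt_clm_apply.2 fun x => ?_
  show Tendsto (fun a : H => (L.Ad a : E →L[ℝ] E) x) (𝓝 1) (𝓝 ((L.Ad 1 : E →L[ℝ] E) x))
  rw [map_one]
  exact L.Ad_tendsto x

lemma exists_ad : ∃ d : E →ₗ[ℝ] (E →L[ℝ] E), ∀ x,
    ((L.Ad (L.exp x) : (E →L[ℝ] E)ˣ) : E →L[ℝ] E) = NormedSpace.exp (d x) := by
  haveI : CompleteSpace E := FiniteDimensional.complete ℝ E
  obtain ⟨d, hd⟩ := L.exists_deriv (LG.units (E →L[ℝ] E)) L.Ad L.continuous_Ad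
  refine ⟨d, fun x => ?_⟩
  rw [hd]
  rfl

/-- the adjoint representation of the Lie algebra -/
noncomputable def ad : E →ₗ[ℝ] (E →L[ℝ] E) := L.exists_ad.choose

lemma Ad_exp (x : E) : ((L.Ad (L.exp x) : (E →L[ℝ] E)ˣ) : E →L[ℝ] E) = NormedSpace.exp (L.ad x) :=
  L.exists_ad.choose_spec x

/-- uniqueness of logarithms of one-parameter groups of operators -/
lemma op_eq_of_forall_exp {V : Type*} [NormedAddCommGroup V] [NormedSpace ℝ V] [CompleteSpace V]
    {A B : V →L[ℝ] V} (h : ∀ t : ℝ, NormedSpace.exp (t • A) = NormedSpace.exp (t • B)) : A = B := by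
  refine (LG.units (V →L[ℝ] V)).eq_of_forall_exp fun t => ?_
  ext1
  exact h t

lemma op_hasDerivAt {V : Type*} [NormedAddCommGroup V] [NormedSpace ℝ V] [CompleteSpace V]
    (A : V →L[ℝ] V) (v : V) : HasDerivAt (fun t : ℝ => NormedSpace.exp (t • A) v) (A v) 0 := by
  have h1 : HasDerivAt (fun t : ℝ => NormedSpace.exp (t • A)) (NormedSpace.exp ((0 : ℝ) • A) * A) 0 :=
    hasDerivAt_exp_smul_const A 0
  rw [zero_smul, NormedSpace.exp_zero, one_mul] at h1
  have h2 := h1.clm_apply (hasDerivAt_const (0 : ℝ) v)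
  simpa using h2

lemma ad_Ad (a : H) (x : E) : L.ad ((L.Ad a : E →L[ℝ] E) x) =
    (L.Ad a : E →L[ℝ] E) * L.ad x * ((L.Ad a)⁻¹ : (E →L[ℝ] E)ˣ) := by
  haveI : CompleteSpace E := FiniteDimensional.complete ℝ E
  refine op_eq_of_forall_exp fun t => ?_
  rw [← map_smul, ← L.Ad_exp, ← map_smul, L.exp_Ad, map_mul, map_mul, map_inv, Units.val_mul,
    Units.val_mul, L.Ad_exp, map_smul]
  letI : NormedAlgebra ℚ (E →L[ℝ] E) := NormedAlgebra.restrictScalars ℚ ℝ (E →L[ℝ] E)
  rw [← NormedSpace.exp_units_conj]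
  congr 1
  rw [mul_smul_comm, smul_mul_assoc]

lemma ad_self (x : E) : L.ad x x = 0 := by
  haveI : CompleteSpace E := FiniteDimensional.complete ℝ E
  have h1 : ∀ t : ℝ, NormedSpace.exp (t • L.ad x) x = x := by
    intro t
    rw [← map_smul, ← L.Ad_exp]
    refine L.eq_of_forall_exp fun s => ?_
    rw [← map_smul, L.exp_Ad, (L.commute_exp t s x).eq, mul_inv_cancel_right]
  have h2 := op_hasDerivAt (L.ad x) x
  simp only [h1] at h2
  exact h2.unique (hasDerivAt_const (0 : ℝ) x)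

/-- invariance of the bracket -/
lemma Ad_ad (a : H) (x y : E) : (L.Ad a : E →L[ℝ] E) (L.ad x y) =
    L.ad ((L.Ad a : E →L[ℝ] E) x) ((L.Ad a : E →L[ℝ] E) y) := by
  rw [L.ad_Ad]
  have h : (((L.Ad a)⁻¹ : (E →L[ℝ] E)ˣ) : E →L[ℝ] E) * (L.Ad a : E →L[ℝ] E) = 1 := Units.inv_mul _
  have h2 : (((L.Ad a)⁻¹ : (E →L[ℝ] E)ˣ) : E →L[ℝ] E) ((L.Ad a : E →L[ℝ] E) y) = y :=
    congrArg (fun T : E →L[ℝ] E => T y) h
  show (L.Ad a : E →L[ℝ] E) (L.ad x y) = (L.Ad a : E →L[ℝ] E) (L.ad x
    ((((L.Ad a)⁻¹ : (E →L[ℝ] E)ˣ) : E →L[ℝ] E) ((L.Ad a : E →L[ℝ] E) y)))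
  rw [h2]

lemma jacobi (x y z : E) : L.ad x (L.ad y z) = L.ad (L.ad x y) z + L.ad y (L.ad x z) := by
  haveI : CompleteSpace E := FiniteDimensional.complete ℝ E
  have h1 : ∀ t : ℝ, NormedSpace.exp (t • L.ad x) (L.ad y z) =
      L.ad (NormedSpace.exp (t • L.ad x) y) (NormedSpace.exp (t • L.ad x) z) := by
    intro t
    rw [← map_smul, ← L.Ad_exp]
    exact L.Ad_ad _ _ _
  have h2 := op_hasDerivAt (L.ad x) (L.ad y z)
  have h3 : HasDerivAt (fun t : ℝ => L.ad (NormedSpace.exp (t • L.ad x) y)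
      (NormedSpace.exp (t • L.ad x) z)) (L.ad (L.ad x y) z + L.ad y (L.ad x z)) 0 := by
    have hy := op_hasDerivAt (L.ad x) y
    have hz := op_hasDerivAt (L.ad x) z
    have had : HasDerivAt (fun t : ℝ => L.ad (NormedSpace.exp (t • L.ad x) y)) (L.ad (L.ad x y)) 0 := by
      have hl := (LinearMap.toContinuousLinearMap L.ad).hasFDerivAt
        (x := NormedSpace.exp ((0 : ℝ) • L.ad x) y)
      exact hl.comp_hasDerivAt (0 : ℝ) hy
    have h4 := had.clm_apply hz
    simpa [NormedSpace.exp_zero] using h4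
  simp only [← h1] at h3
  exact h2.unique h3

end LG

end Pool.Agent.TH77
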