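import Mathlib

/-!
An abstract slice argument in finite-dimensional normed spaces.
-/

set_option autoImplicit false

open Filter Topology

namespace Pool.Agent.TH77.Br

theorem abstract_slice {A W Y : Type*} [NormedAddCommGroup A] [NormedSpace ℝ A] [CompleteSpace A]
    [NormedAddCommGroup W] [NormedSpace ℝ W] [FiniteDimensional ℝ W]
    [NormedAddCommGroup Y] [NormedSpace ℝ Y]
    (F : A × W → W) (f' : A × W →L[ℝ] W) (hF : HasStrictFDerivAt F f' 0)
    (hf' : ∀ w, f' (0, w) = w) (δ : W → Y) (hadd : ∀ a b, δ (a + b) = δ a + δ b)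
    (hsmul : ∀ (c : ℝ) a, δ (c • a) = c • δ a) (C : ℝ)
    (P : W → Prop) (P0 : P 0) (Padd : ∀ a b, P a → P b → P (a + b))
    (Psmul : ∀ (c : ℝ) a, P a → P (c • a))
    (hker : ∀ w, P w → δ w = 0 → ∃ a, f' (a, 0) = w) :
    ∀ᶠ y in 𝓝 (F 0), ∃ a w, y = F (a, w) ∧ (P w → ‖δ w‖ ≤ C * ‖w‖ ^ 2 → w = 0) := by
  classical
  let T : A →ₗ[ℝ] W := (f' : A × W →ₗ[ℝ] W) ∘ₗ LinearMap.inl ℝ A W
  have hT : ∀ a, T a = f' (a, 0) := fun _ => rfl
  obtain ⟨q, hq⟩ := (LinearMap.range T).exists_isCompl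
  let alt : Submodule ℝ W := ⟨⟨⟨{w | P w}, fun {a b} => Padd a b⟩, P0⟩, fun c a h => Psmul c a h⟩
  let q' : Submodule ℝ W := q ⊓ alt
  let D : q' →ₗ[ℝ] Y :=
    { toFun := fun w => δ (w : W)
      map_add' := fun a b => hadd _ _
      map_smul' := fun c a => hsmul _ _ }
  have hDk : LinearMap.ker D = ⊥ := by
    rw [LinearMap.ker_eq_bot']
    intro w hw
    obtain ⟨a, ha⟩ := hker w w.2.2 hw
    exact Subtype.ext ((Submodule.disjoint_def.1 hq.disjoint) _ ⟨a, ha⟩ w.2.1)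
  obtain ⟨K, hK, hanti⟩ := LinearMap.exists_antilipschitzWith D hDk
  have hKb : ∀ w : q', ‖(w : W)‖ ≤ K * ‖δ (w : W)‖ := by
    intro w
    have := hanti.le_mul_dist w 0
    simp only [map_zero, dist_zero_right] at this
    exact this
  let inc : A × q →L[ℝ] A × W :=
    (ContinuousLinearMap.fst ℝ A q).prod (q.subtypeL ∘L ContinuousLinearMap.snd ℝ A q)
  have hsl : HasStrictFDerivAt (fun p : A × q => F (inc p)) (f' ∘L inc) 0 := by
    have h0 : HasStrictFDerivAt F f' (inc 0) := by rw [map_zero]; exact hF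
    exact h0.comp (0 : A × q) (inc.hasStrictFDerivAt)
  have hsurj : LinearMap.range (f' ∘L inc : A × q →L[ℝ] W).toLinearMap = ⊤ := by
    rw [eq_top_iff]
    intro μ _
    have hμ : μ ∈ LinearMap.range T ⊔ q := by rw [hq.sup_eq_top]; trivial
    obtain ⟨_, ⟨ψ, rfl⟩, w, hw, rfl⟩ := Submodule.mem_sup.1 hμ
    refine ⟨(ψ, ⟨w, hw⟩), ?_⟩
    change f' (ψ, w) = _
    have : (ψ, w) = (ψ, (0 : W)) + ((0 : A), w) := by simp
    rw [this, map_add, hf', hT]
  have hmap := HasStrictFDerivAt.map_nhds_eq_of_surj hsl hsurj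
  have hU : {p : A × q | K * C * ‖((p.2 : q) : W)‖ < 1} ∈ 𝓝 (0 : A × q) := by
    refine IsOpen.mem_nhds ?_ ?_
    · refine isOpen_lt ?_ continuous_const
      fun_prop
    · simp
  have himg := Filter.image_mem_map (m := fun p : A × q => F (inc p)) hU
  rw [hmap] at himg
  have hz : F (inc 0) = F 0 := by rw [map_zero]
  rw [hz] at himg
  filter_upwards [himg] with y hy
  obtain ⟨p, hp, rfl⟩ := hy
  refine ⟨p.1, p.2, rfl, fun hP hb => ?_⟩
  by_contra hne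
  have hpos : 0 < ‖((p.2 : q) : W)‖ := norm_pos_iff.2 hne
  have h1 := hKb ⟨p.2, p.2.2, hP⟩
  simp only at h1
  have h3 : ‖((p.2 : q) : W)‖ ≤ (K * C * ‖((p.2 : q) : W)‖) * ‖((p.2 : q) : W)‖ := by
    calc _ ≤ K * ‖δ ((p.2 : q) : W)‖ := h1
      _ ≤ K * (C * ‖((p.2 : q) : W)‖ ^ 2) := by gcongr
      _ = _ := by ring
  have hp' : K * C * ‖((p.2 : q) : W)‖ < 1 := hp
  nlinarith

end Pool.Agent.TH77.Br
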