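import Mathlib
import Pool.Agent.TH77.Bracket
import Pool.Agent.TH77.Ad
import Pool.Agent.TH77.Slice

/-!
Local rigidity of brackets with nondegenerate Killing form.
-/

set_option autoImplicit false
set_option linter.unusedSectionVars false

open Filter Topology NormedSpace

namespace Pool.Agent.TH77.Br

variable {V : Type*} [NormedAddCommGroup V] [NormedSpace ℝ V] [FiniteDimensional ℝ V]

/-- Transport of a bracket. -/
noncomputable def conj (P Q : V →L[ℝ] V) (μ : V →L[ℝ] V →L[ℝ] V) : V →L[ℝ] V →L[ℝ] V :=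
  (((ContinuousLinearMap.compL ℝ V V V).flip Q) ∘L (ContinuousLinearMap.compL ℝ V V V P)) ∘L
    (μ ∘L Q)

lemma conj_apply (P Q : V →L[ℝ] V) (μ : V →L[ℝ] V →L[ℝ] V) (x y : V) :
    conj P Q μ x y = P (μ (Q x) (Q y)) := rfl

/-- The action of invertible maps on brackets. -/
noncomputable def act (g : (V →L[ℝ] V)ˣ) (μ : V →L[ℝ] V →L[ℝ] V) : V →L[ℝ] V →L[ℝ] V :=
  conj (g : V →L[ℝ] V) ((g⁻¹ : (V →L[ℝ] V)ˣ) : V →L[ℝ] V) μ

lemma act_apply (g : (V →L[ℝ] V)ˣ) (μ : V →L[ℝ] V →L[ℝ] V) (x y : V) :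
    act g μ x y = (g : V →L[ℝ] V) (μ ((g⁻¹ : (V →L[ℝ] V)ˣ).val x) ((g⁻¹ : (V →L[ℝ] V)ˣ).val y)) := rfl

lemma inv_val_apply (g : (V →L[ℝ] V)ˣ) (x : V) : (g⁻¹ : (V →L[ℝ] V)ˣ).val ((g : V →L[ℝ] V) x) = x := by
  change ((g⁻¹ : (V →L[ℝ] V)ˣ).val * (g : V →L[ℝ] V)) x = x
  rw [Units.inv_mul]; rfl

lemma val_inv_apply (g : (V →L[ℝ] V)ˣ) (x : V) : (g : V →L[ℝ] V) ((g⁻¹ : (V →L[ℝ] V)ˣ).val x) = x := by
  change ((g : V →L[ℝ] V) * (g⁻¹ : (V →L[ℝ] V)ˣ).val) x = x
  rw [Units.mul_inv]; rfl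

lemma act_one (μ : V →L[ℝ] V →L[ℝ] V) : act 1 μ = μ := by
  ext x y; rw [act_apply]; simp

lemma act_mul (g h : (V →L[ℝ] V)ˣ) (μ : V →L[ℝ] V →L[ℝ] V) : act (g * h) μ = act g (act h μ) := by
  ext x y
  simp only [act_apply, mul_inv_rev, Units.val_mul, mul_apply_eq_comp]

lemma act_inv_act (g : (V →L[ℝ] V)ˣ) (μ : V →L[ℝ] V →L[ℝ] V) : act g⁻¹ (act g μ) = μ := by
  rw [← act_mul, inv_mul_cancel, act_one]

lemma act_act_inv (g : (V →L[ℝ] V)ˣ) (μ : V →L[ℝ] V →L[ℝ] V) : act g (act g⁻¹ μ) = μ := by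
  rw [← act_mul, mul_inv_cancel, act_one]

lemma act_eq_self_iff (g : (V →L[ℝ] V)ˣ) (μ : V →L[ℝ] V →L[ℝ] V) :
    act g μ = μ ↔ ∀ x y, (g : V →L[ℝ] V) (μ x y) = μ ((g : V →L[ℝ] V) x) ((g : V →L[ℝ] V) y) := by
  constructor
  · intro h x y
    conv_rhs => rw [← h]
    rw [act_apply, inv_val_apply, inv_val_apply]
  · intro h
    ext x y
    rw [act_apply, h, val_inv_apply, val_inv_apply]

lemma IsLie.act {μ : V →L[ℝ] V →L[ℝ] V} (h : IsLie μ) (g : (V →L[ℝ] V)ˣ) : IsLie (act g μ) := by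
  constructor
  · intro x; rw [act_apply, h.alt, map_zero]
  · intro x y z
    simp only [act_apply, inv_val_apply]
    rw [h.jac, map_add]

lemma act_ad (g : (V →L[ℝ] V)ˣ) (μ : V →L[ℝ] V →L[ℝ] V) (x : V) :
    act g μ x = (g : V →L[ℝ] V) * μ ((g⁻¹ : (V →L[ℝ] V)ˣ).val x) * (g⁻¹ : (V →L[ℝ] V)ˣ).val := rfl

lemma kf_act (g : (V →L[ℝ] V)ˣ) (μ : V →L[ℝ] V →L[ℝ] V) (x y : V) :
    kf (act g μ) x y = kf μ ((g⁻¹ : (V →L[ℝ] V)ˣ).val x) ((g⁻¹ : (V →L[ℝ] V)ˣ).val y) := by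
  rw [kf_apply, kf_apply, act_ad, act_ad]
  have : (g : V →L[ℝ] V) * μ ((g⁻¹ : (V →L[ℝ] V)ˣ).val x) * (g⁻¹ : (V →L[ℝ] V)ˣ).val *
      ((g : V →L[ℝ] V) * μ ((g⁻¹ : (V →L[ℝ] V)ˣ).val y) * (g⁻¹ : (V →L[ℝ] V)ˣ).val)
      = (g : V →L[ℝ] V) * (μ ((g⁻¹ : (V →L[ℝ] V)ˣ).val x) * μ ((g⁻¹ : (V →L[ℝ] V)ˣ).val y) *
        (g⁻¹ : (V →L[ℝ] V)ˣ).val) := by
    simp only [mul_assoc, Units.inv_mul_cancel_left]
  rw [this, tr_mul_comm, mul_assoc, Units.inv_mul, mul_one]

lemma Sep.act {μ : V →L[ℝ] V →L[ℝ] V} (h : Sep μ) (g : (V →L[ℝ] V)ˣ) : Sep (act g μ) := by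
  intro x hx
  have : (g⁻¹ : (V →L[ℝ] V)ˣ).val x = 0 := by
    refine h _ fun y => ?_
    have := hx ((g : V →L[ℝ] V) y)
    rwa [kf_act, inv_val_apply] at this
  rw [← val_inv_apply g x, this, map_zero]

lemma contDiff_expR {𝔸 : Type*} [NormedRing 𝔸] [NormedAlgebra ℝ 𝔸] [CompleteSpace 𝔸] :
    ContDiff ℝ 1 (NormedSpace.exp : 𝔸 → 𝔸) := by
  rw [contDiff_iff_contDiffAt]
  intro x
  exact (NormedSpace.exp_analytic (𝕂 := ℝ) x).contDiffAt

section coord

variable {ι : Type*} [Fintype ι] [DecidableEq ι] (b : Module.Basis ι ℝ V)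

/-- Coordinate functionals as continuous functionals. -/
noncomputable def cd (i : ι) : V →L[ℝ] ℝ := LinearMap.toContinuousLinearMap (b.coord i)

lemma cd_apply (i : ι) (x : V) : cd b i x = b.repr x i := rfl

/-- The bracket with given structure vectors. -/
noncomputable def br (w : ι → ι → V) : V →L[ℝ] V →L[ℝ] V :=
  ∑ i, ∑ j, (cd b i).smulRight ((cd b j).smulRight (w i j))

lemma br_apply (w : ι → ι → V) (x y : V) :
    br b w x y = ∑ i, ∑ j, cd b i x • cd b j y • w i j := by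
  simp [br]

lemma br_basis (w : ι → ι → V) (i j : ι) : br b w (b i) (b j) = w i j := by
  rw [br_apply]
  simp only [cd_apply, Module.Basis.repr_self]
  rw [Finset.sum_eq_single i, Finset.sum_eq_single j]
  · simp
  · intro k _ hk; simp [Finsupp.single_eq_of_ne hk]
  · simp
  · intro k _ hk; simp [Finsupp.single_eq_of_ne hk]
  · simp

/-- The structure vectors of a bracket. -/
noncomputable def cf (ν : V →L[ℝ] V →L[ℝ] V) : ι → ι → V := fun i j => ν (b i) (b j)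

omit [Fintype ι] [DecidableEq ι] in
lemma ext_basis {ν μ : V →L[ℝ] V →L[ℝ] V} (h : ∀ i j, ν (b i) (b j) = μ (b i) (b j)) : ν = μ := by
  have h1 : ∀ i, ν (b i) = μ (b i) := by
    intro i
    have : ((ν (b i) : V →L[ℝ] V) : V →ₗ[ℝ] V) = ((μ (b i) : V →L[ℝ] V) : V →ₗ[ℝ] V) :=
      b.ext fun j => h i j
    ext y
    exact LinearMap.congr_fun this y
  have : (ν : V →ₗ[ℝ] (V →L[ℝ] V)) = (μ : V →ₗ[ℝ] (V →L[ℝ] V)) := b.ext fun i => h1 i
  ext x y
  exact congrArg (fun A : V →L[ℝ] V => A y) (LinearMap.congr_fun this x)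

lemma br_cf (ν : V →L[ℝ] V →L[ℝ] V) : br b (cf b ν) = ν :=
  ext_basis b fun i j => by rw [br_basis]; rfl

lemma cf_br (w : ι → ι → V) : cf b (br b w) = w := by
  funext i j; exact br_basis b w i j

lemma br_add (w w' : ι → ι → V) : br b (w + w') = br b w + br b w' :=
  ext_basis b fun i j => by simp only [add_apply, br_basis, Pi.add_apply]

lemma br_smul (c : ℝ) (w : ι → ι → V) : br b (c • w) = c • br b w :=
  ext_basis b fun i j => by simp only [smul_apply, br_basis, Pi.smul_apply]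

/-- The slice map in coordinates. -/
noncomputable def slice (ν : V →L[ℝ] V →L[ℝ] V) (p : (V →L[ℝ] V) × (ι → ι → V)) : ι → ι → V :=
  fun i j => NormedSpace.exp p.1 (ν (NormedSpace.exp (-p.1) (b i)) (NormedSpace.exp (-p.1) (b j))
    + ∑ k, ∑ l, cd b k (NormedSpace.exp (-p.1) (b i)) • cd b l (NormedSpace.exp (-p.1) (b j)) • p.2 k l)

lemma slice_eq (ν : V →L[ℝ] V →L[ℝ] V) (p : (V →L[ℝ] V) × (ι → ι → V)) :
    br b (slice b ν p) = act (expU p.1) (ν + br b p.2) := by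
  refine ext_basis b fun i j => ?_
  rw [br_basis, act_apply, add_apply, add_apply, br_apply]
  rfl

lemma contDiff_slice (ν : V →L[ℝ] V →L[ℝ] V) : ContDiff ℝ 1 (slice b ν) := by
  have e1 : ContDiff ℝ 1 (fun p : (V →L[ℝ] V) × (ι → ι → V) => NormedSpace.exp p.1) :=
    contDiff_expR.comp contDiff_fst
  have e2 : ContDiff ℝ 1 (fun p : (V →L[ℝ] V) × (ι → ι → V) => NormedSpace.exp (-p.1)) :=
    contDiff_expR.comp contDiff_fst.neg
  have e3 : ∀ x : V, ContDiff ℝ 1 (fun p : (V →L[ℝ] V) × (ι → ι → V) => NormedSpace.exp (-p.1) x) :=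
    fun x => e2.clm_apply contDiff_const
  unfold slice
  refine contDiff_pi.2 fun i => contDiff_pi.2 fun j => ?_
  refine e1.clm_apply (ContDiff.add ?_ ?_)
  · exact (ν.contDiff.comp (e3 (b i))).clm_apply (e3 (b j))
  · refine ContDiff.sum fun k _ => ContDiff.sum fun l _ => ?_
    refine ContDiff.smul ?_ (ContDiff.smul ?_ ?_)
    · exact (cd b k).contDiff.comp (e3 (b i))
    · exact (cd b l).contDiff.comp (e3 (b j))
    · fun_prop

lemma slice_zero (ν : V →L[ℝ] V →L[ℝ] V) : slice b ν 0 = cf b ν := by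
  funext i j
  simp [slice, cf, NormedSpace.exp_zero]

/-- Derivative of the slice map. -/
lemma slice_deriv (ν : V →L[ℝ] V →L[ℝ] V) :
    ∃ f' : ((V →L[ℝ] V) × (ι → ι → V)) →L[ℝ] (ι → ι → V),
      HasStrictFDerivAt (slice b ν) f' 0 ∧
      ∀ ψ w i j, f' (ψ, w) i j = ψ (ν (b i) (b j)) + w i j - ν (ψ (b i)) (b j) - ν (b i) (ψ (b j)) := by
  have hs : HasStrictFDerivAt (slice b ν) (fderiv ℝ (slice b ν) 0) 0 :=
    ((contDiff_slice b ν).contDiffAt).hasStrictFDerivAt (by norm_num)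
  refine ⟨_, hs, fun ψ w i j => ?_⟩
  have hline : HasDerivAt (fun t : ℝ => t • ((ψ, w) : (V →L[ℝ] V) × (ι → ι → V))) (ψ, w) 0 := by
    simpa using ((hasDerivAt_id (0:ℝ)).smul_const ((ψ, w) : (V →L[ℝ] V) × (ι → ι → V)))
  have hcj2 : HasFDerivAt (slice b ν) (fderiv ℝ (slice b ν) 0)
      ((0:ℝ) • ((ψ, w) : (V →L[ℝ] V) × (ι → ι → V))) := by
    rw [zero_smul]
    exact hs.hasFDerivAt
  have h1 := hcj2.comp_hasDerivAt (0:ℝ) hline
  have h2 : HasDerivAt (fun t : ℝ => slice b ν (t • ((ψ, w) : (V →L[ℝ] V) × (ι → ι → V))) i j)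
      ((fderiv ℝ (slice b ν) 0) (ψ, w) i j) 0 :=
    (hasDerivAt_pi.1 ((hasDerivAt_pi.1 h1) i)) j
  have hψ : HasDerivAt (fun t : ℝ => NormedSpace.exp (t • ψ)) ψ 0 := by
    have h := hasDerivAt_exp_smul_const (𝕂 := ℝ) ψ (0:ℝ)
    simpa [NormedSpace.exp_zero] using h
  have hψ' : HasDerivAt (fun t : ℝ => NormedSpace.exp (-(t • ψ))) (-ψ) 0 := by
    have h := hasDerivAt_exp_smul_const (𝕂 := ℝ) (-ψ) (0:ℝ)
    simpa [NormedSpace.exp_zero] using h
  have hX : ∀ x : V, HasDerivAt (fun t : ℝ => (NormedSpace.exp (-(t • ψ))) x) (-ψ x) 0 := by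
    intro x
    simpa using hψ'.clm_apply (hasDerivAt_const (0:ℝ) x)
  have hn : ∀ μ : V →L[ℝ] V →L[ℝ] V, HasDerivAt (fun t : ℝ => μ (NormedSpace.exp (-(t • ψ)) (b i))
      (NormedSpace.exp (-(t • ψ)) (b j))) (- μ (ψ (b i)) (b j) - μ (b i) (ψ (b j))) 0 := by
    intro μ
    have h := (μ.hasFDerivAt.comp_hasDerivAt (0:ℝ) (hX (b i))).clm_apply (hX (b j))
    refine h.congr_deriv ?_
    simp [NormedSpace.exp_zero]
    abel
  have h3 := hψ.clm_apply ((hn ν).add ((hasDerivAt_id (0:ℝ)).smul (hn (br b w))))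
  have h4 : HasDerivAt (fun t : ℝ => slice b ν (t • ((ψ, w) : (V →L[ℝ] V) × (ι → ι → V))) i j)
      (ψ (ν (b i) (b j)) + w i j - ν (ψ (b i)) (b j) - ν (b i) (ψ (b j))) 0 := by
    have e : (fun t : ℝ => slice b ν (t • ((ψ, w) : (V →L[ℝ] V) × (ι → ι → V))) i j)
      = (fun t : ℝ => (NormedSpace.exp (t • ψ)) (ν (NormedSpace.exp (-(t • ψ)) (b i))
        (NormedSpace.exp (-(t • ψ)) (b j)) + t • (br b w (NormedSpace.exp (-(t • ψ)) (b i))
        (NormedSpace.exp (-(t • ψ)) (b j))))) := by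
      funext t
      rw [br_apply]
      simp only [slice, Prod.smul_fst, Prod.smul_snd, Pi.smul_apply, Finset.smul_sum, smul_comm t]
    rw [e]
    refine h3.congr_deriv ?_
    simp [NormedSpace.exp_zero, br_basis]
    abel
  exact h2.unique h4

end coord

/-- Linearised Jacobi expression. -/
noncomputable def dl (ν w : V →L[ℝ] V →L[ℝ] V) (x y z : V) : V :=
  ν x (w y z) + w x (ν y z) - (ν (w x y) z + w (ν x y) z + ν y (w x z) + w y (ν x z))

/-- Quadratic Jacobi expression. -/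
noncomputable def qd (w : V →L[ℝ] V →L[ℝ] V) (x y z : V) : V :=
  w x (w y z) - (w (w x y) z + w y (w x z))

lemma dl_add_qd {ν w : V →L[ℝ] V →L[ℝ] V} (h : IsLie ν) (h' : IsLie (ν + w)) (x y z : V) :
    dl ν w x y z + qd w x y z = 0 := by
  have a := h'.jac x y z
  simp only [add_apply, map_add] at a
  rw [h.jac x y z] at a
  unfold dl qd
  have : (ν ((ν x) y)) z + (ν y) ((ν x) z) + ν x (w y z) + w x (ν y z) + w x (w y z)
    = (ν ((ν x) y)) z + (ν y) ((ν x) z) + (ν (w x y) z + w (ν x y) z + ν y (w x z) + w y (ν x z))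
      + (w (w x y) z + w y (w x z)) := by
    rw [← sub_eq_zero] at a ⊢
    rw [← a]; abel
  rw [← sub_eq_zero] at this
  rw [← this]; abel


/-- Local rigidity. -/
theorem rigid {ν : V →L[ℝ] V →L[ℝ] V} (h : IsLie ν) (hN : Sep ν) {ι : Type*} [Fintype ι]
    [DecidableEq ι] (b : Module.Basis ι ℝ V) :
    ∀ᶠ c in 𝓝 (cf b ν), IsLie (br b c) → ∃ g : (V →L[ℝ] V)ˣ, br b c = act g ν := by
  classical
  obtain ⟨f', hf', hval⟩ := slice_deriv b ν
  let δ : (ι → ι → V) → (ι → ι → ι → V) := fun w i j k => dl ν (br b w) (b i) (b j) (b k)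
  have hδ : ∀ w i j k, δ w i j k = dl ν (br b w) (b i) (b j) (b k) := fun _ _ _ _ => rfl
  have hadd : ∀ w w', δ (w + w') = δ w + δ w' := by
    intro w w'
    funext i j k
    simp only [hδ, dl, br_add, add_apply, map_add, Pi.add_apply]
    abel
  have hsmul : ∀ (c : ℝ) w, δ (c • w) = c • δ w := by
    intro c w
    funext i j k
    simp only [hδ, dl, br_smul, smul_apply, map_smul, Pi.smul_apply, smul_sub, smul_add]
  have hker : ∀ w, (∀ x, br b w x x = 0) → δ w = 0 → ∃ a, f' (a, 0) = w := by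
    intro w₀ halt hw
    set w := br b w₀ with hw₀
    have h0 : ∀ i j k, dl ν w (b i) (b j) (b k) = 0 := by
      intro i j k
      rw [← hδ, hw]; rfl
    have h1 : ∀ i j z, dl ν w (b i) (b j) z = 0 := by
      intro i j z
      have hz : z ∈ Submodule.span ℝ (Set.range b) := by rw [b.span_eq]; trivial
      induction hz using Submodule.span_induction with
      | mem x hx => obtain ⟨k, rfl⟩ := hx; exact h0 i j k
      | zero => simp [dl]
      | add x y _ _ hx hy =>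
        have : dl ν w (b i) (b j) (x + y) = dl ν w (b i) (b j) x + dl ν w (b i) (b j) y := by
          simp only [dl, map_add]; abel
        rw [this, hx, hy, add_zero]
      | smul c x _ hx =>
        have : dl ν w (b i) (b j) (c • x) = c • dl ν w (b i) (b j) x := by
          simp only [dl, map_smul, smul_sub, smul_add]
        rw [this, hx, smul_zero]
    have h2 : ∀ i y z, dl ν w (b i) y z = 0 := by
      intro i y z
      have hz : y ∈ Submodule.span ℝ (Set.range b) := by rw [b.span_eq]; trivial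
      induction hz using Submodule.span_induction with
      | mem x hx => obtain ⟨k, rfl⟩ := hx; exact h1 i k z
      | zero => simp [dl]
      | add x y _ _ hx hy =>
        have : dl ν w (b i) (x + y) z = dl ν w (b i) x z + dl ν w (b i) y z := by
          simp only [dl, map_add, add_apply]; abel
        rw [this, hx, hy, add_zero]
      | smul c x _ hx =>
        have : dl ν w (b i) (c • x) z = c • dl ν w (b i) x z := by
          simp only [dl, map_smul, smul_apply, smul_sub, smul_add]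
        rw [this, hx, smul_zero]
    have h3 : ∀ x y z, dl ν w x y z = 0 := by
      intro x y z
      have hz : x ∈ Submodule.span ℝ (Set.range b) := by rw [b.span_eq]; trivial
      induction hz using Submodule.span_induction with
      | mem x hx => obtain ⟨k, rfl⟩ := hx; exact h2 k y z
      | zero => simp [dl]
      | add x x' _ _ hx hy =>
        have : dl ν w (x + x') y z = dl ν w x y z + dl ν w x' y z := by
          simp only [dl, map_add, add_apply]; abel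
        rw [this, hx, hy, add_zero]
      | smul c x _ hx =>
        have : dl ν w (c • x) y z = c • dl ν w x y z := by
          simp only [dl, map_smul, smul_apply, smul_sub, smul_add]
        rw [this, hx, smul_zero]
    obtain ⟨φ, hφ⟩ := cocycle_cob (w := w) h hN ⟨halt, fun x y z => sub_eq_zero.1 (h3 x y z)⟩
    refine ⟨-φ, ?_⟩
    funext i j
    rw [hval]
    have : w₀ i j = w (b i) (b j) := by rw [hw₀, br_basis]
    rw [this, hφ, h.anti (((-φ : V →L[ℝ] V)) (b i)) (b j)]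
    simp only [neg_apply, map_neg, Pi.zero_apply]
    abel
  let S : ℝ := ∑ i, ‖b i‖
  have hS : ∀ i, ‖b i‖ ≤ S := fun i =>
    Finset.single_le_sum (f := fun i => ‖b i‖) (fun i _ => norm_nonneg _) (Finset.mem_univ i)
  have hS0 : 0 ≤ S := Finset.sum_nonneg fun i _ => norm_nonneg _
  let R : ℝ := ∑ i, ‖cd b i‖
  have hR0 : 0 ≤ R := Finset.sum_nonneg fun i _ => norm_nonneg _
  have hbr : ∀ (w : ι → ι → V) x y, ‖br b w x y‖ ≤ R ^ 2 * ‖w‖ * ‖x‖ * ‖y‖ := by
    intro w x y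
    rw [br_apply]
    calc ‖∑ i, ∑ j, cd b i x • cd b j y • w i j‖
        ≤ ∑ i, ∑ j, ‖cd b i x • cd b j y • w i j‖ :=
          (norm_sum_le _ _).trans (Finset.sum_le_sum fun i _ => norm_sum_le _ _)
      _ ≤ ∑ i, ∑ j, (‖cd b i‖ * ‖x‖) * ((‖cd b j‖ * ‖y‖) * ‖w‖) := by
          refine Finset.sum_le_sum fun i _ => Finset.sum_le_sum fun j _ => ?_
          rw [norm_smul, norm_smul]
          gcongr
          · exact (cd b i).le_opNorm x
          · exact (cd b j).le_opNorm y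
          · exact (norm_le_pi_norm (w i) j).trans (norm_le_pi_norm w i)
      _ = R ^ 2 * ‖w‖ * ‖x‖ * ‖y‖ := by
          simp only [R, pow_two, Finset.sum_mul, Finset.mul_sum]
          refine Finset.sum_congr rfl fun i _ => Finset.sum_congr rfl fun j _ => ?_
          ring
  have htri : ∀ (w : ι → ι → V) i j k,
      ‖br b w (b i) (br b w (b j) (b k))‖ ≤ R ^ 4 * S ^ 3 * ‖w‖ ^ 2 := by
    intro w i j k
    calc _ ≤ R ^ 2 * ‖w‖ * ‖b i‖ * ‖br b w (b j) (b k)‖ := hbr _ _ _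
      _ ≤ R ^ 2 * ‖w‖ * ‖b i‖ * (R ^ 2 * ‖w‖ * ‖b j‖ * ‖b k‖) := by
          gcongr; exact hbr _ _ _
      _ ≤ R ^ 2 * ‖w‖ * S * (R ^ 2 * ‖w‖ * S * S) := by
          gcongr <;> first | exact hS _ | positivity
      _ = R ^ 4 * S ^ 3 * ‖w‖ ^ 2 := by ring
  have htri' : ∀ (w : ι → ι → V) i j k,
      ‖br b w (br b w (b i) (b j)) (b k)‖ ≤ R ^ 4 * S ^ 3 * ‖w‖ ^ 2 := by
    intro w i j k
    calc _ ≤ R ^ 2 * ‖w‖ * ‖br b w (b i) (b j)‖ * ‖b k‖ := hbr _ _ _
      _ ≤ R ^ 2 * ‖w‖ * (R ^ 2 * ‖w‖ * ‖b i‖ * ‖b j‖) * ‖b k‖ := by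
          gcongr; exact hbr _ _ _
      _ ≤ R ^ 2 * ‖w‖ * (R ^ 2 * ‖w‖ * S * S) * S := by
          gcongr <;> first | exact hS _ | positivity
      _ = R ^ 4 * S ^ 3 * ‖w‖ ^ 2 := by ring
  have hqd : ∀ (w : ι → ι → V) i j k,
      ‖qd (br b w) (b i) (b j) (b k)‖ ≤ 3 * (R ^ 4 * S ^ 3) * ‖w‖ ^ 2 := by
    intro w i j k
    unfold qd
    have t1 := htri w i j k
    have t2 := htri' w i j k
    have t3 := htri w j i k
    have t4 := norm_sub_le (br b w (b i) (br b w (b j) (b k)))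
      (br b w (br b w (b i) (b j)) (b k) + br b w (b j) (br b w (b i) (b k)))
    have t5 := norm_add_le (br b w (br b w (b i) (b j)) (b k)) (br b w (b j) (br b w (b i) (b k)))
    linarith
  have hmain := abstract_slice (slice b ν) f' hf' (by
      intro w; funext i j; rw [hval]; simp) δ hadd hsmul (3 * (R ^ 4 * S ^ 3))
      (fun w => ∀ x, br b w x x = 0)
      (by intro x; rw [br_apply]; simp)
      (by intro a c ha hc x; simp only [br_add, add_apply, ha x, hc x, add_zero])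
      (by intro c a ha x; simp only [br_smul, smul_apply, ha x, smul_zero]) hker
  rw [slice_zero] at hmain
  filter_upwards [hmain] with c hc hlie
  obtain ⟨ψ, w, rfl, hw⟩ := hc
  rw [slice_eq] at hlie ⊢
  simp only at hlie ⊢
  have hl : IsLie (ν + br b w) := by
    have := IsLie.act hlie (expU ψ)⁻¹
    rwa [act_inv_act] at this
  have halt : ∀ x, br b w x x = 0 := by
    intro x
    have := hl.alt x
    rwa [add_apply, add_apply, h.alt x, zero_add] at this
  have hn : ‖δ w‖ ≤ 3 * (R ^ 4 * S ^ 3) * ‖w‖ ^ 2 := by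
    have h0 : 0 ≤ 3 * (R ^ 4 * S ^ 3) * ‖w‖ ^ 2 := by positivity
    refine (pi_norm_le_iff_of_nonneg h0).2 fun i => (pi_norm_le_iff_of_nonneg h0).2 fun j =>
      (pi_norm_le_iff_of_nonneg h0).2 fun k => ?_
    have := dl_add_qd h hl (b i) (b j) (b k)
    rw [hδ, eq_neg_of_add_eq_zero_left this, norm_neg]
    exact hqd _ _ _ _
  have hw0 : w = 0 := hw halt hn
  refine ⟨expU ψ, ?_⟩
  have hb0 : br b w = 0 := by
    rw [hw0]
    exact ext_basis b fun i j => by rw [br_basis]; rfl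
  rw [hb0, add_zero]

end Pool.Agent.TH77.Br
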