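import Pool.Agent.TH77.OneParam

set_option autoImplicit false
set_option linter.unusedSectionVars false
set_option linter.style.haveILetI false

/-!
# The group of units of a Banach algebra
-/

open Filter Topology Metric Set

namespace Pool.Agent.TH77

section exp

variable {𝔸 : Type*} [NormedRing 𝔸] [NormedAlgebra ℝ 𝔸] [CompleteSpace 𝔸]

lemma expR_add {x y : 𝔸} (h : Commute x y) :
    NormedSpace.exp (x + y) = NormedSpace.exp x * NormedSpace.exp y := by
  letI : NormedAlgebra ℚ 𝔸 := NormedAlgebra.restrictScalars ℚ ℝ 𝔸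
  exact NormedSpace.exp_add_of_commute h

lemma expR_cont : Continuous (NormedSpace.exp : 𝔸 → 𝔸) := by
  letI : NormedAlgebra ℚ 𝔸 := NormedAlgebra.restrictScalars ℚ ℝ 𝔸
  exact NormedSpace.exp_continuous

lemma expR_deriv : HasStrictFDerivAt (NormedSpace.exp : 𝔸 → 𝔸) (1 : 𝔸 →L[ℝ] 𝔸) 0 :=
  hasStrictFDerivAt_exp_zero

/-- the exponential as a unit -/
noncomputable def expU (x : 𝔸) : 𝔸ˣ where
  val := NormedSpace.exp x
  inv := NormedSpace.exp (-x)
  val_inv := by
    rw [← expR_add (Commute.refl x).neg_right, add_neg_cancel, NormedSpace.exp_zero]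
  inv_val := by
    rw [← expR_add (Commute.refl x).neg_left, neg_add_cancel, NormedSpace.exp_zero]

@[simp] lemma expU_val (x : 𝔸) : ((expU x : 𝔸ˣ) : 𝔸) = NormedSpace.exp x := rfl

/-- the local logarithm -/
noncomputable def logE (𝔸 : Type*) [NormedRing 𝔸] [NormedAlgebra ℝ 𝔸] [CompleteSpace 𝔸] :
    OpenPartialHomeomorph 𝔸 𝔸 :=
  (expR_deriv (𝔸 := 𝔸)).toOpenPartialHomeomorph (f' := ContinuousLinearEquiv.refl ℝ 𝔸)
    NormedSpace.exp

lemma logE_coe (x : 𝔸) : logE 𝔸 x = NormedSpace.exp x := rfl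

lemma zero_mem_source : (0 : 𝔸) ∈ (logE 𝔸).source :=
  HasStrictFDerivAt.mem_toOpenPartialHomeomorph_source _

lemma one_mem_target : (1 : 𝔸) ∈ (logE 𝔸).target := by
  have h := (logE 𝔸).map_source zero_mem_source
  rwa [logE_coe, NormedSpace.exp_zero] at h

lemma logE_symm_one : (logE 𝔸).symm 1 = 0 := by
  have h := (logE 𝔸).left_inv zero_mem_source
  rwa [logE_coe, NormedSpace.exp_zero] at h

lemma logE_symm_deriv : HasStrictFDerivAt (logE 𝔸).symm (1 : 𝔸 →L[ℝ] 𝔸) 1 := by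
  have h := (expR_deriv (𝔸 := 𝔸)).to_localInverse (f' := ContinuousLinearEquiv.refl ℝ 𝔸)
  rw [NormedSpace.exp_zero] at h
  exact h

variable (𝔸) in
/-- the Lie group of units -/
noncomputable def LG.units : LG 𝔸ˣ 𝔸 where
  exp := expU
  mul p := (logE 𝔸).symm (NormedSpace.exp p.1 * NormedSpace.exp p.2)
  exp_add s t x := by
    ext
    rw [Units.val_mul, expU_val, expU_val, expU_val, add_smul]
    exact expR_add (((Commute.refl x).smul_left s).smul_right t)
  cont := by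
    rw [Units.continuous_iff]
    exact ⟨expR_cont, expR_cont.comp continuous_neg⟩
  nhds := by
    have hemb : Topology.IsOpenEmbedding (Units.val : 𝔸ˣ → 𝔸) := Units.isOpenEmbedding_val
    refine Filter.map_injective Units.val_injective ?_
    rw [Filter.map_map]
    have h1 : Filter.map (Units.val : 𝔸ˣ → 𝔸) (𝓝 1) = 𝓝 1 := hemb.map_nhds_eq 1
    rw [h1]
    have h2 : Filter.map (NormedSpace.exp : 𝔸 → 𝔸) (𝓝 0) = 𝓝 (NormedSpace.exp (0 : 𝔸)) :=
      HasStrictFDerivAt.map_nhds_eq_of_equiv (f' := ContinuousLinearEquiv.refl ℝ 𝔸) expR_deriv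
    rw [NormedSpace.exp_zero] at h2
    exact h2
  inj := by
    obtain ⟨r, hr, h⟩ := Metric.isOpen_iff.1 (logE 𝔸).open_source 0 zero_mem_source
    refine ⟨r, hr, fun x hx y hy hxy => ?_⟩
    exact (logE 𝔸).injOn (h hx) (h hy) (congrArg Units.val hxy)
  mul_deriv := by
    have h1 : HasStrictFDerivAt (fun p : 𝔸 × 𝔸 => NormedSpace.exp p.1)
        ((1 : 𝔸 →L[ℝ] 𝔸).comp (ContinuousLinearMap.fst ℝ 𝔸 𝔸)) 0 :=
      HasStrictFDerivAt.comp (0 : 𝔸 × 𝔸) (g := (NormedSpace.exp : 𝔸 → 𝔸)) expR_deriv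
        (ContinuousLinearMap.fst ℝ 𝔸 𝔸).hasStrictFDerivAt
    have h2 : HasStrictFDerivAt (fun p : 𝔸 × 𝔸 => NormedSpace.exp p.2)
        ((1 : 𝔸 →L[ℝ] 𝔸).comp (ContinuousLinearMap.snd ℝ 𝔸 𝔸)) 0 :=
      HasStrictFDerivAt.comp (0 : 𝔸 × 𝔸) (g := (NormedSpace.exp : 𝔸 → 𝔸)) expR_deriv
        (ContinuousLinearMap.snd ℝ 𝔸 𝔸).hasStrictFDerivAt
    have h3 := h1.mul' h2
    have h4 : HasStrictFDerivAt (logE 𝔸).symm (1 : 𝔸 →L[ℝ] 𝔸)
        ((fun p : 𝔸 × 𝔸 => NormedSpace.exp p.1 * NormedSpace.exp p.2) 0) := by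
      have : ((fun p : 𝔸 × 𝔸 => NormedSpace.exp p.1 * NormedSpace.exp p.2) 0) = 1 := by
        simp [NormedSpace.exp_zero]
      rw [this]
      exact logE_symm_deriv
    have h5 := h4.comp (0 : 𝔸 × 𝔸) h3
    refine h5.congr_fderiv ?_
    refine ContinuousLinearMap.ext fun p => ?_
    simp [NormedSpace.exp_zero, add_comm]
  mul_zero := by
    simp [NormedSpace.exp_zero, logE_symm_one]
  exp_mul := by
    have h1 : Tendsto (fun p : 𝔸 × 𝔸 => NormedSpace.exp p.1 * NormedSpace.exp p.2) (𝓝 0) (𝓝 1) := by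
      have : Continuous fun p : 𝔸 × 𝔸 => NormedSpace.exp p.1 * NormedSpace.exp p.2 :=
        (expR_cont.comp continuous_fst).mul (expR_cont.comp continuous_snd)
      exact this.tendsto' 0 1 (by simp [NormedSpace.exp_zero])
    have h2 := h1.eventually ((logE 𝔸).open_target.mem_nhds one_mem_target)
    filter_upwards [h2] with p hp
    ext
    rw [Units.val_mul, expU_val, expU_val, expU_val]
    exact ((logE 𝔸).right_inv hp).symm

@[simp] lemma LG.units_exp (x : 𝔸) : ((LG.units 𝔸).exp x : 𝔸) = NormedSpace.exp x := rfl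

end exp

end Pool.Agent.TH77
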