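import Mathlib
import Pool.Agent.TH77.UnitsLG

/-!
Symmetric logarithms of the positive part of an invertible operator.
-/

set_option autoImplicit false
set_option linter.unusedSectionVars false

open Filter Topology
open scoped RealInnerProductSpace Nat

namespace Pool.Agent.TH77.Br

section eigen

variable {V : Type*} [NormedAddCommGroup V] [NormedSpace ℝ V] [CompleteSpace V]

lemma pow_eigen {A : V →L[ℝ] V} {v : V} {l : ℝ} (h : A v = l • v) (n : ℕ) :
    (A ^ n) v = l ^ n • v := by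
  induction n with
  | zero => simp
  | succ n ih => rw [pow_succ, mul_apply_eq_comp, h, map_smul, ih, smul_smul, pow_succ, mul_comm]

lemma exp_eigen {A : V →L[ℝ] V} {v : V} {l : ℝ} (h : A v = l • v) :
    (NormedSpace.exp A) v = Real.exp l • v := by
  have h1 := NormedSpace.exp_series_hasSum_exp' (𝕂 := ℝ) A
  have h2 := h1.mapL (ContinuousLinearMap.apply ℝ V v)
  have h3 := (NormedSpace.exp_series_hasSum_exp' (𝕂 := ℝ) l).smul_const v
  rw [← Real.exp_eq_exp_ℝ] at h3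
  refine h2.unique ?_
  convert h3 using 2 with n
  simp only [ContinuousLinearMap.apply_apply, smul_apply, pow_eigen h, smul_smul, smul_eq_mul]

end eigen

variable {V : Type*} [NormedAddCommGroup V] [InnerProductSpace ℝ V] [FiniteDimensional ℝ V]
variable {n : ℕ}

/-- Diagonal operators in an orthonormal basis. -/
noncomputable def dg (u : OrthonormalBasis (Fin n) ℝ V) (f : Fin n → ℝ) : V →L[ℝ] V :=
  ∑ a, f a • (innerSL ℝ (u a)).smulRight (u a)

lemma dg_apply (u : OrthonormalBasis (Fin n) ℝ V) (f : Fin n → ℝ) (x : V) :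
    dg u f x = ∑ a, (f a * ⟪u a, x⟫) • u a := by
  simp only [dg, sum_apply, smul_apply, ContinuousLinearMap.smulRight_apply, innerSL_apply_apply,
    smul_smul]

lemma dg_basis (u : OrthonormalBasis (Fin n) ℝ V) (f : Fin n → ℝ) (a : Fin n) :
    dg u f (u a) = f a • u a := by
  rw [dg_apply, Finset.sum_eq_single a]
  · simp
  · intro b _ hb
    rw [u.orthonormal.2 hb]; simp
  · simp

lemma clm_ext (u : OrthonormalBasis (Fin n) ℝ V) {A B : V →L[ℝ] V} (h : ∀ a, A (u a) = B (u a)) :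
    A = B := by
  have : (A : V →ₗ[ℝ] V) = (B : V →ₗ[ℝ] V) := u.toBasis.ext fun a => by simpa using h a
  ext x
  exact LinearMap.congr_fun this x

lemma dg_mul (u : OrthonormalBasis (Fin n) ℝ V) (f g : Fin n → ℝ) :
    dg u f * dg u g = dg u (fun a => f a * g a) := by
  refine clm_ext u fun a => ?_
  rw [mul_apply_eq_comp, dg_basis, map_smul, dg_basis, dg_basis, smul_smul, mul_comm]

lemma dg_one (u : OrthonormalBasis (Fin n) ℝ V) : dg u (fun _ => 1) = 1 := by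
  refine clm_ext u fun a => ?_
  rw [dg_basis, one_smul]; rfl

lemma dg_symm (u : OrthonormalBasis (Fin n) ℝ V) (f : Fin n → ℝ) (x y : V) :
    ⟪dg u f x, y⟫ = ⟪x, dg u f y⟫ := by
  rw [dg_apply, dg_apply, sum_inner, inner_sum]
  refine Finset.sum_congr rfl fun a _ => ?_
  rw [inner_smul_left, inner_smul_right, real_inner_comm x (u a)]
  simp only [conj_trivial]
  ring

lemma dg_exp (u : OrthonormalBasis (Fin n) ℝ V) (f : Fin n → ℝ) :
    NormedSpace.exp (dg u f) = dg u (fun a => Real.exp (f a)) := by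
  refine clm_ext u fun a => ?_
  rw [dg_basis, exp_eigen (dg_basis u f a)]

lemma dg_smul (u : OrthonormalBasis (Fin n) ℝ V) (c : ℝ) (f : Fin n → ℝ) :
    c • dg u f = dg u (fun a => c * f a) := by
  refine clm_ext u fun a => ?_
  rw [smul_apply, dg_basis, dg_basis, smul_smul]

lemma dg_norm_le (u : OrthonormalBasis (Fin n) ℝ V) (f : Fin n → ℝ) (M : ℝ)
    (h : ∀ a, |f a| ≤ M) : ‖dg u f‖ ≤ n * M := by
  refine (norm_sum_le _ _).trans ?_
  calc ∑ a, ‖f a • (innerSL ℝ (u a)).smulRight (u a)‖ ≤ ∑ _a : Fin n, M := by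
        refine Finset.sum_le_sum fun a _ => ?_
        rw [norm_smul, ContinuousLinearMap.norm_smulRight_apply, innerSL_apply_norm,
          u.orthonormal.1 a, Real.norm_eq_abs]
        simpa using h a
    _ = n * M := by simp

/-- Diagonalisation of a symmetric operator. -/
lemma exists_dg (A : V →L[ℝ] V) (hA : ∀ x y, ⟪A x, y⟫ = ⟪x, A y⟫) :
    ∃ (u : OrthonormalBasis (Fin (Module.finrank ℝ V)) ℝ V) (f : Fin (Module.finrank ℝ V) → ℝ),
      A = dg u f := by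
  have hs : (A : V →ₗ[ℝ] V).IsSymmetric := fun x y => hA x y
  refine ⟨hs.eigenvectorBasis rfl, hs.eigenvalues rfl, ?_⟩
  refine clm_ext (hs.eigenvectorBasis rfl) fun a => ?_
  rw [dg_basis]
  exact hs.apply_eigenvectorBasis rfl a

/-- Symmetric operators with the same exponential agree. -/
lemma exp_inj {Y Z : V →L[ℝ] V} (hY : ∀ x y, ⟪Y x, y⟫ = ⟪x, Y y⟫)
    (hZ : ∀ x y, ⟪Z x, y⟫ = ⟪x, Z y⟫) (h : NormedSpace.exp Y = NormedSpace.exp Z) : Y = Z := by
  obtain ⟨u, f, rfl⟩ := exists_dg Y hY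
  obtain ⟨v, g, rfl⟩ := exists_dg Z hZ
  rw [dg_exp, dg_exp] at h
  have key : ∀ a b, ⟪v b, u a⟫ ≠ 0 → f a = g b := by
    intro a b hab
    have h1 : ⟪v b, dg u (fun a => Real.exp (f a)) (u a)⟫ = ⟪dg v (fun a => Real.exp (g a)) (v b), u a⟫ := by
      rw [h, dg_symm]
    rw [dg_basis, dg_basis, inner_smul_left, inner_smul_right] at h1
    simp only [conj_trivial] at h1
    exact Real.exp_injective (mul_right_cancel₀ hab h1)
  refine clm_ext u fun a => ?_
  rw [dg_basis, dg_apply]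
  conv_lhs => rw [← v.sum_repr (u a), Finset.smul_sum]
  refine Finset.sum_congr rfl fun b _ => ?_
  rw [v.repr_apply_apply, smul_smul]
  by_cases hab : ⟪v b, u a⟫ = 0
  · simp [hab]
  · rw [key a b hab]

/-- `G G†` -/
noncomputable def pos (G : V →L[ℝ] V) : V →L[ℝ] V := G * ContinuousLinearMap.adjoint G

lemma pos_symm (G : V →L[ℝ] V) (x y : V) : ⟪pos G x, y⟫ = ⟪x, pos G y⟫ := by
  simp only [pos, mul_apply_eq_comp]
  rw [← ContinuousLinearMap.adjoint_inner_right, ContinuousLinearMap.adjoint_inner_left]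

lemma pos_inner (G : V →L[ℝ] V) (x y : V) :
    ⟪pos G x, y⟫ = ⟪ContinuousLinearMap.adjoint G x, ContinuousLinearMap.adjoint G y⟫ := by
  simp only [pos, mul_apply_eq_comp]
  rw [← ContinuousLinearMap.adjoint_inner_right]

lemma continuous_pos : Continuous (pos : (V →L[ℝ] V) → (V →L[ℝ] V)) := by
  unfold pos
  exact continuous_id.mul (LinearIsometryEquiv.continuous _)

/-- Symmetric logarithm relation. -/
def IsLog (P Y : V →L[ℝ] V) : Prop :=
  (∀ x y, ⟪Y x, y⟫ = ⟪x, Y y⟫) ∧ NormedSpace.exp ((2:ℝ) • Y) = P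

lemma IsLog.unique {P Y Z : V →L[ℝ] V} (hY : IsLog P Y) (hZ : IsLog P Z) : Y = Z := by
  have h := exp_inj (Y := (2:ℝ) • Y) (Z := (2:ℝ) • Z)
    (by intro x y; simp only [smul_apply, inner_smul_left, inner_smul_right, hY.1 x y, conj_trivial])
    (by intro x y; simp only [smul_apply, inner_smul_left, inner_smul_right, hZ.1 x y, conj_trivial])
    (hY.2.trans hZ.2.symm)
  exact smul_right_injective _ (two_ne_zero) h

/-- Structure of the positive part of an invertible operator. -/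
lemma pos_diag (G : (V →L[ℝ] V)ˣ) :
    ∃ (u : OrthonormalBasis (Fin (Module.finrank ℝ V)) ℝ V) (p : Fin (Module.finrank ℝ V) → ℝ),
      pos (G : V →L[ℝ] V) = dg u p ∧ (∀ a, 0 < p a) ∧
      (∀ a, |Real.log (p a)| ≤ 2 * (‖(G : V →L[ℝ] V)‖ + ‖((G⁻¹ : (V →L[ℝ] V)ˣ) : V →L[ℝ] V)‖)) := by
  obtain ⟨u, p, hp⟩ := exists_dg (pos (G : V →L[ℝ] V)) (pos_symm _)
  have hpa : ∀ a, p a = ‖ContinuousLinearMap.adjoint (G : V →L[ℝ] V) (u a)‖ ^ 2 := by
    intro a
    have h1 := pos_inner (G : V →L[ℝ] V) (u a) (u a)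
    rw [hp, dg_basis, inner_smul_left, real_inner_self_eq_norm_sq, real_inner_self_eq_norm_sq,
      u.orthonormal.1 a] at h1
    simpa using h1
  have hlow : ∀ a, 1 ≤ ‖((G⁻¹ : (V →L[ℝ] V)ˣ) : V →L[ℝ] V)‖ *
      ‖ContinuousLinearMap.adjoint (G : V →L[ℝ] V) (u a)‖ := by
    intro a
    have h1 : ContinuousLinearMap.adjoint ((G⁻¹ : (V →L[ℝ] V)ˣ) : V →L[ℝ] V)
        (ContinuousLinearMap.adjoint (G : V →L[ℝ] V) (u a)) = u a := by
      change (ContinuousLinearMap.adjoint ((G⁻¹ : (V →L[ℝ] V)ˣ) : V →L[ℝ] V) ∘L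
        (ContinuousLinearMap.adjoint (G : V →L[ℝ] V))) (u a) = u a
      rw [← ContinuousLinearMap.adjoint_comp]
      have : ((G : V →L[ℝ] V) ∘L ((G⁻¹ : (V →L[ℝ] V)ˣ) : V →L[ℝ] V)) = 1 := G.mul_inv
      rw [this]
      have h2 : ContinuousLinearMap.adjoint (1 : V →L[ℝ] V) = 1 := by
        exact ContinuousLinearMap.adjoint_id
      rw [h2]; rfl
    calc (1:ℝ) = ‖u a‖ := (u.orthonormal.1 a).symm
      _ = ‖ContinuousLinearMap.adjoint ((G⁻¹ : (V →L[ℝ] V)ˣ) : V →L[ℝ] V)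
        (ContinuousLinearMap.adjoint (G : V →L[ℝ] V) (u a))‖ := by rw [h1]
      _ ≤ ‖ContinuousLinearMap.adjoint ((G⁻¹ : (V →L[ℝ] V)ˣ) : V →L[ℝ] V)‖ *
        ‖ContinuousLinearMap.adjoint (G : V →L[ℝ] V) (u a)‖ := ContinuousLinearMap.le_opNorm _ _
      _ = _ := by rw [LinearIsometryEquiv.norm_map]
  have hup : ∀ a, ‖ContinuousLinearMap.adjoint (G : V →L[ℝ] V) (u a)‖ ≤ ‖(G : V →L[ℝ] V)‖ := by
    intro a
    have := ContinuousLinearMap.le_opNorm (ContinuousLinearMap.adjoint (G : V →L[ℝ] V)) (u a)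
    rwa [LinearIsometryEquiv.norm_map, u.orthonormal.1 a, mul_one] at this
  have hpos : ∀ a, 0 < ‖ContinuousLinearMap.adjoint (G : V →L[ℝ] V) (u a)‖ := by
    intro a
    by_contra h
    have h0 : ‖ContinuousLinearMap.adjoint (G : V →L[ℝ] V) (u a)‖ = 0 :=
      le_antisymm (not_lt.1 h) (norm_nonneg _)
    have := hlow a
    rw [h0, mul_zero] at this
    linarith
  refine ⟨u, p, hp, fun a => ?_, fun a => ?_⟩
  · rw [hpa a]; have := hpos a; positivity
  · rw [hpa a, Real.log_pow, abs_mul]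
    set q := ‖ContinuousLinearMap.adjoint (G : V →L[ℝ] V) (u a)‖ with hq
    have hq0 : 0 < q := hpos a
    have h1 : Real.log q ≤ ‖(G : V →L[ℝ] V)‖ :=
      ((Real.log_le_sub_one_of_pos hq0).trans (by linarith)).trans (hup a)
    have h2 : - Real.log q ≤ ‖((G⁻¹ : (V →L[ℝ] V)ˣ) : V →L[ℝ] V)‖ := by
      rw [← Real.log_inv]
      have h3 := Real.log_le_sub_one_of_pos (inv_pos.2 hq0)
      have h4 : q⁻¹ ≤ ‖((G⁻¹ : (V →L[ℝ] V)ˣ) : V →L[ℝ] V)‖ := by
        rw [inv_le_iff_one_le_mul₀ hq0]; exact hlow a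
      linarith
    have h3 : |Real.log q| ≤ ‖(G : V →L[ℝ] V)‖ + ‖((G⁻¹ : (V →L[ℝ] V)ˣ) : V →L[ℝ] V)‖ := by
      rw [abs_le]
      constructor
      · have := norm_nonneg (G : V →L[ℝ] V); linarith
      · have := norm_nonneg ((G⁻¹ : (V →L[ℝ] V)ˣ) : V →L[ℝ] V); linarith
    have h4 : |((2:ℕ):ℝ)| = 2 := by norm_num
    rw [h4]
    linarith

lemma exists_log (G : (V →L[ℝ] V)ˣ) : ∃ Y, IsLog (pos (G : V →L[ℝ] V)) Y ∧
    ‖Y‖ ≤ (Module.finrank ℝ V) * (‖(G : V →L[ℝ] V)‖ + ‖((G⁻¹ : (V →L[ℝ] V)ˣ) : V →L[ℝ] V)‖) := by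
  obtain ⟨u, p, hp, hpos, hb⟩ := pos_diag G
  refine ⟨dg u (fun a => (1/2) * Real.log (p a)), ⟨dg_symm u _, ?_⟩, ?_⟩
  · rw [dg_smul, dg_exp, hp]
    congr 1
    funext a
    rw [← mul_assoc]
    norm_num
    exact Real.exp_log (hpos a)
  · refine dg_norm_le u _ _ fun a => ?_
    rw [abs_mul]
    have := hb a
    have h4 : |(1/2 : ℝ)| = 1/2 := by norm_num
    rw [h4]
    linarith

/-- The symmetric logarithm of the positive part. -/
noncomputable def slog (G : (V →L[ℝ] V)ˣ) : V →L[ℝ] V := (exists_log G).choose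

lemma slog_isLog (G : (V →L[ℝ] V)ˣ) : IsLog (pos (G : V →L[ℝ] V)) (slog G) :=
  (exists_log G).choose_spec.1

lemma slog_norm (G : (V →L[ℝ] V)ˣ) : ‖slog G‖ ≤
    (Module.finrank ℝ V) * (‖(G : V →L[ℝ] V)‖ + ‖((G⁻¹ : (V →L[ℝ] V)ˣ) : V →L[ℝ] V)‖) :=
  (exists_log G).choose_spec.2

lemma continuous_slog : Continuous (slog : (V →L[ℝ] V)ˣ → (V →L[ℝ] V)) := by
  rw [continuous_iff_continuousAt]
  intro G
  have hcont : Continuous fun G : (V →L[ℝ] V)ˣ =>
      (Module.finrank ℝ V : ℝ) * (‖(G : V →L[ℝ] V)‖ + ‖((G⁻¹ : (V →L[ℝ] V)ˣ) : V →L[ℝ] V)‖) := by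
    have h1 : Continuous fun G : (V →L[ℝ] V)ˣ => (G : V →L[ℝ] V) := Units.continuous_val
    have h2 : Continuous fun G : (V →L[ℝ] V)ˣ => ((G⁻¹ : (V →L[ℝ] V)ˣ) : V →L[ℝ] V) :=
      Units.continuous_val.comp continuous_inv
    fun_prop
  set M : ℝ := (Module.finrank ℝ V : ℝ) * (‖(G : V →L[ℝ] V)‖ + ‖((G⁻¹ : (V →L[ℝ] V)ˣ) : V →L[ℝ] V)‖) + 1
  have hev : ∀ᶠ G' : (V →L[ℝ] V)ˣ in 𝓝 G, slog G' ∈ Metric.closedBall (0 : V →L[ℝ] V) M := by
    have := hcont.continuousAt.eventually (gt_mem_nhds (show _ < M from lt_add_one _) : ∀ᶠ r in 𝓝 _, r < M)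
    filter_upwards [this] with G' hG'
    rw [mem_closedBall_zero_iff]
    exact (slog_norm G').trans hG'.le
  refine IsCompact.tendsto_nhds_of_unique_mapClusterPt (isCompact_closedBall _ _) hev ?_
  intro Y _ hY
  have hclosed : IsClosed {q : (V →L[ℝ] V)ˣ × (V →L[ℝ] V) | IsLog (pos (q.1 : V →L[ℝ] V)) q.2} := by
    have : {q : (V →L[ℝ] V)ˣ × (V →L[ℝ] V) | IsLog (pos (q.1 : V →L[ℝ] V)) q.2}
      = (⋂ x : V, ⋂ y : V, {q | ⟪q.2 x, y⟫ = ⟪x, q.2 y⟫}) ∩
        {q | NormedSpace.exp ((2:ℝ) • q.2) = pos (q.1 : V →L[ℝ] V)} := by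
      ext q; simp [IsLog]
    rw [this]
    refine IsClosed.inter (isClosed_iInter fun x => isClosed_iInter fun y => ?_) ?_
    · refine isClosed_eq ?_ ?_ <;> fun_prop
    · refine isClosed_eq ?_ ?_
      · exact expR_cont.comp (continuous_snd.const_smul (2:ℝ))
      · exact continuous_pos.comp (Units.continuous_val.comp continuous_fst)
  have hmem : (G, Y) ∈ closure {q : (V →L[ℝ] V)ˣ × (V →L[ℝ] V) | IsLog (pos (q.1 : V →L[ℝ] V)) q.2} := by
    rw [mem_closure_iff_nhds]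
    intro t ht
    rw [nhds_prod_eq, mem_prod_iff] at ht
    obtain ⟨s1, hs1, s2, hs2, hs⟩ := ht
    have hfr := (mapClusterPt_iff_frequently.1 hY) s2 hs2
    obtain ⟨G', h1, h2⟩ := (hfr.and_eventually hs1).exists
    exact ⟨(G', slog G'), hs ⟨h2, h1⟩, slog_isLog G'⟩
  rw [hclosed.closure_eq] at hmem
  exact IsLog.unique hmem (slog_isLog G)

end Pool.Agent.TH77.Br
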