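import Mathlib
import Pool.Agent.TH77.Rigid
import Pool.Agent.TH77.SymLog

/-!
Minimal brackets and the polar decomposition of their automorphism groups.
-/

set_option autoImplicit false
set_option linter.unusedSectionVars false

open Filter Topology
open scoped RealInnerProductSpace

namespace Pool.Agent.TH77.Br

variable {V : Type*} [NormedAddCommGroup V] [InnerProductSpace ℝ V] [FiniteDimensional ℝ V]
variable {n : ℕ}

/-- Determinant of a continuous endomorphism. -/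
noncomputable def dt (A : V →L[ℝ] V) : ℝ := LinearMap.det (A : V →ₗ[ℝ] V)

lemma dt_mul (A B : V →L[ℝ] V) : dt (A * B) = dt A * dt B := by
  unfold dt
  exact LinearMap.det_comp (A : V →ₗ[ℝ] V) (B : V →ₗ[ℝ] V)

lemma dt_one : dt (1 : V →L[ℝ] V) = 1 := by
  unfold dt
  exact LinearMap.det_id

lemma dt_inv (g : (V →L[ℝ] V)ˣ) : dt (g : V →L[ℝ] V) * dt ((g⁻¹ : (V →L[ℝ] V)ˣ) : V →L[ℝ] V) = 1 := by
  rw [← dt_mul, Units.mul_inv, dt_one]

lemma dt_adjoint (A : V →L[ℝ] V) : dt (ContinuousLinearMap.adjoint A) = dt A := by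
  unfold dt
  rw [← LinearMap.det_toMatrix (stdOrthonormalBasis ℝ V).toBasis,
    ← LinearMap.det_toMatrix (stdOrthonormalBasis ℝ V).toBasis]
  have h := LinearMap.toMatrix_adjoint (stdOrthonormalBasis ℝ V) (stdOrthonormalBasis ℝ V)
    (A : V →ₗ[ℝ] V)
  have h2 : ((ContinuousLinearMap.adjoint A : V →L[ℝ] V) : V →ₗ[ℝ] V)
    = LinearMap.adjoint (A : V →ₗ[ℝ] V) := by
    refine (LinearMap.eq_adjoint_iff _ _).2 fun x y => ?_
    exact ContinuousLinearMap.adjoint_inner_left A y x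
  rw [h2, h, Matrix.det_conjTranspose]
  simp

lemma dt_dg (u : OrthonormalBasis (Fin n) ℝ V) (f : Fin n → ℝ) : dt (dg u f) = ∏ a, f a := by
  unfold dt
  rw [← LinearMap.det_toMatrix u.toBasis]
  have : LinearMap.toMatrix u.toBasis u.toBasis ((dg u f : V →L[ℝ] V) : V →ₗ[ℝ] V)
      = Matrix.diagonal f := by
    ext i j
    rw [LinearMap.toMatrix_apply]
    simp only [OrthonormalBasis.coe_toBasis, ContinuousLinearMap.coe_coe]
    rw [dg_basis, map_smul, Finsupp.smul_apply]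
    rw [← OrthonormalBasis.coe_toBasis u, Module.Basis.repr_self, Matrix.diagonal_apply]
    by_cases h : i = j
    · subst h; simp
    · rw [if_neg h, Finsupp.single_eq_of_ne h]; simp
  rw [this, Matrix.det_diagonal]

/-- Killing determinant. -/
noncomputable def kd (u : OrthonormalBasis (Fin n) ℝ V) (w : V →L[ℝ] V →L[ℝ] V) : ℝ :=
  (LinearMap.BilinForm.toMatrix u.toBasis (kf w)).det

lemma sep_iff (u : OrthonormalBasis (Fin n) ℝ V) (w : V →L[ℝ] V →L[ℝ] V) :
    Sep w ↔ kd u w ≠ 0 := by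
  rw [kd, ← LinearMap.BilinForm.nondegenerate_iff_det_ne_zero u.toBasis]
  exact ⟨fun h => h.nondeg, fun h x hx => h.1 x hx⟩

lemma kd_act (u : OrthonormalBasis (Fin n) ℝ V) (w : V →L[ℝ] V →L[ℝ] V) (g : (V →L[ℝ] V)ˣ) :
    kd u (act g w) * dt (g : V →L[ℝ] V) ^ 2 = kd u w := by
  have h : kf w = (kf (act g w)).comp ((g : V →L[ℝ] V) : V →ₗ[ℝ] V) ((g : V →L[ℝ] V) : V →ₗ[ℝ] V) := by
    refine LinearMap.ext fun x => LinearMap.ext fun y => ?_
    rw [LinearMap.BilinForm.comp_apply]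
    change _ = kf (act g w) ((g : V →L[ℝ] V) x) ((g : V →L[ℝ] V) y)
    rw [kf_act, inv_val_apply, inv_val_apply]
  have h2 : kd u w = kd u (act g w) * dt (g : V →L[ℝ] V) ^ 2 := by
    conv_lhs => rw [kd, h, LinearMap.BilinForm.toMatrix_comp u.toBasis u.toBasis]
    rw [Matrix.det_mul, Matrix.det_mul, Matrix.det_transpose, LinearMap.det_toMatrix]
    unfold kd dt
    ring
  exact h2.symm

/-- Hilbert–Schmidt functional. -/
noncomputable def hs (u : OrthonormalBasis (Fin n) ℝ V) (w : V →L[ℝ] V →L[ℝ] V) : ℝ :=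
  ∑ a, ∑ b, ‖w (u a) (u b)‖ ^ 2

lemma hs1 (A : V →L[ℝ] V) (u v : OrthonormalBasis (Fin n) ℝ V) :
    ∑ a, ‖A (u a)‖ ^ 2 = ∑ a, ‖A (v a)‖ ^ 2 := by
  have key : ∀ u' : OrthonormalBasis (Fin n) ℝ V, ∑ a, ‖A (u' a)‖ ^ 2
      = ∑ c, ‖ContinuousLinearMap.adjoint A (v c)‖ ^ 2 := by
    intro u'
    have h1 : ∀ a, ‖A (u' a)‖ ^ 2 = ∑ c, ⟪ContinuousLinearMap.adjoint A (v c), u' a⟫ ^ 2 := by
      intro a
      rw [← v.sum_sq_inner_right (A (u' a))]
      refine Finset.sum_congr rfl fun c _ => ?_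
      rw [ContinuousLinearMap.adjoint_inner_left]
    simp only [h1]
    rw [Finset.sum_comm]
    refine Finset.sum_congr rfl fun c _ => ?_
    exact u'.sum_sq_inner_left _
  rw [key u, key v]

lemma hs_eq (w : V →L[ℝ] V →L[ℝ] V) (u v : OrthonormalBasis (Fin n) ℝ V) : hs u w = hs v w := by
  unfold hs
  have h1 : ∀ a, ∑ b, ‖w (u a) (u b)‖ ^ 2 = ∑ b, ‖w (u a) (v b)‖ ^ 2 := fun a => hs1 _ _ _
  simp only [h1]
  rw [Finset.sum_comm]
  conv_rhs => rw [Finset.sum_comm]
  refine Finset.sum_congr rfl fun b _ => ?_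
  exact hs1 (w.flip (v b)) u v

lemma hs_orth (w : V →L[ℝ] V →L[ℝ] V) (u : OrthonormalBasis (Fin n) ℝ V) (k : (V →L[ℝ] V)ˣ)
    (hk : ∀ x, ‖(k : V →L[ℝ] V) x‖ = ‖x‖) : hs u (act k w) = hs u w := by
  have hk' : ∀ x, ‖((k⁻¹ : (V →L[ℝ] V)ˣ) : V →L[ℝ] V) x‖ = ‖x‖ := by
    intro x
    rw [← hk, val_inv_apply]
  let e : V ≃ₗᵢ[ℝ] V :=
    { toFun := fun x => ((k⁻¹ : (V →L[ℝ] V)ˣ) : V →L[ℝ] V) x
      invFun := fun x => (k : V →L[ℝ] V) x
      map_add' := fun x y => map_add _ x y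
      map_smul' := fun c x => map_smul _ c x
      left_inv := fun x => val_inv_apply k x
      right_inv := fun x => inv_val_apply k x
      norm_map' := fun x => hk' x }
  have he : ∀ x, e x = ((k⁻¹ : (V →L[ℝ] V)ˣ) : V →L[ℝ] V) x := fun _ => rfl
  rw [hs_eq w u (u.map e)]
  unfold hs
  refine Finset.sum_congr rfl fun a _ => Finset.sum_congr rfl fun b _ => ?_
  rw [act_apply, hk, OrthonormalBasis.map_apply, OrthonormalBasis.map_apply, he, he]

lemma hs_expand (w : V →L[ℝ] V →L[ℝ] V) (u : OrthonormalBasis (Fin n) ℝ V) :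
    hs u w = ∑ a, ∑ b, ∑ c, ⟪u c, w (u a) (u b)⟫ ^ 2 := by
  unfold hs
  refine Finset.sum_congr rfl fun a _ => Finset.sum_congr rfl fun b _ => ?_
  exact (u.sum_sq_inner_right _).symm

/-- Diagonal units. -/
noncomputable def dgU (u : OrthonormalBasis (Fin n) ℝ V) (f : Fin n → ℝ) (hf : ∀ a, f a ≠ 0) :
    (V →L[ℝ] V)ˣ where
  val := dg u f
  inv := dg u (fun a => (f a)⁻¹)
  val_inv := by
    rw [dg_mul, ← dg_one u]; congr 1; funext a; exact mul_inv_cancel₀ (hf a)
  inv_val := by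
    rw [dg_mul, ← dg_one u]; congr 1; funext a; exact inv_mul_cancel₀ (hf a)

lemma act_dgU (u : OrthonormalBasis (Fin n) ℝ V) (f : Fin n → ℝ) (hf : ∀ a, f a ≠ 0)
    (w : V →L[ℝ] V →L[ℝ] V) (a b c : Fin n) :
    ⟪u c, act (dgU u f hf) w (u a) (u b)⟫ = f c * (f a)⁻¹ * (f b)⁻¹ * ⟪u c, w (u a) (u b)⟫ := by
  rw [act_apply]
  change ⟪u c, dg u f (w (dg u (fun a => (f a)⁻¹) (u a)) (dg u (fun a => (f a)⁻¹) (u b)))⟫ = _
  rw [← dg_symm, dg_basis, dg_basis, dg_basis]
  simp only [map_smul, smul_apply, inner_smul_left, inner_smul_right, conj_trivial]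
  ring

/-- The orthogonal part. -/
lemma polar_orth (G : (V →L[ℝ] V)ˣ) (x : V) :
    ‖(((expU (slog G))⁻¹ * G : (V →L[ℝ] V)ˣ) : V →L[ℝ] V) x‖ = ‖x‖ := by
  set Y := slog G with hY
  obtain ⟨hYs, hYe⟩ := slog_isLog G
  rw [← hY] at hYs hYe
  -- exp (-Y) is symmetric
  have hes : ∀ x y, ⟪NormedSpace.exp (-Y) x, y⟫ = ⟪x, NormedSpace.exp (-Y) y⟫ := by
    obtain ⟨u, f, hf⟩ := exists_dg Y hYs
    have : -Y = dg u (fun a => -1 * f a) := by rw [← dg_smul, ← hf]; simp
    intro x y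
    rw [this, dg_exp, dg_symm]
  set k : (V →L[ℝ] V)ˣ := (expU Y)⁻¹ * G with hk
  have hkv : (k : V →L[ℝ] V) = NormedSpace.exp (-Y) * (G : V →L[ℝ] V) := rfl
  have hadj : ContinuousLinearMap.adjoint (k : V →L[ℝ] V)
      = ContinuousLinearMap.adjoint (G : V →L[ℝ] V) * NormedSpace.exp (-Y) := by
    symm
    rw [ContinuousLinearMap.eq_adjoint_iff]
    intro x y
    rw [hkv, mul_apply_eq_comp, mul_apply_eq_comp, ContinuousLinearMap.adjoint_inner_left, hes]
  have h1 : (k : V →L[ℝ] V) * ContinuousLinearMap.adjoint (k : V →L[ℝ] V) = 1 := by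
    rw [hadj, hkv]
    have h2 : NormedSpace.exp (-Y) * (G : V →L[ℝ] V) *
        (ContinuousLinearMap.adjoint (G : V →L[ℝ] V) * NormedSpace.exp (-Y))
        = NormedSpace.exp (-Y) * pos (G : V →L[ℝ] V) * NormedSpace.exp (-Y) := by
      unfold pos; simp only [mul_assoc]
    rw [h2, ← hYe]
    have h3 : (2:ℝ) • Y = Y + Y := two_smul ℝ Y
    have h4 : NormedSpace.exp (-Y) * NormedSpace.exp Y = 1 := by
      rw [← expR_add (Commute.refl Y).neg_left, neg_add_cancel, NormedSpace.exp_zero]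
    have h5 : NormedSpace.exp Y * NormedSpace.exp (-Y) = 1 := by
      rw [← expR_add (Commute.refl Y).neg_right, add_neg_cancel, NormedSpace.exp_zero]
    rw [h3, expR_add (Commute.refl Y)]
    calc NormedSpace.exp (-Y) * (NormedSpace.exp Y * NormedSpace.exp Y) * NormedSpace.exp (-Y)
        = (NormedSpace.exp (-Y) * NormedSpace.exp Y) * (NormedSpace.exp Y * NormedSpace.exp (-Y)) := by
          simp only [mul_assoc]
      _ = 1 := by rw [h4, h5, one_mul]
  have h2 : ContinuousLinearMap.adjoint (k : V →L[ℝ] V) * (k : V →L[ℝ] V) = 1 := by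
    have : ContinuousLinearMap.adjoint (k : V →L[ℝ] V) = ((k⁻¹ : (V →L[ℝ] V)ˣ) : V →L[ℝ] V) := by
      calc _ = ((k⁻¹ : (V →L[ℝ] V)ˣ) : V →L[ℝ] V) * ((k : V →L[ℝ] V) *
            ContinuousLinearMap.adjoint (k : V →L[ℝ] V)) := by rw [← mul_assoc, Units.inv_mul, one_mul]
        _ = _ := by rw [h1, mul_one]
    rw [this, Units.inv_mul]
  have h3 : ‖(k : V →L[ℝ] V) x‖ ^ 2 = ‖x‖ ^ 2 := by
    rw [← real_inner_self_eq_norm_sq, ← real_inner_self_eq_norm_sq,
      ← ContinuousLinearMap.adjoint_inner_left]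
    change ⟪(ContinuousLinearMap.adjoint (k : V →L[ℝ] V) * (k : V →L[ℝ] V)) x, x⟫ = _
    rw [h2]; rfl
  exact (sq_eq_sq₀ (norm_nonneg _) (norm_nonneg _)).1 h3

/-- The symmetric logarithm of an automorphism of a minimal bracket is a derivation. -/
theorem aut_der (u₀ : OrthonormalBasis (Fin (Module.finrank ℝ V)) ℝ V)
    (w : V →L[ℝ] V →L[ℝ] V)
    (hmin : ∀ h : (V →L[ℝ] V)ˣ, dt (h : V →L[ℝ] V) ^ 2 = 1 → hs u₀ w ≤ hs u₀ (act h w))
    (G : (V →L[ℝ] V)ˣ) (hG : act G w = w) (hdet : dt (G : V →L[ℝ] V) ^ 2 = 1) :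
    IsDer w (slog G) := by
  obtain ⟨u, p, hp, hpos, -⟩ := pos_diag G
  have hY : slog G = dg u (fun a => (1/2) * Real.log (p a)) := by
    refine (slog_isLog G).unique ⟨dg_symm u _, ?_⟩
    rw [dg_smul, dg_exp, hp]
    congr 1
    funext a
    rw [← mul_assoc]
    norm_num
    exact Real.exp_log (hpos a)
  let q : Fin (Module.finrank ℝ V) → ℝ := fun a => Real.exp ((1/4) * Real.log (p a))
  have hq0 : ∀ a, 0 < q a := fun a => Real.exp_pos _
  have hqi : ∀ a, (q a)⁻¹ ≠ 0 := fun a => inv_ne_zero (hq0 a).ne'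
  have hqi2 : ∀ a, ((q a)⁻¹) ^ 2 ≠ 0 := fun a => pow_ne_zero _ (hqi a)
  have hq4 : ∀ a, q a ^ 4 = p a := by
    intro a
    change Real.exp ((1/4) * Real.log (p a)) ^ 4 = _
    rw [← Real.exp_nat_mul]
    have : ((4:ℕ):ℝ) * ((1/4) * Real.log (p a)) = Real.log (p a) := by push_cast; ring
    rw [this, Real.exp_log (hpos a)]
  -- determinant one
  have hprod : ∏ a, p a = 1 := by
    rw [← dt_dg u p, ← hp, pos, dt_mul, dt_adjoint, ← pow_two, hdet]
  have hprodq : ∏ a, (q a) = 1 := by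
    have h1 : (∏ a, q a) ^ 4 = 1 := by
      rw [← Finset.prod_pow]; simp only [hq4]; exact hprod
    exact (pow_eq_one_iff_of_nonneg (Finset.prod_nonneg fun a _ => (hq0 a).le) (by norm_num)).1 h1
  have hge : hs u₀ w ≤ hs u₀ (act (dgU u (fun a => (q a)⁻¹) hqi) w) := by
    refine hmin _ ?_
    change dt (dg u (fun a => (q a)⁻¹)) ^ 2 = 1
    rw [dt_dg, Finset.prod_inv_distrib, hprodq]; norm_num
  have heq : hs u₀ (act (dgU u (fun a => ((q a)⁻¹) ^ 2) hqi2) w) = hs u₀ w := by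
    have h1 : dgU u (fun a => ((q a)⁻¹) ^ 2) hqi2 = (expU (slog G))⁻¹ := by
      ext1
      change dg u (fun a => ((q a)⁻¹) ^ 2) = NormedSpace.exp (-slog G)
      have h2 : -slog G = dg u (fun a => -1 * ((1/2) * Real.log (p a))) := by
        rw [← dg_smul, hY]; simp
      rw [h2, dg_exp]
      congr 1
      funext a
      change (Real.exp ((1/4) * Real.log (p a)))⁻¹ ^ 2 = _
      rw [← Real.exp_neg, ← Real.exp_nat_mul]
      congr 1
      push_cast; ring
    have h2 : act (dgU u (fun a => ((q a)⁻¹) ^ 2) hqi2) w = act ((expU (slog G))⁻¹ * G) w := by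
      rw [act_mul, hG, h1]
    rw [h2]
    exact hs_orth w u₀ _ (polar_orth G)
  rw [hs_eq w u₀ u] at hge heq
  rw [hs_eq _ u₀ u] at hge
  rw [hs_eq _ u₀ u] at heq
  rw [hs_expand, hs_expand] at hge heq
  simp only [act_dgU] at hge heq
  -- the coefficients
  have hz : ∀ a b c, ⟪u c, w (u a) (u b)⟫ ≠ 0 → q c = q a * q b := by
    set W : Fin (Module.finrank ℝ V) → Fin (Module.finrank ℝ V) → Fin (Module.finrank ℝ V) → ℝ :=
      fun a b c => ⟪u c, w (u a) (u b)⟫ with hW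
    set R : Fin (Module.finrank ℝ V) → Fin (Module.finrank ℝ V) → Fin (Module.finrank ℝ V) → ℝ :=
      fun a b c => q a * q b * (q c)⁻¹ with hR
    have hge' : ∑ a, ∑ b, ∑ c, W a b c ^ 2 ≤ ∑ a, ∑ b, ∑ c, W a b c ^ 2 * R a b c ^ 2 := by
      refine hge.trans (le_of_eq ?_)
      refine Finset.sum_congr rfl fun a _ => Finset.sum_congr rfl fun b _ =>
        Finset.sum_congr rfl fun c _ => ?_
      simp only [hW, hR, inv_inv]
      ring
    have heq' : ∑ a, ∑ b, ∑ c, W a b c ^ 2 * R a b c ^ 4 = ∑ a, ∑ b, ∑ c, W a b c ^ 2 := by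
      rw [← heq]
      refine Finset.sum_congr rfl fun a _ => Finset.sum_congr rfl fun b _ =>
        Finset.sum_congr rfl fun c _ => ?_
      simp only [hW, hR, inv_pow, inv_inv]
      ring
    have hsum : ∑ a, ∑ b, ∑ c, W a b c ^ 2 * (R a b c ^ 2 - 1) ^ 2 ≤ 0 := by
      have : ∑ a, ∑ b, ∑ c, W a b c ^ 2 * (R a b c ^ 2 - 1) ^ 2
        = ∑ a, ∑ b, ∑ c, W a b c ^ 2 * R a b c ^ 4 - 2 * ∑ a, ∑ b, ∑ c, W a b c ^ 2 * R a b c ^ 2
          + ∑ a, ∑ b, ∑ c, W a b c ^ 2 := by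
        simp only [Finset.mul_sum, ← Finset.sum_sub_distrib, ← Finset.sum_add_distrib]
        refine Finset.sum_congr rfl fun a _ => Finset.sum_congr rfl fun b _ =>
          Finset.sum_congr rfl fun c _ => ?_
        ring
      rw [this, heq']
      linarith
    intro a b c habc
    have h0 : ∑ a, ∑ b, ∑ c, W a b c ^ 2 * (R a b c ^ 2 - 1) ^ 2 = 0 :=
      le_antisymm hsum (Finset.sum_nonneg fun a _ => Finset.sum_nonneg fun b _ =>
        Finset.sum_nonneg fun c _ => by positivity)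
    have h1 := (Finset.sum_eq_zero_iff_of_nonneg (fun a _ => Finset.sum_nonneg fun b _ =>
        Finset.sum_nonneg fun c _ => by positivity)).1 h0 a (Finset.mem_univ a)
    have h2 := (Finset.sum_eq_zero_iff_of_nonneg (fun b _ =>
        Finset.sum_nonneg fun c _ => by positivity)).1 h1 b (Finset.mem_univ b)
    have h3 := (Finset.sum_eq_zero_iff_of_nonneg (fun c _ => by positivity)).1 h2 c (Finset.mem_univ c)
    have h4 : (R a b c ^ 2 - 1) ^ 2 = 0 := by
      rcases mul_eq_zero.1 h3 with h | h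
      · exact absurd (pow_eq_zero_iff (by norm_num) |>.1 h) habc
      · exact h
    have h5 : R a b c ^ 2 = 1 := by
      have := (pow_eq_zero_iff (by norm_num)).1 h4; linarith
    have hRpos : 0 < R a b c := by
      have := hq0 a; have := hq0 b; have := hq0 c
      simp only [hR]; positivity
    have h6 : R a b c = 1 := (pow_eq_one_iff_of_nonneg hRpos.le (by norm_num)).1 h5
    simp only [hR] at h6
    have hqc := (hq0 c).ne'
    field_simp at h6
    exact h6.symm
  have hlog : ∀ a b c, ⟪u c, w (u a) (u b)⟫ ≠ 0 →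
      (1/2) * Real.log (p c) = (1/2) * Real.log (p a) + (1/2) * Real.log (p b) := by
    intro a b c h
    have h1 := congrArg Real.log (hz a b c h)
    rw [Real.log_mul (hq0 a).ne' (hq0 b).ne'] at h1
    simp only [q, Real.log_exp] at h1
    linarith
  -- derivation property on basis vectors
  have hbas : ∀ a b, slog G (w (u a) (u b)) = w (slog G (u a)) (u b) + w (u a) (slog G (u b)) := by
    intro a b
    rw [hY, dg_basis, dg_basis, map_smul, smul_apply, map_smul, ← add_smul, dg_apply]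
    conv_rhs => rw [← u.sum_repr (w (u a) (u b)), Finset.smul_sum]
    refine Finset.sum_congr rfl fun c _ => ?_
    rw [u.repr_apply_apply, smul_smul]
    by_cases h : ⟪u c, w (u a) (u b)⟫ = 0
    · simp [h]
    · rw [hlog a b c h]
  let B1 : V →ₗ[ℝ] V →ₗ[ℝ] V := LinearMap.mk₂ ℝ (fun x y => slog G (w x y))
    (by intro a b c; simp only [map_add, add_apply]) (by intro r a b; simp only [map_smul, smul_apply])
    (by intro a b c; simp only [map_add]) (by intro r a b; simp only [map_smul])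
  let B2 : V →ₗ[ℝ] V →ₗ[ℝ] V := LinearMap.mk₂ ℝ (fun x y => w (slog G x) y + w x (slog G y))
    (by intro a b c; simp only [map_add, add_apply]; abel)
    (by intro r a b; simp only [map_smul, smul_apply, smul_add])
    (by intro a b c; simp only [map_add]; abel)
    (by intro r a b; simp only [map_smul, smul_add])
  have hB : B1 = B2 := by
    refine LinearMap.ext_basis u.toBasis u.toBasis fun a b => ?_
    rw [OrthonormalBasis.coe_toBasis]
    exact hbas a b
  intro x y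
  exact congrArg (fun B : V →ₗ[ℝ] V →ₗ[ℝ] V => B x y) hB

lemma continuous_br (b : Module.Basis (Fin n) ℝ V) (x : V) :
    Continuous (fun c : Fin n → Fin n → V => br b c x) := by
  let L : (Fin n → Fin n → V) →ₗ[ℝ] (V →L[ℝ] V) :=
    { toFun := fun c => br b c x
      map_add' := by intro c c'; rw [br_add]; rfl
      map_smul' := by intro r c; rw [br_smul]; rfl }
  exact L.continuous_of_finiteDimensional

lemma continuous_br2 (b : Module.Basis (Fin n) ℝ V) {X : Type*} [TopologicalSpace X]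
    {f g : X → V} {h : X → (Fin n → Fin n → V)} (hf : Continuous f) (hg : Continuous g)
    (hh : Continuous h) : Continuous (fun t => br b (h t) (f t) (g t)) := by
  simp only [br_apply]
  fun_prop

lemma continuous_tr : Continuous (tr : (V →L[ℝ] V) → ℝ) :=
  LinearMap.continuous_of_finiteDimensional (tr : (V →L[ℝ] V) →ₗ[ℝ] ℝ)

lemma continuous_kd (u : OrthonormalBasis (Fin n) ℝ V) :
    Continuous (fun c : Fin n → Fin n → V => kd u (br u.toBasis c)) := by
  unfold kd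
  refine Continuous.matrix_det ?_
  refine continuous_matrix fun i j => ?_
  have : ∀ c : Fin n → Fin n → V, LinearMap.BilinForm.toMatrix u.toBasis (kf (br u.toBasis c)) i j
      = tr (br u.toBasis c (u i) * br u.toBasis c (u j)) := by
    intro c
    rw [LinearMap.BilinForm.toMatrix_apply, kf_apply, OrthonormalBasis.coe_toBasis]
  simp only [this]
  exact continuous_tr.comp ((continuous_br _ _).mul (continuous_br _ _))

lemma isClosed_isLie (b : Module.Basis (Fin n) ℝ V) :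
    IsClosed {c : Fin n → Fin n → V | IsLie (br b c)} := by
  have : {c : Fin n → Fin n → V | IsLie (br b c)} = (⋂ x, {c | br b c x x = 0}) ∩
      (⋂ x, ⋂ y, ⋂ z, {c | br b c x (br b c y z) = br b c (br b c x y) z + br b c y (br b c x z)}) := by
    ext c
    simp only [Set.mem_ofPred_eq, Set.mem_inter_iff, Set.mem_iInter]
    exact ⟨fun h => ⟨h.alt, h.jac⟩, fun h => ⟨h.1, h.2⟩⟩
  rw [this]
  refine IsClosed.inter (isClosed_iInter fun x => ?_) (isClosed_iInter fun x =>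
    isClosed_iInter fun y => isClosed_iInter fun z => ?_)
  · exact isClosed_eq (continuous_br2 b continuous_const continuous_const continuous_id)
      continuous_const
  · refine isClosed_eq ?_ (Continuous.add ?_ ?_)
    · exact continuous_br2 b continuous_const
        (continuous_br2 b continuous_const continuous_const continuous_id) continuous_id
    · exact continuous_br2 b
        (continuous_br2 b continuous_const continuous_const continuous_id) continuous_const continuous_id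
    · exact continuous_br2 b continuous_const
        (continuous_br2 b continuous_const continuous_const continuous_id) continuous_id

/-- Existence of a minimal bracket in the orbit. -/
theorem exists_minimal {ν : V →L[ℝ] V →L[ℝ] V} (h : IsLie ν) (hN : Sep ν)
    (u : OrthonormalBasis (Fin n) ℝ V) :
    ∃ g : (V →L[ℝ] V)ˣ, ∀ h : (V →L[ℝ] V)ˣ, dt (h : V →L[ℝ] V) ^ 2 = 1 →
      hs u (act g ν) ≤ hs u (act h (act g ν)) := by
  classical
  set d₀ := kd u ν with hd₀
  have hd : d₀ ≠ 0 := (sep_iff u ν).1 hN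
  set b := u.toBasis with hb
  let S : Set (Fin n → Fin n → V) := {c | IsLie (br b c) ∧ (∃ g, br b c = act g ν) ∧ kd u (br b c) = d₀}
  have hS : IsClosed S := by
    rw [← closure_eq_iff_isClosed]
    refine subset_antisymm ?_ subset_closure
    intro c hc
    have h1 : IsLie (br b c) := by
      have : closure S ⊆ {c | IsLie (br b c)} :=
        closure_minimal (fun c hc => hc.1) (isClosed_isLie b)
      exact this hc
    have h2 : kd u (br b c) = d₀ := by
      have : closure S ⊆ {c | kd u (br b c) = d₀} :=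
        closure_minimal (fun c hc => hc.2.2) (isClosed_eq (continuous_kd u) continuous_const)
      exact this hc
    have h3 : Sep (br b c) := (sep_iff u _).2 (by rw [h2]; exact hd)
    have h4 := rigid h1 h3 b
    rw [cf_br] at h4
    obtain ⟨c', h5, h6⟩ := mem_closure_iff_nhds.1 hc _ h4
    obtain ⟨g, hg⟩ := h5 h6.1
    obtain ⟨g', hg'⟩ := h6.2.1
    refine ⟨h1, ⟨g⁻¹ * g', ?_⟩, h2⟩
    rw [act_mul, ← hg', hg, act_inv_act]
  let F : (Fin n → Fin n → V) → ℝ := fun c => ∑ i, ∑ j, ‖c i j‖ ^ 2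
  have hF : Continuous F := by
    change Continuous (fun c : Fin n → Fin n → V => ∑ i, ∑ j, ‖c i j‖ ^ 2)
    fun_prop
  have hFhs : ∀ c, F c = hs u (br b c) := by
    intro c
    change ∑ i, ∑ j, ‖c i j‖ ^ 2 = ∑ i, ∑ j, ‖br b c (u i) (u j)‖ ^ 2
    refine Finset.sum_congr rfl fun i _ => Finset.sum_congr rfl fun j _ => ?_
    have := br_basis b c i j
    rw [hb, OrthonormalBasis.coe_toBasis] at this
    rw [hb, this]
  have hc₀ : cf b ν ∈ S := by
    refine ⟨by rw [br_cf]; exact h, ⟨1, by rw [br_cf, act_one]⟩, by rw [br_cf]⟩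
  have hK : IsCompact (S ∩ {c | F c ≤ F (cf b ν)}) := by
    refine Metric.isCompact_of_isClosed_isBounded
      (hS.inter (isClosed_le hF continuous_const)) ?_
    refine Metric.isBounded_closedBall (x := (0 : Fin n → Fin n → V))
      (r := Real.sqrt (F (cf b ν))) |>.subset ?_
    intro c hc
    rw [mem_closedBall_zero_iff]
    have h0 : 0 ≤ Real.sqrt (F (cf b ν)) := Real.sqrt_nonneg _
    refine (pi_norm_le_iff_of_nonneg h0).2 fun i => (pi_norm_le_iff_of_nonneg h0).2 fun j => ?_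
    refine Real.le_sqrt_of_sq_le ?_
    refine le_trans ?_ hc.2
    calc ‖c i j‖ ^ 2 ≤ ∑ j, ‖c i j‖ ^ 2 :=
          Finset.single_le_sum (f := fun j => ‖c i j‖ ^ 2) (fun _ _ => by positivity) (Finset.mem_univ j)
      _ ≤ F c := Finset.single_le_sum (f := fun i => ∑ j, ‖c i j‖ ^ 2)
          (fun _ _ => Finset.sum_nonneg fun _ _ => by positivity) (Finset.mem_univ i)
  obtain ⟨c, hc, hmin⟩ := hK.exists_isMinOn ⟨cf b ν, hc₀, le_refl (F (cf b ν))⟩ hF.continuousOn
  obtain ⟨g, hg⟩ := hc.1.2.1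
  refine ⟨g, fun k hk => ?_⟩
  rw [← hg, ← hFhs]
  have hk1 : hs u (act k (br b c)) = F (cf b (act k (br b c))) := by rw [hFhs, br_cf]
  rw [hk1]
  by_cases hle : F (cf b (act k (br b c))) ≤ F (cf b ν)
  · refine hmin ⟨⟨?_, ⟨k * g, ?_⟩, ?_⟩, hle⟩
    · rw [br_cf]; exact hc.1.1.act k
    · rw [br_cf, hg, act_mul]
    · rw [br_cf]
      have := kd_act u (br b c) k
      rw [hk, mul_one] at this
      rw [this]; exact hc.1.2.2
  · exact hc.2.trans (not_le.1 hle).le

/-- The orthogonal group. -/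
def orthG (V : Type*) [NormedAddCommGroup V] [InnerProductSpace ℝ V] : Subgroup (V →L[ℝ] V)ˣ where
  carrier := {k | ∀ x, ‖(k : V →L[ℝ] V) x‖ = ‖x‖}
  mul_mem' := by
    intro a b ha hb x
    rw [Units.val_mul]
    exact (ha _).trans (hb x)
  one_mem' := by intro x; rfl
  inv_mem' := by
    intro k hk x
    have := hk (((k⁻¹ : (V →L[ℝ] V)ˣ) : V →L[ℝ] V) x)
    have h2 : (k : V →L[ℝ] V) (((k⁻¹ : (V →L[ℝ] V)ˣ) : V →L[ℝ] V) x) = x := by
      change ((k : V →L[ℝ] V) * ((k⁻¹ : (V →L[ℝ] V)ˣ) : V →L[ℝ] V)) x = x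
      rw [Units.mul_inv]; rfl
    rw [h2] at this
    exact this.symm

lemma mem_orthG {k : (V →L[ℝ] V)ˣ} : k ∈ orthG V ↔ ∀ x, ‖(k : V →L[ℝ] V) x‖ = ‖x‖ := Iff.rfl

lemma inner_of_norm {A : V →L[ℝ] V} (h : ∀ x, ‖A x‖ = ‖x‖) (x y : V) : ⟪A x, A y⟫ = ⟪x, y⟫ := by
  let e : V →ₗᵢ[ℝ] V := ⟨(A : V →ₗ[ℝ] V), h⟩
  exact e.inner_map_map x y

lemma adj_mul_of_norm {A : V →L[ℝ] V} (h : ∀ x, ‖A x‖ = ‖x‖) :
    ContinuousLinearMap.adjoint A * A = 1 := by
  ext x
  refine ext_inner_right ℝ fun y => ?_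
  rw [mul_apply_eq_comp, ContinuousLinearMap.adjoint_inner_left, inner_of_norm h]
  rfl

lemma mul_adj_of_norm {A : V →L[ℝ] V} (h : ∀ x, ‖A x‖ = ‖x‖) :
    A * ContinuousLinearMap.adjoint A = 1 := by
  have h1 := adj_mul_of_norm h
  have h2 : ((ContinuousLinearMap.adjoint A : V →L[ℝ] V) : V →ₗ[ℝ] V) * (A : V →ₗ[ℝ] V) = 1 := by
    ext x
    exact congrArg (fun B : V →L[ℝ] V => B x) h1
  have h3 := mul_eq_one_comm.1 h2
  ext x
  exact LinearMap.congr_fun h3 x

lemma isCompact_orthG : IsCompact (orthG V : Set (V →L[ℝ] V)ˣ) := by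
  let K : Set (V →L[ℝ] V) := {A | ∀ x, ‖A x‖ = ‖x‖}
  have hKc : IsCompact K := by
    refine Metric.isCompact_of_isClosed_isBounded ?_ ?_
    · have : K = ⋂ x : V, {A | ‖A x‖ = ‖x‖} := by ext A; simp [K]
      rw [this]
      exact isClosed_iInter fun x => isClosed_eq (by fun_prop) continuous_const
    · refine Metric.isBounded_closedBall (x := (0 : V →L[ℝ] V)) (r := 1) |>.subset ?_
      intro A hA
      rw [mem_closedBall_zero_iff]
      exact A.opNorm_le_bound zero_le_one fun x => by rw [hA x, one_mul]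
  have : CompactSpace K := isCompact_iff_compactSpace.1 hKc
  let ph : K → (V →L[ℝ] V)ˣ := fun A =>
    { val := A.1
      inv := ContinuousLinearMap.adjoint A.1
      val_inv := mul_adj_of_norm A.2
      inv_val := adj_mul_of_norm A.2 }
  have hph : Continuous ph := by
    rw [Units.continuous_iff]
    refine ⟨continuous_subtype_val, ?_⟩
    exact (LinearIsometryEquiv.continuous _).comp continuous_subtype_val
  have hr : (orthG V : Set (V →L[ℝ] V)ˣ) = Set.range ph := by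
    ext k
    constructor
    · intro hk
      exact ⟨⟨(k : V →L[ℝ] V), hk⟩, Units.ext rfl⟩
    · rintro ⟨A, rfl⟩
      exact A.2
  rw [hr]
  exact isCompact_range hph

lemma slog_orth {k : (V →L[ℝ] V)ˣ} (hk : k ∈ orthG V) : slog k = 0 := by
  refine (slog_isLog k).unique ⟨by intro x y; simp, ?_⟩
  rw [smul_zero, NormedSpace.exp_zero, pos, mul_adj_of_norm hk]

/-- Polar decomposition of the automorphism group of a bracket with nondegenerate Killing form. -/
theorem polar {ν : V →L[ℝ] V →L[ℝ] V} (h : IsLie ν) (hN : Sep ν) :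
    ∃ (K : Subgroup (V →L[ℝ] V)ˣ) (Y : (V →L[ℝ] V)ˣ → (V →L[ℝ] V)),
      IsCompact (K : Set (V →L[ℝ] V)ˣ) ∧ Continuous Y ∧ (∀ k ∈ K, Y k = 0) ∧
      ∀ G : (V →L[ℝ] V)ˣ, act G ν = ν → IsDer ν (Y G) ∧ (expU (Y G))⁻¹ * G ∈ K := by
  let u := stdOrthonormalBasis ℝ V
  obtain ⟨g, hg⟩ := exists_minimal h hN u
  set w := act g ν with hw
  have hwS : Sep w := hN.act g
  have hkd : kd u w ≠ 0 := (sep_iff u w).1 hwS
  let K : Subgroup (V →L[ℝ] V)ˣ := (orthG V).map (MulAut.conj g⁻¹).toMonoidHom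
  let Y : (V →L[ℝ] V)ˣ → (V →L[ℝ] V) := fun G =>
    ((g⁻¹ : (V →L[ℝ] V)ˣ) : V →L[ℝ] V) * slog (g * G * g⁻¹) * (g : V →L[ℝ] V)
  have hYU : ∀ G, expU (Y G) = g⁻¹ * expU (slog (g * G * g⁻¹)) * g := by
    intro G
    ext1
    change NormedSpace.exp (Y G) = ((g⁻¹ : (V →L[ℝ] V)ˣ) : V →L[ℝ] V) *
      NormedSpace.exp (slog (g * G * g⁻¹)) * (g : V →L[ℝ] V)
    letI : NormedAlgebra ℚ (V →L[ℝ] V) := NormedAlgebra.restrictScalars ℚ ℝ (V →L[ℝ] V)
    have := NormedSpace.exp_units_conj (g⁻¹) (slog (g * G * g⁻¹))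
    rw [inv_inv] at this
    exact this
  refine ⟨K, Y, ?_, ?_, ?_, ?_⟩
  · have : (K : Set (V →L[ℝ] V)ˣ) = (fun k => g⁻¹ * k * g) '' (orthG V : Set (V →L[ℝ] V)ˣ) := by
      ext k
      constructor
      · rintro ⟨k', hk', rfl⟩
        exact ⟨k', hk', by simp⟩
      · rintro ⟨k', hk', rfl⟩
        exact ⟨k', hk', by simp⟩
    rw [this]
    exact isCompact_orthG.image (by fun_prop)
  · have h1 : Continuous fun G : (V →L[ℝ] V)ˣ => slog (g * G * g⁻¹) :=
      continuous_slog.comp (by fun_prop)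
    exact (continuous_const.mul h1).mul continuous_const
  · rintro _ ⟨k, hk, rfl⟩
    have h1 : g * ((MulAut.conj g⁻¹).toMonoidHom k) * g⁻¹ = k := by simp [mul_assoc]
    change ((g⁻¹ : (V →L[ℝ] V)ˣ) : V →L[ℝ] V) * slog (g * ((MulAut.conj g⁻¹).toMonoidHom k) * g⁻¹)
      * (g : V →L[ℝ] V) = 0
    rw [h1, slog_orth hk]; simp
  · intro G hG
    have hG' : act (g * G * g⁻¹) w = w := by
      rw [act_mul, act_mul, hw, act_inv_act, hG]
    have hdet : dt ((g * G * g⁻¹ : (V →L[ℝ] V)ˣ) : V →L[ℝ] V) ^ 2 = 1 := by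
      have := kd_act u w (g * G * g⁻¹)
      rw [hG'] at this
      exact mul_left_cancel₀ hkd (by rw [this, mul_one])
    have hder := aut_der u w hg (g * G * g⁻¹) hG' hdet
    have hνw : ∀ x y, ν x y = ((g⁻¹ : (V →L[ℝ] V)ˣ) : V →L[ℝ] V) (w ((g : V →L[ℝ] V) x) ((g : V →L[ℝ] V) y)) := by
      intro x y
      rw [hw, act_apply, inv_val_apply, inv_val_apply, inv_val_apply]
    refine ⟨?_, ?_⟩
    · intro x y
      change ((g⁻¹ : (V →L[ℝ] V)ˣ) : V →L[ℝ] V) (slog (g * G * g⁻¹) ((g : V →L[ℝ] V) (ν x y)))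
        = ν (((g⁻¹ : (V →L[ℝ] V)ˣ) : V →L[ℝ] V) (slog (g * G * g⁻¹) ((g : V →L[ℝ] V) x))) y
          + ν x (((g⁻¹ : (V →L[ℝ] V)ˣ) : V →L[ℝ] V) (slog (g * G * g⁻¹) ((g : V →L[ℝ] V) y)))
      rw [hνw, hνw, hνw, val_inv_apply, val_inv_apply, val_inv_apply, hder, map_add]
    · refine ⟨(expU (slog (g * G * g⁻¹)))⁻¹ * (g * G * g⁻¹), polar_orth _, ?_⟩
      rw [hYU]
      simp [mul_assoc]

end Pool.Agent.TH77.Br
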