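import Pool.Agent.TH77.StarA
import Pool.Agent.TH77.Minimal
import Pool.Agent.TH77.Radical

set_option autoImplicit false
set_option linter.unusedSectionVars false
set_option linter.style.haveILetI false

/-!
# Discrete central subgroups: the semisimple part
-/

open Filter Topology Metric Set
open scoped Pointwise

namespace Pool.Agent.TH77

lemma exp_intertwine {E V : Type*} [NormedAddCommGroup E] [NormedSpace ℝ E] [CompleteSpace E]
    [NormedAddCommGroup V] [NormedSpace ℝ V] [CompleteSpace V] (A : E →L[ℝ] E) (B : V →L[ℝ] V)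
    (q : E →L[ℝ] V) (h : ∀ x, q (A x) = B (q x)) (y : E) :
    q (NormedSpace.exp A y) = NormedSpace.exp B (q y) := by
  have hp : ∀ (n : ℕ) (x : E), q ((A ^ n) x) = (B ^ n) (q x) := by
    intro n
    induction n with
    | zero => intro x; rfl
    | succ n ih => intro x; rw [pow_succ, pow_succ]; change q ((A ^ n) (A x)) = (B ^ n) (B (q x)); rw [ih, h]
  have h1 := (NormedSpace.exp_series_hasSum_exp' (𝕂 := ℝ) A).mapL (ContinuousLinearMap.apply ℝ E y)
  have h2 := h1.mapL q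
  have h3 := (NormedSpace.exp_series_hasSum_exp' (𝕂 := ℝ) B).mapL (ContinuousLinearMap.apply ℝ V (q y))
  have e : (fun b : ℕ => q ((ContinuousLinearMap.apply ℝ E y) (((b.factorial : ℝ)⁻¹) • A ^ b))) =
      fun b : ℕ => (ContinuousLinearMap.apply ℝ V (q y)) (((b.factorial : ℝ)⁻¹) • B ^ b) := by
    funext n
    simp only [map_smul, ContinuousLinearMap.apply_apply, hp]
  rw [e] at h2
  exact h2.unique h3

theorem exists_quot' {E : Type*} [AddCommGroup E] [Module ℝ E] [FiniteDimensional ℝ E]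
    (β : E →ₗ[ℝ] E →ₗ[ℝ] E) (halt : ∀ x, β x x = 0)
    (hjac : ∀ x y z, β x (β y z) = β (β x y) z + β y (β x z)) :
    ∃ (n : ℕ) (q : E →ₗ[ℝ] EuclideanSpace ℝ (Fin n))
    (ν : EuclideanSpace ℝ (Fin n) →L[ℝ] EuclideanSpace ℝ (Fin n) →L[ℝ] EuclideanSpace ℝ (Fin n)),
    Function.Surjective q ∧ Br.IsLie ν ∧ Br.Sep ν ∧ (∀ x y, ν (q x) (q y) = q (β x y)) ∧
    ∃ D : ℕ → Submodule ℝ E, D 0 = LinearMap.ker q ∧ (∀ k, D (k + 1) ≤ D k) ∧
      (∀ k, ∀ x : E, ∀ y ∈ D k, β x y ∈ D k) ∧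
      (∀ k, ∀ x ∈ D k, ∀ y ∈ D k, β x y ∈ D (k + 1)) ∧
      ∃ m, D m = ⊥ := by
  letI : LieRing E :=
    { bracket := fun x y => β x y
      add_lie := by intro x y z; change β (x + y) z = β x z + β y z; rw [map_add]; rfl
      lie_add := by intro x y z; change β x (y + z) = β x y + β x z; rw [map_add]
      lie_self := by intro x; exact halt x
      leibniz_lie := by intro x y z; exact hjac x y z }
  letI : LieAlgebra ℝ E :=
    { lie_smul := by intro t x y; change β x (t • y) = t • β x y; rw [map_smul] }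
  exact Br.exists_quot (L := E)

namespace LG

variable {H : Type*} [Group H] [TopologicalSpace H] [IsTopologicalGroup H] [T2Space H]
  {E : Type*} [NormedAddCommGroup E] [NormedSpace ℝ E] [FiniteDimensional ℝ E] (L : LG H E)

section adS

variable {V : Type*} [NormedAddCommGroup V] [NormedSpace ℝ V] [FiniteDimensional ℝ V]
  (q : E →L[ℝ] V) (s : V →L[ℝ] E) (hs : ∀ v, q (s v) = v)
  (hinv : ∀ (a : H) (x : E), q x = 0 → q ((L.Ad a : E →L[ℝ] E) x) = 0)

include hs hinv in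
lemma AdS_key (a : H) (x : E) : q ((L.Ad a : E →L[ℝ] E) (s (q x))) = q ((L.Ad a : E →L[ℝ] E) x) := by
  have h1 : q (s (q x) - x) = 0 := by rw [map_sub, hs, sub_self]
  have h2 := hinv a _ h1
  rw [map_sub, map_sub, sub_eq_zero] at h2
  exact h2

/-- The adjoint action on the quotient, as operators. -/
noncomputable def AdSM : H →* (V →L[ℝ] V) where
  toFun a := q ∘L ((L.Ad a : E →L[ℝ] E) ∘L s)
  map_one' := by
    ext v
    change q ((L.Ad 1 : E →L[ℝ] E) (s v)) = v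
    rw [map_one]
    exact hs v
  map_mul' a b := by
    ext v
    change q ((L.Ad (a * b) : E →L[ℝ] E) (s v)) =
      q ((L.Ad a : E →L[ℝ] E) (s (q ((L.Ad b : E →L[ℝ] E) (s v)))))
    rw [L.AdS_key q s hs hinv, map_mul]
    rfl

/-- The adjoint action on the quotient. -/
noncomputable def AdS : H →* (V →L[ℝ] V)ˣ := (L.AdSM q s hs hinv).toHomUnits

lemma AdS_val (a : H) : ((L.AdS q s hs hinv a : (V →L[ℝ] V)ˣ) : V →L[ℝ] V) =
    q ∘L ((L.Ad a : E →L[ℝ] E) ∘L s) := rfl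

lemma AdS_q (a : H) (x : E) : ((L.AdS q s hs hinv a : (V →L[ℝ] V)ˣ) : V →L[ℝ] V) (q x) =
    q ((L.Ad a : E →L[ℝ] E) x) := L.AdS_key q s hs hinv a x

lemma continuous_AdS : Continuous (L.AdS q s hs hinv) := by
  have h1 : Continuous fun a : H => q ∘L ((L.Ad a : E →L[ℝ] E) ∘L s) := by
    have h2 : Continuous fun a : H => (L.Ad a : E →L[ℝ] E) := Units.continuous_val.comp L.continuous_Ad
    fun_prop
  rw [Units.continuous_iff]
  refine ⟨h1, ?_⟩
  have h3 : (fun a : H => (((L.AdS q s hs hinv a)⁻¹ : (V →L[ℝ] V)ˣ) : V →L[ℝ] V)) =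
      fun a : H => q ∘L ((L.Ad a⁻¹ : E →L[ℝ] E) ∘L s) := by
    funext a
    rw [← map_inv]; rfl
  change Continuous (fun a : H => (((L.AdS q s hs hinv a)⁻¹ : (V →L[ℝ] V)ˣ) : V →L[ℝ] V))
  rw [h3]
  exact h1.comp continuous_inv

lemma AdS_exp (ν : V →L[ℝ] V →L[ℝ] V) (hqν : ∀ x y, ν (q x) (q y) = q (L.ad x y)) (x : E) :
    L.AdS q s hs hinv (L.exp x) = expU (ν (q x)) := by
  haveI : CompleteSpace E := FiniteDimensional.complete ℝ E
  haveI : CompleteSpace V := FiniteDimensional.complete ℝ V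
  ext v
  obtain ⟨y, rfl⟩ : ∃ y, q y = v := ⟨s v, hs v⟩
  rw [AdS_q, L.Ad_exp, expU_val]
  exact exp_intertwine _ _ q (fun z => (hqν x z).symm) y

end adS

/-- Central elements act trivially. -/
lemma Ad_center {a : H} (ha : a ∈ Subgroup.center H) : L.Ad a = 1 := by
  ext x
  refine L.eq_of_forall_exp fun t => ?_
  rw [← map_smul, ← L.Ad_spec]
  have := (Subgroup.mem_center_iff.1 ha) (L.exp (t • x))
  rw [← this, mul_inv_cancel_right]
  rfl

/-- The semisimple part of the finite generation theorem. -/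
theorem ss_part (hgen : L.gen univ = ⊤) {V : Type*} [NormedAddCommGroup V] [InnerProductSpace ℝ V]
    [FiniteDimensional ℝ V] (q : E →ₗ[ℝ] V) (hq : Function.Surjective q)
    (ν : V →L[ℝ] V →L[ℝ] V) (hL : Br.IsLie ν) (hS : Br.Sep ν)
    (hqν : ∀ x y, ν (q x) (q y) = q (L.ad x y)) :
    ∃ J : Subgroup H, (∀ Γ : Subgroup H, Γ ≤ Subgroup.center H → Γ ≤ J) ∧
      (∀ a ∈ J, ∀ b ∈ J, a * b * a⁻¹ * b⁻¹ ∈ L.gen (LinearMap.ker q : Set E)) ∧
      RFG J (L.gen (LinearMap.ker q : Set E)) := by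
  classical
  haveI : CompleteSpace E := FiniteDimensional.complete ℝ E
  haveI : ProperSpace E := FiniteDimensional.proper_real E
  haveI := L.preconnectedSpace hgen
  obtain ⟨s₀, hs₀⟩ := q.exists_rightInverse_of_surjective (LinearMap.range_eq_top.2 hq)
  let qc : E →L[ℝ] V := LinearMap.toContinuousLinearMap q
  let sc : V →L[ℝ] E := LinearMap.toContinuousLinearMap s₀
  have hqc : ∀ x, qc x = q x := fun _ => rfl
  have hs : ∀ v, qc (sc v) = v := fun v => LinearMap.congr_fun hs₀ v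
  have hker : ∀ x, ∀ y ∈ LinearMap.ker q, L.ad x y ∈ LinearMap.ker q := by
    intro x y hy
    rw [LinearMap.mem_ker] at hy ⊢
    rw [← hqν, hy, map_zero]
  have hinv : ∀ (a : H) (x : E), qc x = 0 → qc ((L.Ad a : E →L[ℝ] E) x) = 0 := by
    intro a x hx
    have := L.Ad_mem hgen (LinearMap.ker q) hker a x (LinearMap.mem_ker.2 hx)
    exact LinearMap.mem_ker.1 this
  have hqν' : ∀ x y, ν (qc x) (qc y) = qc (L.ad x y) := hqν
  set A := L.AdS qc sc hs hinv with hA
  have hAc : Continuous A := L.continuous_AdS qc sc hs hinv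
  have hAexp : ∀ x, A (L.exp x) = expU (ν (qc x)) := L.AdS_exp qc sc hs hinv ν hqν'
  have hAq : ∀ a x, ((A a : (V →L[ℝ] V)ˣ) : V →L[ℝ] V) (qc x) = qc ((L.Ad a : E →L[ℝ] E) x) :=
    L.AdS_q qc sc hs hinv
  have hAaut : ∀ a, Br.act (A a) ν = ν := by
    intro a
    rw [Br.act_eq_self_iff]
    intro x y
    obtain ⟨x, rfl⟩ : ∃ x', qc x' = x := ⟨sc x, hs x⟩
    obtain ⟨y, rfl⟩ : ∃ y', qc y' = y := ⟨sc y, hs y⟩
    rw [hqν', hAq, hAq, hAq, hqν', L.Ad_ad]
  obtain ⟨K, Y, hKc, hYc, hYK, hpol⟩ := Br.polar hL hS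
  -- the left inverse of the adjoint representation
  have hνinj : LinearMap.ker (ν : V →ₗ[ℝ] (V →L[ℝ] V)) = ⊥ := by
    rw [LinearMap.ker_eq_bot']
    intro x hx
    exact hL.center_trivial hS x hx
  obtain ⟨lam, hlam⟩ := (ν : V →ₗ[ℝ] (V →L[ℝ] V)).exists_leftInverse_of_injective hνinj
  let σ : (V →L[ℝ] V) →ₗ[ℝ] E := s₀ ∘ₗ lam
  have hσc : Continuous σ := LinearMap.continuous_of_finiteDimensional σ
  have hσ : ∀ D, Br.IsDer ν D → A (L.exp (σ D)) = expU D := by
    intro D hD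
    obtain ⟨x, rfl⟩ := Br.inner_der hL hS hD
    rw [hAexp]
    have h1 : qc (σ (ν x)) = x := by
      change qc (sc (lam (ν x))) = x
      rw [hs]
      exact LinearMap.congr_fun hlam x
    rw [h1]
  -- the retraction
  let ρ : H → H := fun a => (L.exp (σ (Y (A a))))⁻¹ * a
  have hρc : Continuous ρ := by
    have h1 : Continuous fun a => L.exp (σ (Y (A a))) := L.cont.comp (hσc.comp (hYc.comp hAc))
    exact h1.inv.mul continuous_id
  have hAρ : ∀ a, A (ρ a) = (expU (Y (A a)))⁻¹ * A a := by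
    intro a
    change A ((L.exp (σ (Y (A a))))⁻¹ * a) = _
    rw [map_mul, map_inv, hσ _ (hpol _ (hAaut a)).1]
  let K' : Subgroup H := K.comap A
  have hK'c : IsClosed (K' : Set H) := hKc.isClosed.preimage hAc
  have hρK : ∀ a, ρ a ∈ K' := by
    intro a
    change A (ρ a) ∈ K
    rw [hAρ]
    exact (hpol _ (hAaut a)).2
  have hρid : ∀ a ∈ K', ρ a = a := by
    intro a ha
    change (L.exp (σ (Y (A a))))⁻¹ * a = a
    rw [hYK _ ha, map_zero, L.exp_zero, inv_one, one_mul]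
  have hK'conn : IsPreconnected (K' : Set H) := by
    have : (K' : Set H) = range ρ := by
      ext a
      constructor
      · intro ha; exact ⟨a, hρid a ha⟩
      · rintro ⟨b, rfl⟩; exact hρK b
    rw [this]
    exact isPreconnected_range hρc
  -- the kernel
  let J : Subgroup H := A.ker
  have hJm : ∀ a, a ∈ J ↔ A a = 1 := fun a => MonoidHom.mem_ker
  have hJc : IsClosed (J : Set H) := by
    have : (J : Set H) = A ⁻¹' {1} := by ext a; exact hJm a
    rw [this]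
    exact isClosed_singleton.preimage hAc
  have hlieJ : L.lie J hJc = LinearMap.ker q := by
    ext x
    rw [L.mem_lie, LinearMap.mem_ker]
    constructor
    · intro h
      have h1 : ∀ t : ℝ, NormedSpace.exp (t • ν (qc x)) = NormedSpace.exp (t • (0 : V →L[ℝ] V)) := by
        intro t
        have h2 := (hJm _).1 (h t)
        rw [hAexp, map_smul, map_smul] at h2
        rw [smul_zero, NormedSpace.exp_zero]
        exact congrArg Units.val h2
      exact hL.center_trivial hS _ (LG.op_eq_of_forall_exp h1)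
    · intro h t
      have h1 : qc x = 0 := h
      rw [hJm, hAexp, map_smul, h1, smul_zero, map_zero]
      ext1
      rw [expU_val, NormedSpace.exp_zero]; rfl
  have hJ0 : L.gen (LinearMap.ker q : Set E) = L.gen (L.lie J hJc : Set E) := by rw [hlieJ]
  set J₀ := L.gen (LinearMap.ker q : Set E) with hJ₀
  have hJ0J : J₀ ≤ J := by rw [hJ0]; exact L.gen_lie_le J hJc
  have hnear : ∀ᶠ h in 𝓝 (1 : H), h ∈ J → h ∈ J₀ := by rw [hJ0]; exact L.exists_nhds_mem_gen J hJc
  have hcomm : ∀ j ∈ J, ∀ h : H, j * h * j⁻¹ * h⁻¹ ∈ J₀ := by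
    intro j hj h
    rw [hJ0]
    refine L.path_mem_gen J hJc (c := fun h : H => j * h * j⁻¹ * h⁻¹) (by fun_prop) ?_ (x₀ := 1)
      (by simp) h
    intro t
    have : j * t * j⁻¹ * t⁻¹ = j * (t * j⁻¹ * t⁻¹) := by group
    rw [this]
    exact J.mul_mem hj ((inferInstance : A.ker.Normal).conj_mem _ (J.inv_mem hj) _)
  refine ⟨J, ?_, fun a ha b _ => hcomm a ha b, ?_⟩
  · intro Γ hΓ a ha
    rw [hJm]
    ext v
    obtain ⟨y, rfl⟩ : ∃ y, qc y = v := ⟨sc v, hs v⟩
    rw [hAq, L.Ad_center (hΓ ha)]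
    rfl
  -- automorphisms near the identity
  let AutG : Subgroup (V →L[ℝ] V)ˣ :=
    { carrier := {G | Br.act G ν = ν}
      mul_mem' := by
        intro a b ha hb
        change Br.act (a * b) ν = ν
        rw [Br.act_mul, hb, ha]
      one_mem' := Br.act_one ν
      inv_mem' := by
        intro a ha
        change Br.act a⁻¹ ν = ν
        conv_lhs => rw [← ha]
        exact Br.act_inv_act a ν }
  have hAutm : ∀ G, G ∈ AutG ↔ Br.act G ν = ν := fun G => Iff.rfl
  have hAutc : IsClosed (AutG : Set (V →L[ℝ] V)ˣ) := by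
    have : (AutG : Set (V →L[ℝ] V)ˣ) = ⋂ x : V, ⋂ y : V, {G : (V →L[ℝ] V)ˣ |
        (G : V →L[ℝ] V) (ν x y) = ν ((G : V →L[ℝ] V) x) ((G : V →L[ℝ] V) y)} := by
      ext G
      simp only [mem_iInter, mem_ofPred_eq]
      exact Br.act_eq_self_iff G ν
    rw [this]
    have hv : Continuous fun G : (V →L[ℝ] V)ˣ => (G : V →L[ℝ] V) := Units.continuous_val
    refine isClosed_iInter fun x => isClosed_iInter fun y => isClosed_eq ?_ ?_
    · fun_prop
    · exact (ν.continuous.comp (hv.clm_apply continuous_const)).clm_apply (hv.clm_apply continuous_const)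
  have hlieAut : ∀ D : V →L[ℝ] V, D ∈ (LG.units (V →L[ℝ] V)).lie AutG hAutc → Br.IsDer ν D := by
    intro D hD x y
    have h1 : ∀ t : ℝ, NormedSpace.exp (t • D) (ν x y) =
        ν (NormedSpace.exp (t • D) x) (NormedSpace.exp (t • D) y) := by
      intro t
      exact (Br.act_eq_self_iff _ ν).1 (hD t) x y
    have h2 := LG.op_hasDerivAt D (ν x y)
    have hx := LG.op_hasDerivAt D x
    have hy := LG.op_hasDerivAt D y
    have h3 : HasDerivAt (fun t : ℝ => ν (NormedSpace.exp (t • D) x) (NormedSpace.exp (t • D) y))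
        (ν (D x) y + ν x (D y)) 0 := by
      have h4 := (ν.hasFDerivAt.comp_hasDerivAt (0:ℝ) hx).clm_apply hy
      simpa [NormedSpace.exp_zero] using h4
    simp only [← h1] at h3
    exact h2.unique h3
  obtain ⟨R, hR⟩ : ∃ R : ℝ, ∀ᶠ G in 𝓝 (1 : (V →L[ℝ] V)ˣ), G ∈ AutG →
      ∃ x : E, ‖x‖ ≤ R ∧ A (L.exp x) = G := by
    obtain ⟨r, hr, hball⟩ := (LG.units (V →L[ℝ] V)).exists_ball_mem_lie AutG hAutc
    let σc : (V →L[ℝ] V) →L[ℝ] E := ⟨σ, hσc⟩
    refine ⟨‖σc‖ * r, ?_⟩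
    filter_upwards [(LG.units (V →L[ℝ] V)).exists_exp_eq hr] with G hG hGA
    obtain ⟨D, hD, rfl⟩ := hG
    have h1 := hlieAut D (hball D hD hGA)
    refine ⟨σ D, ?_, hσ D h1⟩
    exact (σc.le_opNorm D).trans (by gcongr)
  -- the image is closed
  have hBc : IsClosed (A.range : Set (V →L[ℝ] V)ˣ) := by
    refine isClosed_of_nhds hAutc ?_ ?_
    · rintro _ ⟨a, rfl⟩
      exact hAaut a
    · filter_upwards [hR] with G hG hGA
      obtain ⟨x, -, hx⟩ := hG hGA
      exact ⟨L.exp x, hx⟩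
  -- the compact set
  obtain ⟨C₀, hC₀c, hC₀K, hC₀⟩ : ∃ C₀ : Set H, IsCompact C₀ ∧ C₀ ⊆ K' ∧
      ∀ k ∈ K', ∃ c ∈ C₀, c⁻¹ * k ∈ J := by
    have hKB : IsCompact ((K : Set (V →L[ℝ] V)ˣ) ∩ A.range) := hKc.inter_right hBc
    obtain ⟨t, ht, hcov⟩ := hKB.elim_nhds_subcover
      (fun G => {G' | G⁻¹ * G' ∈ {G : (V →L[ℝ] V)ˣ | G ∈ AutG → ∃ x : E, ‖x‖ ≤ R ∧ A (L.exp x) = G}})
      (by
        intro G _
        have h1 : Tendsto (fun G' : (V →L[ℝ] V)ˣ => G⁻¹ * G') (𝓝 G) (𝓝 1) := by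
          have h2 : Continuous fun G' : (V →L[ℝ] V)ˣ => G⁻¹ * G' := by fun_prop
          have := h2.tendsto G
          rwa [inv_mul_cancel] at this
        exact h1.eventually hR)
    have hch : ∀ G ∈ t, ∃ a, A a = G := fun G hG => (ht G hG).2
    choose! f hf using hch
    refine ⟨(⋃ G ∈ t, (fun x => f G * L.exp x) '' closedBall (0 : E) R) ∩ K', ?_, inter_subset_right, ?_⟩
    · refine IsCompact.inter_right ?_ hK'c
      refine t.isCompact_biUnion fun G _ => ?_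
      refine (isCompact_closedBall _ _).image ?_
      exact continuous_const.mul L.cont
    · intro k hk
      have h1 : A k ∈ (K : Set (V →L[ℝ] V)ˣ) ∩ A.range := ⟨hk, k, rfl⟩
      obtain ⟨G, hG, h2⟩ := mem_iUnion₂.1 (hcov h1)
      have h3 : G⁻¹ * A k ∈ AutG := by
        rw [← hf G hG, ← map_inv, ← map_mul]
        exact hAaut _
      obtain ⟨x, hx, hx2⟩ := h2 h3
      have h4 : (f G * L.exp x)⁻¹ * k ∈ J := by
        rw [hJm, map_mul, map_inv, map_mul, hf G hG, hx2]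
        group
      refine ⟨f G * L.exp x, ⟨mem_iUnion₂.2 ⟨G, hG, x, ?_, rfl⟩, ?_⟩, h4⟩
      · rw [mem_closedBall_zero_iff]; exact hx
      · have h5 : A (f G * L.exp x) = A k := by
          rw [hJm, map_mul, map_inv, inv_mul_eq_one] at h4
          exact h4
        change A (f G * L.exp x) ∈ K
        rw [h5]; exact hk
  -- symmetric compact neighbourhood
  have hJK' : J ≤ K' := by
    intro j hj
    change A j ∈ K
    rw [(hJm j).1 hj]; exact K.one_mem
  let C₁ : Set H := C₀ ∪ (L.exp '' closedBall (0 : E) 1 ∩ K')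
  have hC₁c : IsCompact C₁ :=
    hC₀c.union (((isCompact_closedBall _ _).image L.cont).inter_right hK'c)
  have hC₁K : C₁ ⊆ K' := union_subset hC₀K inter_subset_right
  let C : Set H := C₁ ∪ C₁⁻¹
  have hCc : IsCompact C := hC₁c.union hC₁c.inv
  have hCK : C ⊆ K' := by
    refine union_subset hC₁K ?_
    intro g hg
    have := K'.inv_mem (hC₁K hg)
    rwa [inv_inv] at this
  have hCinv : ∀ c ∈ C, c⁻¹ ∈ C := by
    rintro c (hc | hc)
    · right; simpa using hc
    · left; exact hc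
  have hC1 : (1 : H) ∈ C := by
    left; right
    exact ⟨⟨0, by simp, L.exp_zero⟩, K'.one_mem⟩
  have hCnhds : ∀ᶠ h in 𝓝 (1 : H), h ∈ K' → h ∈ C := by
    filter_upwards [L.exists_exp_eq one_pos] with h hh hhK
    obtain ⟨x, hx, rfl⟩ := hh
    left; right
    exact ⟨⟨x, by simpa using hx.le, rfl⟩, hhK⟩
  -- the finite set
  have hTc : IsCompact ((C * C * C) ∩ (J : Set H)) := ((hCc.mul hCc).mul hCc).inter_right hJc
  obtain ⟨S, hST, hScov⟩ := hTc.elim_nhds_subcover (fun g => {g' | g⁻¹ * g' ∈ {h : H | h ∈ J → h ∈ J₀}})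
    (by
      intro g _
      have h1 : Tendsto (fun g' : H => g⁻¹ * g') (𝓝 g) (𝓝 1) := by
        have h2 : Continuous fun g' : H => g⁻¹ * g' := by fun_prop
        have := h2.tendsto g
        rwa [inv_mul_cancel] at this
      exact h1.eventually hnear)
  have hSJ : ∀ x ∈ S, x ∈ J := fun x hx => (hST x hx).2
  let Δ : Subgroup H := Subgroup.closure (S : Set H) ⊔ J₀
  have hΔJ : Δ ≤ J := sup_le ((Subgroup.closure_le J).2 hSJ) hJ0J
  have hTΔ : ∀ a ∈ C, ∀ b ∈ C, ∀ c ∈ C, a * b * c ∈ J → a * b * c ∈ Δ := by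
    intro a ha b hb c hc habc
    have h1 : a * b * c ∈ (C * C * C) ∩ (J : Set H) :=
      ⟨mul_mem_mul (mul_mem_mul ha hb) hc, habc⟩
    obtain ⟨x, hx, h2⟩ := mem_iUnion₂.1 (hScov h1)
    have h3 : x⁻¹ * (a * b * c) ∈ J₀ := h2 (J.mul_mem (J.inv_mem (hSJ x hx)) habc)
    have h4 : x ∈ Δ := Subgroup.mem_sup_left (Subgroup.subset_closure hx)
    have h5 := Δ.mul_mem h4 (Subgroup.mem_sup_right h3)
    simpa using h5
  have hΔn : ∀ δ ∈ Δ, ∀ h : H, h⁻¹ * δ * h ∈ Δ := by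
    intro δ hδ h
    have h1 := hcomm δ⁻¹ (J.inv_mem (hΔJ hδ)) h⁻¹
    have h2 := Δ.mul_mem hδ (Subgroup.mem_sup_right (x := _) h1)
    have h3 : δ * (δ⁻¹ * h⁻¹ * δ⁻¹⁻¹ * h⁻¹⁻¹) = h⁻¹ * δ * h := by group
    rwa [h3] at h2
  let M : Subgroup H :=
    { carrier := {g | ∃ c ∈ C, ∃ δ ∈ Δ, g = c * δ}
      mul_mem' := by
        rintro _ _ ⟨c, hc, δ, hδ, rfl⟩ ⟨c', hc', δ', hδ', rfl⟩
        obtain ⟨c'', hc'', hj⟩ := hC₀ (c * c') (K'.mul_mem (hCK hc) (hCK hc'))
        have hc''C : c'' ∈ C := Or.inl (Or.inl hc'')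
        have h1 := hTΔ c''⁻¹ (hCinv _ hc''C) c hc c' hc' (by rwa [mul_assoc])
        refine ⟨c'', hc''C, (c''⁻¹ * c * c') * (c'⁻¹ * δ * c') * δ', ?_, by group⟩
        exact Δ.mul_mem (Δ.mul_mem h1 (hΔn δ hδ c')) hδ'
      one_mem' := ⟨1, hC1, 1, Δ.one_mem, by simp⟩
      inv_mem' := by
        rintro _ ⟨c, hc, δ, hδ, rfl⟩
        refine ⟨c⁻¹, hCinv c hc, c⁻¹⁻¹ * δ⁻¹ * c⁻¹, hΔn _ (Δ.inv_mem hδ) c⁻¹, by group⟩ }
  have hMK : M ≤ K' := by
    rintro _ ⟨c, hc, δ, hδ, rfl⟩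
    exact K'.mul_mem (hCK hc) (hJK' (hΔJ hδ))
  have hMnear : ∀ᶠ h in 𝓝 (1 : H), h ∈ K' → h ∈ M := by
    filter_upwards [hCnhds] with h hh hhK
    exact ⟨h, hh hhK, 1, Δ.one_mem, by simp⟩
  have hMc : IsClosed (M : Set H) := isClosed_of_nhds hK'c hMK hMnear
  have hKM : K' ≤ M := by
    haveI : PreconnectedSpace K' := Subtype.preconnectedSpace hK'conn
    have hclopen : IsClopen ((M.subgroupOf K' : Subgroup K') : Set K') := by
      constructor
      · exact hMc.preimage continuous_subtype_val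
      · refine Subgroup.isOpen_of_mem_nhds _ (g := 1) ?_
        have h2 : ∀ᶠ g : K' in 𝓝 (1 : K'), (g : H) ∈ K' → (g : H) ∈ M :=
          (continuous_subtype_val.tendsto (1 : K')).eventually hMnear
        filter_upwards [h2] with g hg
        exact hg g.2
    have huniv := hclopen.eq_univ ⟨1, Subgroup.one_mem _⟩
    intro k hk
    have : (⟨k, hk⟩ : K') ∈ ((M.subgroupOf K' : Subgroup K') : Set K') := by rw [huniv]; trivial
    exact this
  have hJΔ : J ≤ Δ := by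
    intro j hj
    obtain ⟨c, hc, δ, hδ, hjc⟩ := hKM (hJK' hj)
    have h1 : c = j * δ⁻¹ := by rw [hjc]; group
    have h2 : c ∈ J := by rw [h1]; exact J.mul_mem hj (J.inv_mem (hΔJ hδ))
    have h3 := hTΔ c hc 1 hC1 1 hC1 (by simpa using h2)
    rw [hjc]
    exact Δ.mul_mem (by simpa using h3) hδ
  haveI hJ0n : J₀.Normal := L.gen_normal hgen _ hker
  refine ⟨S, S.finite_toSet, hSJ, fun z hz => ?_⟩
  obtain ⟨p, hp, w, hw, hpw⟩ := Subgroup.mem_sup_of_normal_right.1 (hJΔ hz)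
  exact ⟨p, hp, w, hw, hpw.symm⟩

/-- Discrete central subgroups of connected Lie groups are finitely generated. -/
theorem discrete_central_fg (hgen : L.gen univ = ⊤) (Γ : Subgroup H) (hΓ : Γ ≤ Subgroup.center H)
    (hdisc : ∀ᶠ g in 𝓝 (1 : H), g ∈ Γ → g = 1) : Γ.FG := by
  classical
  let β : E →ₗ[ℝ] E →ₗ[ℝ] E := LinearMap.mk₂ ℝ (fun x y => L.ad x y)
    (by intro a b c; rw [map_add]; rfl) (by intro r a b; rw [map_smul]; rfl)
    (by intro a b c; rw [map_add]) (by intro r a b; rw [map_smul])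
  obtain ⟨n, q, ν, hq, hL, hS, hqν, D, hD0, hmono, hid, hcom, m, hm⟩ :=
    exists_quot' β (fun x => L.ad_self x) (fun x y z => L.jacobi x y z)
  obtain ⟨J, hJ1, hJ2, hJ3⟩ := L.ss_part hgen q hq ν hL hS hqν
  have h1 : RFG Γ (L.gen (LinearMap.ker q : Set E) ⊓ Γ) := rel_fg (hJ1 Γ hΓ) hJ2 hJ3
  set Γ₀ := L.gen (LinearMap.ker q : Set E) ⊓ Γ with hΓ₀
  have h2 : Γ₀.FG := by
    refine L.sol_fg hgen hmono hid hcom m hm Γ₀ (inf_le_right.trans hΓ) ?_ ?_
    · filter_upwards [hdisc] with g hg hgΓ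
      exact hg hgΓ.2
    · refine inf_le_left.trans ?_
      rw [← hD0]
      exact L.gen_le_Vc D 0
  obtain ⟨S, hSf, hSΓ, hS'⟩ := h1
  obtain ⟨T, hT⟩ := h2
  refine ⟨hSf.toFinset ∪ T, ?_⟩
  rw [Finset.coe_union, Finite.coe_toFinset]
  apply le_antisymm
  · rw [Subgroup.closure_le]
    refine union_subset hSΓ ?_
    have : (T : Set H) ⊆ Γ₀ := by rw [← hT]; exact Subgroup.subset_closure
    exact this.trans (fun x hx => hx.2)
  · intro g hg
    obtain ⟨p, hp, w, hw, rfl⟩ := hS' g hg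
    rw [← hT] at hw
    exact Subgroup.mul_mem _ (Subgroup.closure_mono subset_union_left hp)
      (Subgroup.closure_mono subset_union_right hw)

end LG

end Pool.Agent.TH77
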