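import Mathlib

/-!
Algebraic lemmas on finite generation.
-/

set_option autoImplicit false
set_option linter.unusedSectionVars false
set_option linter.style.haveILetI false

open Filter Topology Set

namespace Pool.Agent.TH77

/-- Subgroups of finitely generated commutative groups. -/
lemma subgroup_fg_of_comm {A : Type*} [CommGroup A] [Group.FG A] (P : Subgroup A) : P.FG := by
  haveI : AddGroup.FG (Additive A) := inferInstance
  haveI : Module.Finite ℤ (Additive A) := Module.Finite.iff_addGroup_fg.2 inferInstance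
  haveI : IsNoetherian ℤ (Additive A) := inferInstance
  rw [Subgroup.fg_iff_add_fg]
  have h := IsNoetherian.noetherian (AddSubgroup.toIntSubmodule (Subgroup.toAddSubgroup P))
  have h2 := (Submodule.fg_iff_addSubgroup_fg _).1 h
  exact h2

/-- `Z` is finitely generated modulo `W`. -/
def RFG {G : Type*} [Group G] (Z W : Subgroup G) : Prop :=
  ∃ S : Set G, S.Finite ∧ S ⊆ Z ∧ ∀ z ∈ Z, ∃ p ∈ Subgroup.closure S, ∃ w ∈ W, z = p * w

lemma RFG.trans {G : Type*} [Group G] {Z W W' : Subgroup G} (hWZ : W ≤ Z) (h1 : RFG Z W)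
    (h2 : RFG W W') : RFG Z W' := by
  obtain ⟨S, hSf, hSZ, hS⟩ := h1
  obtain ⟨T, hTf, hTW, hT⟩ := h2
  refine ⟨S ∪ T, hSf.union hTf, union_subset hSZ (hTW.trans hWZ), fun z hz => ?_⟩
  obtain ⟨p, hp, w, hw, rfl⟩ := hS z hz
  obtain ⟨p', hp', w', hw', rfl⟩ := hT w hw
  exact ⟨p * p', Subgroup.mul_mem _ (Subgroup.closure_mono subset_union_left hp)
    (Subgroup.closure_mono subset_union_right hp'), w', hw', by rw [mul_assoc]⟩

lemma lift_closure {G : Type*} [Group G] {Z : Subgroup G} {S : Set G} (hS : S ⊆ Z) {p : G}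
    (hp : p ∈ Subgroup.closure S) :
    ∃ p' : Z, p' ∈ Subgroup.closure {z : Z | (z : G) ∈ S} ∧ (p' : G) = p := by
  have h1 : Z.subtype '' {z : Z | (z : G) ∈ S} = S := by
    ext x
    constructor
    · rintro ⟨z, hz, rfl⟩; exact hz
    · intro hx; exact ⟨⟨x, hS hx⟩, hx, rfl⟩
  have h2 : Subgroup.map Z.subtype (Subgroup.closure {z : Z | (z : G) ∈ S}) = Subgroup.closure S := by
    rw [MonoidHom.map_closure, h1]
  rw [← h2] at hp
  obtain ⟨p', hp', rfl⟩ := hp
  exact ⟨p', hp', rfl⟩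

/-- Relative finite generation passes to subgroups when commutators are killed. -/
lemma rel_fg {G : Type*} [Group G] {Z W Z' : Subgroup G} (hZ' : Z' ≤ Z)
    (hcomm : ∀ a ∈ Z, ∀ b ∈ Z, a * b * a⁻¹ * b⁻¹ ∈ W)
    (hfg : RFG Z W) : RFG Z' (W ⊓ Z') := by
  classical
  let W' : Subgroup Z := W.subgroupOf Z
  haveI hn : W'.Normal := by
    constructor
    intro n hn g
    have h1 := hcomm g g.2 n n.2
    have h2 : (n : G) ∈ W := hn
    change (g * n * g⁻¹ : Z).1 ∈ W
    have : ((g * n * g⁻¹ : Z) : G) = (g : G) * n * (g : G)⁻¹ * (n : G)⁻¹ * n := by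
      simp
    rw [this]
    exact W.mul_mem h1 h2
  letI : CommGroup (Z ⧸ W') :=
    { (inferInstance : Group (Z ⧸ W')) with
      mul_comm := by
        intro a b
        induction a using QuotientGroup.induction_on with
        | H a =>
        induction b using QuotientGroup.induction_on with
        | H b =>
        rw [← QuotientGroup.mk_mul, ← QuotientGroup.mk_mul, eq_comm, QuotientGroup.eq]
        have h1 := hcomm (a⁻¹ : Z) (a⁻¹).2 (b⁻¹ : Z) (b⁻¹).2
        change ((b * a)⁻¹ * (a * b) : Z).1 ∈ W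
        have h2 : (((b * a)⁻¹ * (a * b) : Z) : G) = (a : G)⁻¹ * (b : G)⁻¹ * a * b := by
          simp [mul_assoc]
        rw [h2]
        simpa using h1 }
  obtain ⟨S, hSf, hSZ, hS⟩ := hfg
  let π : Z →* Z ⧸ W' := QuotientGroup.mk' W'
  haveI : Group.FG (Z ⧸ W') := by
    rw [Group.fg_iff]
    refine ⟨π '' {z | (z : G) ∈ S}, ?_, ?_⟩
    · rw [eq_top_iff]
      intro x _
      induction x using QuotientGroup.induction_on with
      | H z =>
      obtain ⟨p, hp, w, hw, hz⟩ := hS z z.2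
      obtain ⟨p', hp', rfl⟩ := lift_closure hSZ hp
      rw [← MonoidHom.map_closure]
      refine ⟨p', hp', ?_⟩
      change (QuotientGroup.mk p' : Z ⧸ W') = QuotientGroup.mk z
      rw [QuotientGroup.eq]
      change ((p'⁻¹ * z : Z) : G) ∈ W
      have : ((p'⁻¹ * z : Z) : G) = w := by
        rw [Subgroup.coe_mul, hz]; simp
      rw [this]; exact hw
    · refine Set.Finite.image _ ?_
      exact hSf.preimage (Subtype.val_injective.injOn)
  obtain ⟨T, hT⟩ := subgroup_fg_of_comm ((Z'.subgroupOf Z).map π)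
  have hTm : ∀ t ∈ T, ∃ z : Z, (z : G) ∈ Z' ∧ π z = t := by
    intro t ht
    have : t ∈ (Z'.subgroupOf Z).map π := by rw [← hT]; exact Subgroup.subset_closure ht
    obtain ⟨z, hz, rfl⟩ := this
    exact ⟨z, hz, rfl⟩
  choose! f hf1 hf2 using hTm
  let S₁ : Set Z := f '' (T : Set (Z ⧸ W'))
  have hS₁ : π '' S₁ = T := by
    ext x
    constructor
    · rintro ⟨_, ⟨t, ht, rfl⟩, rfl⟩
      rw [hf2 t ht]; exact ht
    · intro hx; exact ⟨f x, ⟨x, hx, rfl⟩, hf2 x hx⟩
  refine ⟨Z.subtype '' S₁, ?_, ?_, ?_⟩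
  · exact (T.finite_toSet.image _).image _
  · rintro _ ⟨_, ⟨t, ht, rfl⟩, rfl⟩
    exact hf1 t ht
  · intro z hz
    have h1 : π ⟨z, hZ' hz⟩ ∈ Subgroup.closure (T : Set (Z ⧸ W')) := by
      rw [hT]
      exact ⟨⟨z, hZ' hz⟩, hz, rfl⟩
    rw [← hS₁, ← MonoidHom.map_closure] at h1
    obtain ⟨p, hp, hpz⟩ := h1
    have h2 : (p : G) ∈ Subgroup.closure (Z.subtype '' S₁) := by
      rw [← MonoidHom.map_closure]
      exact ⟨p, hp, rfl⟩
    have h3 : (p : G)⁻¹ * z ∈ W := by
      have h4 := (QuotientGroup.eq (s := W')).1 hpz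
      exact h4
    have h5 : (p : G) ∈ Z' := by
      refine (Subgroup.closure_le Z').2 ?_ h2
      rintro _ ⟨_, ⟨t, ht, rfl⟩, rfl⟩
      exact hf1 t ht
    exact ⟨p, h2, (p : G)⁻¹ * z, ⟨h3, Z'.mul_mem (Z'.inv_mem h5) hz⟩, by simp⟩

section closedAdd

variable {E : Type*} [NormedAddCommGroup E] [NormedSpace ℝ E] [FiniteDimensional ℝ E]

/-- Closed additive subgroups are finitely generated modulo their linear part. -/
lemma closed_add_fg (P : AddSubgroup E) (hP : IsClosed (P : Set E)) :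
    ∃ S : Set E, S.Finite ∧ S ⊆ P ∧ ∀ x ∈ P, ∃ p ∈ AddSubgroup.closure S, ∃ l : E,
      (∀ t : ℝ, t • l ∈ P) ∧ x = p + l := by
  -- the linear part
  let N : Submodule ℝ E :=
    { carrier := {x | ∀ t : ℝ, t • x ∈ P}
      add_mem' := fun {a b} ha hb t => by rw [smul_add]; exact P.add_mem (ha t) (hb t)
      zero_mem' := fun t => by rw [smul_zero]; exact P.zero_mem
      smul_mem' := fun c x hx t => by rw [smul_smul]; exact hx _ }
  have hN : ∀ x ∈ N, x ∈ P := fun x hx => by simpa using hx 1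
  obtain ⟨C, hC⟩ := N.exists_isCompl
  let Q : Submodule ℤ E := AddSubgroup.toIntSubmodule (P ⊓ C.toAddSubgroup)
  have hQ : ∀ x, x ∈ Q ↔ x ∈ P ∧ x ∈ C := fun x => Iff.rfl
  -- discreteness
  have hdisc : ∃ r > 0, ∀ x ∈ Q, ‖x‖ < r → x = 0 := by
    by_contra hcon
    push Not at hcon
    have hseq : ∀ n : ℕ, ∃ x ∈ Q, ‖x‖ < 1 / ((n : ℝ) + 1) ∧ x ≠ 0 :=
      fun n => hcon _ (by positivity)
    choose x hxQ hxn hx0 using hseq
    have hxpos : ∀ n, 0 < ‖x n‖ := fun n => norm_pos_iff.2 (hx0 n)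
    have hsph : ∀ n, ‖x n‖⁻¹ • x n ∈ Metric.sphere (0 : E) 1 := by
      intro n
      rw [mem_sphere_zero_iff_norm, norm_smul, norm_inv, norm_norm]
      exact inv_mul_cancel₀ (hxpos n).ne'
    obtain ⟨u, hu, ph, hph, hlim⟩ := (isCompact_sphere (0 : E) 1).tendsto_subseq hsph
    have huC : u ∈ C := by
      have hcl : IsClosed (C : Set E) := Submodule.closed_of_finiteDimensional C
      refine hcl.mem_of_tendsto hlim (Eventually.of_forall fun n => ?_)
      exact C.smul_mem _ (hxQ _).2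
    have hxlim : Tendsto (fun n => ‖x (ph n)‖) atTop (𝓝 0) := by
      refine squeeze_zero (fun n => norm_nonneg _) (fun n => (hxn (ph n)).le) ?_
      exact tendsto_one_div_add_atTop_nhds_zero_nat.comp hph.tendsto_atTop
    have huN : u ∈ N := by
      intro t
      have h1 : Tendsto (fun n => (⌊t / ‖x (ph n)‖⌋ : ℝ) * ‖x (ph n)‖) atTop (𝓝 t) := by
        have h2 : Tendsto (fun n => t - ‖x (ph n)‖) atTop (𝓝 t) := by
          simpa using (tendsto_const_nhds (x := t)).sub hxlim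
        refine tendsto_of_tendsto_of_tendsto_of_le_of_le h2 tendsto_const_nhds ?_ ?_
        · intro n
          have h3 := (Int.lt_floor_add_one (t / ‖x (ph n)‖)).le
          have h4 := hxpos (ph n)
          rw [div_le_iff₀ h4] at h3
          have h5 : t ≤ (⌊t / ‖x (ph n)‖⌋ : ℝ) * ‖x (ph n)‖ + ‖x (ph n)‖ := by linarith
          simp only
          linarith
        · intro n
          have h3 := Int.floor_le (t / ‖x (ph n)‖)
          have h4 := hxpos (ph n)
          rw [le_div_iff₀ h4] at h3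
          exact h3
      have h2 : Tendsto (fun n => ((⌊t / ‖x (ph n)‖⌋ : ℝ) * ‖x (ph n)‖) • (‖x (ph n)‖⁻¹ • x (ph n)))
          atTop (𝓝 (t • u)) := h1.smul hlim
      refine hP.mem_of_tendsto h2 (Eventually.of_forall fun n => ?_)
      have h3 : ((⌊t / ‖x (ph n)‖⌋ : ℝ) * ‖x (ph n)‖) • (‖x (ph n)‖⁻¹ • x (ph n))
          = ⌊t / ‖x (ph n)‖⌋ • x (ph n) := by
        rw [smul_smul, mul_assoc, mul_inv_cancel₀ (hxpos _).ne', mul_one, Int.cast_smul_eq_zsmul]
      rw [h3]
      exact P.zsmul_mem (hxQ _).1 _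
    have hu0 : u = 0 := (Submodule.disjoint_def.1 hC.disjoint) u huN huC
    rw [mem_sphere_zero_iff_norm, hu0, norm_zero] at hu
    exact zero_ne_one hu
  haveI : DiscreteTopology Q := by
    obtain ⟨r, hr, h⟩ := hdisc
    refine discreteTopology_of_isOpen_singleton_zero ?_
    rw [Metric.isOpen_singleton_iff]
    refine ⟨r, hr, fun y hy => ?_⟩
    have h1 : ‖(y : E)‖ < r := by
      rw [dist_zero_right] at hy
      exact hy
    exact Subtype.ext (h y y.2 h1)
  haveI : Module.Finite ℤ Q := inferInstance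
  have hfg : Q.FG := Module.Finite.iff_fg.1 inferInstance
  obtain ⟨T, hT⟩ := (Submodule.fg_iff_addSubgroup_fg _).1 hfg
  have hTQ : ∀ x, x ∈ AddSubgroup.closure (T : Set E) ↔ x ∈ P ∧ x ∈ C := by
    intro x
    rw [hT]
    exact hQ x
  refine ⟨T, T.finite_toSet, ?_, ?_⟩
  · intro t ht
    exact ((hTQ t).1 (AddSubgroup.subset_closure ht)).1
  · intro x hx
    obtain ⟨l, hl, c, hc, hlc⟩ := Submodule.mem_sup.1
      (show x ∈ N ⊔ C by rw [hC.sup_eq_top]; trivial)
    refine ⟨c, (hTQ c).2 ⟨?_, hc⟩, l, hl, by rw [← hlc, add_comm]⟩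
    have : c = x - l := by rw [← hlc]; abel
    rw [this]
    exact P.sub_mem hx (hN l hl)

end closedAdd

end Pool.Agent.TH77
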