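import Pool.Agent.TH77.PathN

set_option autoImplicit false
set_option linter.unusedSectionVars false
set_option linter.style.haveILetI false

/-!
# Extension of local solutions
-/

open Filter Topology Metric Set

namespace Pool.Agent.TH77

namespace PL

variable {ι : Type*} {H : ι → Type*} {E : ι → Type*} [∀ i, Group (H i)]
  [∀ i, TopologicalSpace (H i)] [∀ i, IsTopologicalGroup (H i)] [∀ i, T2Space (H i)]
  [∀ i, NormedAddCommGroup (E i)] [∀ i, NormedSpace ℝ (E i)] [∀ i, FiniteDimensional ℝ (E i)]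
  (L : ∀ i, LG (H i) (E i)) (G : Subgroup (∀ i, H i)) (hG : IsClosed (G : Set (∀ i, H i)))

lemma g0_mono {B B' : Set ι} (h : B ⊆ B') : g0 L G hG B' ≤ g0 L G hG B :=
  fun _ hX => ⟨hX.1, fun i hi => hX.2 i (h hi)⟩

lemma g0_le (B : Set ι) : g0 L G hG B ≤ gL L G hG := inf_le_left

lemma LS_g0_fix {B : Set ι} {y : ∀ i, H i} (hy : y ∈ LS L (g0 L G hG B)) : ∀ i ∈ B, y i = 1 := by
  have h1 : LS L (g0 L G hG B) ≤ fixS H B := by
    refine LS_le L fun X hX i hi => ?_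
    rw [ex_apply, hX.2 i hi, (L i).exp_zero]
  exact h1 hy

/-- Connectedness of kernels. -/
def Conn (F E' : Finset ι) : Prop :=
  ∀ x ∈ LS L (gL L G hG), (∀ i ∈ F, x i = 1) → ∃ y ∈ LS L (g0 L G hG F), ∀ i ∈ E', y i = x i

/-- Good sets of coordinates. -/
def Good (B : Set ι) : Prop :=
  ∀ E' F₀ : Finset ι, (F₀ : Set ι) ⊆ B → ∃ F : Finset ι, F₀ ⊆ F ∧ (F : Set ι) ⊆ B ∧ Conn L G hG F E'

/-- Stabilisation of projections. -/
lemma stab (B : Set ι) (E' : Finset ι) :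
    ∃ F : Finset ι, (F : Set ι) ⊆ B ∧ ∀ F' : Finset ι, F ⊆ F' →
      ∀ y ∈ LS L (g0 L G hG F'), ∃ y' ∈ LS L (g0 L G hG B), ∀ i ∈ E', y' i = y i := by
  classical
  obtain ⟨_, ⟨F, hF, rfl⟩, hst⟩ := lin_compact (E := E)
    (𝒮 := (fun F : Finset ι => g0 L G hG F) '' {F : Finset ι | (F : Set ι) ⊆ B})
    ⟨_, ∅, by simp, rfl⟩
    (by
      rintro _ ⟨F₁, h₁, rfl⟩ _ ⟨F₂, h₂, rfl⟩
      refine ⟨_, ⟨F₁ ∪ F₂, ?_, rfl⟩, g0_mono L G hG ?_, g0_mono L G hG ?_⟩
      · change ((F₁ ∪ F₂ : Finset ι) : Set ι) ⊆ B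
        rw [Finset.coe_union]; exact union_subset h₁ h₂
      · rw [Finset.coe_union]; exact subset_union_left
      · rw [Finset.coe_union]; exact subset_union_right)
    (by
      rintro _ ⟨F₁, h₁, rfl⟩
      exact FC_inf (FC_gL L G hG) (FC_zeroS _)) E'
  refine ⟨F, hF, fun F' hFF' y hy => ?_⟩
  rw [LS] at hy
  induction hy using Subgroup.closure_induction with
  | mem x hx =>
    obtain ⟨X, hX, rfl⟩ := hx
    obtain ⟨X', hX', hXX'⟩ := hst X (g0_mono L G hG (by exact_mod_cast hFF') hX)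
    refine ⟨ex L X', ex_mem_LS L ⟨?_, fun i hi => ?_⟩, fun i hi => ?_⟩
    · exact (hX' _ ⟨∅, by simp, rfl⟩).1
    · refine (hX' _ ⟨{i}, ?_, rfl⟩).2 i (by simp)
      change (({i} : Finset ι) : Set ι) ⊆ B
      simpa using hi
    · rw [ex_apply, ex_apply, hXX' i hi]
  | one => exact ⟨1, Subgroup.one_mem _, fun i _ => rfl⟩
  | mul a b _ _ ha hb =>
    obtain ⟨a', ha', ha2⟩ := ha
    obtain ⟨b', hb', hb2⟩ := hb
    exact ⟨a' * b', Subgroup.mul_mem _ ha' hb', fun i hi => by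
      rw [Pi.mul_apply, Pi.mul_apply, ha2 i hi, hb2 i hi]⟩
  | inv a _ ha =>
    obtain ⟨a', ha', ha2⟩ := ha
    exact ⟨a'⁻¹, Subgroup.inv_mem _ ha', fun i hi => by
      rw [Pi.inv_apply, Pi.inv_apply, ha2 i hi]⟩

lemma good_empty : Good L G hG (∅ : Set ι) := by
  intro E' F₀ hF₀
  refine ⟨F₀, Finset.Subset.refl _, hF₀, fun x hx _ => ⟨x, ?_, fun i _ => rfl⟩⟩
  have h1 : g0 L G hG (F₀ : Set ι) = gL L G hG := by
    have : (F₀ : Set ι) = ∅ := subset_empty_iff.1 hF₀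
    rw [g0, this, inf_eq_left]
    intro X _ i hi
    exact absurd hi (Set.notMem_empty i)
  rw [h1]; exact hx

/-- Closing off. -/
theorem good_union {B C : Set ι} (hB : Good L G hG B)
    (hC : Good L (G ⊓ fixS H B) (hG.inter (isClosed_fixS B)) C) : Good L G hG (B ∪ C) := by
  classical
  intro E' F₀ hF₀
  have hg : ∀ D : Set ι, g0 L (G ⊓ fixS H B) (hG.inter (isClosed_fixS B)) D = g0 L G hG (B ∪ D) := by
    intro D
    rw [g0, gL_fix L G hG, g0]
    ext X
    constructor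
    · rintro ⟨⟨h1, h2⟩, h3⟩
      exact ⟨h1, fun i hi => hi.elim (h2 i) (h3 i)⟩
    · rintro ⟨h1, h2⟩
      exact ⟨⟨h1, fun i hi => h2 i (Or.inl hi)⟩, fun i hi => h2 i (Or.inr hi)⟩
  obtain ⟨FC', hFC1, hFC2, hFC3⟩ := hC E' (F₀.filter (· ∈ C)) (by
    intro i hi
    exact (Finset.mem_filter.1 (Finset.mem_coe.1 hi)).2)
  obtain ⟨Fs, hFs, hst⟩ := stab L G hG B (E' ∪ FC')
  obtain ⟨FB, hFB1, hFB2, hFB3⟩ := hB (E' ∪ FC') (F₀.filter (· ∈ B) ∪ Fs) (by
    intro i hi
    rcases Finset.mem_union.1 (Finset.mem_coe.1 hi) with h | h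
    · exact (Finset.mem_filter.1 h).2
    · exact hFs h)
  refine ⟨FB ∪ FC', ?_, ?_, ?_⟩
  · intro i hi
    rcases hF₀ hi with h | h
    · exact Finset.mem_union_left _ (hFB1 (Finset.mem_union_left _ (Finset.mem_filter.2 ⟨hi, h⟩)))
    · exact Finset.mem_union_right _ (hFC1 (Finset.mem_filter.2 ⟨hi, h⟩))
  · rw [Finset.coe_union]
    exact union_subset_union hFB2 hFC2
  · intro x hx hx1
    obtain ⟨y, hy, hyx⟩ := hFB3 x hx fun i hi => hx1 i (Finset.mem_union_left _ hi)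
    obtain ⟨y', hy', hy'y⟩ := hst FB (Finset.union_subset_right hFB1) y hy
    have hy'2 : y' ∈ LS L (gL L (G ⊓ fixS H B) (hG.inter (isClosed_fixS B))) := by
      rw [gL_fix L G hG]; exact hy'
    obtain ⟨y'', hy'', hy''y⟩ := hFC3 y' hy'2 fun i hi => by
      rw [hy'y i (Finset.mem_union_right _ hi), hyx i (Finset.mem_union_right _ hi)]
      exact hx1 i (Finset.mem_union_right _ hi)
    rw [hg] at hy''
    refine ⟨y'', LS_mono L (g0_mono L G hG ?_) hy'', fun i hi => ?_⟩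
    · rw [Finset.coe_union]
      exact union_subset_union_left _ hFB2
    · rw [hy''y i hi, hy'y i (Finset.mem_union_left _ hi), hyx i (Finset.mem_union_left _ hi)]

/-- Countable witnesses. -/
lemma exists_witness (E₀ : Finset ι) : ∃ U : Set ι, U.Countable ∧ ∀ F : Finset ι, E₀ ⊆ F →
    ∃ E₁ : Finset ι, E₀ ⊆ E₁ ∧ (E₁ : Set ι) ⊆ U ∧ Gam L G hG E₀ E₁ = Gam L G hG E₀ F := by
  classical
  have hc := countable_Gam L G hG E₀
  haveI : Countable (range fun F : {F : Finset ι // E₀ ⊆ F} => Gam L G hG E₀ F) := hc.to_subtype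
  let ch : (range fun F : {F : Finset ι // E₀ ⊆ F} => Gam L G hG E₀ F) → {F : Finset ι // E₀ ⊆ F} :=
    fun P => P.2.choose
  have hch : ∀ P, Gam L G hG E₀ (ch P) = P.1 := fun P => P.2.choose_spec
  refine ⟨⋃ P, ((ch P : Finset ι) : Set ι), countable_iUnion fun P => (ch P : Finset ι).countable_toSet,
    fun F hF => ?_⟩
  refine ⟨ch ⟨_, ⟨F, hF⟩, rfl⟩, (ch _).2, ?_, hch _⟩
  exact subset_iUnion (fun P => ((ch P : Finset ι) : Set ι)) _

/-- Every coordinate lies in a countable good set. -/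
theorem good_countable (i₀ : ι) : ∃ C : Set ι, C.Countable ∧ i₀ ∈ C ∧ Good L G hG C := by
  classical
  choose U hUc hU using exists_witness L G hG
  let Cn : ℕ → Set ι := fun n => Nat.rec {i₀} (fun _ D => D ∪ ⋃ E₀ ∈ {E₀ : Finset ι | (E₀ : Set ι) ⊆ D}, U E₀) n
  have hC0 : Cn 0 = {i₀} := rfl
  have hCs : ∀ n, Cn (n + 1) = Cn n ∪ ⋃ E₀ ∈ {E₀ : Finset ι | (E₀ : Set ι) ⊆ Cn n}, U E₀ := fun n => rfl
  have hcount : ∀ n, (Cn n).Countable := by
    intro n
    induction n with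
    | zero => rw [hC0]; exact countable_singleton _
    | succ n ih =>
      rw [hCs]
      refine ih.union (Set.Countable.biUnion ?_ fun E₀ _ => hUc E₀)
      have h1 : {t : Set ι | t.Finite ∧ t ⊆ Cn n}.Countable := countable_ofPred_finite_subset ih
      refine Set.MapsTo.countable_of_injOn (t := {t : Set ι | t.Finite ∧ t ⊆ Cn n})
        (f := fun E₀ : Finset ι => (E₀ : Set ι)) ?_ ?_ h1
      · intro E₀ hE₀; exact ⟨E₀.finite_toSet, hE₀⟩
      · intro a _ b _ hab; exact Finset.coe_injective hab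
  have hmono : Monotone Cn := monotone_nat_of_le_succ fun n => by rw [hCs]; exact subset_union_left
  have hfin : ∀ F : Finset ι, (F : Set ι) ⊆ (⋃ n, Cn n) → ∃ n, (F : Set ι) ⊆ Cn n := by
    intro F
    induction F using Finset.induction_on with
    | empty => intro _; exact ⟨0, by simp⟩
    | insert a s _ ih =>
      intro h
      rw [Finset.coe_insert, insert_subset_iff] at h
      obtain ⟨n, hn⟩ := ih h.2
      obtain ⟨m, hm⟩ := mem_iUnion.1 h.1
      refine ⟨max m n, ?_⟩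
      rw [Finset.coe_insert, insert_subset_iff]
      exact ⟨hmono (le_max_left _ _) hm, hn.trans (hmono (le_max_right _ _))⟩
  refine ⟨⋃ n, Cn n, countable_iUnion hcount, mem_iUnion.2 ⟨0, by rw [hC0]; rfl⟩, ?_⟩
  intro E' F₀ hF₀
  obtain ⟨Fs, hFs, hst⟩ := stab L G hG (⋃ n, Cn n) E'
  set E₀ := F₀ ∪ Fs with hE₀
  obtain ⟨n, hn⟩ := hfin E₀ (by rw [hE₀, Finset.coe_union]; exact union_subset hF₀ hFs)
  obtain ⟨E₁, hE₁, hE₁U, hGam⟩ := hU E₀ (E' ∪ E₀) Finset.subset_union_right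
  have hUC : U E₀ ⊆ ⋃ n, Cn n := by
    have h1 : U E₀ ⊆ Cn (n + 1) := by
      rw [hCs]
      exact subset_union_of_subset_right (subset_biUnion_of_mem (u := fun E₀ : Finset ι => U E₀) hn) _
    exact h1.trans (subset_iUnion _ _)
  refine ⟨E₁, Finset.subset_union_left.trans hE₁, hE₁U.trans hUC, ?_⟩
  intro x hx hx1
  have h1 : (⟨x, hx⟩ : LS L (gL L G hG)) ∈ Gam L G hG E₀ E₁ :=
    ⟨1, Subgroup.one_mem _, funext fun i => (hx1 i i.2).symm⟩
  rw [hGam] at h1
  obtain ⟨w, hw, hwx⟩ := h1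
  obtain ⟨y', hy', hy'w⟩ := hst E₀ Finset.subset_union_right w hw
  refine ⟨y', LS_mono L (g0_mono L G hG (hE₁U.trans hUC)) hy', fun i hi => ?_⟩
  rw [hy'w i hi]
  exact congrFun hwx ⟨i, Finset.mem_union_left _ hi⟩

/-! ### solutions -/

/-- Compatible families of cosets. -/
def Compat (g : Finset ι → ∀ i, H i) : Prop :=
  ∀ F F' : Finset ι, F ⊆ F' → ∃ l ∈ LS L (gL L G hG), ∀ i ∈ F, g F' i = (g F * l) i

/-- Solutions over a set of coordinates. -/
def Sol (g : Finset ι → ∀ i, H i) (B : Set ι) (x : ∀ i, H i) : Prop :=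
  ∀ F : Finset ι, (F : Set ι) ⊆ B → ∃ l ∈ LS L (gL L G hG), ∀ i ∈ F, x i = (g F * l) i

variable {g : Finset ι → ∀ i, H i}

lemma Sol.lift (hg : Compat L G hG g) {B : Set ι} {x : ∀ i, H i} (hx : Sol L G hG g B x)
    {F F' : Finset ι} (hF : (F : Set ι) ⊆ B) (hFF' : F ⊆ F') :
    ∃ l ∈ LS L (gL L G hG), ∀ i ∈ F, x i = (g F' * l) i := by
  obtain ⟨l, hl, hxl⟩ := hx F hF
  obtain ⟨l', hl', hgl⟩ := hg F F' hFF'
  refine ⟨l'⁻¹ * l, Subgroup.mul_mem _ (Subgroup.inv_mem _ hl') hl, fun i hi => ?_⟩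
  have h1 := hxl i hi
  have h2 := hgl i hi
  simp only [Pi.mul_apply, Pi.inv_apply] at h1 h2 ⊢
  rw [h1, h2]; group

lemma exists_of_lift (hg : Compat L G hG g) {x : ∀ i, H i} {F F' : Finset ι} (hFF' : F ⊆ F')
    (h : ∃ l ∈ LS L (gL L G hG), ∀ i ∈ F', x i = (g F' * l) i) :
    ∃ l ∈ LS L (gL L G hG), ∀ i ∈ F, x i = (g F * l) i := by
  obtain ⟨l, hl, hxl⟩ := h
  obtain ⟨l', hl', hgl⟩ := hg F F' hFF'
  refine ⟨l' * l, Subgroup.mul_mem _ hl' hl, fun i hi => ?_⟩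
  have h1 := hxl i (hFF' hi)
  have h2 := hgl i hi
  simp only [Pi.mul_apply] at h1 h2 ⊢
  rw [h1, h2]; group

/-- Extension by finitely many coordinates. -/
theorem extend_fin (hg : Compat L G hG g) {B : Set ι} (hB : Good L G hG B) {E₁ E₂ : Finset ι}
    (hE : E₁ ⊆ E₂) {x : ∀ i, H i} (hx : Sol L G hG g (B ∪ E₁) x) :
    ∃ z, Sol L G hG g (B ∪ E₂) z ∧ ∀ i ∈ B ∪ (E₁ : Set ι), z i = x i := by
  classical
  obtain ⟨Fs, hFs, hst⟩ := stab L G hG B E₂
  obtain ⟨F₁, hF₁a, hF₁B, hconn⟩ := hB E₂ (Fs ∪ E₂.filter (· ∈ B)) (by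
    intro i hi
    rcases Finset.mem_union.1 (Finset.mem_coe.1 hi) with h | h
    · exact hFs h
    · exact (Finset.mem_filter.1 h).2)
  have hsub : ∀ F : Finset ι, (F : Set ι) ⊆ B → ((F ∪ E₁ : Finset ι) : Set ι) ⊆ B ∪ E₁ := by
    intro F hF
    rw [Finset.coe_union]
    exact union_subset_union_left _ hF
  obtain ⟨l₀, hl₀, hxl₀⟩ := hx.lift L G hG hg (hsub F₁ hF₁B)
    (Finset.union_subset_union_right (s := F₁) hE)
  set h := g (F₁ ∪ E₂) * l₀ with hh
  let z : ∀ i, H i := fun i => if i ∈ B ∪ (E₁ : Set ι) then x i else h i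
  have hz1 : ∀ i ∈ B ∪ (E₁ : Set ι), z i = x i := fun i hi => if_pos hi
  have hz2 : ∀ i ∈ E₂, z i = h i := by
    intro i hi
    by_cases hiB : i ∈ B ∪ (E₁ : Set ι)
    · rw [hz1 i hiB]
      refine hxl₀ i ?_
      rcases hiB with hb | he
      · exact Finset.mem_union_left _ (hF₁a (Finset.mem_union_right _ (Finset.mem_filter.2 ⟨hi, hb⟩)))
      · exact Finset.mem_union_right _ he
    · exact if_neg hiB
  refine ⟨z, ?_, hz1⟩
  intro F hF
  set F₂ := F₁ ∪ F.filter (· ∈ B) with hF₂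
  have hF₂B : (F₂ : Set ι) ⊆ B := by
    intro i hi
    rcases Finset.mem_union.1 (Finset.mem_coe.1 hi) with h | h
    · exact hF₁B h
    · exact (Finset.mem_filter.1 h).2
  have hFsub : F ⊆ F₂ ∪ E₂ := by
    intro i hi
    rcases hF hi with hb | he
    · exact Finset.mem_union_left _ (Finset.mem_union_right _ (Finset.mem_filter.2 ⟨hi, hb⟩))
    · exact Finset.mem_union_right _ he
  refine exists_of_lift L G hG hg hFsub ?_
  obtain ⟨l₂, hl₂, hxl₂⟩ := hx.lift L G hG hg (hsub F₂ hF₂B)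
    (Finset.union_subset_union_right (s := F₂) hE)
  have h12 : F₁ ∪ E₂ ⊆ F₂ ∪ E₂ := Finset.union_subset_union_left Finset.subset_union_left
  obtain ⟨l₃, hl₃, hgl₃⟩ := hg (F₁ ∪ E₂) (F₂ ∪ E₂) h12
  set l := l₀⁻¹ * l₃ * l₂ with hl
  have hlm : l ∈ LS L (gL L G hG) :=
    Subgroup.mul_mem _ (Subgroup.mul_mem _ (Subgroup.inv_mem _ hl₀) hl₃) hl₂
  have hhl : ∀ i ∈ F₁ ∪ E₂, (g (F₂ ∪ E₂) * l₂) i = (h * l) i := by
    intro i hi
    have h1 := hgl₃ i hi
    simp only [Pi.mul_apply, hh, hl, Pi.inv_apply] at h1 ⊢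
    rw [h1]; group
  have hl1 : ∀ i ∈ F₁, l i = 1 := by
    intro i hi
    have h1 := hhl i (Finset.mem_union_left _ hi)
    have h2 := hxl₂ i (Finset.mem_union_left _ (Finset.mem_union_left _ hi))
    have h3 := hxl₀ i (Finset.mem_union_left _ hi)
    rw [← h2, h3, Pi.mul_apply] at h1
    exact (mul_eq_left.1 h1.symm)
  obtain ⟨y, hy, hyl⟩ := hconn l hlm hl1
  obtain ⟨y', hy', hy'y⟩ := hst F₁ (Finset.union_subset_left hF₁a) y hy
  have hy'1 := LS_g0_fix L G hG hy'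
  refine ⟨l₂ * y'⁻¹, Subgroup.mul_mem _ hl₂ (Subgroup.inv_mem _ (LS_mono L (g0_le L G hG B) hy')),
    fun i hi => ?_⟩
  rcases Finset.mem_union.1 hi with hi | hi
  · rw [hz1 i (Or.inl (hF₂B hi)), hxl₂ i (Finset.mem_union_left _ hi)]
    simp only [Pi.mul_apply, Pi.inv_apply, hy'1 i (hF₂B hi), inv_one, mul_one]
  · rw [hz2 i hi]
    have h1 := hhl i (Finset.mem_union_right _ hi)
    have h2 := hy'y i hi
    have h3 := hyl i hi
    simp only [Pi.mul_apply, Pi.inv_apply] at h1 ⊢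
    rw [h2, h3, ← mul_assoc, h1, mul_inv_cancel_right]

/-- Extension by countably many coordinates. -/
theorem extend_countable (hg : Compat L G hG g) {B : Set ι} (hB : Good L G hG B) {C : Set ι}
    (hC : C.Countable) {x : ∀ i, H i} (hx : Sol L G hG g B x) :
    ∃ z, Sol L G hG g (B ∪ C) z ∧ ∀ i ∈ B, z i = x i := by
  classical
  rcases C.eq_empty_or_nonempty with rfl | hne
  · exact ⟨x, by rwa [union_empty], fun _ _ => rfl⟩
  obtain ⟨c, hc⟩ := hC.exists_eq_range hne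
  let En : ℕ → Finset ι := fun n => (Finset.range n).image c
  have hEmono : ∀ n, En n ⊆ En (n + 1) := fun n =>
    Finset.image_subset_image (Finset.range_subset_range.2 (Nat.le_succ n))
  have hstep : ∀ n (x : {x // Sol L G hG g (B ∪ (En n : Set ι)) x}),
      ∃ z : {x // Sol L G hG g (B ∪ (En (n + 1) : Set ι)) x}, ∀ i ∈ B ∪ (En n : Set ι), z.1 i = x.1 i := by
    intro n x
    obtain ⟨z, hz, hzx⟩ := extend_fin L G hG hg hB (hEmono n) x.2
    exact ⟨⟨z, hz⟩, hzx⟩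
  choose f hf using hstep
  have hx0 : Sol L G hG g (B ∪ (En 0 : Set ι)) x := by simpa [En] using hx
  let seq : ∀ n, {x // Sol L G hG g (B ∪ (En n : Set ι)) x} := fun n =>
    Nat.rec ⟨x, hx0⟩ (fun n y => f n y) n
  have hseq0 : (seq 0).1 = x := rfl
  have hseqs : ∀ n, seq (n + 1) = f n (seq n) := fun n => rfl
  have hEle : ∀ n m, n ≤ m → En n ⊆ En m := by
    intro n m hnm
    exact Finset.image_subset_image (Finset.range_subset_range.2 hnm)
  have hagree : ∀ n m, n ≤ m → ∀ i ∈ B ∪ (En n : Set ι), (seq m).1 i = (seq n).1 i := by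
    intro n m hnm
    induction m, hnm using Nat.le_induction with
    | base => intro i _; rfl
    | succ m hnm ih =>
      intro i hi
      rw [hseqs, hf m (seq m) i (union_subset_union_right _ (by exact_mod_cast hEle n m hnm) hi)]
      exact ih i hi
  let z : ∀ i, H i := fun i => if h : ∃ n, i ∈ B ∪ (En n : Set ι) then (seq (Nat.find h)).1 i else x i
  have hz : ∀ n, ∀ i ∈ B ∪ (En n : Set ι), z i = (seq n).1 i := by
    intro n i hi
    have h : ∃ n, i ∈ B ∪ (En n : Set ι) := ⟨n, hi⟩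
    have h1 : z i = (seq (Nat.find h)).1 i := dif_pos h
    rw [h1]
    exact (hagree _ n (Nat.find_min' h hi) i (Nat.find_spec h)).symm
  refine ⟨z, ?_, fun i hi => ?_⟩
  · intro F hF
    have hn : ∃ n, (F : Set ι) ⊆ B ∪ (En n : Set ι) := by
      clear hz
      induction F using Finset.induction_on with
      | empty => exact ⟨0, by simp⟩
      | insert a s _ ih =>
        rw [Finset.coe_insert, insert_subset_iff] at hF
        obtain ⟨n, hn⟩ := ih hF.2
        rcases hF.1 with ha | ha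
        · exact ⟨n, by rw [Finset.coe_insert, insert_subset_iff]; exact ⟨Or.inl ha, hn⟩⟩
        · rw [hc] at ha
          obtain ⟨k, rfl⟩ := ha
          refine ⟨max n (k + 1), ?_⟩
          rw [Finset.coe_insert, insert_subset_iff]
          refine ⟨Or.inr ?_, hn.trans (union_subset_union_right _ (by
            exact_mod_cast hEle n _ (le_max_left _ _)))⟩
          refine Finset.mem_coe.2 (Finset.mem_image.2 ⟨k, Finset.mem_range.2 ?_, rfl⟩)
          exact lt_of_lt_of_le (Nat.lt_succ_self k) (le_max_right _ _)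
    obtain ⟨n, hn⟩ := hn
    obtain ⟨l, hl, hxl⟩ := (seq n).2 F hn
    refine ⟨l, hl, fun i hi => ?_⟩
    rw [hz n i (hn hi)]
    exact hxl i hi
  · have := hz 0 i (Or.inl hi)
    rw [this, hseq0]

/-- **Existence of global solutions.** -/
theorem exists_sol (hg : Compat L G hG g) : ∃ x, Sol L G hG g univ x := by
  classical
  let α := {p : Set ι × (∀ i, H i) // Good L G hG p.1 ∧ Sol L G hG g p.1 p.2}
  let r : α → α → Prop := fun p q => p.1.1 ⊆ q.1.1 ∧ ∀ i ∈ p.1.1, q.1.2 i = p.1.2 i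
  haveI : Std.Refl r := ⟨fun p => ⟨Subset.rfl, fun _ _ => rfl⟩⟩
  have hsol0 : Sol L G hG g (∅ : Set ι) 1 := by
    intro F hF
    refine ⟨1, Subgroup.one_mem _, fun i hi => ?_⟩
    exact absurd (hF hi) (Set.notMem_empty i)
  obtain ⟨m, hm⟩ := exists_maximal_of_chains_bounded (r := r) (fun c hc => by
      rcases c.eq_empty_or_nonempty with rfl | hne
      · exact ⟨⟨(∅, 1), good_empty L G hG, hsol0⟩, fun a ha => absurd ha (Set.notMem_empty a)⟩
      let B : Set ι := ⋃ p ∈ c, p.1.1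
      let x : ∀ i, H i := fun i => if h : ∃ p ∈ c, i ∈ p.1.1 then h.choose.1.2 i else 1
      have hx : ∀ p ∈ c, ∀ i ∈ p.1.1, x i = p.1.2 i := by
        intro p hp i hi
        have h : ∃ p ∈ c, i ∈ p.1.1 := ⟨p, hp, hi⟩
        have h1 : x i = h.choose.1.2 i := dif_pos h
        rw [h1]
        obtain ⟨hq, hqi⟩ := h.choose_spec
        rcases hc.total hq hp with h2 | h2
        · exact (h2.2 i hqi).symm
        · exact h2.2 i hi
      have hdir : ∀ F : Finset ι, (F : Set ι) ⊆ B → ∃ p ∈ c, (F : Set ι) ⊆ p.1.1 := by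
        intro F
        induction F using Finset.induction_on with
        | empty => intro _; obtain ⟨p, hp⟩ := hne; exact ⟨p, hp, by simp⟩
        | insert a s _ ih =>
          intro h
          rw [Finset.coe_insert, insert_subset_iff] at h
          obtain ⟨p, hp, hps⟩ := ih h.2
          obtain ⟨q, hq, hqa⟩ := mem_iUnion₂.1 h.1
          rcases hc.total hp hq with h2 | h2
          · exact ⟨q, hq, by
              rw [Finset.coe_insert, insert_subset_iff]; exact ⟨hqa, hps.trans h2.1⟩⟩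
          · exact ⟨p, hp, by
              rw [Finset.coe_insert, insert_subset_iff]; exact ⟨h2.1 hqa, hps⟩⟩
      refine ⟨⟨(B, x), ?_, ?_⟩, fun p hp => ⟨subset_biUnion_of_mem (u := fun p : α => p.1.1) hp, hx p hp⟩⟩
      · intro E' F₀ hF₀
        obtain ⟨p, hp, hpF⟩ := hdir F₀ hF₀
        obtain ⟨F, h1, h2, h3⟩ := p.2.1 E' F₀ hpF
        exact ⟨F, h1, h2.trans (subset_biUnion_of_mem (u := fun p : α => p.1.1) hp), h3⟩
      · intro F hF
        obtain ⟨p, hp, hpF⟩ := hdir F hF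
        obtain ⟨l, hl, hxl⟩ := p.2.2 F hpF
        exact ⟨l, hl, fun i hi => by change x i = _; rw [hx p hp i (hpF hi)]; exact hxl i hi⟩)
    (fun {a b c} hab hbc => ⟨hab.1.trans hbc.1, fun i hi => by
      rw [hbc.2 i (hab.1 hi), hab.2 i hi]⟩)
  have huniv : m.1.1 = univ := by
    rw [eq_univ_iff_forall]
    intro i₀
    obtain ⟨C, hCc, hiC, hCg⟩ := good_countable L (G ⊓ fixS H m.1.1)
      (hG.inter (isClosed_fixS m.1.1)) i₀
    have h1 := good_union L G hG m.2.1 hCg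
    obtain ⟨z, hz, hzx⟩ := extend_countable L G hG hg m.2.1 hCc m.2.2
    have h2 := hm ⟨(m.1.1 ∪ C, z), h1, hz⟩ ⟨subset_union_left, hzx⟩
    exact h2.1 (Or.inr hiC)
  refine ⟨m.1.2, ?_⟩
  rw [← huniv]
  exact m.2.2

end PL

end Pool.Agent.TH77
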