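import Mathlib

set_option autoImplicit false
set_option linter.unusedSectionVars false

/-!
# Lie groups in exponential coordinates
-/

open Filter Topology Metric Set

namespace Pool.Agent.TH77

/-- A (finite dimensional, real) Lie group structure, given by an exponential map. -/
structure LG (H : Type*) [Group H] [TopologicalSpace H] (E : Type*) [NormedAddCommGroup E]
    [NormedSpace ℝ E] where
  /-- the exponential map -/
  exp : E → H
  /-- multiplication in exponential coordinates -/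
  mul : E × E → E
  exp_add : ∀ (s t : ℝ) (x : E), exp ((s + t) • x) = exp (s • x) * exp (t • x)
  cont : Continuous exp
  nhds : Filter.map exp (𝓝 0) = 𝓝 1
  inj : ∃ r > 0, Set.InjOn exp (ball 0 r)
  mul_deriv : HasStrictFDerivAt mul
    (ContinuousLinearMap.fst ℝ E E + ContinuousLinearMap.snd ℝ E E) 0
  mul_zero : mul 0 = 0
  exp_mul : ∀ᶠ p in 𝓝 (0 : E × E), exp p.1 * exp p.2 = exp (mul p)

namespace LG

variable {H : Type*} [Group H] [TopologicalSpace H] [IsTopologicalGroup H] [T2Space H]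
  {E : Type*} [NormedAddCommGroup E] [NormedSpace ℝ E] (L : LG H E)

lemma exp_zero : L.exp 0 = 1 := by
  have h := L.exp_add 0 0 (0 : E)
  simp only [smul_zero] at h
  exact (mul_eq_left (a := L.exp 0)).1 h.symm

lemma exp_neg (x : E) : L.exp (-x) = (L.exp x)⁻¹ := by
  have h := L.exp_add (-1) 1 x
  rw [neg_add_cancel, zero_smul, L.exp_zero, one_smul, neg_one_smul] at h
  exact eq_inv_of_mul_eq_one_left h.symm

lemma exp_nsmul (n : ℕ) (x : E) : L.exp (n • x) = L.exp x ^ n := by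
  induction n with
  | zero => rw [zero_smul, L.exp_zero, pow_zero]
  | succ n ih =>
    have h := L.exp_add (n : ℝ) 1 x
    rw [one_smul, Nat.cast_smul_eq_nsmul ℝ] at h
    have e : (n + 1) • x = ((n : ℝ) + 1) • x := by
      rw [add_smul ((n : ℝ)) 1 x, Nat.cast_smul_eq_nsmul ℝ, one_smul, succ_nsmul]
    rw [e, h, ih, pow_succ]

lemma exp_zsmul (n : ℤ) (x : E) : L.exp (n • x) = L.exp x ^ n := by
  cases n with
  | ofNat n =>
    rw [Int.ofNat_eq_natCast, natCast_zsmul, L.exp_nsmul, zpow_natCast]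
  | negSucc n =>
    rw [negSucc_zsmul, L.exp_neg, L.exp_nsmul, zpow_negSucc]

lemma exp_smul_add (s t : ℝ) (x : E) : L.exp (s • x + t • x) = L.exp (s • x) * L.exp (t • x) := by
  rw [← add_smul, L.exp_add]

lemma commute_exp (s t : ℝ) (x : E) : Commute (L.exp (s • x)) (L.exp (t • x)) := by
  show L.exp (s • x) * L.exp (t • x) = L.exp (t • x) * L.exp (s • x)
  rw [← L.exp_add, ← L.exp_add, add_comm]

lemma image_ball_mem {ε : ℝ} (hε : 0 < ε) : L.exp '' ball 0 ε ∈ 𝓝 (1 : H) := by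
  rw [← L.nhds]
  exact image_mem_map (ball_mem_nhds 0 hε)

lemma exists_exp_eq {ε : ℝ} (hε : 0 < ε) : ∀ᶠ h in 𝓝 (1 : H), ∃ x, ‖x‖ < ε ∧ L.exp x = h := by
  filter_upwards [L.image_ball_mem hε] with h hh
  obtain ⟨x, hx, rfl⟩ := hh
  exact ⟨x, by simpa using hx, rfl⟩

/-- If small logarithms exponentiate to something tending to `1` they tend to `0`. -/
lemma tendsto_zero_of_exp {α : Type*} {l : Filter α} {r : ℝ} (hr : InjOn L.exp (ball 0 r))
    {z : α → E} (hz : ∀ᶠ a in l, ‖z a‖ < r) (h : Tendsto (fun a => L.exp (z a)) l (𝓝 1)) :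
    Tendsto z l (𝓝 0) := by
  rw [Metric.tendsto_nhds]
  intro ε hε
  by_cases hr0 : 0 < r
  · have h1 := h (L.image_ball_mem (lt_min hε hr0))
    filter_upwards [hz, h1] with a ha hb
    obtain ⟨y, hy, hye⟩ := hb
    have hy' : ‖y‖ < min ε r := by simpa using hy
    have : y = z a := hr (by simpa using hy'.trans_le (min_le_right _ _)) (by simpa using ha) hye
    rw [← this, dist_zero_right]
    exact hy'.trans_le (min_le_left _ _)
  · filter_upwards [hz] with a ha
    exact absurd (lt_of_le_of_lt (norm_nonneg _) ha) hr0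

lemma mul_fderiv_zero {x y : E} :
    Tendsto (fun t : ℝ => t⁻¹ • L.mul (t • x, t • y)) (𝓝[≠] 0) (𝓝 (x + y)) := by
  have h1 : HasFDerivAt L.mul (ContinuousLinearMap.fst ℝ E E + ContinuousLinearMap.snd ℝ E E)
      ((fun t : ℝ => (t • x, t • y)) 0) := by
    have : ((fun t : ℝ => (t • x, t • y)) 0) = (0 : E × E) := by simp
    rw [this]
    exact L.mul_deriv.hasFDerivAt
  have h2 : HasDerivAt (fun t : ℝ => (t • x, t • y)) (x, y) 0 := by
    have hx : HasDerivAt (fun t : ℝ => t • x) ((1 : ℝ) • x) 0 := (hasDerivAt_id 0).smul_const x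
    have hy : HasDerivAt (fun t : ℝ => t • y) ((1 : ℝ) • y) 0 := (hasDerivAt_id 0).smul_const y
    rw [one_smul] at hx hy
    exact hx.prodMk hy
  have h3 := h1.comp_hasDerivAt (0 : ℝ) h2
  have h4 := hasDerivAt_iff_tendsto_slope_zero.1 h3
  have h5 : L.mul ((0 : E), (0 : E)) = 0 := L.mul_zero
  simpa [h5] using h4

/-- The product formula. -/
lemma trotter (x y : E) :
    Tendsto (fun n : ℕ => (L.exp ((1 / ((n : ℝ) + 1)) • x) * L.exp ((1 / ((n : ℝ) + 1)) • y)) ^
      (n + 1)) atTop (𝓝 (L.exp (x + y))) := by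
  have h0 : Tendsto (fun n : ℕ => 1 / ((n : ℝ) + 1)) atTop (𝓝[≠] 0) := by
    rw [tendsto_nhdsWithin_iff]
    exact ⟨tendsto_one_div_add_atTop_nhds_zero_nat,
      Eventually.of_forall fun n => by
        have : (0 : ℝ) < 1 / ((n : ℝ) + 1) := by positivity
        exact this.ne'⟩
  have h1 := (L.mul_fderiv_zero (x := x) (y := y)).comp h0
  have h2 : Tendsto (fun n : ℕ => ((1 / ((n : ℝ) + 1)) • x, (1 / ((n : ℝ) + 1)) • y)) atTop
      (𝓝 (0 : E × E)) := by
    have h3 : Tendsto (fun t : ℝ => (t • x, t • y)) (𝓝 0) (𝓝 (((0 : ℝ) • x, (0 : ℝ) • y))) := by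
      have : Continuous fun t : ℝ => (t • x, t • y) := by fun_prop
      exact this.tendsto 0
    rw [zero_smul, zero_smul] at h3
    exact h3.comp tendsto_one_div_add_atTop_nhds_zero_nat
  have h4 := h2.eventually L.exp_mul
  have h5 : Tendsto (fun n : ℕ => L.exp ((1 / ((n : ℝ) + 1))⁻¹ •
      L.mul ((1 / ((n : ℝ) + 1)) • x, (1 / ((n : ℝ) + 1)) • y))) atTop (𝓝 (L.exp (x + y))) :=
    (L.cont.tendsto _).comp h1
  refine h5.congr' ?_
  filter_upwards [h4] with n hn
  rw [hn, ← L.exp_nsmul, one_div, inv_inv]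
  congr 1
  rw [← Nat.cast_smul_eq_nsmul ℝ]
  push_cast
  rfl

/-- The Lie algebra of a closed subgroup. -/
def lie (M : Subgroup H) (hM : IsClosed (M : Set H)) : Submodule ℝ E where
  carrier := {x | ∀ t : ℝ, L.exp (t • x) ∈ M}
  zero_mem' := fun t => by rw [smul_zero, L.exp_zero]; exact M.one_mem
  smul_mem' := fun c x hx t => by rw [smul_smul]; exact hx _
  add_mem' := by
    intro x y hx hy t
    rw [smul_add]
    refine hM.mem_of_tendsto (L.trotter (t • x) (t • y)) (Eventually.of_forall fun n => ?_)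
    refine M.pow_mem (M.mul_mem ?_ ?_) _
    · rw [smul_smul]; exact hx _
    · rw [smul_smul]; exact hy _

lemma mem_lie {M : Subgroup H} {hM : IsClosed (M : Set H)} {x : E} :
    x ∈ L.lie M hM ↔ ∀ t : ℝ, L.exp (t • x) ∈ M := Iff.rfl

lemma exp_mem_of_mem_lie {M : Subgroup H} {hM : IsClosed (M : Set H)} {x : E}
    (hx : x ∈ L.lie M hM) : L.exp x ∈ M := by
  have := hx 1
  rwa [one_smul] at this

lemma lie_mono {M N : Subgroup H} {hM : IsClosed (M : Set H)} {hN : IsClosed (N : Set H)}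
    (h : M ≤ N) : L.lie M hM ≤ L.lie N hN := fun _ hx t => h (hx t)

lemma tendsto_floor {α : Type*} {l : Filter α} {c : α → ℝ} (hc : Tendsto c l (𝓝 0))
    (hpos : ∀ᶠ a in l, 0 < c a) (t : ℝ) :
    Tendsto (fun a => (⌊t / c a⌋ : ℝ) * c a) l (𝓝 t) := by
  have h1 : Tendsto (fun a => t - c a) l (𝓝 t) := by
    simpa using (tendsto_const_nhds (x := t)).sub hc
  refine tendsto_of_tendsto_of_tendsto_of_le_of_le' h1 (tendsto_const_nhds (x := t)) ?_ ?_
  · filter_upwards [hpos] with a ha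
    have h2 := Int.sub_one_lt_floor (t / c a)
    have h3 : (t / c a - 1) * c a < (⌊t / c a⌋ : ℝ) * c a := by gcongr
    have h4 : (t / c a - 1) * c a = t - c a := by field_simp
    linarith
  · filter_upwards [hpos] with a ha
    have h2 := Int.floor_le (t / c a)
    have h3 : (⌊t / c a⌋ : ℝ) * c a ≤ (t / c a) * c a := by gcongr
    have h4 : (t / c a) * c a = t := by field_simp
    linarith

/-- limits of directions of small elements of a closed subgroup lie in its Lie algebra -/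
lemma mem_lie_of_tendsto {M : Subgroup H} (hM : IsClosed (M : Set H)) {α : Type*} {l : Filter α}
    [l.NeBot] {z : α → E} {u : E} (hz : Tendsto z l (𝓝 0)) (hz0 : ∀ᶠ a in l, z a ≠ 0)
    (hzM : ∀ᶠ a in l, L.exp (z a) ∈ M) (hu : Tendsto (fun a => ‖z a‖⁻¹ • z a) l (𝓝 u)) :
    u ∈ L.lie M hM := by
  intro t
  have h1 := tendsto_floor (l := l) (c := fun a => ‖z a‖) (by simpa using hz.norm)
    (hz0.mono fun a ha => norm_pos_iff.2 ha) t
  have h2 : Tendsto (fun a => L.exp (((⌊t / ‖z a‖⌋ : ℝ) * ‖z a‖) • (‖z a‖⁻¹ • z a))) l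
      (𝓝 (L.exp (t • u))) := (L.cont.tendsto _).comp (h1.smul hu)
  refine hM.mem_of_tendsto h2 ?_
  filter_upwards [hz0, hzM] with a ha hb
  rw [smul_smul, mul_assoc, mul_inv_cancel₀ (norm_ne_zero_iff.2 ha), mul_one,
    Int.cast_smul_eq_zsmul ℝ, L.exp_zsmul]
  exact M.zpow_mem hb _

lemma eventually_mul_neg : ∀ᶠ m in 𝓝 (0 : E), L.mul (m, -m) = 0 := by
  obtain ⟨r, hr, hinj⟩ := L.inj
  have hc : ContinuousAt L.mul 0 := L.mul_deriv.continuousAt
  have h1 : Tendsto (fun m : E => (m, -m)) (𝓝 0) (𝓝 (0 : E × E)) := by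
    have : Continuous fun m : E => (m, -m) := by fun_prop
    exact this.tendsto' 0 _ (by simp)
  have h2 : Tendsto (fun m : E => L.mul (m, -m)) (𝓝 0) (𝓝 0) := by
    have := hc.tendsto.comp h1
    rwa [L.mul_zero] at this
  filter_upwards [h1.eventually L.exp_mul, h2 (ball_mem_nhds 0 hr)] with m hm hb
  refine hinj hb (mem_ball_self hr) ?_
  rw [← hm, L.exp_zero, L.exp_neg, mul_inv_cancel]

/-- **Closed subgroup theorem** -/
theorem exists_ball_mem_lie [FiniteDimensional ℝ E] (M : Subgroup H) (hM : IsClosed (M : Set H)) :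
    ∃ r > 0, ∀ x : E, ‖x‖ < r → L.exp x ∈ M → x ∈ L.lie M hM := by
  by_contra hcon
  push Not at hcon
  have hcl : IsClosed ((L.lie M hM : Submodule ℝ E) : Set E) := Submodule.closed_of_finiteDimensional _
  -- strict differentiability
  have hstrict := L.mul_deriv.isLittleO.def (c := 1 / 2) (by norm_num)
  have key : ∀ ε > 0, ∃ z : E, z ≠ 0 ∧ ‖z‖ < ε ∧ L.exp z ∈ M ∧
      ∀ m ∈ L.lie M hM, ‖z‖ / 3 ≤ ‖z - m‖ := by
    intro ε hε
    have h1 : Tendsto (fun p : E × E => (((p.1, -p.2), (p.2, -p.2)) : (E × E) × (E × E)))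
        (𝓝 0) (𝓝 ((0, 0))) := by
      have : Continuous fun p : E × E => (((p.1, -p.2), (p.2, -p.2)) : (E × E) × (E × E)) := by
        fun_prop
      exact this.tendsto' 0 _ (by simp)
    have h2 := h1.eventually hstrict
    have h3 : Tendsto (fun p : E × E => (p.1, -p.2)) (𝓝 0) (𝓝 (0 : E × E)) := by
      have : Continuous fun p : E × E => (p.1, -p.2) := by fun_prop
      exact this.tendsto' 0 _ (by simp)
    have h4 := h3.eventually L.exp_mul
    have h5 : ∀ᶠ p in 𝓝 (0 : E × E), L.mul (p.2, -p.2) = 0 := by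
      have : Tendsto (fun p : E × E => p.2) (𝓝 0) (𝓝 (0 : E)) := continuous_snd.tendsto 0
      exact this.eventually L.eventually_mul_neg
    have h6 : ∀ᶠ p in 𝓝 (0 : E × E), ‖L.mul (p.1, -p.2)‖ < ε := by
      have : Tendsto (fun p : E × E => L.mul (p.1, -p.2)) (𝓝 0) (𝓝 0) := by
        have := L.mul_deriv.continuousAt.tendsto.comp h3
        rwa [L.mul_zero] at this
      have h7 := this (ball_mem_nhds 0 hε)
      filter_upwards [h7] with p hp
      simpa using hp
    obtain ⟨δ, hδ, hall⟩ := Metric.eventually_nhds_iff.1 (h2.and (h4.and (h5.and h6)))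
    obtain ⟨x, hx, hxM, hxn⟩ := hcon (δ / 2) (by positivity)
    obtain ⟨m, hm, hdist⟩ := hcl.exists_infDist_eq_dist ⟨0, (L.lie M hM).zero_mem⟩ x
    have hmin : ∀ m' ∈ L.lie M hM, ‖x - m‖ ≤ ‖x - m'‖ := by
      intro m' hm'
      rw [← dist_eq_norm, ← dist_eq_norm, ← hdist]
      exact Metric.infDist_le_dist_of_mem hm'
    have hm2 : ‖m‖ < δ := by
      have h7 := hmin 0 (L.lie M hM).zero_mem
      rw [sub_zero] at h7
      have h8 : ‖m‖ ≤ ‖x‖ + ‖x - m‖ := by
        have : m = x - (x - m) := by abel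
        calc ‖m‖ = ‖x - (x - m)‖ := by rw [← this]
          _ ≤ _ := norm_sub_le _ _
      linarith
    have hpd : dist ((x, m) : E × E) 0 < δ := by
      rw [dist_zero_right, Prod.norm_def]
      exact max_lt (by simpa using hx.trans (by linarith)) (by simpa using hm2)
    obtain ⟨g1, g2, g3, g4⟩ := hall hpd
    simp only at g1 g2 g3 g4
    have hw : x - m ≠ 0 := fun h => hxn (by rw [sub_eq_zero.1 h]; exact hm)
    have hwpos : 0 < ‖x - m‖ := norm_pos_iff.2 hw
    rw [g3] at g1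
    have g1' : ‖L.mul (x, -m) - (x - m)‖ ≤ 1 / 2 * ‖x - m‖ := by
      have e1 : L.mul (x, -m) - 0 - (ContinuousLinearMap.fst ℝ E E + ContinuousLinearMap.snd ℝ E E)
          ((x, -m) - (m, -m)) = L.mul (x, -m) - (x - m) := by
        simp
      rw [e1] at g1
      have e2 : ‖((x, -m) - (m, -m) : E × E)‖ = ‖x - m‖ := by
        rw [Prod.norm_def]; simp
      rw [e2] at g1
      exact g1
    set z := L.mul (x, -m) with hz
    have hzlo : 1 / 2 * ‖x - m‖ ≤ ‖z‖ := by
      have : ‖x - m‖ ≤ ‖z‖ + ‖z - (x - m)‖ := by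
        have e : x - m = z - (z - (x - m)) := by abel
        calc ‖x - m‖ = ‖z - (z - (x - m))‖ := by rw [← e]
          _ ≤ _ := norm_sub_le _ _
      linarith
    have hzhi : ‖z‖ ≤ 3 / 2 * ‖x - m‖ := by
      have : ‖z‖ ≤ ‖z - (x - m)‖ + ‖x - m‖ := by
        have e : z = (z - (x - m)) + (x - m) := by abel
        calc ‖z‖ = ‖(z - (x - m)) + (x - m)‖ := by rw [← e]
          _ ≤ _ := norm_add_le _ _
      linarith
    refine ⟨z, ?_, g4, ?_, ?_⟩
    · intro h0
      rw [h0, norm_zero] at hzlo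
      linarith
    · rw [← g2]
      refine M.mul_mem hxM ?_
      rw [L.exp_neg]
      exact M.inv_mem (L.exp_mem_of_mem_lie hm)
    · intro m' hm'
      have h7 : ‖x - m‖ ≤ ‖x - (m + m')‖ := hmin _ ((L.lie M hM).add_mem hm hm')
      have h8 : ‖x - (m + m')‖ ≤ ‖z - m'‖ + ‖z - (x - m)‖ := by
        have e : x - (m + m') = (z - m') - (z - (x - m)) := by abel
        calc ‖x - (m + m')‖ = ‖(z - m') - (z - (x - m))‖ := by rw [← e]
          _ ≤ _ := norm_sub_le _ _
      linarith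
  choose z hz0 hzε hzM hzd using key
  set w : ℕ → E := fun n => z (1 / ((n : ℝ) + 1)) (by positivity) with hw
  have hwt : Tendsto w atTop (𝓝 0) := by
    rw [tendsto_zero_iff_norm_tendsto_zero]
    refine squeeze_zero (fun n => norm_nonneg _) (fun n => (hzε _ (by positivity)).le)
      tendsto_one_div_add_atTop_nhds_zero_nat
  have hsph : ∀ n, ‖w n‖⁻¹ • w n ∈ sphere (0 : E) 1 := by
    intro n
    rw [mem_sphere_zero_iff_norm, norm_smul, norm_inv, norm_norm,
      inv_mul_cancel₀ (norm_ne_zero_iff.2 (hz0 _ _))]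
  have : ProperSpace E := FiniteDimensional.proper ℝ E
  obtain ⟨u, -, φ, hφ, hu⟩ := (isCompact_sphere (0 : E) 1).tendsto_subseq hsph
  have hul : u ∈ L.lie M hM :=
    L.mem_lie_of_tendsto hM (hwt.comp hφ.tendsto_atTop) (Eventually.of_forall fun n => hz0 _ _)
      (Eventually.of_forall fun n => hzM _ _) hu
  have hfar : ∀ n, 1 / 3 ≤ ‖‖w n‖⁻¹ • w n - u‖ := by
    intro n
    have hpos : 0 < ‖w n‖ := norm_pos_iff.2 (hz0 _ _)
    have h1 := hzd (1 / ((n : ℝ) + 1)) (by positivity) (‖w n‖ • u) ((L.lie M hM).smul_mem _ hul)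
    have e : ‖w n‖⁻¹ • w n - u = ‖w n‖⁻¹ • (w n - ‖w n‖ • u) := by
      rw [smul_sub, smul_smul, inv_mul_cancel₀ hpos.ne', one_smul]
    rw [e, norm_smul, norm_inv, norm_norm]
    have h2 : ‖w n‖ / 3 ≤ ‖w n - ‖w n‖ • u‖ := h1
    calc (1 : ℝ) / 3 = ‖w n‖⁻¹ * (‖w n‖ / 3) := by field_simp
      _ ≤ _ := by gcongr
  have h9 : Tendsto (fun n => ‖‖w (φ n)‖⁻¹ • w (φ n) - u‖) atTop (𝓝 0) := by
    have := (hu.sub_const u).norm
    simpa using this
  have h10 : (1 : ℝ) / 3 ≤ 0 := ge_of_tendsto h9 (Eventually.of_forall fun n => hfar (φ n))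
  norm_num at h10

end LG

end Pool.Agent.TH77
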