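import Pool.Agent.TH77.LG

set_option autoImplicit false
set_option linter.unusedSectionVars false

/-!
# One-parameter subgroups, derivatives of homomorphisms, generated subgroups
-/

open Filter Topology Metric Set

namespace Pool.Agent.TH77

namespace LG

variable {H : Type*} [Group H] [TopologicalSpace H] [IsTopologicalGroup H] [T2Space H]
  {E : Type*} [NormedAddCommGroup E] [NormedSpace ℝ E] (L : LG H E)
variable {H' : Type*} [Group H'] [TopologicalSpace H'] [IsTopologicalGroup H'] [T2Space H']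
  {E' : Type*} [NormedAddCommGroup E'] [NormedSpace ℝ E'] (L' : LG H' E')

lemma eq_of_forall_exp {x y : E} (h : ∀ t : ℝ, L.exp (t • x) = L.exp (t • y)) : x = y := by
  obtain ⟨r, hr, hinj⟩ := L.inj
  have h1 : ∀ᶠ t in 𝓝[≠] (0 : ℝ), ‖t • x‖ < r ∧ ‖t • y‖ < r := by
    have hx : Continuous fun t : ℝ => ‖t • x‖ := by fun_prop
    have hy : Continuous fun t : ℝ => ‖t • y‖ := by fun_prop
    refine Filter.Eventually.filter_mono nhdsWithin_le_nhds ?_
    refine ((hx.tendsto' 0 0 (by simp)).eventually (gt_mem_nhds hr)).and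
      ((hy.tendsto' 0 0 (by simp)).eventually (gt_mem_nhds hr))
  have h2 : ∀ᶠ t in 𝓝[≠] (0 : ℝ), t ≠ 0 := eventually_mem_nhdsWithin
  obtain ⟨t, ⟨h3, h4⟩, h5⟩ := (h1.and h2).exists
  have h6 : t • x = t • y := hinj (by simpa using h3) (by simpa using h4) (h t)
  exact smul_right_injective E h5 h6

/-- one-parameter subgroups are given by the exponential map -/
theorem exists_oneParam {c : ℝ → H} (hc : Continuous c) (hadd : ∀ s t, c (s + t) = c s * c t) :
    ∃ x : E, ∀ t, c t = L.exp (t • x) := by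
  obtain ⟨r, hr, hinj⟩ := L.inj
  have hc0 : c 0 = 1 := by
    have h := hadd 0 0
    rw [add_zero] at h
    exact (mul_eq_left (a := c 0)).1 h.symm
  have hzpow : ∀ (n : ℤ) (t : ℝ), c (n * t) = c t ^ n := by
    have hnat : ∀ (n : ℕ) (t : ℝ), c (n * t) = c t ^ n := by
      intro n t
      induction n with
      | zero => simp [hc0]
      | succ n ih =>
        rw [Nat.cast_succ, add_mul, one_mul, hadd, ih, pow_succ]
    intro n t
    cases n with
    | ofNat n => simpa using hnat n t
    | negSucc n =>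
      have h1 : c (((Int.negSucc n : ℤ) : ℝ) * t) * c (((n + 1 : ℕ) : ℝ) * t) = 1 := by
        rw [← hadd, ← hc0]
        congr 1
        push_cast
        ring
      rw [zpow_negSucc, ← hnat (n + 1) t]
      exact eq_inv_of_mul_eq_one_left h1
  have h1 : ∀ᶠ t in 𝓝 (0 : ℝ), ∃ x, ‖x‖ < r / 2 ∧ L.exp x = c t := by
    have h2 : Tendsto c (𝓝 0) (𝓝 1) := hc.tendsto' 0 1 hc0
    exact h2.eventually (L.exists_exp_eq (by positivity))
  obtain ⟨τ, hτ, hall⟩ := Metric.eventually_nhds_iff.1 h1
  set σ := τ / 2 with hσ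
  have hσ0 : 0 < σ := by positivity
  have hex : ∀ n : ℕ, ∃ x, ‖x‖ < r / 2 ∧ L.exp x = c (σ / 2 ^ n) := by
    intro n
    refine hall ?_
    rw [dist_zero_right, Real.norm_of_nonneg (by positivity)]
    have : σ / 2 ^ n ≤ σ := div_le_self hσ0.le (one_le_pow₀ (by norm_num))
    linarith
  choose x hx hxe using hex
  have hhalf : ∀ n, (2 : ℝ) • x (n + 1) = x n := by
    intro n
    refine hinj ?_ ?_ ?_
    · rw [mem_ball_zero_iff, norm_smul, Real.norm_of_nonneg (by norm_num)]
      have := hx (n + 1)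
      linarith
    · rw [mem_ball_zero_iff]
      have := hx n
      linarith
    · rw [two_smul, hxe n]
      have h3 := L.exp_add 1 1 (x (n + 1))
      rw [add_smul, one_smul] at h3
      rw [h3, hxe, ← hadd]
      congr 1
      rw [pow_succ]
      field_simp
      ring
  have hxn : ∀ n, x n = (1 / 2 ^ n : ℝ) • x 0 := by
    intro n
    induction n with
    | zero => simp
    | succ n ih =>
      have h3 : x (n + 1) = (1 / 2 : ℝ) • x n := by
        rw [← hhalf n, smul_smul]
        norm_num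
      rw [h3, ih, smul_smul]
      congr 1
      rw [pow_succ]
      field_simp
  refine ⟨σ⁻¹ • x 0, fun t => ?_⟩
  have hpow : Tendsto (fun n : ℕ => σ / 2 ^ n) atTop (𝓝 0) := by
    have h4 : Tendsto (fun n : ℕ => σ * (1 / 2) ^ n) atTop (𝓝 (σ * 0)) :=
      (tendsto_pow_atTop_nhds_zero_of_lt_one (by norm_num) (by norm_num)).const_mul σ
    rw [MulZeroClass.mul_zero] at h4
    refine h4.congr fun n => ?_
    rw [one_div, inv_pow, div_eq_mul_inv]
  have hfl := tendsto_floor (l := atTop) hpow (Eventually.of_forall fun n => by positivity) t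
  have ha : Tendsto (fun n : ℕ => c ((⌊t / (σ / 2 ^ n)⌋ : ℝ) * (σ / 2 ^ n))) atTop (𝓝 (c t)) :=
    (hc.tendsto _).comp hfl
  have hb : Tendsto (fun n : ℕ => L.exp (((⌊t / (σ / 2 ^ n)⌋ : ℝ) * (σ / 2 ^ n)) • (σ⁻¹ • x 0))) atTop
      (𝓝 (L.exp (t • (σ⁻¹ • x 0)))) := (L.cont.tendsto _).comp (hfl.smul_const _)
  refine tendsto_nhds_unique ha (hb.congr fun n => ?_)
  have e : ((⌊t / (σ / 2 ^ n)⌋ : ℝ) * (σ / 2 ^ n)) • (σ⁻¹ • x 0) = ⌊t / (σ / 2 ^ n)⌋ • x n := by
    rw [hxn n, ← Int.cast_smul_eq_zsmul ℝ, smul_smul, smul_smul]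
    congr 1
    field_simp
  rw [e, L.exp_zsmul, hxe, hzpow]

/-- The derivative of a continuous homomorphism. -/
theorem exists_deriv (φ : H →* H') (hφ : Continuous φ) :
    ∃ d : E →ₗ[ℝ] E', ∀ x, φ (L.exp x) = L'.exp (d x) := by
  have h1 : ∀ x : E, ∃ y : E', ∀ t : ℝ, φ (L.exp (t • x)) = L'.exp (t • y) := by
    intro x
    refine L'.exists_oneParam (c := fun t => φ (L.exp (t • x))) ?_ ?_
    · exact hφ.comp (L.cont.comp (by fun_prop))
    · intro s t
      rw [L.exp_add, map_mul]
  choose d hd using h1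
  have hadd : ∀ x y, d (x + y) = d x + d y := by
    intro x y
    refine L'.eq_of_forall_exp fun t => ?_
    have h2 := L.trotter (t • x) (t • y)
    have h3 := L'.trotter (t • d x) (t • d y)
    rw [← hd, smul_add, smul_add]
    refine tendsto_nhds_unique ((hφ.tendsto _).comp h2) (h3.congr fun n => ?_)
    simp only [Function.comp_apply, map_pow, map_mul, smul_smul, hd]
  have hsmul : ∀ (c : ℝ) x, d (c • x) = c • d x := by
    intro c x
    refine L'.eq_of_forall_exp fun t => ?_
    rw [← hd, smul_smul, hd, smul_smul]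
  refine ⟨{ toFun := d, map_add' := hadd, map_smul' := hsmul }, fun x => ?_⟩
  have := hd x 1
  rw [one_smul, one_smul] at this
  exact this

/-- The subgroup generated by the exponentials of a set. -/
def gen (m : Set E) : Subgroup H := Subgroup.closure (L.exp '' m)

lemma exp_mem_gen {m : Set E} {x : E} (hx : x ∈ m) : L.exp x ∈ L.gen m :=
  Subgroup.subset_closure ⟨x, hx, rfl⟩

lemma gen_mono {m n : Set E} (h : m ⊆ n) : L.gen m ≤ L.gen n :=
  Subgroup.closure_mono (image_mono h)

lemma gen_le {m : Set E} {K : Subgroup H} (h : ∀ x ∈ m, L.exp x ∈ K) : L.gen m ≤ K := by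
  rw [gen, Subgroup.closure_le]
  rintro _ ⟨x, hx, rfl⟩
  exact h x hx

lemma gen_lie_le (M : Subgroup H) (hM : IsClosed (M : Set H)) : L.gen (L.lie M hM) ≤ M :=
  L.gen_le fun _ hx => L.exp_mem_of_mem_lie hx

/-- The identity component of a closed subgroup is open in it. -/
lemma exists_nhds_mem_gen [FiniteDimensional ℝ E] (M : Subgroup H) (hM : IsClosed (M : Set H)) :
    ∀ᶠ h in 𝓝 (1 : H), h ∈ M → h ∈ L.gen (L.lie M hM) := by
  obtain ⟨r, hr, h⟩ := L.exists_ball_mem_lie M hM
  filter_upwards [L.exists_exp_eq hr] with g hg hgM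
  obtain ⟨x, hx, rfl⟩ := hg
  exact L.exp_mem_gen (h x hx hgM)

/-- a subgroup `K` of a closed subgroup `M` containing a neighbourhood of `1` in `M` is closed -/
lemma isClosed_of_nhds {M K : Subgroup H} (hM : IsClosed (M : Set H)) (hKM : K ≤ M)
    (h : ∀ᶠ g in 𝓝 (1 : H), g ∈ M → g ∈ K) : IsClosed (K : Set H) := by
  rw [← closure_subset_iff_isClosed]
  intro g hg
  have hgM : g ∈ M := by
    have h1 : closure (K : Set H) ⊆ M := closure_minimal hKM hM
    exact h1 hg
  have h2 : Tendsto (fun k : H => k⁻¹ * g) (𝓝 g) (𝓝 1) := by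
    have : Continuous fun k : H => k⁻¹ * g := by fun_prop
    exact this.tendsto' g 1 (by simp)
  have h3 := h2.eventually h
  obtain ⟨k, hkK, hk⟩ := (mem_closure_iff_frequently.1 hg |>.and_eventually h3).exists
  have h4 : k⁻¹ * g ∈ K := hk (M.mul_mem (M.inv_mem (hKM hkK)) hgM)
  have h5 := K.mul_mem hkK h4
  rwa [mul_inv_cancel_left] at h5

lemma isClosed_gen_lie [FiniteDimensional ℝ E] (M : Subgroup H) (hM : IsClosed (M : Set H)) :
    IsClosed ((L.gen (L.lie M hM) : Subgroup H) : Set H) :=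
  isClosed_of_nhds hM (L.gen_lie_le M hM) (L.exists_nhds_mem_gen M hM)

/-- continuous paths inside a closed subgroup stay in the identity component -/
lemma path_mem_gen [FiniteDimensional ℝ E] (M : Subgroup H) (hM : IsClosed (M : Set H))
    {X : Type*} [TopologicalSpace X] [PreconnectedSpace X] {c : X → H} (hc : Continuous c)
    (hcM : ∀ t, c t ∈ M) {x₀ : X} (h0 : c x₀ = 1) (x : X) :
    c x ∈ L.gen (L.lie M hM) := by
  have hclopen : IsClopen {x | c x ∈ L.gen (L.lie M hM)} := by
    constructor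
    · exact (L.isClosed_gen_lie M hM).preimage hc
    · rw [isOpen_iff_mem_nhds]
      intro x hx
      have h1 : Tendsto (fun y => (c x)⁻¹ * c y) (𝓝 x) (𝓝 1) := by
        have : Continuous fun y => (c x)⁻¹ * c y := by fun_prop
        exact this.tendsto' x 1 (by simp)
      filter_upwards [h1.eventually (L.exists_nhds_mem_gen M hM)] with y hy
      have h2 := hy (M.mul_mem (M.inv_mem (hcM x)) (hcM y))
      have h3 := (L.gen (L.lie M hM)).mul_mem hx h2
      rwa [mul_inv_cancel_left] at h3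
  have := hclopen.eq_univ ⟨x₀, by show c x₀ ∈ L.gen (L.lie M hM); rw [h0]; exact Subgroup.one_mem _⟩
  exact (this ▸ mem_univ x : x ∈ {x | c x ∈ L.gen (L.lie M hM)})

/-- a group generated by exponentials is connected -/
lemma preconnectedSpace (h : L.gen univ = ⊤) : PreconnectedSpace H := by
  have h1 : L.gen univ ≤ Subgroup.connectedComponentOfOne H := by
    refine L.gen_le fun x _ => ?_
    show L.exp x ∈ connectedComponent (1 : H)
    have h2 : IsPreconnected (range fun t : ℝ => L.exp (t • x)) :=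
      isPreconnected_range (L.cont.comp (by fun_prop))
    refine h2.subset_connectedComponent ⟨0, by simp [L.exp_zero]⟩ ⟨1, by simp⟩
  rw [h] at h1
  refine ⟨?_⟩
  have h2 : (univ : Set H) = connectedComponent 1 := by
    refine (eq_univ_of_forall fun g => ?_).symm
    exact h1 (Subgroup.mem_top g)
  rw [h2]
  exact isPreconnected_connectedComponent

/-- induction over products of exponentials -/
lemma gen_induction {m : Set E} (hneg : ∀ x ∈ m, -x ∈ m) {P : H → Prop} (h1 : P 1)
    (hmul : ∀ x ∈ m, ∀ g, P g → P (L.exp x * g)) {g : H} (hg : g ∈ L.gen m) : P g := by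
  refine Subgroup.closure_induction_left (p := fun g _ => P g) h1 ?_ ?_ hg
  · rintro _ ⟨x, hx, rfl⟩ y _ hy
    exact hmul x hx y hy
  · rintro _ ⟨x, hx, rfl⟩ y _ hy
    rw [← L.exp_neg]
    exact hmul _ (hneg x hx) y hy

end LG

end Pool.Agent.TH77
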