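import Pool.Agent.TH77.ProdLie

set_option autoImplicit false
set_option linter.unusedSectionVars false
set_option linter.style.haveILetI false

/-!
# The path argument and the universal quotient
-/

open Filter Topology Metric Set

namespace Pool.Agent.TH77

namespace PL

variable {ι : Type*} {H : ι → Type*} {E : ι → Type*} [∀ i, Group (H i)]
  [∀ i, TopologicalSpace (H i)] [∀ i, IsTopologicalGroup (H i)] [∀ i, T2Space (H i)]
  [∀ i, NormedAddCommGroup (E i)] [∀ i, NormedSpace ℝ (E i)] [∀ i, FiniteDimensional ℝ (E i)]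
  (L : ∀ i, LG (H i) (E i)) (G : Subgroup (∀ i, H i)) (hG : IsClosed (G : Set (∀ i, H i)))

/-- The ideal of vectors vanishing on a set. -/
def g0 (B : Set ι) : Submodule ℝ (∀ i, E i) := gL L G hG ⊓ zeroS E B

/-- Restriction of elements of the generated group to the intrinsic group. -/
def toA (F : Finset ι) : LS L (gL L G hG) →* AF L (gL L G hG) F where
  toFun x := ⟨rH H F x, x, x.2, rfl⟩
  map_one' := rfl
  map_mul' _ _ := rfl

/-- Exponentials in the generated group. -/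
def exS (X : gL L G hG) : LS L (gL L G hG) := ⟨ex L X, ex_mem_LS L X.2⟩

lemma toA_exS (F : Finset ι) (X : gL L G hG) :
    toA L G hG F (exS L G hG X) = (dataA L G hG F).e ⟨rE E F X, X, X.2, rfl⟩ := rfl

lemma continuous_toA_exS (F : Finset ι) {T : Type*} [TopologicalSpace T] {f : T → gL L G hG}
    (hf : Continuous f) :
    @Continuous _ _ _ (dataA L G hG F).top (fun t => toA L G hG F (exS L G hG (f t))) := by
  letI := (dataA L G hG F).top
  have h1 : Continuous fun t => (⟨rE E F (f t : ∀ i, E i), f t, (f t).2, rfl⟩ : pE (gL L G hG) F) := by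
    refine Continuous.subtype_mk ?_ _
    exact continuous_pi fun i => (continuous_apply (i : ι)).comp (continuous_subtype_val.comp hf)
  exact (dataA L G hG F).continuous_e.comp h1

/-- **Path argument.** -/
theorem path_mem (E₀ F : Finset ι) (h0 : E₀ ⊆ F) {T : Type*} [TopologicalSpace T]
    [PreconnectedSpace T] (c : T → LS L (gL L G hG))
    (hc : @Continuous _ _ _ (dataA L G hG F).top (fun t => toA L G hG F (c t)))
    (t₀ : T) (ht₀ : c t₀ = 1) (hE : ∀ t, ∀ i ∈ E₀, (c t : ∀ i, H i) i = 1) (t : T) :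
    ∃ w ∈ LS L (g0 L G hG E₀), rH H F w = rH H F (c t : ∀ i, H i) := by
  letI := (dataA L G hG F).top
  haveI := (dataA L G hG F).topGroup
  haveI := (dataA L G hG F).t2
  let D := dataA L G hG F
  let K : Subgroup (AF L (gL L G hG) F) :=
    { carrier := {a | ∀ i (hi : i ∈ E₀), (a : ∀ i : F, H i) ⟨i, h0 hi⟩ = 1}
      mul_mem' := by
        intro a b ha hb i hi
        change (a : ∀ i : F, H i) ⟨i, h0 hi⟩ * (b : ∀ i : F, H i) ⟨i, h0 hi⟩ = 1
        rw [ha i hi, hb i hi, one_mul]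
      one_mem' := fun _ _ => rfl
      inv_mem' := by
        intro a ha i hi
        change ((a : ∀ i : F, H i) ⟨i, h0 hi⟩)⁻¹ = 1
        rw [ha i hi, inv_one] }
  have hK : IsClosed (K : Set (AF L (gL L G hG) F)) := by
    have : (K : Set (AF L (gL L G hG) F)) = ⋂ i : E₀,
        {a | (D.π a : ∀ i : F, H i) ⟨i, h0 i.2⟩ = 1} := by
      ext a
      simp only [mem_iInter, mem_ofPred_eq, Subtype.forall]
      rfl
    rw [this]
    refine isClosed_iInter fun i => isClosed_eq ?_ continuous_const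
    exact (continuous_apply (⟨i, h0 i.2⟩ : F)).comp D.continuous_π
  have h1 := D.lg.path_mem_gen K hK hc (x₀ := t₀) (fun t i hi => hE t i hi) (by rw [ht₀, map_one]) t
  have h2 : D.lg.gen (D.lg.lie K hK) ≤
      ((LS L (g0 L G hG E₀)).map (rH H F)).comap (AF L (gL L G hG) F).subtype := by
    refine D.lg.gen_le ?_
    rintro ⟨_, X, hX, rfl⟩ hXK
    refine ⟨ex L X, ex_mem_LS L ⟨hX, fun i hi => ?_⟩, rfl⟩
    refine (L i).eq_of_forall_exp fun τ => ?_
    rw [smul_zero, (L i).exp_zero]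
    exact hXK τ i hi
  exact h2 h1

/-- Elements of the generated group that look connected over `F`. -/
def Gam (E₀ F : Finset ι) : Subgroup (LS L (gL L G hG)) :=
  ((LS L (g0 L G hG E₀)).map (rH H F)).comap ((rH H F).comp (LS L (gL L G hG)).subtype)

lemma mem_Gam {E₀ F : Finset ι} {x : LS L (gL L G hG)} :
    x ∈ Gam L G hG E₀ F ↔ ∃ w ∈ LS L (g0 L G hG E₀), rH H F w = rH H F (x : ∀ i, H i) := Iff.rfl

/-- The adjoint action on vectors. -/
noncomputable def AdP (g : ∀ i, H i) (X : ∀ i, E i) : ∀ i, E i :=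
  fun i => ((L i).Ad (g i) : E i →L[ℝ] E i) (X i)

lemma ex_AdP (g : ∀ i, H i) (X : ∀ i, E i) : ex L (AdP L g X) = g * ex L X * g⁻¹ := by
  funext i
  exact ((L i).Ad_spec (g i) (X i)).symm

lemma AdP_smul (g : ∀ i, H i) (t : ℝ) (X : ∀ i, E i) : AdP L g (t • X) = t • AdP L g X := by
  funext i
  simp [AdP]

lemma conj_LS (B : Set ι) {g : ∀ i, H i} (hg : g ∈ G) {w : ∀ i, H i} (hw : w ∈ LS L (g0 L G hG B)) :
    g * w * g⁻¹ ∈ LS L (g0 L G hG B) := by
  have h1 : (LS L (g0 L G hG B)).map (MulAut.conj g).toMonoidHom ≤ LS L (g0 L G hG B) := by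
    conv_lhs => rw [LS, MonoidHom.map_closure]
    rw [Subgroup.closure_le]
    rintro _ ⟨_, ⟨X, ⟨hX, hX0⟩, rfl⟩, rfl⟩
    change g * ex L X * g⁻¹ ∈ LS L (g0 L G hG B)
    rw [← ex_AdP]
    refine ex_mem_LS L ⟨fun t => ?_, fun i hi => ?_⟩
    · rw [← AdP_smul, ex_AdP]
      exact G.mul_mem (G.mul_mem hg (hX t)) (G.inv_mem hg)
    · change ((L i).Ad (g i) : E i →L[ℝ] E i) (X i) = 0
      rw [hX0 i hi, map_zero]
  exact h1 ⟨w, hw, rfl⟩

lemma Gam_normal (E₀ F : Finset ι) : (Gam L G hG E₀ F).Normal := by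
  constructor
  intro n hn g
  obtain ⟨w, hw, hwn⟩ := hn
  refine ⟨(g : ∀ i, H i) * w * (g : ∀ i, H i)⁻¹, conj_LS L G hG _ (LS_gL_le L G hG g.2) hw, ?_⟩
  change rH H F ((g : ∀ i, H i) * w * (g : ∀ i, H i)⁻¹) =
    rH H F ((g : ∀ i, H i) * (n : ∀ i, H i) * (g : ∀ i, H i)⁻¹)
  rw [map_mul, map_mul, map_mul, map_mul, hwn]
  rfl

/-- The intersection of all the `Gam`. -/
def NN (E₀ : Finset ι) : Subgroup (LS L (gL L G hG)) :=
  ⨅ F : {F : Finset ι // E₀ ⊆ F}, Gam L G hG E₀ F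

lemma mem_NN {E₀ : Finset ι} {x : LS L (gL L G hG)} :
    x ∈ NN L G hG E₀ ↔ ∀ F : Finset ι, E₀ ⊆ F → x ∈ Gam L G hG E₀ F := by
  rw [NN, Subgroup.mem_iInf]
  exact ⟨fun h F hF => h ⟨F, hF⟩, fun h F => h F.1 F.2⟩

instance NN_normal (E₀ : Finset ι) : (NN L G hG E₀).Normal := by
  constructor
  intro n hn g
  rw [mem_NN] at hn ⊢
  intro F hF
  exact (Gam_normal L G hG E₀ F).conj_mem n (hn F hF) g

/-- Path criterion for membership in `NN`. -/
lemma mem_NN_of_path (E₀ : Finset ι) {T : Type*} [TopologicalSpace T]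
    [PreconnectedSpace T] (c : T → LS L (gL L G hG))
    (hc : ∀ F, @Continuous _ _ _ (dataA L G hG F).top (fun t => toA L G hG F (c t)))
    (t₀ : T) (ht₀ : c t₀ = 1) (hE : ∀ t, ∀ i ∈ E₀, (c t : ∀ i, H i) i = 1) (t : T) :
    c t ∈ NN L G hG E₀ := by
  rw [mem_NN]
  intro F hF
  exact path_mem L G hG E₀ F hF c (hc F) t₀ ht₀ hE t

lemma NN_le_ker (E₀ : Finset ι) :
    NN L G hG E₀ ≤ ((rH H E₀).comp (LS L (gL L G hG)).subtype).ker := by
  intro x hx
  obtain ⟨w, hw, hwx⟩ := (mem_NN L G hG).1 hx E₀ (Finset.Subset.refl _)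
  rw [MonoidHom.mem_ker]
  change rH H E₀ (x : ∀ i, H i) = 1
  have hwx' : rH H E₀ w = rH H E₀ (x : ∀ i, H i) := hwx
  rw [← hwx']
  have h1 : LS L (g0 L G hG E₀) ≤ fixS H (E₀ : Set ι) := by
    refine LS_le L fun X hX i hi => ?_
    rw [ex_apply, hX.2 i hi, (L i).exp_zero]
  funext i
  exact h1 hw i i.2

/-- The projection of the universal quotient. -/
noncomputable def piN (E₀ : Finset ι) : LS L (gL L G hG) ⧸ NN L G hG E₀ →* (∀ i : E₀, H i) :=
  QuotientGroup.lift (NN L G hG E₀) ((rH H E₀).comp (LS L (gL L G hG)).subtype) (NN_le_ker L G hG E₀)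

lemma piN_mk (E₀ : Finset ι) (x : LS L (gL L G hG)) :
    piN L G hG E₀ (QuotientGroup.mk' _ x) = rH H E₀ (x : ∀ i, H i) := rfl

/-- The section. -/
noncomputable def sec (F : Finset ι) : pE (gL L G hG) F →ₗ[ℝ] (∀ i, E i) :=
  (exists_section (gL L G hG) F).choose

lemma sec_mem (F : Finset ι) (x : pE (gL L G hG) F) : sec L G hG F x ∈ gL L G hG :=
  (exists_section (gL L G hG) F).choose_spec.1 x

lemma rE_sec (F : Finset ι) (x : pE (gL L G hG) F) : rE E F (sec L G hG F x) = x :=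
  (exists_section (gL L G hG) F).choose_spec.2 x

lemma continuous_sec (F : Finset ι) : Continuous (sec L G hG F) :=
  LinearMap.continuous_of_finiteDimensional _

/-- Lifted exponentials. -/
noncomputable def eS (F : Finset ι) (x : pE (gL L G hG) F) : LS L (gL L G hG) :=
  exS L G hG ⟨sec L G hG F x, sec_mem L G hG F x⟩

lemma eS_zero (F : Finset ι) : eS L G hG F 0 = 1 := by
  refine Subtype.ext ?_
  change ex L (sec L G hG F 0) = 1
  rw [map_zero, ex_zero]

lemma eS_apply (F : Finset ι) (x : pE (gL L G hG) F) (i : F) :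
    (eS L G hG F x : ∀ i, H i) i = (L i).exp ((x : ∀ i : F, E i) i) := by
  change (L i).exp (sec L G hG F x i) = _
  have := congrFun (rE_sec L G hG F x) i
  rw [← this]; rfl

lemma continuous_eS (E₀ F : Finset ι) {T : Type*} [TopologicalSpace T]
    {f : T → pE (gL L G hG) E₀} (hf : Continuous f) :
    @Continuous _ _ _ (dataA L G hG F).top (fun t => toA L G hG F (eS L G hG E₀ (f t))) := by
  refine continuous_toA_exS L G hG F (f := fun t => ⟨sec L G hG E₀ (f t), sec_mem L G hG E₀ _⟩) ?_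
  exact Continuous.subtype_mk ((continuous_sec L G hG E₀).comp hf) _

/-- All exponentials agree with lifted exponentials in the quotient. -/
lemma exS_eq_eS (E₀ : Finset ι) (X : gL L G hG) :
    (eS L G hG E₀ ⟨rE E E₀ X, X, X.2, rfl⟩)⁻¹ * exS L G hG X ∈ NN L G hG E₀ := by
  let x : pE (gL L G hG) E₀ := ⟨rE E E₀ X, X, X.2, rfl⟩
  let c : ℝ → LS L (gL L G hG) := fun t => (eS L G hG E₀ (t • x))⁻¹ * exS L G hG (t • X)
  have h := mem_NN_of_path L G hG E₀ c (fun F => ?_) 0 ?_ ?_ 1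
  · simp only [c, one_smul] at h
    exact h
  · letI := (dataA L G hG F).top
    haveI := (dataA L G hG F).topGroup
    simp only [c, map_mul, map_inv]
    exact (continuous_eS L G hG E₀ F (by fun_prop)).inv.mul (continuous_toA_exS L G hG F (by fun_prop))
  · simp only [c, zero_smul]
    rw [eS_zero]
    refine Subtype.ext ?_
    change (1 : ∀ i, H i)⁻¹ * ex L (0 : ∀ i, E i) = 1
    rw [ex_zero]; simp
  · intro t i hi
    have h1 := eS_apply L G hG E₀ (t • x) ⟨i, hi⟩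
    change ((eS L G hG E₀ (t • x) : ∀ i, H i) i)⁻¹ * (L i).exp ((t • (X : ∀ i, E i)) i) = 1
    rw [h1]
    change ((L i).exp (t • (X : ∀ i, E i) i))⁻¹ * (L i).exp (t • (X : ∀ i, E i) i) = 1
    rw [inv_mul_cancel]

/-- Multiplication of lifted exponentials in the quotient. -/
lemma eS_mul (E₀ : Finset ι) (P : (∀ i : E₀, E i) →L[ℝ] pE (gL L G hG) E₀)
    (hP : ∀ x : pE (gL L G hG) E₀, P x = x) :
    ∀ᶠ p in 𝓝 (0 : pE (gL L G hG) E₀ × pE (gL L G hG) E₀),
      (eS L G hG E₀ (P ((LF L E₀).mul ((p.1 : ∀ i : E₀, E i), (p.2 : ∀ i : E₀, E i)))))⁻¹ *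
        (eS L G hG E₀ p.1 * eS L G hG E₀ p.2) ∈ NN L G hG E₀ := by
  have h1 : Tendsto (fun p : pE (gL L G hG) E₀ × pE (gL L G hG) E₀ =>
      ((p.1 : ∀ i : E₀, E i), (p.2 : ∀ i : E₀, E i))) (𝓝 0) (𝓝 0) := by
    have h2 : Continuous fun p : pE (gL L G hG) E₀ × pE (gL L G hG) E₀ =>
        ((p.1 : ∀ i : E₀, E i), (p.2 : ∀ i : E₀, E i)) := by fun_prop
    exact h2.tendsto' 0 0 rfl
  have hall := (h1.eventually (LF L E₀).exp_mul).and ((local_closure L G hG E₀).and
    (h1.eventually (LF L E₀).eventually_continuousAt_mul))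
  obtain ⟨ρ, hρ, hball⟩ := Metric.eventually_nhds_iff.1 hall
  rw [Metric.eventually_nhds_iff]
  refine ⟨ρ, hρ, fun p hp => ?_⟩
  have hsmall : ∀ t : unitInterval, dist ((t : ℝ) • p) 0 < ρ := by
    intro t
    rw [dist_zero_right] at hp ⊢
    rw [norm_smul, Real.norm_of_nonneg t.2.1]
    calc (t : ℝ) * ‖p‖ ≤ 1 * ‖p‖ := by gcongr; exact t.2.2
      _ < ρ := by rwa [one_mul]
  let μ : pE (gL L G hG) E₀ × pE (gL L G hG) E₀ → pE (gL L G hG) E₀ :=
    fun p => P ((LF L E₀).mul ((p.1 : ∀ i : E₀, E i), (p.2 : ∀ i : E₀, E i)))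
  have hμc : Continuous fun t : unitInterval => μ ((t : ℝ) • p) := by
    rw [continuous_iff_continuousAt]
    intro t
    have h2 := (hball (hsmall t)).2.2
    have h3 : ContinuousAt (fun t : unitInterval =>
        ((((((t : ℝ) • p).1 : pE (gL L G hG) E₀)) : ∀ i : E₀, E i),
          ((((t : ℝ) • p).2 : pE (gL L G hG) E₀) : ∀ i : E₀, E i))) t := by
      have : Continuous (fun t : unitInterval =>
        ((((((t : ℝ) • p).1 : pE (gL L G hG) E₀)) : ∀ i : E₀, E i),
          ((((t : ℝ) • p).2 : pE (gL L G hG) E₀) : ∀ i : E₀, E i))) := by fun_prop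
      exact this.continuousAt
    exact P.continuous.continuousAt.comp (ContinuousAt.comp (f := fun t : unitInterval =>
        ((((((t : ℝ) • p).1 : pE (gL L G hG) E₀)) : ∀ i : E₀, E i),
          ((((t : ℝ) • p).2 : pE (gL L G hG) E₀) : ∀ i : E₀, E i))) h2 h3)
  let c : unitInterval → LS L (gL L G hG) := fun t =>
    (eS L G hG E₀ (μ ((t : ℝ) • p)))⁻¹ * (eS L G hG E₀ ((t : ℝ) • p).1 * eS L G hG E₀ ((t : ℝ) • p).2)
  have h := mem_NN_of_path L G hG E₀ c (fun F => ?_) 0 ?_ ?_ 1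
  · simpa [c] using h
  · letI := (dataA L G hG F).top
    haveI := (dataA L G hG F).topGroup
    simp only [c, map_mul, map_inv]
    exact (continuous_eS L G hG E₀ F hμc).inv.mul
      ((continuous_eS L G hG E₀ F (by fun_prop)).mul (continuous_eS L G hG E₀ F (by fun_prop)))
  · have e1 : ((0 : unitInterval) : ℝ) • p = 0 := by simp
    have e2 : μ 0 = 0 := by
      change P ((LF L E₀).mul 0) = 0
      rw [(LF L E₀).mul_zero, map_zero]
    simp only [c]
    rw [e1, e2]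
    change (eS L G hG E₀ 0)⁻¹ * (eS L G hG E₀ 0 * eS L G hG E₀ 0) = 1
    rw [eS_zero]; simp
  · intro t i hi
    obtain ⟨h2, h3, -⟩ := hball (hsmall t)
    have e1 := eS_apply L G hG E₀ (μ ((t : ℝ) • p)) ⟨i, hi⟩
    have e2 := eS_apply L G hG E₀ ((t : ℝ) • p).1 ⟨i, hi⟩
    have e3 := eS_apply L G hG E₀ ((t : ℝ) • p).2 ⟨i, hi⟩
    change ((eS L G hG E₀ (μ ((t : ℝ) • p)) : ∀ i, H i) i)⁻¹ *
      ((eS L G hG E₀ ((t : ℝ) • p).1 : ∀ i, H i) i * (eS L G hG E₀ ((t : ℝ) • p).2 : ∀ i, H i) i) = 1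
    rw [e1, e2, e3]
    have e4 := hP ⟨_, h3⟩
    have e5 : ((μ ((t : ℝ) • p) : pE (gL L G hG) E₀) : ∀ i : E₀, E i) =
        (LF L E₀).mul ((((t : ℝ) • p).1 : ∀ i : E₀, E i), (((t : ℝ) • p).2 : ∀ i : E₀, E i)) :=
      congrArg Subtype.val e4
    rw [e5]
    have e6 := congrFun h2 ⟨i, hi⟩
    change (L i).exp ((((t : ℝ) • p).1 : ∀ i : E₀, E i) ⟨i, hi⟩) *
      (L i).exp ((((t : ℝ) • p).2 : ∀ i : E₀, E i) ⟨i, hi⟩) = (L i).exp _ at e6
    rw [e6]
    exact inv_mul_cancel _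

/-- Lie group data on the universal quotient. -/
noncomputable def dataN (E₀ : Finset ι) :
    (LF L E₀).Data (LS L (gL L G hG) ⧸ NN L G hG E₀) (pE (gL L G hG) E₀) where
  π := piN L G hG E₀
  e x := QuotientGroup.mk' (NN L G hG E₀) (eS L G hG E₀ x)
  P := (exists_proj (pE (gL L G hG) E₀)).choose
  P_apply := (exists_proj (pE (gL L G hG) E₀)).choose_spec
  e_add s t x := by
    rw [← map_mul]
    congr 1
    refine Subtype.ext ?_
    change ex L (sec L G hG E₀ ((s + t) • x)) = ex L (sec L G hG E₀ (s • x)) * ex L (sec L G hG E₀ (t • x))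
    rw [map_smul, map_smul, map_smul, ex_add_smul]
  π_e x := by
    rw [piN_mk]
    funext i
    exact eS_apply L G hG E₀ x i
  mem := local_closure L G hG E₀
  e_mul := by
    have h := eS_mul L G hG E₀ (exists_proj (pE (gL L G hG) E₀)).choose
      (exists_proj (pE (gL L G hG) E₀)).choose_spec
    filter_upwards [h] with p hp
    rw [← map_mul]
    exact (QuotientGroup.eq.2 hp).symm
  gen := by
    rw [eq_top_iff]
    intro z _
    induction z using QuotientGroup.induction_on with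
    | H z =>
    obtain ⟨z, hz⟩ := z
    have hz' := hz
    rw [LS] at hz'
    obtain ⟨y, hy, hyz⟩ := lift_closure (Z := LS L (gL L G hG))
      (S := ex L '' (gL L G hG : Set (∀ i, E i)))
      (by rintro _ ⟨X, hX, rfl⟩; exact ex_mem_LS L hX) hz'
    have e1 : (⟨z, hz⟩ : LS L (gL L G hG)) = y := Subtype.ext hyz.symm
    rw [e1]
    have h2 : QuotientGroup.mk' (NN L G hG E₀) y ∈
        (Subgroup.closure {z : LS L (gL L G hG) | (z : ∀ i, H i) ∈ ex L '' (gL L G hG : Set (∀ i, E i))}).map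
          (QuotientGroup.mk' (NN L G hG E₀)) := ⟨y, hy, rfl⟩
    rw [MonoidHom.map_closure] at h2
    refine Subgroup.closure_mono ?_ h2
    rintro _ ⟨w, ⟨X, hX, hXw⟩, rfl⟩
    refine ⟨⟨rE E E₀ X, X, hX, rfl⟩, ?_⟩
    have e2 : w = exS L G hG ⟨X, hX⟩ := Subtype.ext hXw.symm
    rw [e2]
    exact QuotientGroup.eq.2 (exS_eq_eS L G hG E₀ ⟨X, hX⟩)

/-- Subgroups of finitely generated commutative groups form a countable set. -/
lemma countable_subgroups {A : Type*} [Group A] (Γ : Subgroup A) (hΓ : Γ.FG)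
    (hc : ∀ a ∈ Γ, ∀ b ∈ Γ, a * b = b * a) : {P : Subgroup A | P ≤ Γ}.Countable := by
  classical
  letI : CommGroup Γ :=
    { (inferInstance : Group Γ) with
      mul_comm := fun a b => Subtype.ext (hc a a.2 b b.2) }
  haveI : Group.FG Γ := (Group.fg_iff_subgroup_fg Γ).2 hΓ
  haveI : Countable Γ := by
    haveI : AddGroup.FG (Additive Γ) := inferInstance
    haveI : Module.Finite ℤ (Additive Γ) := Module.Finite.iff_addGroup_fg.2 inferInstance
    obtain ⟨n, f, hf⟩ := Module.Finite.exists_fin' ℤ (Additive Γ)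
    have h1 : Countable (Additive Γ) := hf.countable
    exact h1
  have h1 : {P : Subgroup A | P ≤ Γ} ⊆ range fun S : Finset Γ =>
      (Subgroup.closure (S : Set Γ)).map Γ.subtype := by
    intro P hP
    obtain ⟨S, hS⟩ := subgroup_fg_of_comm (P.subgroupOf Γ)
    refine ⟨S, ?_⟩
    simp only [hS]
    exact Subgroup.map_subgroupOf_eq_of_le hP
  exact (countable_range _).mono h1

/-- There are only countably many different `Gam`. -/
theorem countable_Gam (E₀ : Finset ι) :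
    (range fun F : {F : Finset ι // E₀ ⊆ F} => Gam L G hG E₀ F).Countable := by
  classical
  let D := dataN L G hG E₀
  letI := D.top
  haveI := D.topGroup
  haveI := D.t2
  have hgen : D.lg.gen univ = ⊤ := by
    rw [eq_top_iff, ← D.gen]
    refine Subgroup.closure_mono ?_
    rintro _ ⟨x, rfl⟩
    exact ⟨x, mem_univ _, rfl⟩
  haveI := D.lg.preconnectedSpace hgen
  set Γ := (piN L G hG E₀).ker with hΓ
  have hΓc : IsClosed (Γ : Set (LS L (gL L G hG) ⧸ NN L G hG E₀)) := by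
    have : (Γ : Set (LS L (gL L G hG) ⧸ NN L G hG E₀)) = (piN L G hG E₀) ⁻¹' {1} := by
      ext x; exact MonoidHom.mem_ker
    rw [this]
    exact isClosed_singleton.preimage D.continuous_π
  have hdisc : ∀ᶠ g in 𝓝 (1 : LS L (gL L G hG) ⧸ NN L G hG E₀), g ∈ Γ → g = 1 := by
    obtain ⟨r, hr, -, hinj⟩ := D.e_injOn
    filter_upwards [D.lg.exists_exp_eq hr] with g hg hgΓ
    obtain ⟨x, hx, rfl⟩ := hg
    have h1 : (LF L E₀).exp (x : ∀ i : E₀, E i) = (LF L E₀).exp 0 := by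
      rw [(LF L E₀).exp_zero, ← D.π_e]
      exact MonoidHom.mem_ker.1 hgΓ
    have h2 : (x : ∀ i : E₀, E i) = 0 := hinj (by simpa using hx) (by simpa using hr) h1
    have h3 : x = 0 := Subtype.ext h2
    rw [h3]
    exact D.e_zero
  have hlie : D.lg.gen (D.lg.lie Γ hΓc : Set (pE (gL L G hG) E₀)) = ⊥ := by
    rw [eq_bot_iff]
    refine D.lg.gen_le fun x hx => ?_
    have h1 : Tendsto (fun n : ℕ => D.lg.exp ((1 / ((n : ℝ) + 1)) • x)) atTop (𝓝 1) := by
      have h2 : Tendsto (fun n : ℕ => (1 / ((n : ℝ) + 1)) • x) atTop (𝓝 0) := by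
        have := tendsto_one_div_add_atTop_nhds_zero_nat (𝕜 := ℝ)
        simpa using this.smul_const x
      have h3 := (D.lg.cont.tendsto 0).comp h2
      rw [D.lg.exp_zero] at h3
      exact h3
    obtain ⟨n, hn⟩ := (h1.eventually hdisc).exists
    have h2 := hn (hx _)
    have h3 : D.lg.exp x = D.lg.exp ((1 / ((n : ℝ) + 1)) • x) ^ (n + 1) := by
      rw [← D.lg.exp_nsmul, ← Nat.cast_smul_eq_nsmul ℝ, smul_smul]
      have : ((n + 1 : ℕ) : ℝ) * (1 / ((n : ℝ) + 1)) = 1 := by push_cast; field_simp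
      rw [this, one_smul]
    rw [h3, h2, one_pow]
    exact Subgroup.one_mem _
  have hcen : Γ ≤ Subgroup.center (LS L (gL L G hG) ⧸ NN L G hG E₀) := by
    intro γ hγ
    rw [Subgroup.mem_center_iff]
    intro a
    have h1 := D.lg.path_mem_gen Γ hΓc (c := fun a => a * γ * a⁻¹ * γ⁻¹) (by fun_prop)
      (fun t => Γ.mul_mem ((inferInstance : (piN L G hG E₀).ker.Normal).conj_mem _ hγ _) (Γ.inv_mem hγ))
      (x₀ := 1) (by simp) a
    rw [hlie, Subgroup.mem_bot] at h1
    have h2 : a * γ * a⁻¹ * γ⁻¹ = 1 := h1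
    rw [mul_inv_eq_one, mul_inv_eq_iff_eq_mul] at h2
    exact h2
  have hfg : Γ.FG := D.lg.discrete_central_fg hgen Γ hcen hdisc
  have hcount := countable_subgroups Γ hfg (fun a _ b hb => (Subgroup.mem_center_iff.1 (hcen hb)) a)
  -- transfer
  have hinj : InjOn (fun P : Subgroup (LS L (gL L G hG)) => P.map (QuotientGroup.mk' (NN L G hG E₀)))
      (range fun F : {F : Finset ι // E₀ ⊆ F} => Gam L G hG E₀ F) := by
    rintro _ ⟨F, rfl⟩ _ ⟨F', rfl⟩ h
    have hN : ∀ F : {F : Finset ι // E₀ ⊆ F}, (QuotientGroup.mk' (NN L G hG E₀)).ker ≤ Gam L G hG E₀ F := by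
      intro F
      rw [QuotientGroup.ker_mk']
      intro x hx
      exact (mem_NN L G hG).1 hx F.1 F.2
    have h1 := congrArg (Subgroup.comap (QuotientGroup.mk' (NN L G hG E₀))) h
    simp only at h1
    rwa [Subgroup.comap_map_eq_self (hN F), Subgroup.comap_map_eq_self (hN F')] at h1
  refine Set.MapsTo.countable_of_injOn (t := {P | P ≤ Γ}) ?_ hinj hcount
  rintro _ ⟨F, rfl⟩
  change (Gam L G hG E₀ F).map (QuotientGroup.mk' (NN L G hG E₀)) ≤ Γ
  rintro _ ⟨x, ⟨w, hw, hwx⟩, rfl⟩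
  rw [hΓ, MonoidHom.mem_ker, piN_mk]
  have hwx' : rH H F.1 w = rH H F.1 (x : ∀ i, H i) := hwx
  have h1 : LS L (g0 L G hG E₀) ≤ fixS H (E₀ : Set ι) := by
    refine LS_le L fun X hX i hi => ?_
    rw [ex_apply, hX.2 i hi, (L i).exp_zero]
  funext i
  have h2 := congrFun hwx' ⟨i, F.2 i.2⟩
  change (x : ∀ i, H i) i = 1
  have h3 : w i = (x : ∀ i, H i) i := h2
  rw [← h3]
  exact h1 hw i i.2

end PL

end Pool.Agent.TH77
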