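import Pool.Agent.TH77.Ad
import Pool.Agent.TH77.AlgFG

set_option autoImplicit false
set_option linter.unusedSectionVars false
set_option linter.style.haveILetI false

/-!
# Discrete central subgroups: the solvable part
-/

open Filter Topology Metric Set

namespace Pool.Agent.TH77

lemma exp_sub_mem {E : Type*} [NormedAddCommGroup E] [NormedSpace ℝ E] [FiniteDimensional ℝ E]
    (A : E →L[ℝ] E) (D : Submodule ℝ E) (hD : ∀ y ∈ D, A y ∈ D) (y : E) (hy : A y ∈ D) :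
    NormedSpace.exp A y - y ∈ D := by
  haveI : CompleteSpace E := FiniteDimensional.complete ℝ E
  have h1 := NormedSpace.exp_series_hasSum_exp' (𝕂 := ℝ) A
  have h2 := h1.mapL (ContinuousLinearMap.apply ℝ E y)
  have h3 := (hasSum_nat_add_iff' 1).2 h2
  have hcl : IsClosed (D : Set E) := Submodule.closed_of_finiteDimensional D
  have hpow : ∀ n : ℕ, (A ^ (n + 1)) y ∈ D := by
    intro n
    induction n with
    | zero => simpa using hy
    | succ n ih =>
      rw [pow_succ']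
      exact hD _ ih
  have h4 : NormedSpace.exp A y - y = (ContinuousLinearMap.apply ℝ E y) (NormedSpace.exp A) -
      ∑ i ∈ Finset.range 1, (ContinuousLinearMap.apply ℝ E y) (((i.factorial : ℝ)⁻¹) • A ^ i) := by
    simp
  rw [h4]
  refine hcl.mem_of_tendsto h3 (Eventually.of_forall fun s => ?_)
  refine D.sum_mem fun n _ => ?_
  simp only [map_smul, ContinuousLinearMap.apply_apply]
  exact D.smul_mem _ (hpow n)

section CM

variable {H : Type*} [Group H]

/-- Commutation modulo a normal subgroup. -/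
def CM (V : Subgroup H) [V.Normal] (a b : H) : Prop :=
  Commute (QuotientGroup.mk' V a) (QuotientGroup.mk' V b)

lemma CM_iff {V : Subgroup H} [V.Normal] {a b : H} : CM V a b ↔ a * b * a⁻¹ * b⁻¹ ∈ V := by
  rw [← QuotientGroup.eq_one_iff (N := V) (a * b * a⁻¹ * b⁻¹)]
  change QuotientGroup.mk' V a * QuotientGroup.mk' V b = QuotientGroup.mk' V b * QuotientGroup.mk' V a
    ↔ QuotientGroup.mk' V (a * b * a⁻¹ * b⁻¹) = 1
  rw [map_mul, map_mul, map_mul, map_inv, map_inv, mul_inv_eq_one, mul_inv_eq_iff_eq_mul]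

lemma CM_closure {V : Subgroup H} [V.Normal] {A B : Set H} (h : ∀ a ∈ A, ∀ b ∈ B, CM V a b) :
    ∀ a ∈ Subgroup.closure A, ∀ b ∈ Subgroup.closure B, CM V a b := by
  have h1 : ∀ a ∈ Subgroup.closure A, ∀ b ∈ B, CM V a b := by
    intro a ha b hb
    induction ha using Subgroup.closure_induction with
    | mem x hx => exact h x hx b hb
    | one => change Commute _ _; rw [map_one]; exact Commute.one_left _
    | mul x y _ _ hx hy => change Commute _ _; rw [map_mul]; exact Commute.mul_left hx hy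
    | inv x _ hx => change Commute _ _; rw [map_inv]; exact Commute.inv_left hx
  intro a ha b hb
  induction hb using Subgroup.closure_induction with
  | mem x hx => exact h1 a ha x hx
  | one => change Commute _ _; rw [map_one]; exact Commute.one_right _
  | mul x y _ _ hx hy => change Commute _ _; rw [map_mul]; exact Commute.mul_right hx hy
  | inv x _ hx => change Commute _ _; rw [map_inv]; exact Commute.inv_right hx

variable [TopologicalSpace H] [IsTopologicalGroup H]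

lemma CM_topClosure {V : Subgroup H} [V.Normal] (hV : IsClosed (V : Set H)) {A B : Subgroup H}
    (h : ∀ a ∈ A, ∀ b ∈ B, CM V a b) :
    ∀ a ∈ A.topologicalClosure, ∀ b ∈ B.topologicalClosure, CM V a b := by
  have h1 : ∀ a ∈ A.topologicalClosure, ∀ b ∈ B, CM V a b := by
    intro a ha b hb
    have hc : IsClosed {a : H | CM V a b} := by
      have : {a : H | CM V a b} = (fun a => a * b * a⁻¹ * b⁻¹) ⁻¹' (V : Set H) := by
        ext a; exact CM_iff
      rw [this]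
      exact hV.preimage (by fun_prop)
    exact closure_minimal (fun x hx => h x hx b hb) hc ha
  intro a ha b hb
  have hc : IsClosed {b : H | CM V a b} := by
    have : {b : H | CM V a b} = (fun b => a * b * a⁻¹ * b⁻¹) ⁻¹' (V : Set H) := by
      ext a; exact CM_iff
    rw [this]
    exact hV.preimage (by fun_prop)
  exact closure_minimal (fun x hx => h1 a ha x hx) hc hb

end CM

namespace LG

variable {H : Type*} [Group H] [TopologicalSpace H] [IsTopologicalGroup H] [T2Space H]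
  {E : Type*} [NormedAddCommGroup E] [NormedSpace ℝ E] [FiniteDimensional ℝ E] (L : LG H E)

lemma trotter_mod (V : Subgroup H) [V.Normal] (hV : IsClosed (V : Set H)) {x y : E}
    (h : ∀ s t : ℝ, CM V (L.exp (s • x)) (L.exp (t • y))) :
    QuotientGroup.mk' V (L.exp (x + y)) = QuotientGroup.mk' V (L.exp x) * QuotientGroup.mk' V (L.exp y) := by
  have hmem : (L.exp x * L.exp y)⁻¹ * L.exp (x + y) ∈ V := by
    have h1 := L.trotter x y
    have h2 := h1.const_mul (L.exp x * L.exp y)⁻¹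
    refine hV.mem_of_tendsto h2 (Eventually.of_forall fun n => ?_)
    set s : ℝ := 1 / ((n : ℝ) + 1) with hs
    have hs1 : ((n + 1 : ℕ) : ℝ) * s = 1 := by rw [hs]; push_cast; field_simp
    have hx : L.exp x = L.exp (s • x) ^ (n + 1) := by
      rw [← L.exp_nsmul, ← Nat.cast_smul_eq_nsmul ℝ, smul_smul, hs1, one_smul]
    have hy : L.exp y = L.exp (s • y) ^ (n + 1) := by
      rw [← L.exp_nsmul, ← Nat.cast_smul_eq_nsmul ℝ, smul_smul, hs1, one_smul]
    change (L.exp x * L.exp y)⁻¹ * (L.exp (s • x) * L.exp (s • y)) ^ (n + 1) ∈ V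
    rw [← QuotientGroup.eq_one_iff (N := V)]
    change QuotientGroup.mk' V ((L.exp x * L.exp y)⁻¹ * (L.exp (s • x) * L.exp (s • y)) ^ (n + 1)) = 1
    rw [map_mul, map_inv, map_mul, map_pow, map_mul, (h s s).mul_pow, hx, hy, map_pow, map_pow,
      inv_mul_cancel]
  have h3 := (QuotientGroup.eq_one_iff (N := V) _).2 hmem
  have h4 : QuotientGroup.mk' V ((L.exp x * L.exp y)⁻¹ * L.exp (x + y)) = 1 := h3
  rw [map_mul, map_inv, map_mul, inv_mul_eq_one] at h4
  exact h4.symm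

/-- Ideals are invariant under the adjoint action. -/
lemma Ad_mem (hgen : L.gen univ = ⊤) (D : Submodule ℝ E) (hid : ∀ x, ∀ y ∈ D, L.ad x y ∈ D) (a : H) :
    ∀ y ∈ D, (L.Ad a : E →L[ℝ] E) y ∈ D := by
  have ha : a ∈ L.gen univ := by rw [hgen]; trivial
  refine L.gen_induction (m := univ) (P := fun a => ∀ y ∈ D, (L.Ad a : E →L[ℝ] E) y ∈ D)
    (fun x _ => mem_univ _) ?_ ?_ ha
  · intro y hy; rw [map_one]; exact hy
  · intro x _ g hg y hy
    rw [map_mul, Units.val_mul, L.Ad_exp]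
    change NormedSpace.exp (L.ad x) ((L.Ad g : E →L[ℝ] E) y) ∈ D
    have h1 := exp_sub_mem (L.ad x) D (hid x) _ (hid x _ (hg y hy))
    have h2 := D.add_mem h1 (hg y hy)
    simpa using h2

lemma gen_normal (hgen : L.gen univ = ⊤) (D : Submodule ℝ E) (hid : ∀ x, ∀ y ∈ D, L.ad x y ∈ D) :
    (L.gen (D : Set E)).Normal := by
  constructor
  intro n hn g
  have h1 : (L.gen (D : Set E)).map (MulAut.conj g).toMonoidHom ≤ L.gen (D : Set E) := by
    conv_lhs => rw [gen, MonoidHom.map_closure]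
    rw [Subgroup.closure_le]
    rintro _ ⟨_, ⟨x, hx, rfl⟩, rfl⟩
    change g * L.exp x * g⁻¹ ∈ L.gen (D : Set E)
    rw [L.Ad_spec]
    exact L.exp_mem_gen (L.Ad_mem hgen D hid g x hx)
  exact h1 ⟨n, hn, rfl⟩

section chain

variable (D : ℕ → Submodule ℝ E)

/-- Closure of the subgroup generated by an ideal. -/
def Vc (k : ℕ) : Subgroup H := (L.gen (D k : Set E)).topologicalClosure

lemma isClosed_Vc (k : ℕ) : IsClosed (L.Vc D k : Set H) := Subgroup.isClosed_topologicalClosure _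

lemma gen_le_Vc (k : ℕ) : L.gen (D k : Set E) ≤ L.Vc D k := Subgroup.le_topologicalClosure _

lemma exp_mem_Vc {k : ℕ} {x : E} (hx : x ∈ D k) : L.exp x ∈ L.Vc D k :=
  L.gen_le_Vc D k (L.exp_mem_gen hx)

variable {D}

lemma Vc_normal (hgen : L.gen univ = ⊤) (hid : ∀ k, ∀ x : E, ∀ y ∈ D k, L.ad x y ∈ D k) (k : ℕ) :
    (L.Vc D k).Normal := by
  haveI := L.gen_normal hgen (D k) (hid k)
  exact Subgroup.is_normal_topologicalClosure _

/-- Commutation of exponentials modulo the next term. -/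
lemma CM_exp (hgen : L.gen univ = ⊤) (hid : ∀ k, ∀ x : E, ∀ y ∈ D k, L.ad x y ∈ D k)
    (hcom : ∀ k, ∀ x ∈ D k, ∀ y ∈ D k, L.ad x y ∈ D (k + 1)) (k : ℕ) {x y : E} (hx : x ∈ D k)
    (hy : y ∈ D k) : haveI := L.Vc_normal hgen hid (k + 1); CM (L.Vc D (k + 1)) (L.exp x) (L.exp y) := by
  haveI := L.Vc_normal hgen hid (k + 1)
  set z := NormedSpace.exp (L.ad x) y - y with hz
  have hzD : z ∈ D (k + 1) := exp_sub_mem (L.ad x) _ (hid (k + 1) x) y (hcom k x hx y hy)
  have h1 : L.exp x * L.exp y * (L.exp x)⁻¹ = L.exp (y + z) := by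
    rw [L.Ad_spec, L.Ad_exp, hz]; congr 1; abel
  have hone : ∀ t : ℝ, QuotientGroup.mk' (L.Vc D (k + 1)) (L.exp (t • z)) = 1 := by
    intro t
    exact (QuotientGroup.eq_one_iff _).2 (L.exp_mem_Vc D ((D (k + 1)).smul_mem t hzD))
  have h2 := L.trotter_mod (L.Vc D (k + 1)) (L.isClosed_Vc D _) (x := y) (y := z) (by
    intro s t
    change Commute _ _
    rw [hone t]; exact Commute.one_right _)
  have h3 := hone 1
  rw [one_smul] at h3
  rw [h3, mul_one, ← h1, map_mul, map_mul, map_inv, mul_inv_eq_iff_eq_mul] at h2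
  exact h2

variable (D)

/-- The closed subgroups of the chain. -/
def Zc (Γ : Subgroup H) (k : ℕ) : Subgroup H := (Γ ⊔ L.gen (D k : Set E)).topologicalClosure

lemma isClosed_Zc (Γ : Subgroup H) (k : ℕ) : IsClosed (L.Zc D Γ k : Set H) :=
  Subgroup.isClosed_topologicalClosure _

/-- The identity components of the chain. -/
def Wc (Γ : Subgroup H) (k : ℕ) : Subgroup H := L.gen (L.lie (L.Zc D Γ k) (L.isClosed_Zc D Γ k) : Set E)

variable {D}

lemma Vc_le_Zc (Γ : Subgroup H) (k : ℕ) : L.Vc D k ≤ L.Zc D Γ k :=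
  Subgroup.topologicalClosure_minimal _ (le_sup_right.trans (Subgroup.le_topologicalClosure _))
    (L.isClosed_Zc D Γ k)

lemma Vc_le_Wc (Γ : Subgroup H) (k : ℕ) : L.Vc D k ≤ L.Wc D Γ k := by
  refine Subgroup.topologicalClosure_minimal _ ?_ (L.isClosed_gen_lie _ _)
  refine L.gen_mono fun x hx => ?_
  intro t
  exact L.Vc_le_Zc Γ k (L.exp_mem_Vc D ((D k).smul_mem t hx))

lemma Zc_succ_le (hmono : ∀ k, D (k + 1) ≤ D k) (Γ : Subgroup H) (k : ℕ) :
    L.Zc D Γ (k + 1) ≤ L.Zc D Γ k :=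
  Subgroup.topologicalClosure_minimal _ ((sup_le_sup_left (L.gen_mono (hmono k)) Γ).trans
    (Subgroup.le_topologicalClosure _)) (L.isClosed_Zc D Γ k)

lemma Wc_le_Zc (Γ : Subgroup H) (k : ℕ) : L.Wc D Γ k ≤ L.Zc D Γ k := L.gen_lie_le _ _

lemma Wc_succ_le (hmono : ∀ k, D (k + 1) ≤ D k) (Γ : Subgroup H) (k : ℕ) :
    L.Wc D Γ (k + 1) ≤ L.Wc D Γ k :=
  L.gen_mono (L.lie_mono (L.Zc_succ_le hmono Γ k))

lemma CM_Zc (hgen : L.gen univ = ⊤) (hid : ∀ k, ∀ x : E, ∀ y ∈ D k, L.ad x y ∈ D k)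
    (hcom : ∀ k, ∀ x ∈ D k, ∀ y ∈ D k, L.ad x y ∈ D (k + 1)) (Γ : Subgroup H)
    (hΓ : Γ ≤ Subgroup.center H) (k : ℕ) :
    haveI := L.Vc_normal hgen hid (k + 1)
    ∀ a ∈ L.Zc D Γ k, ∀ b ∈ L.Zc D Γ k, CM (L.Vc D (k + 1)) a b := by
  haveI := L.Vc_normal hgen hid (k + 1)
  refine CM_topClosure (L.isClosed_Vc D _) ?_
  have h1 : Γ ⊔ L.gen (D k : Set E) = Subgroup.closure ((Γ : Set H) ∪ L.exp '' (D k : Set E)) := by
    rw [Subgroup.closure_union, Subgroup.closure_eq]; rfl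
  rw [h1]
  refine CM_closure ?_
  rintro a (ha | ⟨x, hx, rfl⟩) b hb
  · have : Commute a b := ((Subgroup.mem_center_iff.1 (hΓ ha)) b).symm
    exact this.map (QuotientGroup.mk' (L.Vc D (k + 1)))
  · rcases hb with hb | ⟨y, hy, rfl⟩
    · have : Commute (L.exp x) b := ((Subgroup.mem_center_iff.1 (hΓ hb)) (L.exp x))
      exact this.map (QuotientGroup.mk' (L.Vc D (k + 1)))
    · exact L.CM_exp hgen hid hcom k hx hy

/-- One step of the descent. -/
lemma rfg_step (hgen : L.gen univ = ⊤) (hmono : ∀ k, D (k + 1) ≤ D k)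
    (hid : ∀ k, ∀ x : E, ∀ y ∈ D k, L.ad x y ∈ D k)
    (hcom : ∀ k, ∀ x ∈ D k, ∀ y ∈ D k, L.ad x y ∈ D (k + 1)) (Γ : Subgroup H)
    (hΓ : Γ ≤ Subgroup.center H) (k : ℕ) (h : RFG (L.Zc D Γ k) (L.Wc D Γ k)) :
    RFG (L.Zc D Γ (k + 1)) (L.Wc D Γ (k + 1)) := by
  haveI := L.Vc_normal hgen hid (k + 1)
  have hCM := L.CM_Zc hgen hid hcom Γ hΓ k
  set V := L.Vc D (k + 1) with hV
  have hVc : IsClosed (V : Set H) := L.isClosed_Vc D _
  set 𝔴 := L.lie (L.Zc D Γ k) (L.isClosed_Zc D Γ k) with h𝔴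
  have hVW : V ≤ L.Wc D Γ (k + 1) := L.Vc_le_Wc Γ (k + 1)
  have hVZ : V ≤ L.Zc D Γ (k + 1) := L.Vc_le_Zc Γ (k + 1)
  have hadd : ∀ x ∈ 𝔴, ∀ y ∈ 𝔴, QuotientGroup.mk' V (L.exp (x + y)) =
      QuotientGroup.mk' V (L.exp x) * QuotientGroup.mk' V (L.exp y) := by
    intro x hx y hy
    exact L.trotter_mod V hVc fun s t => hCM _ (hx s) _ (hy t)
  have hneg : ∀ x, QuotientGroup.mk' V (L.exp (-x)) = (QuotientGroup.mk' V (L.exp x))⁻¹ := by
    intro x; rw [L.exp_neg, map_inv]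
  have h1 : RFG (L.Zc D Γ (k + 1)) (L.Wc D Γ k ⊓ L.Zc D Γ (k + 1)) := by
    refine rel_fg (L.Zc_succ_le hmono Γ k) (fun a ha b hb => ?_) h
    exact L.Wc_succ_le hmono Γ k (hVW (CM_iff.1 (hCM a ha b hb)))
  -- elements of the identity component
  have hW : ∀ w ∈ L.Wc D Γ k, ∃ x ∈ 𝔴, QuotientGroup.mk' V w = QuotientGroup.mk' V (L.exp x) := by
    intro w hw
    refine L.gen_induction (m := (𝔴 : Set E)) (P := fun w => ∃ x ∈ 𝔴,
      QuotientGroup.mk' V w = QuotientGroup.mk' V (L.exp x)) (fun x hx => 𝔴.neg_mem hx) ?_ ?_ hw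
    · exact ⟨0, 𝔴.zero_mem, by rw [L.exp_zero]⟩
    · rintro x hx g ⟨y, hy, hgy⟩
      refine ⟨x + y, 𝔴.add_mem hx hy, ?_⟩
      rw [map_mul, hgy, hadd x hx y hy]
  have hmemZ : ∀ a b : H, QuotientGroup.mk' V a = QuotientGroup.mk' V b → a ∈ L.Zc D Γ (k + 1) →
      b ∈ L.Zc D Γ (k + 1) := by
    intro a b hab ha
    have h2 : a⁻¹ * b ∈ V := QuotientGroup.eq.1 hab
    have := (L.Zc D Γ (k + 1)).mul_mem ha (hVZ h2)
    simpa using this
  -- the closed additive subgroup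
  let P : AddSubgroup E :=
    { carrier := {x | x ∈ 𝔴 ∧ L.exp x ∈ L.Zc D Γ (k + 1)}
      add_mem' := by
        rintro x y ⟨hx, hx'⟩ ⟨hy, hy'⟩
        refine ⟨𝔴.add_mem hx hy, ?_⟩
        refine hmemZ (L.exp x * L.exp y) _ ?_ (Subgroup.mul_mem _ hx' hy')
        rw [map_mul, hadd x hx y hy]
      zero_mem' := ⟨𝔴.zero_mem, by rw [L.exp_zero]; exact Subgroup.one_mem _⟩
      neg_mem' := by
        rintro x ⟨hx, hx'⟩
        refine ⟨𝔴.neg_mem hx, ?_⟩
        rw [L.exp_neg]; exact Subgroup.inv_mem _ hx' }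
  have hPm : ∀ x, x ∈ P ↔ x ∈ 𝔴 ∧ L.exp x ∈ L.Zc D Γ (k + 1) := fun x => Iff.rfl
  have hPc : IsClosed (P : Set E) := by
    have e : (P : Set E) = (𝔴 : Set E) ∩ L.exp ⁻¹' (L.Zc D Γ (k + 1) : Set H) := rfl
    rw [e]
    exact (Submodule.closed_of_finiteDimensional 𝔴).inter ((L.isClosed_Zc D Γ (k + 1)).preimage L.cont)
  obtain ⟨S, hSf, hSP, hS⟩ := closed_add_fg P hPc
  have hpq : ∀ p ∈ AddSubgroup.closure S, p ∈ 𝔴 ∧ QuotientGroup.mk' V (L.exp p) ∈
      (Subgroup.closure (L.exp '' S)).map (QuotientGroup.mk' V) := by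
    intro p hp
    induction hp using AddSubgroup.closure_induction with
    | mem s hs =>
      exact ⟨((hPm s).1 (hSP hs)).1, ⟨L.exp s, Subgroup.subset_closure ⟨s, hs, rfl⟩, rfl⟩⟩
    | zero => exact ⟨𝔴.zero_mem, by rw [L.exp_zero, map_one]; exact Subgroup.one_mem _⟩
    | add a b _ _ ha hb =>
      refine ⟨𝔴.add_mem ha.1 hb.1, ?_⟩
      rw [hadd a ha.1 b hb.1]
      exact Subgroup.mul_mem _ ha.2 hb.2
    | neg a _ ha =>
      refine ⟨𝔴.neg_mem ha.1, ?_⟩
      rw [hneg]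
      exact Subgroup.inv_mem _ ha.2
  have h2 : RFG (L.Wc D Γ k ⊓ L.Zc D Γ (k + 1)) (L.Wc D Γ (k + 1)) := by
    refine ⟨L.exp '' S, hSf.image _, ?_, ?_⟩
    · rintro _ ⟨s, hs, rfl⟩
      have := (hPm s).1 (hSP hs)
      exact ⟨L.exp_mem_gen this.1, this.2⟩
    · rintro w ⟨hw, hwZ⟩
      obtain ⟨x, hx, hwx⟩ := hW w hw
      have hxP : x ∈ P := ⟨hx, hmemZ w _ hwx hwZ⟩
      obtain ⟨p, hp, l, hl, rfl⟩ := hS x hxP
      have hlP : l ∈ P := by simpa using hl 1
      have hl2 : l ∈ L.lie (L.Zc D Γ (k + 1)) (L.isClosed_Zc D Γ (k + 1)) := fun t => (hl t).2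
      obtain ⟨hp𝔴, c, hc, hcp⟩ := hpq p hp
      have h3 : QuotientGroup.mk' V w = QuotientGroup.mk' V (c * L.exp l) := by
        rw [hwx, hadd p hp𝔴 l ((hPm l).1 hlP).1, map_mul, hcp]
      have h4 : (c * L.exp l)⁻¹ * w ∈ V := QuotientGroup.eq.1 h3.symm
      refine ⟨c, hc, L.exp l * ((c * L.exp l)⁻¹ * w), ?_, by group⟩
      exact Subgroup.mul_mem _ (L.exp_mem_gen hl2) (hVW h4)
  exact h1.trans inf_le_right h2

/-- Discrete central subgroups of the radical are finitely generated. -/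
theorem sol_fg (hgen : L.gen univ = ⊤) (hmono : ∀ k, D (k + 1) ≤ D k)
    (hid : ∀ k, ∀ x : E, ∀ y ∈ D k, L.ad x y ∈ D k)
    (hcom : ∀ k, ∀ x ∈ D k, ∀ y ∈ D k, L.ad x y ∈ D (k + 1)) (m : ℕ) (hm : D m = ⊥)
    (Γ : Subgroup H) (hΓ : Γ ≤ Subgroup.center H) (hdisc : ∀ᶠ g in 𝓝 (1 : H), g ∈ Γ → g = 1)
    (hΓV : Γ ≤ L.Vc D 0) : Γ.FG := by
  have h0 : RFG (L.Zc D Γ 0) (L.Wc D Γ 0) := by
    refine ⟨∅, finite_empty, empty_subset _, fun z hz => ⟨1, Subgroup.one_mem _, z, ?_, by simp⟩⟩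
    have : L.Zc D Γ 0 ≤ L.Vc D 0 :=
      Subgroup.topologicalClosure_minimal _ (sup_le hΓV (L.gen_le_Vc D 0)) (L.isClosed_Vc D 0)
    exact L.Vc_le_Wc Γ 0 (this hz)
  have hk : ∀ k, RFG (L.Zc D Γ k) (L.Wc D Γ k) := by
    intro k
    induction k with
    | zero => exact h0
    | succ k ih => exact L.rfg_step hgen hmono hid hcom Γ hΓ k ih
  obtain ⟨S, hSf, hSZ, hS⟩ := hk m
  have hgm : L.gen (D m : Set E) = ⊥ := by
    rw [hm, eq_bot_iff]
    refine L.gen_le fun x hx => ?_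
    have : x = 0 := hx
    rw [this, L.exp_zero]; exact Subgroup.one_mem _
  have hΓc : IsClosed (Γ : Set H) := by
    haveI : DiscreteTopology Γ := by
      refine discreteTopology_of_isOpen_singleton_one ?_
      have h1 : {g : Γ | (g : H) = 1} ∈ 𝓝 (1 : Γ) := by
        have h2 : ∀ᶠ g : Γ in 𝓝 (1 : Γ), (g : H) ∈ Γ → (g : H) = 1 :=
          (continuous_subtype_val.tendsto (1 : Γ)).eventually hdisc
        filter_upwards [h2] with g hg
        exact hg g.2
      have h2 : {g : Γ | (g : H) = 1} = {1} := by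
        ext g
        simp only [mem_ofPred_eq, mem_singleton_iff]
        exact ⟨fun h => Subtype.ext h, fun h => by rw [h]; rfl⟩
      rw [h2] at h1
      exact isOpen_singleton_iff_nhds_eq_pure _ |>.2 (le_antisymm (by
        intro s hs
        exact mem_of_superset h1 (by simpa using hs)) (pure_le_nhds _))
    exact Subgroup.isClosed_of_discrete
  have hZm : L.Zc D Γ m = Γ := by
    apply le_antisymm
    · refine Subgroup.topologicalClosure_minimal _ ?_ hΓc
      rw [hgm, sup_bot_eq]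
    · exact le_sup_left.trans (Subgroup.le_topologicalClosure _)
  have hWm : L.Wc D Γ m = ⊥ := by
    rw [eq_bot_iff]
    refine L.gen_le fun x hx => ?_
    have hx' : ∀ t : ℝ, L.exp (t • x) ∈ Γ := by
      intro t
      have := hx t
      rwa [hZm] at this
    have h1 : Tendsto (fun n : ℕ => L.exp ((1 / ((n : ℝ) + 1)) • x)) atTop (𝓝 1) := by
      have h2 : Tendsto (fun n : ℕ => (1 / ((n : ℝ) + 1)) • x) atTop (𝓝 0) := by
        have := tendsto_one_div_add_atTop_nhds_zero_nat (𝕜 := ℝ)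
        simpa using this.smul_const x
      have h3 := (L.cont.tendsto 0).comp h2
      rw [L.exp_zero] at h3
      exact h3
    obtain ⟨n, hn⟩ := (h1.eventually hdisc).exists
    have h2 := hn (hx' _)
    have h3 : L.exp x = L.exp ((1 / ((n : ℝ) + 1)) • x) ^ (n + 1) := by
      rw [← L.exp_nsmul, ← Nat.cast_smul_eq_nsmul ℝ, smul_smul]
      have : ((n + 1 : ℕ) : ℝ) * (1 / ((n : ℝ) + 1)) = 1 := by push_cast; field_simp
      rw [this, one_smul]
    rw [h3, h2, one_pow]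
    exact Subgroup.one_mem _
  refine ⟨hSf.toFinset, ?_⟩
  rw [Finite.coe_toFinset]
  apply le_antisymm
  · rw [Subgroup.closure_le, ← hZm]; exact hSZ
  · intro g hg
    rw [← hZm] at hg
    obtain ⟨p, hp, w, hw, rfl⟩ := hS g hg
    rw [hWm] at hw
    rw [Subgroup.mem_bot.1 hw, mul_one]
    exact hp

end chain

end LG

end Pool.Agent.TH77
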